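import Pool.Agent.FPP.Defs

/-!
Module AV: algebra of uniform averages `Ex`, `av`.  All elementary.
Hints: `av A f ω = Ex (fun η => f (mix A η ω))`; `mix A η (mix B ξ ω)`, with `Ex_comm` and a bijection
of pairs `(η, ξ)` (exchange the coordinates in a set) gives `av_av`. `Ex` is a finite sum divided by
the cardinality; everything else is `Finset.sum` calculus.
-/

set_option autoImplicit false

noncomputable section

namespace Pool.FPP

open Finset

section

variable {Ω Ω' : Type*} [Fintype Ω] [Fintype Ω']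

private theorem av_card_pos [Nonempty Ω] : (0 : ℝ) < (Fintype.card Ω : ℝ) := by
  exact_mod_cast Fintype.card_pos

theorem Ex_const [Nonempty Ω] (c : ℝ) : Ex (fun _ : Ω => c) = c := by
  have h := av_card_pos (Ω := Ω)
  unfold Ex
  rw [Finset.sum_const, Finset.card_univ, nsmul_eq_mul]
  field_simp

theorem Ex_add (f g : Ω → ℝ) : Ex (fun x => f x + g x) = Ex f + Ex g := by
  unfold Ex
  rw [Finset.sum_add_distrib, add_div]

theorem Ex_sub (f g : Ω → ℝ) : Ex (fun x => f x - g x) = Ex f - Ex g := by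
  unfold Ex
  rw [Finset.sum_sub_distrib, sub_div]

theorem Ex_mul_left (c : ℝ) (f : Ω → ℝ) : Ex (fun x => c * f x) = c * Ex f := by
  unfold Ex
  rw [← Finset.mul_sum, mul_div_assoc]

theorem Ex_mul_right (c : ℝ) (f : Ω → ℝ) : Ex (fun x => f x * c) = Ex f * c := by
  rw [mul_comm, ← Ex_mul_left]
  congr 1
  funext x
  ring

theorem Ex_mono {f g : Ω → ℝ} (h : ∀ x, f x ≤ g x) : Ex f ≤ Ex g := by
  unfold Ex
  exact div_le_div_of_nonneg_right (Finset.sum_le_sum fun i _ => h i) (Nat.cast_nonneg _)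

theorem Ex_nonneg {f : Ω → ℝ} (h : ∀ x, 0 ≤ f x) : 0 ≤ Ex f := by
  unfold Ex
  exact div_nonneg (Finset.sum_nonneg fun i _ => h i) (Nat.cast_nonneg _)

theorem Ex_sum {τ : Type*} (s : Finset τ) (f : τ → Ω → ℝ) :
    Ex (fun x => ∑ i ∈ s, f i x) = ∑ i ∈ s, Ex (f i) := by
  unfold Ex
  rw [Finset.sum_comm, Finset.sum_div]

theorem abs_Ex_le (f : Ω → ℝ) : |Ex f| ≤ Ex (fun x => |f x|) := by
  unfold Ex
  rw [abs_div, abs_of_nonneg (Nat.cast_nonneg (α := ℝ) (Fintype.card Ω))]
  exact div_le_div_of_nonneg_right (Finset.abs_sum_le_sum_abs _ _) (Nat.cast_nonneg _)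

/-- Cauchy-Schwarz -/
theorem Ex_cauchy (f g : Ω → ℝ) :
    (Ex (fun x => f x * g x)) ^ 2 ≤ Ex (fun x => f x ^ 2) * Ex (fun x => g x ^ 2) := by
  unfold Ex
  rw [div_pow, div_mul_div_comm, ← pow_two]
  exact div_le_div_of_nonneg_right (Finset.sum_mul_sq_le_sq_mul_sq _ _ _) (sq_nonneg _)

/-- Jensen for squares -/
theorem Ex_sq_le [Nonempty Ω] (f : Ω → ℝ) : (Ex f) ^ 2 ≤ Ex (fun x => f x ^ 2) := by
  have h := Ex_cauchy f (fun _ => (1 : ℝ))
  have h1 : Ex (fun _ : Ω => (1 : ℝ) ^ 2) = 1 := by rw [Ex_const]; norm_num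
  simp only [mul_one] at h
  rw [h1, mul_one] at h
  exact h

theorem Ex_equiv (e : Ω ≃ Ω') (f : Ω' → ℝ) : Ex (fun x => f (e x)) = Ex f := by
  unfold Ex
  rw [Equiv.sum_comp e f, Fintype.card_congr e]

theorem Ex_comm (f : Ω → Ω' → ℝ) :
    Ex (fun x => Ex (fun y => f x y)) = Ex (fun y => Ex (fun x => f x y)) := by
  unfold Ex
  rw [← Finset.sum_div, ← Finset.sum_div, Finset.sum_comm, div_div, div_div, mul_comm]

theorem Ex_prod (f : Ω × Ω' → ℝ) : Ex f = Ex (fun x => Ex (fun y => f (x, y))) := by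
  unfold Ex
  rw [← Finset.sum_div, div_div, Fintype.sum_prod_type, Fintype.card_prod, Nat.cast_mul, mul_comm]

end

section

variable {ι α : Type*} [Fintype ι] [DecidableEq ι] [Fintype α] [Nonempty α]

theorem av_empty (f : (ι → α) → ℝ) : av ∅ f = f := by
  funext ω
  unfold av
  have h : ∀ η : ι → α, mix ∅ η ω = ω := by
    intro η
    funext i
    simp [mix]
  simp only [h]
  exact Ex_const _

theorem av_univ (f : (ι → α) → ℝ) (ω : ι → α) : av univ f ω = Ex f := by
  unfold av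
  have h : ∀ η : ι → α, mix univ η ω = η := by
    intro η
    funext i
    simp [mix]
  simp only [h]

theorem Ex_av (A : Finset ι) (f : (ι → α) → ℝ) : Ex (av A f) = Ex f := by
  have hinv : Function.Involutive
      (fun p : (ι → α) × (ι → α) => (mix A p.2 p.1, mix A p.1 p.2)) := by
    intro p
    refine Prod.ext ?_ ?_
    · funext i
      by_cases hi : i ∈ A <;> simp [mix, hi]
    · funext i
      by_cases hi : i ∈ A <;> simp [mix, hi]
  have h1 := Ex_equiv hinv.toPerm (fun p : (ι → α) × (ι → α) => f p.1)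
  rw [Ex_prod, Ex_prod] at h1
  have h2 : Ex (fun x : ι → α => Ex (fun _ : ι → α => f x)) = Ex f := by
    congr 1
    funext x
    exact Ex_const _
  exact h1.trans h2

theorem av_av (A B : Finset ι) (f : (ι → α) → ℝ) : av A (av B f) = av (A ∪ B) f := by
  funext ω
  have h := Ex_av B (fun ζ : ι → α => f (mix (A ∪ B) ζ ω))
  have h1 : ∀ η ξ : ι → α, mix B ξ (mix A η ω) = mix (A ∪ B) (mix B ξ η) ω := by
    intro η ξ
    funext i
    by_cases hB : i ∈ B
    · simp [mix, hB]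
    · by_cases hA : i ∈ A <;> simp [mix, hA, hB]
  unfold av at h ⊢
  simp only [h1]
  exact h

/-- `av A f` does not depend on the coordinates in `A` -/
theorem av_mix (A : Finset ι) (f : (ι → α) → ℝ) (η ω : ι → α) :
    av A f (mix A η ω) = av A f ω := by
  unfold av
  have h : ∀ ξ : ι → α, mix A ξ (mix A η ω) = mix A ξ ω := by
    intro ξ
    funext i
    by_cases hA : i ∈ A <;> simp [mix, hA]
  simp only [h]

/-- value of an average at a mixed configuration when the mixed set `B` contains `A` -/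
theorem av_congr_off (A : Finset ι) (f : (ι → α) → ℝ) (ω ω' : ι → α)
    (h : ∀ i ∉ A, ω i = ω' i) : av A f ω = av A f ω' := by
  unfold av
  have h : ∀ ξ : ι → α, mix A ξ ω = mix A ξ ω' := by
    intro ξ
    funext i
    by_cases hA : i ∈ A
    · simp [mix, hA]
    · simp [mix, hA, h i hA]
  simp only [h]

theorem av_mul_of_indep (A : Finset ι) (f g : (ι → α) → ℝ)
    (hg : ∀ η ω, g (mix A η ω) = g ω) (ω : ι → α) :
    av A (fun ω => g ω * f ω) ω = g ω * av A f ω := by
  unfold av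
  simp only [hg]
  exact Ex_mul_left _ _

theorem av_const (A : Finset ι) (c : ℝ) (ω : ι → α) : av A (fun _ => c) ω = c := Ex_const _

theorem av_add (A : Finset ι) (f g : (ι → α) → ℝ) (ω : ι → α) :
    av A (fun ω => f ω + g ω) ω = av A f ω + av A g ω := Ex_add _ _

theorem av_sub (A : Finset ι) (f g : (ι → α) → ℝ) (ω : ι → α) :
    av A (fun ω => f ω - g ω) ω = av A f ω - av A g ω := Ex_sub _ _

theorem av_mul_left (A : Finset ι) (c : ℝ) (f : (ι → α) → ℝ) (ω : ι → α) :
    av A (fun ω => c * f ω) ω = c * av A f ω := Ex_mul_left _ _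

theorem av_sum {τ : Type*} (A : Finset ι) (s : Finset τ) (f : τ → (ι → α) → ℝ) (ω : ι → α) :
    av A (fun ω => ∑ i ∈ s, f i ω) ω = ∑ i ∈ s, av A (f i) ω :=
  Ex_sum s (fun i η => f i (mix A η ω))

theorem av_Ex {τ : Type*} [Fintype τ] (A : Finset ι) (f : τ → (ι → α) → ℝ) (ω : ι → α) :
    av A (fun ω => Ex (fun z => f z ω)) ω = Ex (fun z => av A (f z) ω) :=
  Ex_comm (fun η z => f z (mix A η ω))

theorem av_mono (A : Finset ι) {f g : (ι → α) → ℝ} (h : ∀ ω, f ω ≤ g ω) (ω : ι → α) :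
    av A f ω ≤ av A g ω := Ex_mono fun _ => h _

theorem av_nonneg (A : Finset ι) {f : (ι → α) → ℝ} (h : ∀ ω, 0 ≤ f ω) (ω : ι → α) :
    0 ≤ av A f ω := Ex_nonneg fun _ => h _

theorem av_sq_le (A : Finset ι) (f : (ι → α) → ℝ) (ω : ι → α) :
    (av A f ω) ^ 2 ≤ av A (fun ω => f ω ^ 2) ω := Ex_sq_le _

theorem av_cauchy (A : Finset ι) (f g : (ι → α) → ℝ) (ω : ι → α) :
    (av A (fun ω => f ω * g ω) ω) ^ 2 ≤
      av A (fun ω => f ω ^ 2) ω * av A (fun ω => g ω ^ 2) ω := Ex_cauchy _ _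

/-- conditional variance as a difference of second moments -/
theorem av_var (A : Finset ι) (f : (ι → α) → ℝ) (ω : ι → α) :
    av A (fun ω => (f ω - av A f ω) ^ 2) ω = av A (fun ω => f ω ^ 2) ω - (av A f ω) ^ 2 := by
  have h1 : av A (fun ω => (f ω - av A f ω) ^ 2) ω =
      Ex (fun η : ι → α => (f (mix A η ω)) ^ 2 - 2 * av A f ω * f (mix A η ω) + (av A f ω) ^ 2) := by
    change Ex (fun η : ι → α => (f (mix A η ω) - av A f (mix A η ω)) ^ 2) = _
    congr 1
    funext η
    rw [av_mix]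
    ring
  rw [h1, Ex_add, Ex_sub, Ex_mul_left, Ex_const]
  have h2 : Ex (fun η : ι → α => f (mix A η ω)) = av A f ω := rfl
  have h3 : Ex (fun η : ι → α => (f (mix A η ω)) ^ 2) = av A (fun ω => f ω ^ 2) ω := rfl
  rw [h2, h3]
  ring

end

end Pool.FPP
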