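import Pool.Agent.FPP.WLK

/-!
Module GEO: the chosen equivariant geodesic.
geod_nodup: along a geodesic the passage times from x are strictly increasing, so no vertex is repeated,
so no edge is repeated.  FF_flip: the geodesic for ω is a walk for the flipped configuration, its cost
changes by at most b - a since e occurs at most once.
-/

set_option autoImplicit false

noncomputable section

namespace Pool.FPP

open Finset

section

variable {N : ℕ} [NeZero N] {a b : ℝ}

/-! ### the chosen geodesic from `u` to `u + v`, chosen equivariantly -/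

open Classical in
/-- edges of a chosen geodesic from `0` to `v` -/
def geo0 (a b : ℝ) (v : Vtx N) (ω : Edge N → Bool) : List (Edge N) :=
  if h : ∃ l : List (Edge N), Walk 0 v l ∧ cost a b ω l = dst a b ω 0 v then h.choose else []

/-- edges of the chosen geodesic from `u` to `u + v` -/
def geo (a b : ℝ) (v u : Vtx N) (ω : Edge N → Bool) : List (Edge N) :=
  (geo0 a b v (tau u ω)).map (fun e => (e.1 + u, e.2))

/-- the set of edges of the chosen geodesic -/
def gam (a b : ℝ) (v u : Vtx N) (ω : Edge N → Bool) : Finset (Edge N) := (geo a b v u ω).toFinset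

theorem geo0_spec (ha : 0 < a) (hab : a < b) (v : Vtx N) (ω : Edge N → Bool) :
    Walk 0 v (geo0 a b v ω) ∧ cost a b ω (geo0 a b v ω) = dst a b ω 0 v := by
  have h := exists_geod ha hab ω 0 v
  unfold geo0
  rw [dif_pos h]
  exact h.choose_spec

theorem geo_walk (ha : 0 < a) (hab : a < b) (v u : Vtx N) (ω : Edge N → Bool) :
    Walk u (u + v) (geo a b v u ω) := by
  have h := ((geo0_spec ha hab v (tau u ω)).1).shift u
  rw [zero_add, add_comm v u] at h
  exact h

theorem geo_cost (ha : 0 < a) (hab : a < b) (v u : Vtx N) (ω : Edge N → Bool) :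
    cost a b ω (geo a b v u ω) = FF a b v u ω := by
  unfold geo FF
  rw [cost_shift, (geo0_spec ha hab v (tau u ω)).2, dst_tau, zero_add, add_comm v u]

/-- both parts of a geodesic are geodesics -/
theorem geod_split (ha : 0 < a) (hab : a < b) {ω : Edge N → Bool} {x y z : Vtx N}
    {l l' : List (Edge N)} (h : Walk x z l) (h' : Walk z y l')
    (hc : cost a b ω (l ++ l') = dst a b ω x y) :
    cost a b ω l = dst a b ω x z ∧ cost a b ω l' = dst a b ω z y ∧
      dst a b ω x z + dst a b ω z y = dst a b ω x y := by
  rw [cost_append] at hc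
  have h1 := dst_le_cost ha hab (ω := ω) h
  have h2 := dst_le_cost ha hab (ω := ω) h'
  have h3 := dst_triangle ha hab ω x z y
  refine ⟨by linarith, by linarith, by linarith⟩

theorem geod_not_mem (ha : 0 < a) (hab : a < b) {ω : Edge N → Bool} {x y : Vtx N}
    {e : Edge N} {l : List (Edge N)} (h : Walk x y (e :: l))
    (hc : cost a b ω (e :: l) = dst a b ω x y) : e ∉ l := by
  intro he
  obtain ⟨s, t, rfl⟩ := List.append_of_mem he
  have hwe := (wt_bounds ha hab ω e).1
  have hs := cost_nonneg ha hab ω s
  -- after the first edge, and the position before the second occurrence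
  have key : Walk x y (e :: t) ∨ Walk x y t := by
    rcases h.cons_inv with ⟨rfl, h1⟩ | ⟨rfl, h1⟩
    · obtain ⟨z, _, hz2⟩ := h1.split
      rcases hz2.cons_inv with ⟨rfl, h2⟩ | ⟨rfl, h2⟩
      · exact Or.inl hz2
      · exact Or.inr h2
    · obtain ⟨z, _, hz2⟩ := h1.split
      rcases hz2.cons_inv with ⟨rfl, h2⟩ | ⟨rfl, h2⟩
      · exact Or.inr h2
      · exact Or.inl hz2
  rw [cost_cons, cost_append, cost_cons] at hc
  rcases key with h1 | h1
  · have h2 := dst_le_cost ha hab (ω := ω) h1
    rw [cost_cons] at h2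
    linarith
  · have h2 := dst_le_cost ha hab (ω := ω) h1
    linarith

/-- a geodesic uses every edge at most once -/
theorem geod_nodup (ha : 0 < a) (hab : a < b) {ω : Edge N → Bool} {x y : Vtx N}
    {l : List (Edge N)} (h : Walk x y l) (hc : cost a b ω l = dst a b ω x y) : l.Nodup := by
  induction l generalizing x with
  | nil => exact List.nodup_nil
  | cons e l ih =>
    rw [List.nodup_cons]
    refine ⟨geod_not_mem ha hab h hc, ?_⟩
    have h' : Walk x y ([e] ++ l) := h
    obtain ⟨z, hz1, hz2⟩ := h'.split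
    exact ih hz2 (geod_split ha hab hz1 hz2 hc).2.1

/-- every edge of a geodesic is at a vertex on the geodesic -/
theorem geod_mem (ha : 0 < a) (hab : a < b) {ω : Edge N → Bool} {x y : Vtx N}
    {l : List (Edge N)} (h : Walk x y l) (hc : cost a b ω l = dst a b ω x y) {e : Edge N}
    (he : e ∈ l) : dst a b ω x e.1 + dst a b ω e.1 y = dst a b ω x y := by
  obtain ⟨s, t, rfl⟩ := List.append_of_mem he
  obtain ⟨z, hz1, hz2⟩ := h.split
  rcases hz2.cons_inv with ⟨rfl, h2⟩ | ⟨rfl, h2⟩
  · exact (geod_split ha hab hz1 hz2 hc).2.2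
  · have h3 : Walk x e.1 (s ++ [e]) := hz1.append (Walk.bwd e _ _ (Walk.nil _))
    have h4 : s ++ e :: t = (s ++ [e]) ++ t := by simp
    rw [h4] at hc
    exact (geod_split ha hab h3 h2 hc).2.2

theorem tau_zero (ω : Edge N → Bool) : tau 0 ω = ω := by
  funext e
  simp [tau]

theorem gam_shift (v u : Vtx N) (ω : Edge N → Bool) :
    gam a b v u ω = (gam a b v 0 (tau u ω)).image (fun e => (e.1 + u, e.2)) := by
  unfold gam geo
  rw [tau_zero]
  ext e
  simp

theorem geo_length (ha : 0 < a) (hab : a < b) (v u : Vtx N) (ω : Edge N → Bool) :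
    a * (geo a b v u ω).length ≤ b * rho 0 v := by
  have h1 := cost_ge ha hab ω (geo a b v u ω)
  rw [geo_cost ha hab] at h1
  have h2 : FF a b v u ω ≤ b * rho u (u + v) := dst_le_rho ha hab ω u (u + v)
  have h3 : rho u (u + v) = rho 0 v := by
    have := rho_add_right 0 v u
    rwa [zero_add, add_comm v u] at this
  rw [h3] at h2
  exact h1.trans h2

theorem gam_card (ha : 0 < a) (hab : a < b) (v u : Vtx N) (ω : Edge N → Bool) :
    a * (gam a b v u ω).card ≤ b * rho 0 v := by
  refine le_trans ?_ (geo_length ha hab v u ω)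
  have : ((gam a b v u ω).card : ℝ) ≤ (geo a b v u ω).length := by
    exact_mod_cast List.toFinset_card_le _
  gcongr

omit [NeZero N] in
theorem wt_flip_self (ha : 0 < a) (hab : a < b) (ω : Edge N → Bool) (e : Edge N) :
    wt a b (flipAt e ω) e ≤ wt a b ω e + (b - a) := by
  have h1 := (wt_bounds ha hab (flipAt e ω) e).2
  have h2 := (wt_bounds ha hab ω e).1
  linarith

omit [NeZero N] in
theorem wt_flip_ne (ω : Edge N → Bool) {e e' : Edge N} (h : e' ≠ e) :
    wt a b (flipAt e ω) e' = wt a b ω e' := by
  unfold wt flipAt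
  rw [Function.update_of_ne h]

omit [NeZero N] in
theorem cost_flip_notMem (ω : Edge N → Bool) {e : Edge N} {l : List (Edge N)} (h : e ∉ l) :
    cost a b (flipAt e ω) l = cost a b ω l := by
  induction l with
  | nil => simp [cost_nil]
  | cons e' l ih =>
    rw [List.mem_cons, not_or] at h
    rw [cost_cons, cost_cons, ih h.2, wt_flip_ne ω (fun hc => h.1 hc.symm)]

omit [NeZero N] in
theorem cost_flip_le (ha : 0 < a) (hab : a < b) (ω : Edge N → Bool) {e : Edge N}
    {l : List (Edge N)} (h : l.Nodup) :
    cost a b (flipAt e ω) l ≤ cost a b ω l + (b - a) := by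
  induction l with
  | nil =>
    rw [cost_nil, cost_nil]
    linarith
  | cons e' l ih =>
    rw [List.nodup_cons] at h
    rw [cost_cons, cost_cons]
    by_cases he : e' = e
    · subst he
      rw [cost_flip_notMem ω h.1]
      have := wt_flip_self ha hab ω e'
      linarith
    · rw [wt_flip_ne ω he]
      have := ih h.2
      linarith

theorem FF_flip (ha : 0 < a) (hab : a < b) (v u : Vtx N) (ω : Edge N → Bool) (e : Edge N) :
    FF a b v u (flipAt e ω) - FF a b v u ω ≤ if e ∈ gam a b v u ω then b - a else 0 := by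
  have h1 : FF a b v u (flipAt e ω) ≤ cost a b (flipAt e ω) (geo a b v u ω) :=
    dst_le_cost ha hab (geo_walk ha hab v u ω)
  have h2 := geo_cost ha hab v u ω
  split_ifs with h
  · have h3 := cost_flip_le (e := e) ha hab ω (geod_nodup ha hab (geo_walk ha hab v u ω) h2)
    linarith
  · have h4 : e ∉ geo a b v u ω := fun hc => h (List.mem_toFinset.mpr hc)
    rw [cost_flip_notMem ω h4] at h1
    linarith

end

end Pool.FPP
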