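import Pool.Agent.FPP.COR
import Pool.Agent.FPP.GEO

/-!
Module BAL: counting tiles.
-/

set_option autoImplicit false

noncomputable section

namespace Pool.FPP

open Finset

section

variable {N : ℕ} [NeZero N] {a b : ℝ}

theorem bal_abs_le (x : ZMod N) (m : ℤ) (h : x = (m : ZMod N)) :
    (ZMod.valMinAbs x).natAbs ≤ m.natAbs := by
  apply ZMod.natAbs_min_of_le_div_two N
  · rw [ZMod.coe_valMinAbs, h]
  · exact ZMod.natAbs_valMinAbs_le x

/-- first coordinate of the corner -/
def cor1 (L : ℕ) (x : ZMod N) : ZMod N := ((x.val / L * L : ℕ) : ZMod N)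

omit [NeZero N] in
theorem corner_eq (L : ℕ) (x : Vtx N) : corner L x = (cor1 L x.1, cor1 L x.2) := rfl

theorem bal_sub_cor1 (L : ℕ) (x : ZMod N) : x = cor1 L x + (((x.val % L : ℕ) : ℤ) : ZMod N) := by
  unfold cor1
  have h : x.val = x.val / L * L + x.val % L := by
    have := Nat.div_add_mod x.val L
    rw [mul_comm]; omega
  conv_lhs => rw [← ZMod.natCast_zmod_val x, h]
  rw [Nat.cast_add, Int.cast_natCast]

/-- diameter of a tile -/
theorem rho_corner_le {L : ℕ} (hL : 0 < L) (x : Vtx N) : rho x (corner L x) ≤ 2 * L := by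
  rw [corner_eq]
  unfold rho
  have h1 := bal_abs_le (x.1 - cor1 L x.1) ((x.1.val % L : ℕ) : ℤ) (by
    rw [sub_eq_iff_eq_add, add_comm]; exact bal_sub_cor1 L x.1)
  have h2 := bal_abs_le (x.2 - cor1 L x.2) ((x.2.val % L : ℕ) : ℤ) (by
    rw [sub_eq_iff_eq_add, add_comm]; exact bal_sub_cor1 L x.2)
  have h3 := Nat.mod_lt x.1.val hL
  have h4 := Nat.mod_lt x.2.val hL
  rw [Int.natAbs_natCast] at h1 h2
  simp only
  omega

theorem tileE_diam {L : ℕ} (hL : 0 < L) (c : Vtx N) :
    ∀ e ∈ tileE L c, ∀ e' ∈ tileE L c, rho e.1 e'.1 ≤ 2 * L := by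
  intro e he e' he'
  have hc : corner L e.1 = c := by simpa [tileE] using he
  have hc' : corner L e'.1 = c := by simpa [tileE] using he'
  have hcc : corner L e.1 = corner L e'.1 := hc.trans hc'.symm
  rw [corner_eq, corner_eq, Prod.mk.injEq] at hcc
  unfold rho
  have h1 := bal_abs_le (e.1.1 - e'.1.1)
    (((e.1.1.val % L : ℕ) : ℤ) - ((e'.1.1.val % L : ℕ) : ℤ)) (by
      have a1 := bal_sub_cor1 L e.1.1
      have a2 := bal_sub_cor1 L e'.1.1
      rw [Int.cast_sub]
      rw [hcc.1] at a1
      linear_combination a1 - a2)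
  have h2 := bal_abs_le (e.1.2 - e'.1.2)
    (((e.1.2.val % L : ℕ) : ℤ) - ((e'.1.2.val % L : ℕ) : ℤ)) (by
      have a1 := bal_sub_cor1 L e.1.2
      have a2 := bal_sub_cor1 L e'.1.2
      rw [Int.cast_sub]
      rw [hcc.2] at a1
      linear_combination a1 - a2)
  have h3 := Nat.mod_lt e.1.1.val hL
  have h4 := Nat.mod_lt e.1.2.val hL
  have h5 := Nat.mod_lt e'.1.1.val hL
  have h6 := Nat.mod_lt e'.1.2.val hL
  omega

/-- a corner coordinate is divisible by `L` -/
theorem bal_dvd_val {L : ℕ} (x : ZMod N) (hx : cor1 L x = x) : L ∣ x.val := by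
  have h1 : x.val / L * L ≤ x.val := Nat.div_mul_le_self _ _
  have h2 : x.val / L * L < N := lt_of_le_of_lt h1 (ZMod.val_lt x)
  have h3 : x.val = x.val / L * L := by
    conv_lhs => rw [← hx]
    unfold cor1
    rw [ZMod.val_natCast, Nat.mod_eq_of_lt h2]
  rw [h3]
  exact Dvd.intro_left _ rfl

/-- differences of corners -/
theorem bal_coord {L : ℕ} (hL : 0 < L) (hLN : L ∣ N) (x y : ZMod N) (hx : cor1 L x = x)
    (hy : cor1 L y = y) (R : ℕ) (h : (ZMod.valMinAbs (x - y)).natAbs ≤ R * L) :
    ∃ s ∈ Finset.Icc (-(R : ℤ)) R, y = x + (((L : ℤ) * s : ℤ) : ZMod N) := by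
  have hdx := bal_dvd_val x hx
  have hdy := bal_dvd_val y hy
  set m : ℤ := ZMod.valMinAbs (x - y) with hm
  have hmc : (m : ZMod N) = x - y := ZMod.coe_valMinAbs _
  have hdvd : (L : ℤ) ∣ m := by
    have h1 : (N : ℤ) ∣ m - ((x.val : ℤ) - (y.val : ℤ)) := by
      rw [← ZMod.intCast_zmod_eq_zero_iff_dvd]
      push_cast
      rw [hmc, ZMod.natCast_zmod_val, ZMod.natCast_zmod_val]
      ring
    have h2 : (L : ℤ) ∣ m - ((x.val : ℤ) - (y.val : ℤ)) :=
      (Int.natCast_dvd_natCast.2 hLN).trans h1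
    have h3 : (L : ℤ) ∣ (x.val : ℤ) - (y.val : ℤ) :=
      dvd_sub (Int.natCast_dvd_natCast.2 hdx) (Int.natCast_dvd_natCast.2 hdy)
    have := dvd_add h2 h3
    simpa using this
  obtain ⟨s, hs⟩ := hdvd
  refine ⟨-s, ?_, ?_⟩
  · have hsR : s.natAbs ≤ R := by
      have : s.natAbs * L ≤ R * L := by
        calc s.natAbs * L = m.natAbs := by rw [hs, Int.natAbs_mul, Int.natAbs_natCast, mul_comm]
          _ ≤ R * L := h
      exact Nat.le_of_mul_le_mul_right this hL
    rw [Finset.mem_Icc]
    omega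
  · have : (((L : ℤ) * -s : ℤ) : ZMod N) = -(x - y) := by
      rw [← hmc, hs]
      push_cast
      ring
    rw [this]
    ring

/-- number of tiles in a ball -/
theorem card_ball {L : ℕ} (hL : 0 < L) (hLN : L ∣ N) (c : Vtx N) (hc : corner L c = c) (R : ℕ) :
    ((tiles N L).filter (fun c' => rho c c' ≤ R * L)).card ≤ (2 * R + 1) ^ 2 := by
  have hsub : (tiles N L).filter (fun c' => rho c c' ≤ R * L) ⊆
      (Finset.Icc (-(R : ℤ)) R ×ˢ Finset.Icc (-(R : ℤ)) R).image
        (fun p : ℤ × ℤ => ((c.1 + (((L : ℤ) * p.1 : ℤ) : ZMod N),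
          c.2 + (((L : ℤ) * p.2 : ℤ) : ZMod N)) : Vtx N)) := by
    intro c' hc'
    rw [Finset.mem_filter] at hc'
    have hcc : corner L c' = c' := by simpa [tiles] using hc'.1
    have hr := hc'.2
    rw [corner_eq, Prod.ext_iff] at hc hcc
    unfold rho at hr
    obtain ⟨s, hs, hs'⟩ := bal_coord hL hLN c.1 c'.1 hc.1 hcc.1 R (by omega)
    obtain ⟨t, ht, ht'⟩ := bal_coord hL hLN c.2 c'.2 hc.2 hcc.2 R (by omega)
    rw [Finset.mem_image]
    exact ⟨(s, t), Finset.mem_product.2 ⟨hs, ht⟩, Prod.ext hs'.symm ht'.symm⟩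
  refine (Finset.card_le_card hsub).trans (Finset.card_image_le.trans ?_)
  rw [Finset.card_product, Int.card_Icc]
  have : ((R : ℤ) + 1 - -(R : ℤ)).toNat = 2 * R + 1 := by omega
  rw [this, sq]

/-- coordinates of the corner of a vertex at distance at most `L` -/
theorem bal_near1 {L : ℕ} (hL : 0 < L) (hLN : L ∣ N) (x y : ZMod N)
    (h : (ZMod.valMinAbs (x - y)).natAbs ≤ L) :
    ∃ s ∈ Finset.Icc (-1 : ℤ) 1, cor1 L y = cor1 L x + (((L : ℤ) * s : ℤ) : ZMod N) := by
  set m : ℤ := ZMod.valMinAbs (x - y) with hm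
  have hmc : (m : ZMod N) = x - y := ZMod.coe_valMinAbs _
  have hL' : (0 : ℤ) < L := by exact_mod_cast hL
  obtain ⟨w, hw⟩ := hLN
  have h1 : (N : ℤ) ∣ (y.val : ℤ) - ((x.val : ℤ) - m) := by
    rw [← ZMod.intCast_zmod_eq_zero_iff_dvd]
    push_cast
    rw [hmc, ZMod.natCast_zmod_val, ZMod.natCast_zmod_val]
    ring
  obtain ⟨q, hq⟩ := h1
  -- the quotients
  have hy : ((y.val / L : ℕ) : ℤ) = ((x.val : ℤ) - m) / L + w * q := by
    have e1 : (y.val : ℤ) = ((x.val : ℤ) - m) + L * (w * q) := by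
      have : (N : ℤ) = L * w := by exact_mod_cast hw
      rw [this] at hq
      linarith
    rw [Int.natCast_div, e1, Int.add_mul_ediv_left _ _ hL'.ne']
  set r : ℤ := (x.val : ℤ) % L with hr
  have hr0 : 0 ≤ r := Int.emod_nonneg _ hL'.ne'
  have hrL : r < L := Int.emod_lt_of_pos _ hL'
  have hx : (x.val : ℤ) = L * ((x.val : ℤ) / L) + r := (Int.mul_ediv_add_emod _ _).symm
  have hxm : ((x.val : ℤ) - m) / L = (x.val : ℤ) / L + (r - m) / L := by
    have : (x.val : ℤ) - m = (r - m) + L * ((x.val : ℤ) / L) := by linarith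
    rw [this, Int.add_mul_ediv_left _ _ hL'.ne', add_comm]
  have hm1 : |m| ≤ L := by
    rw [Int.abs_eq_natAbs]
    exact_mod_cast h
  have hm2 := abs_le.1 hm1
  refine ⟨(r - m) / L, ?_, ?_⟩
  · rw [Finset.mem_Icc]
    constructor
    · rw [Int.le_ediv_iff_mul_le hL']
      linarith [hm2.2]
    · have : (r - m) / L < 2 := by
        rw [Int.ediv_lt_iff_lt_mul hL']
        linarith [hm2.1]
      omega
  · unfold cor1
    have e2 : ((y.val / L * L : ℕ) : ZMod N) = (((((y.val / L : ℕ) : ℤ)) * L : ℤ) : ZMod N) := by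
      rw [Int.cast_mul, Int.cast_natCast, Int.cast_natCast, Nat.cast_mul]
    have e3 : ((x.val / L * L : ℕ) : ZMod N) = (((x.val : ℤ) / L * L : ℤ) : ZMod N) := by
      have e30 : ((x.val : ℤ) / L * L : ℤ) = ((x.val / L * L : ℕ) : ℤ) := by
        rw [Nat.cast_mul, Int.natCast_div]
      rw [e30, Int.cast_natCast]
    have e4 : ((w * q * L : ℤ) : ZMod N) = 0 := by
      rw [ZMod.intCast_zmod_eq_zero_iff_dvd]
      refine ⟨q, ?_⟩
      rw [hw]
      push_cast
      ring
    rw [e2, e3, hy, hxm]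
    have e5 : ((((x.val : ℤ) / L + (r - m) / L + w * q) * L : ℤ) : ZMod N) =
        (((x.val : ℤ) / L * L : ℤ) : ZMod N) + (((L : ℤ) * ((r - m) / L) : ℤ) : ZMod N) +
          ((w * q * L : ℤ) : ZMod N) := by
      push_cast
      ring
    rw [e5, e4, add_zero]

/-- the 9 tiles around a vertex -/
def nine (L : ℕ) (x : Vtx N) : Finset (Vtx N) :=
  (Finset.Icc (-1 : ℤ) 1 ×ˢ Finset.Icc (-1 : ℤ) 1).image
    (fun p : ℤ × ℤ => ((cor1 L x.1 + (((L : ℤ) * p.1 : ℤ) : ZMod N),
      cor1 L x.2 + (((L : ℤ) * p.2 : ℤ) : ZMod N)) : Vtx N))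

omit [NeZero N] in
theorem card_nine (L : ℕ) (x : Vtx N) : (nine L x).card ≤ 9 := by
  refine Finset.card_image_le.trans ?_
  rw [Finset.card_product, Int.card_Icc]
  decide

theorem mem_nine {L : ℕ} (hL : 0 < L) (hLN : L ∣ N) (x y : Vtx N) (h : rho x y ≤ L) :
    corner L y ∈ nine L x := by
  unfold rho at h
  obtain ⟨s, hs, hs'⟩ := bal_near1 hL hLN x.1 y.1 (by omega)
  obtain ⟨t, ht, ht'⟩ := bal_near1 hL hLN x.2 y.2 (by omega)
  unfold nine
  rw [Finset.mem_image]
  exact ⟨(s, t), Finset.mem_product.2 ⟨hs, ht⟩, Prod.ext hs'.symm ht'.symm⟩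

/-- base vertices along a walk are close to the start -/
theorem bal_walk_rho {x y : Vtx N} {l : List (Edge N)} (hw : Walk x y l) :
    ∀ e ∈ l, rho x e.1 ≤ l.length := by
  induction hw with
  | nil x => simp
  | fwd e y l h ih =>
    intro e' he'
    rcases List.mem_cons.1 he' with rfl | h'
    · rw [rho_self]; omega
    · have h1 := ih e' h'
      have h2 := rho_triangle e.1 (hd e) e'.1
      have h3 := rho_hd e
      rw [List.length_cons]
      omega
  | bwd e y l h ih =>
    intro e' he'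
    have h3 := rho_hd e
    rw [rho_comm] at h3
    rcases List.mem_cons.1 he' with rfl | h'
    · rw [List.length_cons]; omega
    · have h1 := ih e' h'
      have h2 := rho_triangle (hd e) e.1 e'.1
      rw [List.length_cons]
      omega

/-- number of tiles touched by a walk -/
theorem bal_walk_touched {L : ℕ} (hL : 0 < L) (hLN : L ∣ N) :
    ∀ (m : ℕ) (x y : Vtx N) (l : List (Edge N)), l.length ≤ m → Walk x y l →
      ((l.map (fun e => corner L e.1)).toFinset).card ≤ 9 * (l.length / L + 1) := by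
  intro m
  induction m using Nat.strong_induction_on with
  | _ m ih =>
    intro x y l hlm hw
    by_cases hlL : l.length ≤ L
    · have hsub : (l.map (fun e => corner L e.1)).toFinset ⊆ nine L x := by
        intro c hc
        rw [List.mem_toFinset, List.mem_map] at hc
        obtain ⟨e, he, rfl⟩ := hc
        exact mem_nine hL hLN x e.1 ((bal_walk_rho hw e he).trans hlL)
      have h1 := (Finset.card_le_card hsub).trans (card_nine L x)
      have h2 : 9 * 1 ≤ 9 * (l.length / L + 1) := Nat.mul_le_mul_left _ (Nat.le_add_left 1 _)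
      exact h1.trans h2
    · push Not at hlL
      have hl : l = l.take L ++ l.drop L := (List.take_append_drop L l).symm
      rw [hl] at hw
      obtain ⟨z, hz1, hz2⟩ := hw.split
      have hlt : (l.take L).length = L := by
        rw [List.length_take]; omega
      have hld : (l.drop L).length = l.length - L := List.length_drop
      have h1 : (((l.take L).map (fun e => corner L e.1)).toFinset).card ≤ 9 := by
        have hsub : ((l.take L).map (fun e => corner L e.1)).toFinset ⊆ nine L x := by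
          intro c hc
          rw [List.mem_toFinset, List.mem_map] at hc
          obtain ⟨e, he, rfl⟩ := hc
          exact mem_nine hL hLN x e.1 ((bal_walk_rho hz1 e he).trans hlt.le)
        exact (Finset.card_le_card hsub).trans (card_nine L x)
      have h2 := ih (l.drop L).length (by omega) z y (l.drop L) le_rfl hz2
      have h3 : ((l.map (fun e => corner L e.1)).toFinset).card ≤
          (((l.take L).map (fun e => corner L e.1)).toFinset).card +
            (((l.drop L).map (fun e => corner L e.1)).toFinset).card := by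
        conv_lhs => rw [hl, List.map_append, List.toFinset_append]
        exact Finset.card_union_le _ _
      have h4 : l.length / L = (l.length - L) / L + 1 := by
        have : l.length = (l.length - L) + L := by omega
        conv_lhs => rw [this, Nat.add_div_right _ hL]
      rw [hld] at h2
      omega

/-- number of tiles touched by the geodesic -/
theorem card_touched (ha : 0 < a) (hab : a < b) {L : ℕ} (hL : 0 < L) (hLN : L ∣ N)
    (v u : Vtx N) (ω : Edge N → Bool) :
    (((gam a b v u ω).image (fun e => corner L e.1)).card : ℝ) ≤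
      9 * (b / a * rho 0 v / L + 1) := by
  have h1 := bal_walk_touched hL hLN _ _ _ _ le_rfl (geo_walk ha hab v u ω)
  have h2 : (gam a b v u ω).image (fun e => corner L e.1) =
      ((geo a b v u ω).map (fun e => corner L e.1)).toFinset := by
    ext c
    rw [Finset.mem_image, List.mem_toFinset, List.mem_map]
    constructor
    · rintro ⟨e, he, rfl⟩
      exact ⟨e, List.mem_toFinset.1 he, rfl⟩
    · rintro ⟨e, he, rfl⟩
      exact ⟨e, List.mem_toFinset.2 he, rfl⟩
  rw [h2]
  have h3 := geo_length ha hab v u ω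
  have hL' : (0:ℝ) < L := by exact_mod_cast hL
  have h4 : (((geo a b v u ω).length / L : ℕ) : ℝ) ≤ b / a * rho 0 v / L := by
    refine (Nat.cast_div_le).trans ?_
    apply div_le_div_of_nonneg_right _ hL'.le
    rw [div_mul_eq_mul_div, le_div_iff₀ ha]
    linarith
  have h5 : ((((geo a b v u ω).map (fun e => corner L e.1)).toFinset.card : ℕ) : ℝ) ≤
      ((9 * ((geo a b v u ω).length / L + 1) : ℕ) : ℝ) := by exact_mod_cast h1
  refine h5.trans ?_
  push_cast
  linarith

/-- splitting the geodesic over the tiles -/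
theorem sum_gam_inter (v u : Vtx N) (ω : Edge N → Bool) (L : ℕ) :
    ∑ c ∈ tiles N L, ((gam a b v u ω ∩ tileE L c).card : ℝ) = (gam a b v u ω).card := by
  have h := Finset.card_eq_sum_card_fiberwise (f := fun e : Edge N => corner L e.1)
    (s := gam a b v u ω) (t := tiles N L) (fun e _ => corner_mem_tiles L e.1)
  rw [h]
  push_cast
  apply Finset.sum_congr rfl
  intro c _
  congr 2
  ext e
  simp [tileE]

end

end Pool.FPP
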