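import Pool.Agent.FPP.GEO

/-!
Module CHG: changing the weights in a set.
-/

set_option autoImplicit false

noncomputable section

namespace Pool.FPP

open Finset

section

variable {N : ℕ} [NeZero N] {a b : ℝ}

omit [NeZero N] in
theorem chg_cost_cons (ω : Edge N → Bool) (e : Edge N) (l : List (Edge N)) :
    cost a b ω (e :: l) = wt a b ω e + cost a b ω l := by
  simp [cost]

theorem chg_cost_nonneg (ha : 0 < a) (hab : a < b) (ω : Edge N → Bool) (l : List (Edge N)) :
    0 ≤ cost a b ω l := by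
  induction l with
  | nil => simp [cost]
  | cons e l ih =>
    rw [chg_cost_cons]
    have := (wt_bounds ha hab ω e).1
    linarith

omit [NeZero N] in
theorem chg_cost_congr (ω ω' : Edge N → Bool) (A : Finset (Edge N))
    (h : ∀ e ∉ A, ω e = ω' e) (l : List (Edge N)) (hl : ∀ e ∈ l, e ∉ A) :
    cost a b ω' l = cost a b ω l := by
  induction l with
  | nil => simp [cost]
  | cons e l ih =>
    rw [chg_cost_cons, chg_cost_cons, ih (fun e' he' => hl e' (List.mem_cons_of_mem _ he'))]
    have := h e (hl e List.mem_cons_self)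
    simp [wt, this]

/-- number of edges of a list in a set -/
def chgCnt (A : Finset (Edge N)) (l : List (Edge N)) : ℕ := (l.filter (fun e => e ∈ A)).length

theorem chg_key (ha : 0 < a) (hab : a < b) (ω : Edge N → Bool) (A : Finset (Edge N))
    {p q : Vtx N} {l : List (Edge N)} (hw : Walk p q l) :
    (∀ e ∈ l, e ∉ A) ∨ ∃ (u u' : Vtx N) (l1 l3 : List (Edge N)),
      Walk p u l1 ∧ Walk u' q l3 ∧ (∀ e ∈ l1, e ∉ A) ∧ (∀ e ∈ l3, e ∉ A) ∧
      (∃ e ∈ A, rho u e.1 ≤ 1) ∧ (∃ e ∈ A, rho e.1 u' ≤ 1) ∧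
      cost a b ω l1 + cost a b ω l3 + a * chgCnt A l ≤ cost a b ω l := by
  -- one step of the induction
  have step : ∀ (e : Edge N) (p m q : Vtx N) (l : List (Edge N)), rho p e.1 ≤ 1 → rho e.1 m ≤ 1 →
      (∀ (m' : Vtx N) (l' : List (Edge N)), Walk m m' l' → Walk p m' (e :: l')) → Walk m q l →
      ((∀ e ∈ l, e ∉ A) ∨ ∃ (u u' : Vtx N) (l1 l3 : List (Edge N)),
        Walk m u l1 ∧ Walk u' q l3 ∧ (∀ e ∈ l1, e ∉ A) ∧ (∀ e ∈ l3, e ∉ A) ∧
        (∃ e ∈ A, rho u e.1 ≤ 1) ∧ (∃ e ∈ A, rho e.1 u' ≤ 1) ∧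
        cost a b ω l1 + cost a b ω l3 + a * chgCnt A l ≤ cost a b ω l) →
      ((∀ e' ∈ e :: l, e' ∉ A) ∨ ∃ (u u' : Vtx N) (l1 l3 : List (Edge N)),
        Walk p u l1 ∧ Walk u' q l3 ∧ (∀ e ∈ l1, e ∉ A) ∧ (∀ e ∈ l3, e ∉ A) ∧
        (∃ e ∈ A, rho u e.1 ≤ 1) ∧ (∃ e ∈ A, rho e.1 u' ≤ 1) ∧
        cost a b ω l1 + cost a b ω l3 + a * chgCnt A (e :: l) ≤ cost a b ω (e :: l)) := by
    intro e p m q l hpe hem hcons hml ih
    by_cases heA : e ∈ A
    · right
      have hwt := (wt_bounds ha hab ω e).1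
      have hcnt : chgCnt A (e :: l) = chgCnt A l + 1 := by simp [chgCnt, heA]
      rcases ih with h0 | ⟨u, u', l1, l3, h1, h2, h3, h4, h5, h6, h7⟩
      · refine ⟨p, m, [], l, Walk.nil p, hml, by simp, h0, ⟨e, heA, hpe⟩, ⟨e, heA, hem⟩, ?_⟩
        have hz : chgCnt A l = 0 := by
          simp only [chgCnt, List.length_eq_zero_iff, List.filter_eq_nil_iff]
          intro e' he'
          simpa using h0 e' he'
        rw [hcnt, hz, chg_cost_cons]
        have hnil : cost a b ω ([] : List (Edge N)) = 0 := by simp [cost]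
        rw [hnil]
        push_cast
        linarith
      · refine ⟨p, u', [], l3, Walk.nil p, h2, by simp, h4, ⟨e, heA, hpe⟩, h6, ?_⟩
        rw [hcnt, chg_cost_cons]
        have hc := chg_cost_nonneg ha hab ω l1
        have hnil : cost a b ω ([] : List (Edge N)) = 0 := by simp [cost]
        rw [hnil]
        push_cast
        linarith
    · have hcnt : chgCnt A (e :: l) = chgCnt A l := by simp [chgCnt, heA]
      rcases ih with h0 | ⟨u, u', l1, l3, h1, h2, h3, h4, h5, h6, h7⟩
      · left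
        intro e' he'
        rcases List.mem_cons.1 he' with rfl | h
        · exact heA
        · exact h0 e' h
      · right
        refine ⟨u, u', e :: l1, l3, hcons _ _ h1, h2, ?_, h4, h5, h6, ?_⟩
        · intro e' he'
          rcases List.mem_cons.1 he' with rfl | h
          · exact heA
          · exact h3 e' h
        · rw [hcnt, chg_cost_cons, chg_cost_cons]
          linarith
  induction hw with
  | nil x => left; simp
  | fwd e y l h ih =>
    exact step e e.1 (hd e) y l (by rw [rho_self]; omega) (rho_hd e)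
      (fun m' l' hh => Walk.fwd e m' l' hh) h ih
  | bwd e y l h ih =>
    exact step e (hd e) e.1 y l (by rw [rho_comm]; exact rho_hd e) (by rw [rho_self]; omega)
      (fun m' l' hh => Walk.bwd e m' l' hh) h ih

/-- a detour through the set -/
theorem chg_detour (ha : 0 < a) (hab : a < b) (ω : Edge N → Bool)
    (A : Finset (Edge N)) (D : ℕ) (hA : ∀ e ∈ A, ∀ e' ∈ A, rho e.1 e'.1 ≤ D)
    {x y u u' : Vtx N} {l1 l3 : List (Edge N)} (h1 : Walk x u l1) (h3 : Walk u' y l3)
    (hu : ∃ e ∈ A, rho u e.1 ≤ 1) (hu' : ∃ e ∈ A, rho e.1 u' ≤ 1) :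
    dst a b ω x y ≤ cost a b ω l1 + cost a b ω l3 + b * (D + 2) := by
  obtain ⟨e, he, hue⟩ := hu
  obtain ⟨e', he', hue'⟩ := hu'
  have hb : 0 < b := ha.trans hab
  have hr : rho u u' ≤ D + 2 := by
    have t1 := rho_triangle u e.1 u'
    have t2 := rho_triangle e.1 e'.1 u'
    have t3 := hA e he e' he'
    omega
  have hr' : (rho u u' : ℝ) ≤ D + 2 := by exact_mod_cast hr
  have d1 := dst_triangle ha hab ω x u y
  have d2 := dst_triangle ha hab ω u u' y
  have d3 := dst_le_rho ha hab ω u u'
  have d4 := dst_le_cost ha hab (ω := ω) h1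
  have d5 := dst_le_cost ha hab (ω := ω) h3
  have d6 : b * (rho u u' : ℝ) ≤ b * (D + 2) := mul_le_mul_of_nonneg_left hr' hb.le
  linarith

/-- a geodesic has few edges in a set of small diameter -/
theorem gam_inter (ha : 0 < a) (hab : a < b) (v u : Vtx N) (ω : Edge N → Bool)
    (A : Finset (Edge N)) (D : ℕ) (hA : ∀ e ∈ A, ∀ e' ∈ A, rho e.1 e'.1 ≤ D) :
    a * (gam a b v u ω ∩ A).card ≤ b * (D + 2) := by
  have hb : 0 < b := ha.trans hab
  have hw := geo_walk ha hab v u ω
  have hc := geo_cost ha hab v u ω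
  have hcard : (gam a b v u ω ∩ A).card ≤ chgCnt A (geo a b v u ω) := by
    unfold chgCnt
    calc (gam a b v u ω ∩ A).card ≤ ((geo a b v u ω).filter (fun e => e ∈ A)).toFinset.card := by
          apply Finset.card_le_card
          intro e he
          rw [Finset.mem_inter] at he
          rw [List.mem_toFinset, List.mem_filter]
          refine ⟨?_, by simpa using he.2⟩
          have := he.1
          unfold gam at this
          exact List.mem_toFinset.1 this
      _ ≤ _ := List.toFinset_card_le _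
  rcases chg_key ha hab ω A hw with h0 | ⟨p, p', l1, l3, h1, h2, h3, h4, h5, h6, h7⟩
  · have : chgCnt A (geo a b v u ω) = 0 := by
      simp only [chgCnt, List.length_eq_zero_iff, List.filter_eq_nil_iff]
      intro e' he'
      simpa using h0 e' he'
    have hz : (gam a b v u ω ∩ A).card = 0 := by omega
    rw [hz]
    have : (0:ℝ) ≤ b * (D + 2) := by positivity
    simpa using this
  · have hd := chg_detour ha hab ω A D hA h1 h2 h5 h6
    have hFF : dst a b ω u (u + v) = FF a b v u ω := rfl
    rw [hFF, ← hc] at hd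
    have hcard' : ((gam a b v u ω ∩ A).card : ℝ) ≤ chgCnt A (geo a b v u ω) := by
      exact_mod_cast hcard
    have := mul_le_mul_of_nonneg_left hcard' ha.le
    linarith

/-- changing the weights in a set of small diameter changes passage times a little -/
theorem dst_change (ha : 0 < a) (hab : a < b) (ω ω' : Edge N → Bool)
    (A : Finset (Edge N)) (D : ℕ) (hA : ∀ e ∈ A, ∀ e' ∈ A, rho e.1 e'.1 ≤ D)
    (h : ∀ e ∉ A, ω e = ω' e) (x y : Vtx N) :
    dst a b ω' x y ≤ dst a b ω x y + b * (D + 2) := by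
  have hb : 0 < b := ha.trans hab
  obtain ⟨l, hw, hc⟩ := exists_geod ha hab ω x y
  rcases chg_key ha hab ω A hw with h0 | ⟨p, p', l1, l3, h1, h2, h3, h4, h5, h6, h7⟩
  · have := dst_le_cost ha hab (ω := ω') hw
    rw [chg_cost_congr ω ω' A h l h0, hc] at this
    have : (0:ℝ) ≤ b * (D + 2) := by positivity
    linarith
  · have hd := chg_detour ha hab ω' A D hA h1 h2 h5 h6
    rw [chg_cost_congr ω ω' A h l1 h3, chg_cost_congr ω ω' A h l3 h4] at hd
    have hcn : (0:ℝ) ≤ a * chgCnt A l := by positivity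
    linarith

/-- if a geodesic avoids `A` then changing the weights in `A` does not increase the passage time -/
theorem dst_avoid (ha : 0 < a) (hab : a < b) (ω ω' : Edge N → Bool) (A : Finset (Edge N))
    (h : ∀ e ∉ A, ω e = ω' e) {x y : Vtx N} {l : List (Edge N)} (hw : Walk x y l)
    (hc : cost a b ω l = dst a b ω x y) (hl : ∀ e ∈ l, e ∉ A) :
    dst a b ω' x y ≤ dst a b ω x y := by
  have := dst_le_cost ha hab (ω := ω') hw
  rw [chg_cost_congr ω ω' A h l hl, hc] at this
  exact this

/-- if changing the weights in `A` increases the passage time from `u` to `u + v` then the chosen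
geodesic uses an edge in `A` -/
theorem gam_meets (ha : 0 < a) (hab : a < b) (v u : Vtx N) (ω ω' : Edge N → Bool)
    (A : Finset (Edge N)) (h : ∀ e ∉ A, ω e = ω' e) (hlt : FF a b v u ω < FF a b v u ω') :
    (gam a b v u ω ∩ A).Nonempty := by
  by_contra hne
  rw [Finset.not_nonempty_iff_eq_empty] at hne
  have hl : ∀ e ∈ geo a b v u ω, e ∉ A := by
    intro e he heA
    have : e ∈ gam a b v u ω ∩ A := by
      rw [Finset.mem_inter]
      exact ⟨List.mem_toFinset.2 he, heA⟩
    rw [hne] at this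
    simp at this
  have := dst_avoid ha hab ω ω' A h (geo_walk ha hab v u ω) (geo_cost ha hab v u ω) hl
  exact absurd hlt (not_lt.2 this)

/-- HUB PROPERTY: if changing the weights in `A` increases the passage time from `u` to `u + v` by
more than `x` and `y` has excess at most `x`, then a geodesic from `u` to `y` or from `y` to
`u + v` passes through the base vertex of an edge in `A` -/
theorem hub_property (ha : 0 < a) (hab : a < b) (v u : Vtx N) (ω ω' : Edge N → Bool)
    (A : Finset (Edge N)) (h : ∀ e ∉ A, ω e = ω' e) (x : ℝ)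
    (hlt : FF a b v u ω + x < FF a b v u ω') (y : Vtx N) (hy : exc a b v u ω y ≤ x) :
    ∃ e ∈ A, dst a b ω u e.1 + dst a b ω e.1 y = dst a b ω u y ∨
      dst a b ω y e.1 + dst a b ω e.1 (u + v) = dst a b ω y (u + v) := by
  by_contra hcon
  push Not at hcon
  obtain ⟨l, hw, hc⟩ := exists_geod ha hab ω u y
  obtain ⟨l', hw', hc'⟩ := exists_geod ha hab ω y (u + v)
  have hl : ∀ e ∈ l, e ∉ A := fun e he heA => (hcon e heA).1 (geod_mem ha hab hw hc he)
  have hl' : ∀ e ∈ l', e ∉ A := fun e he heA => (hcon e heA).2 (geod_mem ha hab hw' hc' he)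
  have e1 := dst_avoid ha hab ω ω' A h hw hc hl
  have e2 := dst_avoid ha hab ω ω' A h hw' hc' hl'
  have e3 := dst_triangle ha hab ω' u y (u + v)
  have e4 : FF a b v u ω' = dst a b ω' u (u + v) := rfl
  have e5 : FF a b v u ω = dst a b ω u (u + v) := rfl
  unfold exc at hy
  rw [e4, e5] at hlt
  linarith

end

end Pool.FPP
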