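import Pool.Agent.FPP.WLK

/-!
Module COR: arithmetic of corners (Nat division in ZMod N).
-/

set_option autoImplicit false

noncomputable section

namespace Pool.FPP

open Finset

section

variable {N : ℕ} [NeZero N] {a b : ℝ}

private theorem cor_val (L : ℕ) (t : ZMod N) : (((t.val / L * L : ℕ) : ZMod N)).val = t.val / L * L := by
  rw [ZMod.val_natCast, Nat.mod_eq_of_lt]
  exact lt_of_le_of_lt (Nat.div_mul_le_self _ _) (ZMod.val_lt t)

private theorem cor_idem (L k : ℕ) : k / L * L / L * L = k / L * L := by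
  rcases Nat.eq_zero_or_pos L with h | h
  · subst h; simp
  · rw [Nat.mul_div_cancel _ h]

theorem corner_corner (L : ℕ) (x : Vtx N) : corner L (corner L x) = corner L x := by
  unfold corner
  simp only [cor_val, cor_idem]

theorem corner_mem_tiles (L : ℕ) (x : Vtx N) : corner L x ∈ tiles N L := by
  unfold tiles
  rw [Finset.mem_filter]
  exact ⟨Finset.mem_univ _, corner_corner L x⟩

theorem corner_one (x : Vtx N) : corner 1 x = x := by
  unfold corner
  simp

/-- the corner of the big tile of the corner of the small tile -/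
theorem corner_nest {l L : ℕ} (hl : 0 < l) (h : l ∣ L) (hL : 0 < L) (x : Vtx N) :
    corner L (corner l x) = corner L x := by
  obtain ⟨k, rfl⟩ := h
  have hk : ∀ n : ℕ, n / l * l / (l * k) = n / (l * k) := by
    intro n
    rw [← Nat.div_div_eq_div_mul, Nat.mul_div_cancel _ hl, Nat.div_div_eq_div_mul]
  unfold corner
  simp only [cor_val, hk]

/-- `x = corner + offset` -/
theorem corner_add_off {L : ℕ} (hL : 0 < L) (x : Vtx N) :
    x = corner L x + (((x.1.val % L : ℕ) : ZMod N), ((x.2.val % L : ℕ) : ZMod N)) := by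
  have h : ∀ t : ZMod N, t = ((t.val / L * L : ℕ) : ZMod N) + ((t.val % L : ℕ) : ZMod N) := by
    intro t
    rw [← Nat.cast_add, mul_comm, Nat.div_add_mod]
    simp
  unfold corner
  exact Prod.ext (h x.1) (h x.2)

private theorem cor_coord {L : ℕ} (hL : 0 < L) (hLN : L ∣ N) (t : ZMod N)
    (ht : ((t.val / L * L : ℕ) : ZMod N) = t) (i : ℕ) (hi : i < L) :
    (((t + (i : ZMod N)).val / L * L : ℕ) : ZMod N) = t ∧ (t + (i : ZMod N)).val % L = i := by
  have h1 : t.val / L * L = t.val := by
    have := congrArg ZMod.val ht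
    rwa [cor_val] at this
  obtain ⟨M, hM⟩ := hLN
  set k := t.val / L with hk
  have h2 : t.val = k * L := h1.symm
  have h3 : k * L < L * M := by rw [← h2, ← hM]; exact ZMod.val_lt t
  have h4 : k < M := by
    by_contra hcon
    push Not at hcon
    have : L * M ≤ k * L := by rw [mul_comm k L]; exact Nat.mul_le_mul_left L hcon
    omega
  have h5 : k * L + i < N := by
    have h6 : (k + 1) * L ≤ M * L := Nat.mul_le_mul_right L h4
    rw [hM, mul_comm L M]
    have h7 : (k + 1) * L = k * L + L := by ring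
    omega
  have h8 : (t + (i : ZMod N)).val = k * L + i := by
    rw [ZMod.val_add, ZMod.val_natCast, Nat.mod_eq_of_lt (a := i) (by omega), h2,
      Nat.mod_eq_of_lt h5]
  have h9 : (k * L + i) / L = k := by
    rw [add_comm, Nat.add_mul_div_right _ _ hL, Nat.div_eq_of_lt hi, zero_add]
  constructor
  · rw [h8, h9, ← h2]
    simp
  · rw [h8, add_comm, Nat.add_mul_mod_self_right, Nat.mod_eq_of_lt hi]

/-- coordinates of corner plus offset -/
theorem corner_of_add {L : ℕ} (hL : 0 < L) (hLN : L ∣ N) (c : Vtx N) (hc : corner L c = c)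
    (i j : ℕ) (hi : i < L) (hj : j < L) :
    corner L (c + (((i : ℕ) : ZMod N), ((j : ℕ) : ZMod N))) = c ∧
      (c + (((i : ℕ) : ZMod N), ((j : ℕ) : ZMod N))).1.val % L = i ∧
      (c + (((i : ℕ) : ZMod N), ((j : ℕ) : ZMod N))).2.val % L = j := by
  have h1 := cor_coord hL hLN c.1 (congrArg Prod.fst hc) i hi
  have h2 := cor_coord hL hLN c.2 (congrArg Prod.snd hc) j hj
  exact ⟨Prod.ext h1.1 h2.1, h1.2, h2.2⟩

theorem tileE_disjoint (L : ℕ) (c c' : Vtx N) (h : c ≠ c') :
    Disjoint (tileE L c) (tileE L c') := by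
  rw [Finset.disjoint_left]
  intro e he he'
  unfold tileE at he he'
  rw [Finset.mem_filter] at he he'
  exact h (he.2.symm.trans he'.2)

theorem mem_subTiles {l L : ℕ} {C c : Vtx N} :
    c ∈ subTiles l L C ↔ corner l c = c ∧ corner L c = C := by
  unfold subTiles
  rw [Finset.mem_filter]
  exact ⟨fun h => h.2, fun h => ⟨Finset.mem_univ _, h⟩⟩

/-- the small tiles in a big tile cover it -/
theorem U_subTiles {l L : ℕ} (hl : 0 < l) (h : l ∣ L) (hL : 0 < L) (C : Vtx N) :
    U (tileE l) (subTiles l L C) = tileE L C := by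
  ext e
  unfold U tileE
  simp only [Finset.mem_biUnion, mem_subTiles, Finset.mem_filter, Finset.mem_univ, true_and]
  constructor
  · rintro ⟨c, ⟨_, h2⟩, h3⟩
    rw [← h2, ← h3, corner_nest hl h hL]
  · intro h1
    exact ⟨corner l e.1, ⟨corner_corner l e.1, by rw [corner_nest hl h hL]; exact h1⟩, rfl⟩

theorem U_tiles (L : ℕ) : U (tileE (N := N) L) (tiles N L) = univ := by
  ext e
  unfold U
  simp only [Finset.mem_biUnion, Finset.mem_univ, iff_true]
  refine ⟨corner L e.1, corner_mem_tiles L e.1, ?_⟩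
  unfold tileE
  simp

/-- sums over small tiles, grouped by big tiles -/
theorem sum_tiles_nest {l L : ℕ} (hl : 0 < l) (h : l ∣ L) (hL : 0 < L) (f : Vtx N → ℝ) :
    ∑ C ∈ tiles N L, ∑ c ∈ subTiles l L C, f c = ∑ c ∈ tiles N l, f c := by
  rw [← Finset.sum_fiberwise_of_maps_to (s := tiles N l) (t := tiles N L) (g := corner L)
    (fun c _ => corner_mem_tiles L c)]
  refine Finset.sum_congr rfl fun C _ => Finset.sum_congr ?_ fun _ _ => rfl
  ext c
  rw [mem_subTiles, Finset.mem_filter]
  unfold tiles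
  simp

theorem subTiles_subset {l m L : ℕ} (hl : 0 < l) (h : l ∣ m) (hm : 0 < m) (h' : m ∣ L)
    (hL : 0 < L) (C c : Vtx N) (hc : c ∈ subTiles m L C) :
    subTiles l m c ⊆ subTiles l L C := by
  intro x hx
  rw [mem_subTiles] at hc hx ⊢
  refine ⟨hx.1, ?_⟩
  rw [← hc.2, ← hx.2, corner_nest hm h' hL]

end

end Pool.FPP
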