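import Mathlib

/-!
# First passage percolation: definitions for the bound `Var ≤ C n / (log n)^K`

Part 1: uniform averages on finite product spaces and the block projections.
Part 2: the discrete torus, its edges, walks, passage times, tiles and inner shifts.
-/

set_option autoImplicit false

noncomputable section

namespace Pool.FPP

open Finset

/-! ## Part 1: finite product spaces -/

section Prod

variable {ι κ α : Type*}

/-- uniform average over a finite type -/
def Ex {Ω : Type*} [Fintype Ω] (f : Ω → ℝ) : ℝ := (∑ ω, f ω) / (Fintype.card Ω : ℝ)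

/-- `mix A η ω` takes the coordinates in `A` from `η` and the other ones from `ω` -/
def mix [DecidableEq ι] (A : Finset ι) (η ω : ι → α) : ι → α :=
  fun i => if i ∈ A then η i else ω i

variable [Fintype ι] [DecidableEq ι] [Fintype α]

/-- average over the coordinates in `A` -/
def av (A : Finset ι) (f : (ι → α) → ℝ) (ω : ι → α) : ℝ :=
  Ex fun η : ι → α => f (mix A η ω)

omit [Fintype ι] [Fintype α] in
/-- union of the blocks with index in `S` -/
def U (blk : κ → Finset ι) (S : Finset κ) : Finset ι := S.biUnion blk

variable [DecidableEq κ]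

/-- pure interaction component on `J ⊆ K`, that is `∏_{j ∈ J} (1 - E_j) E_{K \ J} f` where `E_j`
averages over the block `j` -/
def cmp (blk : κ → Finset ι) (K J : Finset κ) (f : (ι → α) → ℝ) (ω : ι → α) : ℝ :=
  ∑ T ∈ J.powerset, (-1 : ℝ) ^ T.card * av (U blk ((K \ J) ∪ T)) f ω

/-- projection on the components of degree at most `d` in the blocks of `K` -/
def Pd (blk : κ → Finset ι) (K : Finset κ) (d : ℕ) (f : (ι → α) → ℝ) (ω : ι → α) : ℝ :=
  ∑ J ∈ K.powerset.filter (fun J => J.card ≤ d), cmp blk K J f ω

omit [Fintype ι] [DecidableEq ι] [Fintype α] in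
/-- first configuration of a pair configuration -/
def fstc (w : ι → α × α) : ι → α := fun i => (w i).1

omit [Fintype ι] [DecidableEq ι] [Fintype α] in
/-- second configuration of a pair configuration -/
def sndc (w : ι → α × α) : ι → α := fun i => (w i).2

omit [Fintype ι] [Fintype α] in
/-- the first configuration with the coordinates in `A` taken from the second one -/
def res (A : Finset ι) (w : ι → α × α) : ι → α := mix A (sndc w) (fstc w)

omit [Fintype ι] [Fintype α] in
/-- positive part of the increment of `F` when the coordinates in `A` are resampled -/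
def inc (A : Finset ι) (F : (ι → α) → ℝ) (w : ι → α × α) : ℝ :=
  max 0 (F (res A w) - F (fstc w))

omit [Fintype ι] [Fintype α] in
/-- flip one bit -/
def flipAt (e : ι) (ω : ι → Bool) : ι → Bool := Function.update ω e (!(ω e))

end Prod

/-! ## Part 2: the torus -/

/-- vertices of the torus of side `N` -/
abbrev Vtx (N : ℕ) : Type := ZMod N × ZMod N

/-- edges of the torus: `(x, false)` joins `x` to `x + (1,0)`, `(x, true)` joins `x` to
`x + (0,1)` -/
abbrev Edge (N : ℕ) : Type := Vtx N × Bool

variable {N : ℕ}

/-- the second end point of an edge (the first one is `e.1`) -/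
def hd (e : Edge N) : Vtx N := if e.2 then (e.1.1, e.1.2 + 1) else (e.1.1 + 1, e.1.2)

/-- `Walk x y l`: there is a walk from `x` to `y` that uses the edges of the list `l` in order -/
inductive Walk : Vtx N → Vtx N → List (Edge N) → Prop
  | nil (x : Vtx N) : Walk x x []
  | fwd (e : Edge N) (y : Vtx N) (l : List (Edge N)) : Walk (hd e) y l → Walk e.1 y (e :: l)
  | bwd (e : Edge N) (y : Vtx N) (l : List (Edge N)) : Walk e.1 y l → Walk (hd e) y (e :: l)

/-- weight of an edge: `a` if the bit is true, `b` if it is false -/
def wt (a b : ℝ) (ω : Edge N → Bool) (e : Edge N) : ℝ := if ω e = true then a else b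

/-- total weight of a list of edges -/
def cost (a b : ℝ) (ω : Edge N → Bool) (l : List (Edge N)) : ℝ := (l.map (wt a b ω)).sum

/-- passage time -/
def dst (a b : ℝ) (ω : Edge N → Bool) (x y : Vtx N) : ℝ :=
  sInf {t : ℝ | ∃ l : List (Edge N), Walk x y l ∧ t = cost a b ω l}

/-- graph distance on the torus -/
def rho (x y : Vtx N) : ℕ :=
  (ZMod.valMinAbs (x.1 - y.1)).natAbs + (ZMod.valMinAbs (x.2 - y.2)).natAbs

/-- translation of configurations: `(tau z ω) e = ω (e + z)` -/
def tau (z : Vtx N) (ω : Edge N → Bool) : Edge N → Bool := fun e => ω (e.1 + z, e.2)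

/-- corner (lower left vertex) of the tile of side `L` that contains `x`; used for `L ∣ N` -/
def corner (L : ℕ) (x : Vtx N) : Vtx N :=
  (((x.1.val / L * L : ℕ) : ZMod N), ((x.2.val / L * L : ℕ) : ZMod N))

variable [NeZero N]

/-- edges of the tile of side `L` with corner `c` (empty if `c` is not a corner) -/
def tileE (L : ℕ) (c : Vtx N) : Finset (Edge N) := univ.filter (fun e => corner L e.1 = c)

/-- the set of corners of tiles of side `L` -/
def tiles (N : ℕ) [NeZero N] (L : ℕ) : Finset (Vtx N) := univ.filter (fun c => corner L c = c)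

/-- the corners of the tiles of side `l` inside the tile of side `L` with corner `C` -/
def subTiles (l L : ℕ) (C : Vtx N) : Finset (Vtx N) :=
  univ.filter (fun c => corner l c = c ∧ corner L c = C)

/-- inner cyclic shift of the vertices of the tile of side `L` with corner `C` by `z` -/
def innV (L : ℕ) (C : Vtx N) (z : ℕ × ℕ) (x : Vtx N) : Vtx N :=
  if corner L x = C then
    (C.1 + (((x.1.val % L + z.1) % L : ℕ) : ZMod N), C.2 + (((x.2.val % L + z.2) % L : ℕ) : ZMod N))
  else x

/-- inner shift of configurations: inside the tile with corner `C` the configuration is shifted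
cyclically by `z`: `(sg L C z ω) (innV x, dir) = ω (x, dir)`.  Defined with the inverse shift. -/
def sg (L : ℕ) (C : Vtx N) (z : ℕ × ℕ) (ω : Edge N → Bool) : Edge N → Bool :=
  fun e => ω (innV L C (L - z.1 % L, L - z.2 % L) e.1, e.2)

/-- passage time from `u` to `u + v` -/
def FF (a b : ℝ) (v u : Vtx N) (ω : Edge N → Bool) : ℝ := dst a b ω u (u + v)

/-- excess of the vertex `y` for the passage from `u` to `u + v` -/
def exc (a b : ℝ) (v u : Vtx N) (ω : Edge N → Bool) (y : Vtx N) : ℝ :=
  dst a b ω u y + dst a b ω y (u + v) - dst a b ω u (u + v)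

/-- `c` is the corner of a tile of side `l` that contains a vertex of excess at most `x` -/
def NT (a b : ℝ) (v u : Vtx N) (l : ℕ) (x : ℝ) (ω : Edge N → Bool) (c : Vtx N) : Prop :=
  ∃ y : Vtx N, corner l y = c ∧ exc a b v u ω y ≤ x

/-- the open window of radius `m` around `c` -/
def window (m : ℕ) (c c' : Vtx N) : Prop :=
  (ZMod.valMinAbs (c'.1 - c.1)).natAbs < m ∧ (ZMod.valMinAbs (c'.2 - c.2)).natAbs < m

open Classical in
/-- number of near-tie tiles of side `l` (level `x`) in the window of radius `m` around `c` -/
def cntNT (a b : ℝ) (v u : Vtx N) (l : ℕ) (x : ℝ) (m : ℕ) (ω : Edge N → Bool) (c : Vtx N) : ℕ :=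
  (univ.filter (fun c' : Vtx N => NT a b v u l x ω c' ∧ window m c c')).card

/-- sum over the tiles of side `L` of the conditional variances of `F` -/
def EE (F : (Edge N → Bool) → ℝ) (L : ℕ) : ℝ :=
  ∑ C ∈ tiles N L, Ex (fun ω => (F ω - av (tileE L C) F ω) ^ 2)

end Pool.FPP
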