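import Pool.Agent.FPP.ES

/-!
Module MOM: second and fourth moments.
Efron-Stein on bits: Ex(G - av A G)^2 ≤ sum_{e in A} Ex(G - av {e} G)^2 = (1/4) sum_e Ex (G(flip e) - G)^2
= (1/2) sum_{e in A} Ex ((G(flip)-G)_+)^2.  second_le is immediate.
fourth_le: H = (F - av A F)^2. (H(flip)-H)^2 = (F'-F)^2 (F'+F-2 avF)^2, counted where F' > F (then e ∈ γ ω):
≤ κ^2 (2|F-avF| + κ)^2 ≤ κ^2 (8 H + 2 κ^2). With n = |γ ∩ A|, s = Ex n:
Ex H^2 ≤ Ex(H - av H)^2 + Ex (av H)^2 ≤ 4 κ^2 Ex(n H) + κ^4 s + (1/4) κ^4 K s  [av H ≤ κ^2 K/2 and second_le],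
Ex(n H) ≤ (K s)^{1/2} (Ex H^2)^{1/2}; y^2 ≤ P y + Q gives y^2 ≤ P^2 + 2Q: 16K + 2 + K/2 ≤ 19 K.
(av H ≤ κ^2 K/2 pointwise: conditional version of second_le.)
-/

set_option autoImplicit false

noncomputable section

namespace Pool.FPP

open Finset

section

variable {ι : Type*} [Fintype ι] [DecidableEq ι]

omit [Fintype ι] in
private theorem mom_flip_flip (e : ι) (ω : ι → Bool) : flipAt e (flipAt e ω) = ω := by
  unfold flipAt
  funext i
  by_cases h : i = e
  · subst h; simp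
  · simp [h]

private def momEquiv (e : ι) : (ι → Bool) ≃ (ι → Bool) where
  toFun := flipAt e
  invFun := flipAt e
  left_inv := mom_flip_flip e
  right_inv := mom_flip_flip e

private theorem mom_av_single (e : ι) (G : (ι → Bool) → ℝ) (ω : ι → Bool) :
    av {e} G ω = (G ω + G (flipAt e ω)) / 2 := by
  unfold av
  have h1 : ∀ η : ι → Bool, G (mix {e} η ω) + G (mix {e} (flipAt e η) ω) =
      G ω + G (flipAt e ω) := by
    intro η
    by_cases h : η e = ω e
    · have h2 : mix {e} η ω = ω := by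
        funext i
        unfold mix
        by_cases hi : i = e
        · subst hi; simp [h]
        · simp [hi]
      have h3 : mix {e} (flipAt e η) ω = flipAt e ω := by
        funext i
        unfold mix flipAt
        by_cases hi : i = e
        · subst hi; simp [h]
        · simp [hi]
      rw [h2, h3]
    · have h' : η e = !(ω e) := by
        cases h1 : η e <;> cases h2 : ω e <;> simp_all
      have h2 : mix {e} η ω = flipAt e ω := by
        funext i
        unfold mix flipAt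
        by_cases hi : i = e
        · subst hi; simp [h']
        · simp [hi]
      have h3 : mix {e} (flipAt e η) ω = ω := by
        funext i
        unfold mix flipAt
        by_cases hi : i = e
        · subst hi; simp [h']
        · simp [hi]
      rw [h2, h3]; ring
  have h2 : Ex (fun η : ι → Bool => G (mix {e} (flipAt e η) ω)) =
      Ex (fun η : ι → Bool => G (mix {e} η ω)) :=
    Ex_equiv (momEquiv e) (fun η : ι → Bool => G (mix {e} η ω))
  have h3 : Ex (fun η : ι → Bool => G (mix {e} η ω) + G (mix {e} (flipAt e η) ω)) =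
      G ω + G (flipAt e ω) := by
    rw [show (fun η : ι → Bool => G (mix {e} η ω) + G (mix {e} (flipAt e η) ω)) =
      fun _ => G ω + G (flipAt e ω) from funext h1, Ex_const]
  rw [Ex_add, h2] at h3
  linarith

private theorem mom_av_flip (A : Finset ι) (e : ι) (he : e ∈ A) (g : (ι → Bool) → ℝ)
    (ω : ι → Bool) : av A (fun ω => g (flipAt e ω)) ω = av A g ω := by
  have hA : A ∪ {e} = A := by
    rw [Finset.union_eq_left]; simpa using he
  have h1 : ∀ g : (ι → Bool) → ℝ, av A g = av A (av {e} g) := by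
    intro g; rw [av_av, hA]
  rw [h1 g, h1 (fun ω => g (flipAt e ω))]
  congr 1
  funext ω
  rw [mom_av_single, mom_av_single, mom_flip_flip]
  ring

/-- conditional version: one bit -/
private theorem mom_bit (A : Finset ι) (e : ι) (he : e ∈ A) (G B : (ι → Bool) → ℝ)
    (hB : ∀ ω, (G (flipAt e ω) - G ω) ^ 2 ≤ B ω + B (flipAt e ω))
    (ω : ι → Bool) : av A (fun ω => (G ω - av {e} G ω) ^ 2) ω ≤ 1 / 2 * av A B ω := by
  have h1 : ∀ ω, (G ω - av {e} G ω) ^ 2 ≤ 1 / 4 * (B ω + B (flipAt e ω)) := by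
    intro ω
    rw [mom_av_single]
    have e1 : (G ω - (G ω + G (flipAt e ω)) / 2) ^ 2 = 1 / 4 * (G (flipAt e ω) - G ω) ^ 2 := by
      ring
    rw [e1]
    have := hB ω
    linarith
  refine (av_mono A h1 ω).trans ?_
  rw [av_mul_left, av_add, mom_av_flip A e he]
  apply le_of_eq
  ring

omit [Fintype ι] in
private theorem mom_U (A : Finset ι) : U (fun e : ι => ({e} : Finset ι)) A = A := by
  unfold U
  exact Finset.biUnion_singleton_eq_self

/-- Efron-Stein for bits, conditional version -/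
private theorem mom_es (A : Finset ι) (G : (ι → Bool) → ℝ) (B : ι → (ι → Bool) → ℝ)
    (hB : ∀ e ∈ A, ∀ ω, (G (flipAt e ω) - G ω) ^ 2 ≤ B e ω + B e (flipAt e ω))
    (ω : ι → Bool) :
    av A (fun ω => (G ω - av A G ω) ^ 2) ω ≤ 1 / 2 * av A (fun ω => ∑ e ∈ A, B e ω) ω := by
  have h1 := efron_stein (fun e : ι => ({e} : Finset ι))
    (fun i j hij => Finset.disjoint_singleton.2 hij) A G ω
  rw [mom_U] at h1
  refine h1.trans ?_
  rw [av_sum, Finset.mul_sum]
  exact Finset.sum_le_sum (fun e he => mom_bit A e he G (B e) (hB e he) ω)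

omit [Fintype ι] in
private theorem mom_card (γ : (ι → Bool) → Finset ι) (A : Finset ι) (ω : ι → Bool) :
    ∑ e ∈ A, (if e ∈ γ ω then (1 : ℝ) else 0) = ((γ ω ∩ A).card : ℝ) := by
  rw [Finset.sum_ite_mem, Finset.sum_const, nsmul_eq_mul, mul_one, Finset.inter_comm]

omit [Fintype ι] in
/-- from a bound on the increasing side to the symmetric bound -/
private theorem mom_sym (F G : (ι → Bool) → ℝ) (B : (ι → Bool) → ℝ) (e : ι)
    (h0 : ∀ ω, F ω = F (flipAt e ω) → G ω = G (flipAt e ω)) (hB0 : ∀ ω, 0 ≤ B ω)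
    (hB : ∀ ω, F ω < F (flipAt e ω) → (G (flipAt e ω) - G ω) ^ 2 ≤ B ω) (ω : ι → Bool) :
    (G (flipAt e ω) - G ω) ^ 2 ≤ B ω + B (flipAt e ω) := by
  rcases lt_trichotomy (F ω) (F (flipAt e ω)) with h | h | h
  · have := hB ω h
    have := hB0 (flipAt e ω)
    linarith
  · rw [h0 ω h, sub_self]
    have := hB0 (flipAt e ω)
    have := hB0 ω
    norm_num
    linarith
  · have h3 := hB (flipAt e ω) (by rw [mom_flip_flip]; exact h)
    rw [mom_flip_flip] at h3
    have := hB0 ω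
    nlinarith

/-- conditional second moment -/
private theorem mom_second (F : (ι → Bool) → ℝ) (γ : (ι → Bool) → Finset ι) (κ : ℝ)
    (hF : ∀ ω e, F (flipAt e ω) - F ω ≤ if e ∈ γ ω then κ else 0) (A : Finset ι)
    (ω : ι → Bool) : av A (fun ω => (F ω - av A F ω) ^ 2) ω ≤
      κ ^ 2 / 2 * av A (fun ω => ((γ ω ∩ A).card : ℝ)) ω := by
  have h1 := mom_es A F (fun e ω => κ ^ 2 * (if e ∈ γ ω then (1 : ℝ) else 0))
    (by
      intro e _ ω
      refine mom_sym F F (fun ω => κ ^ 2 * (if e ∈ γ ω then (1 : ℝ) else 0)) e (fun _ h => h) (fun ω => ?_) (fun ω hlt => ?_) ω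
      · split_ifs <;> simp [sq_nonneg]
      · have h2 := hF ω e
        split_ifs at h2 ⊢ with h3
        · rw [mul_one]
          exact pow_le_pow_left₀ (by linarith) h2 2
        · linarith) ω
  refine h1.trans (le_of_eq ?_)
  have h2 : (fun ω => ∑ e ∈ A, κ ^ 2 * (if e ∈ γ ω then (1 : ℝ) else 0)) =
      fun ω => κ ^ 2 * ((γ ω ∩ A).card : ℝ) := by
    funext ω
    rw [← Finset.mul_sum, mom_card]
  rw [h2, av_mul_left]
  ring

theorem second_le (F : (ι → Bool) → ℝ) (γ : (ι → Bool) → Finset ι) (κ : ℝ) (hκ : 0 ≤ κ)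
    (hF : ∀ ω e, F (flipAt e ω) - F ω ≤ if e ∈ γ ω then κ else 0) (A : Finset ι) :
    Ex (fun ω => (F ω - av A F ω) ^ 2) ≤ κ ^ 2 / 2 * Ex (fun ω => ((γ ω ∩ A).card : ℝ)) := by
  have _ := hκ
  rw [← Ex_av A (fun ω => (F ω - av A F ω) ^ 2), ← Ex_av A (fun ω => ((γ ω ∩ A).card : ℝ)),
    ← Ex_mul_left]
  exact Ex_mono (mom_second F γ κ hF A)

theorem fourth_le (F : (ι → Bool) → ℝ) (γ : (ι → Bool) → Finset ι) (κ : ℝ) (hκ : 0 ≤ κ)
    (hF : ∀ ω e, F (flipAt e ω) - F ω ≤ if e ∈ γ ω then κ else 0) (A : Finset ι)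
    (K : ℝ) (hK1 : 1 ≤ K) (hK : ∀ ω, ((γ ω ∩ A).card : ℝ) ≤ K) :
    Ex (fun ω => (F ω - av A F ω) ^ 4) ≤ 19 * κ ^ 4 * K * Ex (fun ω => ((γ ω ∩ A).card : ℝ)) := by
  set m : (ι → Bool) → ℝ := av A F with hm
  set H : (ι → Bool) → ℝ := fun ω => (F ω - m ω) ^ 2 with hH
  set n : (ι → Bool) → ℝ := fun ω => ((γ ω ∩ A).card : ℝ) with hn
  have hH0 : ∀ ω, 0 ≤ H ω := fun ω => sq_nonneg _
  have hn0 : ∀ ω, 0 ≤ n ω := fun ω => Nat.cast_nonneg _
  have hs0 : 0 ≤ Ex n := Ex_nonneg hn0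
  have hmf : ∀ e ∈ A, ∀ ω, m (flipAt e ω) = m ω := by
    intro e he ω
    refine av_congr_off A F _ _ (fun i hi => ?_)
    unfold flipAt
    have : i ≠ e := by rintro rfl; exact hi he
    simp [this]
  -- Efron-Stein for H
  have h1 : Ex (fun ω => (H ω - av A H ω) ^ 2) ≤
      1 / 2 * Ex (fun ω => κ ^ 2 * (8 * H ω + 2 * κ ^ 2) * n ω) := by
    rw [← Ex_av A (fun ω => (H ω - av A H ω) ^ 2),
      ← Ex_av A (fun ω => κ ^ 2 * (8 * H ω + 2 * κ ^ 2) * n ω), ← Ex_mul_left]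
    refine Ex_mono (fun ω => ?_)
    have h2 := mom_es A H (fun e ω => κ ^ 2 * (8 * H ω + 2 * κ ^ 2) *
      (if e ∈ γ ω then (1 : ℝ) else 0))
      (by
        intro e he ω
        refine mom_sym F H (fun ω => κ ^ 2 * (8 * H ω + 2 * κ ^ 2) *
          (if e ∈ γ ω then (1 : ℝ) else 0)) e (fun ω h => ?_) (fun ω => ?_) (fun ω hlt => ?_) ω
        · simp only [hH]
          rw [hmf e he ω, h]
        · have := hH0 ω
          split_ifs <;> positivity
        · have h2 := hF ω e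
          split_ifs at h2 ⊢ with h3
          · rw [mul_one]
            have h4 : 0 < F (flipAt e ω) - F ω := by linarith
            simp only [hH]
            rw [hmf e he ω]
            set x := F ω - m ω
            set y := F (flipAt e ω) - F ω
            have h5 : F (flipAt e ω) - m ω = x + y := by ring
            rw [h5]
            have h6 : ((x + y) ^ 2 - x ^ 2) ^ 2 = y ^ 2 * (2 * x + y) ^ 2 := by ring
            rw [h6]
            have h7 : y ^ 2 ≤ κ ^ 2 := pow_le_pow_left₀ h4.le h2 2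
            have h8 : (2 * x + y) ^ 2 ≤ 8 * x ^ 2 + 2 * κ ^ 2 := by
              nlinarith [sq_nonneg (2 * x - y)]
            exact mul_le_mul h7 h8 (sq_nonneg _) (sq_nonneg _)
          · linarith) ω
    refine h2.trans (le_of_eq ?_)
    congr 2
    funext ω
    rw [← Finset.mul_sum, mom_card]
  -- decomposition of the second moment of H
  have h2 : Ex (fun ω => H ω ^ 2) = Ex (fun ω => (H ω - av A H ω) ^ 2) +
      Ex (fun ω => (av A H ω) ^ 2) := by
    rw [← Ex_av A (fun ω => (H ω - av A H ω) ^ 2), ← Ex_av A (fun ω => H ω ^ 2), ← Ex_add]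
    congr 1
    funext ω
    rw [av_var]; ring
  have h3 : ∀ ω, av A H ω ≤ κ ^ 2 / 2 * K := by
    intro ω
    refine (mom_second F γ κ hF A ω).trans ?_
    refine mul_le_mul_of_nonneg_left ?_ (by positivity)
    calc av A (fun ω => ((γ ω ∩ A).card : ℝ)) ω ≤ av A (fun _ => K) ω := av_mono A hK ω
      _ = K := av_const A K ω
  have h4 : Ex H ≤ κ ^ 2 / 2 * Ex n := second_le F γ κ hκ hF A
  have h5 : Ex (fun ω => (av A H ω) ^ 2) ≤ κ ^ 4 / 4 * K * Ex n := by
    have h6 : ∀ ω, (av A H ω) ^ 2 ≤ κ ^ 2 / 2 * K * av A H ω := by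
      intro ω
      rw [sq]
      exact mul_le_mul_of_nonneg_right (h3 ω) (av_nonneg A hH0 ω)
    calc Ex (fun ω => (av A H ω) ^ 2) ≤ Ex (fun ω => κ ^ 2 / 2 * K * av A H ω) := Ex_mono h6
      _ = κ ^ 2 / 2 * K * Ex H := by
          rw [Ex_mul_left]
          congr 1
          exact Ex_av A H
      _ ≤ κ ^ 2 / 2 * K * (κ ^ 2 / 2 * Ex n) := by gcongr
      _ = κ ^ 4 / 4 * K * Ex n := by ring
  have h6 : 1 / 2 * Ex (fun ω => κ ^ 2 * (8 * H ω + 2 * κ ^ 2) * n ω) ≤
      1 / 2 * Ex (fun ω => H ω ^ 2) + (8 * κ ^ 4 * K + κ ^ 4) * Ex n := by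
    have h7 : ∀ ω, κ ^ 2 * (8 * H ω + 2 * κ ^ 2) * n ω ≤
        H ω ^ 2 + (16 * κ ^ 4 * K + 2 * κ ^ 4) * n ω := by
      intro ω
      have h8 : n ω ^ 2 ≤ K * n ω := by
        rw [sq]; exact mul_le_mul_of_nonneg_right (hK ω) (hn0 ω)
      have h9 : 8 * κ ^ 2 * n ω * H ω ≤ H ω ^ 2 + 16 * κ ^ 4 * n ω ^ 2 := by
        nlinarith [sq_nonneg (H ω - 4 * κ ^ 2 * n ω)]
      have h10 : 16 * κ ^ 4 * n ω ^ 2 ≤ 16 * κ ^ 4 * (K * n ω) := by gcongr
      nlinarith
    have h8 := Ex_mono h7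
    rw [Ex_add, Ex_mul_left] at h8
    linarith
  have h7 : Ex (fun ω => (F ω - m ω) ^ 4) = Ex (fun ω => H ω ^ 2) := by
    congr 1
    funext ω
    simp only [hH]; ring
  rw [h7]
  have h8 : κ ^ 4 * Ex n ≤ κ ^ 4 * K * Ex n := by
    have : 0 ≤ κ ^ 4 * Ex n := by positivity
    nlinarith
  have h9 : 0 ≤ κ ^ 4 * K * Ex n := by positivity
  nlinarith

end

end Pool.FPP
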