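import Pool.Agent.FPP.BAL
import Pool.Agent.FPP.CHG
import Pool.Agent.FPP.MOM

/-!
Module ENG: block energies.
Apply second_le / fourth_le with γ = gam, κ = b - a, K = (b/a)(2L+2) ≤ 4 (b/a) L, sum over the tiles
(sum_gam_inter, gam_card). EE_anti: Efron-Stein inside each big tile (U_subTiles, sum_tiles_nest).
-/

set_option autoImplicit false

noncomputable section

namespace Pool.FPP

open Finset

section

variable {N : ℕ} [NeZero N] {a b : ℝ}

/-- the mean number of edges of the geodesic, summed over the tiles -/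
theorem eng_sum (ha : 0 < a) (hab : a < b) (v u : Vtx N) (L : ℕ) :
    ∑ C ∈ tiles N L, Ex (fun ω => ((gam a b v u ω ∩ tileE L C).card : ℝ)) ≤ b / a * rho 0 v := by
  rw [← Ex_sum]
  have h1 : ∀ ω, ∑ C ∈ tiles N L, ((gam a b v u ω ∩ tileE L C).card : ℝ) ≤ b / a * rho 0 v := by
    intro ω
    rw [sum_gam_inter]
    have h2 := gam_card ha hab v u ω
    rw [div_mul_eq_mul_div, le_div_iff₀ ha]
    linarith
  calc _ ≤ Ex (fun _ : Edge N → Bool => b / a * rho 0 v) := Ex_mono h1
    _ = b / a * rho 0 v := Ex_const _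

/-- second moment bound for the geodesic functional on a tile, summed -/
theorem EE_le (ha : 0 < a) (hab : a < b) (v u : Vtx N) (L : ℕ) :
    EE (FF a b v u) L ≤ (b - a) ^ 2 * (b / a) * rho 0 v := by
  have hb : 0 < b := ha.trans hab
  unfold EE
  calc ∑ C ∈ tiles N L, Ex (fun ω => (FF a b v u ω - av (tileE L C) (FF a b v u) ω) ^ 2)
      ≤ ∑ C ∈ tiles N L, (b - a) ^ 2 / 2 *
          Ex (fun ω => ((gam a b v u ω ∩ tileE L C).card : ℝ)) :=
        Finset.sum_le_sum fun C _ => second_le (FF a b v u) (gam a b v u) (b - a) (by linarith)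
          (fun ω e => FF_flip ha hab v u ω e) (tileE L C)
    _ = (b - a) ^ 2 / 2 * ∑ C ∈ tiles N L,
          Ex (fun ω => ((gam a b v u ω ∩ tileE L C).card : ℝ)) := by rw [Finset.mul_sum]
    _ ≤ (b - a) ^ 2 / 2 * (b / a * rho 0 v) :=
        mul_le_mul_of_nonneg_left (eng_sum ha hab v u L) (by positivity)
    _ ≤ (b - a) ^ 2 * (b / a) * rho 0 v := by
        have h1 : 0 ≤ (b - a) ^ 2 * (b / a) * rho 0 v := by positivity
        linarith

/-- fourth moment bound, summed over the tiles -/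
theorem fourth_sum (ha : 0 < a) (hab : a < b) {L : ℕ} (hL : 0 < L) (v u : Vtx N) :
    ∑ C ∈ tiles N L, Ex (fun ω => (FF a b v u ω - av (tileE L C) (FF a b v u) ω) ^ 4) ≤
      76 * (b - a) ^ 4 * (b / a) ^ 2 * L * rho 0 v := by
  have hb : 0 < b := ha.trans hab
  have hL1 : (1 : ℝ) ≤ L := by exact_mod_cast hL
  set K : ℝ := b / a * (2 * L + 2) with hK
  have hba : 1 ≤ b / a := by
    rw [one_le_div ha]
    exact hab.le
  have hK1 : 1 ≤ K := by
    rw [hK]
    nlinarith
  have hK4 : K ≤ 4 * (b / a) * L := by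
    rw [hK]
    nlinarith
  have hKb : ∀ (C : Vtx N) (ω : Edge N → Bool), ((gam a b v u ω ∩ tileE L C).card : ℝ) ≤ K := by
    intro C ω
    have h1 := gam_inter ha hab v u ω (tileE L C) (2 * L) (tileE_diam hL C)
    rw [hK, div_mul_eq_mul_div, le_div_iff₀ ha]
    push_cast at h1
    linarith
  calc ∑ C ∈ tiles N L, Ex (fun ω => (FF a b v u ω - av (tileE L C) (FF a b v u) ω) ^ 4)
      ≤ ∑ C ∈ tiles N L, 19 * (b - a) ^ 4 * K *
          Ex (fun ω => ((gam a b v u ω ∩ tileE L C).card : ℝ)) :=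
        Finset.sum_le_sum fun C _ => fourth_le (FF a b v u) (gam a b v u) (b - a) (by linarith)
          (fun ω e => FF_flip ha hab v u ω e) (tileE L C) K hK1 (hKb C)
    _ = 19 * (b - a) ^ 4 * K * ∑ C ∈ tiles N L,
          Ex (fun ω => ((gam a b v u ω ∩ tileE L C).card : ℝ)) := by rw [Finset.mul_sum]
    _ ≤ 19 * (b - a) ^ 4 * K * (b / a * rho 0 v) :=
        mul_le_mul_of_nonneg_left (eng_sum ha hab v u L) (by positivity)
    _ ≤ 19 * (b - a) ^ 4 * (4 * (b / a) * L) * (b / a * rho 0 v) := by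
        gcongr
    _ = 76 * (b - a) ^ 4 * (b / a) ^ 2 * L * rho 0 v := by ring

/-- nested tiles: the block energy decreases with the scale -/
theorem EE_anti {l L : ℕ} (hl : 0 < l) (h : l ∣ L) (hL : 0 < L) (F : (Edge N → Bool) → ℝ) :
    EE F L ≤ EE F l := by
  unfold EE
  rw [← sum_tiles_nest hl h hL (fun c => Ex (fun ω => (F ω - av (tileE l c) F ω) ^ 2))]
  apply Finset.sum_le_sum
  intro C _
  have hU := U_subTiles (N := N) hl h hL C
  have h1 := efron_stein (tileE l) (fun i j hij => tileE_disjoint l i j hij) (subTiles l L C) F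
  rw [hU] at h1
  have h2 := Ex_mono h1
  rw [Ex_av (tileE L C) (fun ω => (F ω - av (tileE L C) F ω) ^ 2), Ex_sum] at h2
  refine h2.trans (le_of_eq ?_)
  apply Finset.sum_congr rfl
  intro s _
  exact Ex_av (tileE L C) (fun ω => (F ω - av (tileE l s) F ω) ^ 2)

end

end Pool.FPP
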