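import Pool.Agent.FPP.SHA
import Pool.Agent.FPP.ENG

/-!
Module ERR: the averaged L2 error of the inner shift averages.
(F-g)^2 ≤ avg_z (F - F∘sg_z)^2, and y^2 ≤ lam |y| + y^4/lam^2; fourth moment of F - F∘sg is at most
16 Ex (F - av F)^4 (av F is invariant under sg); fourth_sum; shift_avg.
-/

set_option autoImplicit false

noncomputable section

namespace Pool.FPP

open Finset

section

variable {N : ℕ} [NeZero N] {a b : ℝ}

/-- average of `FF` over the inner shifts of the tile `C` by multiples of `l` -/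
def gav (a b : ℝ) (v u : Vtx N) (l w L : ℕ) (C : Vtx N) (ω : Edge N → Bool) : ℝ :=
  Ex (fun z : Fin w × Fin w => FF a b v u (sg L C (l * z.1, l * z.2) ω))

/-- the error made by the inner shift averages -/
def Err (a b : ℝ) (v u : Vtx N) (l w L : ℕ) : ℝ :=
  ∑ C ∈ tiles N L, Ex (fun ω : Edge N → Bool => (FF a b v u ω - gav a b v u l w L C ω) ^ 2)

private theorem err_interp (lam : ℝ) (hlam : 0 < lam) (y : ℝ) :
    y ^ 2 ≤ lam * |y| + 1 / lam ^ 2 * y ^ 4 := by
  have hl2 : 0 < lam ^ 2 := by positivity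
  rcases le_total |y| lam with h | h
  · have h1 : y ^ 2 ≤ lam * |y| := by
      rw [← sq_abs y, sq]
      exact mul_le_mul_of_nonneg_right h (abs_nonneg y)
    have h2 : 0 ≤ 1 / lam ^ 2 * y ^ 4 := by positivity
    linarith
  · have h1 : y ^ 2 ≤ 1 / lam ^ 2 * y ^ 4 := by
      rw [one_div, inv_mul_eq_div, le_div_iff₀ hl2]
      have h2 : lam ^ 2 ≤ y ^ 2 := by
        rw [← sq_abs y]
        exact pow_le_pow_left₀ hlam.le h 2
      calc y ^ 2 * lam ^ 2 ≤ y ^ 2 * y ^ 2 := mul_le_mul_of_nonneg_left h2 (by positivity)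
        _ = y ^ 4 := by ring
    have h2 : 0 ≤ lam * |y| := by positivity
    linarith

private theorem err_four (x y : ℝ) : (x - y) ^ 4 ≤ 8 * x ^ 4 + 8 * y ^ 4 := by
  nlinarith [sq_nonneg (x + y), sq_nonneg (x ^ 2 - y ^ 2), sq_nonneg (x - y),
    mul_nonneg (sq_nonneg (x + y)) (sq_nonneg (x - y)), sq_nonneg ((x + y) ^ 2),
    sq_nonneg (x ^ 2 + y ^ 2), sq_nonneg (x * y)]

/-- fourth moment of the change made by an inner shift -/
private theorem err_fourth {L : ℕ} (hL : 0 < L) (hLN : L ∣ N) (C : Vtx N) (hC : corner L C = C)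
    (z : ℕ × ℕ) (F : (Edge N → Bool) → ℝ) :
    Ex (fun ω => (F ω - F (sg L C z ω)) ^ 4) ≤
      16 * Ex (fun ω => (F ω - av (tileE L C) F ω) ^ 4) := by
  have h1 : ∀ ω, av (tileE L C) F (sg L C z ω) = av (tileE L C) F ω := fun ω =>
    av_congr_off (tileE L C) F _ _ fun e he => sg_off z ω e he
  have h2 : Ex (fun ω => (F ω - F (sg L C z ω)) ^ 4) ≤
      Ex (fun ω => 8 * (F ω - av (tileE L C) F ω) ^ 4 +
        8 * (F (sg L C z ω) - av (tileE L C) F (sg L C z ω)) ^ 4) := by
    refine Ex_mono fun ω => ?_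
    have h3 := err_four (F ω - av (tileE L C) F ω) (F (sg L C z ω) - av (tileE L C) F ω)
    rw [h1]
    have h4 : F ω - F (sg L C z ω) =
        (F ω - av (tileE L C) F ω) - (F (sg L C z ω) - av (tileE L C) F ω) := by ring
    rw [h4]
    exact h3
  rw [Ex_add, Ex_mul_left, Ex_mul_left,
    Ex_sg hL hLN C hC z (fun ω => (F ω - av (tileE L C) F ω) ^ 4)] at h2
  linarith

/-- one tile -/
private theorem err_tile {L w l : ℕ} (hL : 0 < L) (hw : 0 < w) (hLN : L ∣ N) (C : Vtx N)
    (hC : corner L C = C) (v u : Vtx N) (lam : ℝ) (hlam : 0 < lam) :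
    Ex (fun ω : Edge N → Bool => (FF a b v u ω - gav a b v u l w L C ω) ^ 2) ≤
      lam * Ex (fun z : Fin w × Fin w => Ex (fun ω : Edge N → Bool =>
        |FF a b v u ω - FF a b v u (sg L C (l * z.1, l * z.2) ω)|)) +
      1 / lam ^ 2 * (16 * Ex (fun ω => (FF a b v u ω - av (tileE L C) (FF a b v u) ω) ^ 4)) := by
  have : Nonempty (Fin w × Fin w) := ⟨(⟨0, hw⟩, ⟨0, hw⟩)⟩
  set y : Fin w × Fin w → (Edge N → Bool) → ℝ := fun z ω =>
    FF a b v u ω - FF a b v u (sg L C (l * z.1, l * z.2) ω) with hy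
  have h1 : ∀ ω, FF a b v u ω - gav a b v u l w L C ω = Ex (fun z => y z ω) := by
    intro ω
    rw [hy]
    simp only
    rw [Ex_sub, Ex_const]
    rfl
  calc Ex (fun ω : Edge N → Bool => (FF a b v u ω - gav a b v u l w L C ω) ^ 2)
      ≤ Ex (fun ω : Edge N → Bool => Ex (fun z => lam * |y z ω| + 1 / lam ^ 2 * y z ω ^ 4)) := by
        refine Ex_mono fun ω => ?_
        rw [h1]
        exact (Ex_sq_le _).trans (Ex_mono fun z => err_interp lam hlam (y z ω))
    _ = Ex (fun z => Ex (fun ω : Edge N → Bool => lam * |y z ω| + 1 / lam ^ 2 * y z ω ^ 4)) :=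
        Ex_comm _
    _ ≤ Ex (fun z : Fin w × Fin w => lam * Ex (fun ω : Edge N → Bool => |y z ω|) +
        1 / lam ^ 2 *
          (16 * Ex (fun ω => (FF a b v u ω - av (tileE L C) (FF a b v u) ω) ^ 4))) := by
        refine Ex_mono fun z => ?_
        rw [Ex_add, Ex_mul_left, Ex_mul_left]
        refine add_le_add le_rfl (mul_le_mul_of_nonneg_left ?_ (by positivity))
        exact err_fourth hL hLN C hC _ (FF a b v u)
    _ = _ := by
        rw [Ex_add, Ex_mul_left, Ex_const]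

theorem err_avg (ha : 0 < a) (hab : a < b) {l w L : ℕ} (hl : 0 < l) (hw : 0 < w) (hL : 0 < L)
    (hLN : L ∣ N) (hm : 2 * (l * w) ≤ L) (v : Vtx N) (lam : ℝ) (hlam : 0 < lam) :
    Ex (fun u : Vtx N => Err a b v u l w L) ≤
      lam * (50 * (b ^ 2 / a) * ((l * w : ℕ) / L) * rho 0 v + 8 * b * (l * w : ℕ)) +
        1300 * (b - a) ^ 4 * (b / a) ^ 2 * L * rho 0 v / lam ^ 2 := by
  have : Nonempty (Fin w × Fin w) := ⟨(⟨0, hw⟩, ⟨0, hw⟩)⟩
  have hl2 : 0 < lam ^ 2 := by positivity
  set P : ℝ := (b - a) ^ 4 * (b / a) ^ 2 * L * rho 0 v with hP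
  have hP0 : 0 ≤ P := by positivity
  -- each starting point
  have hu : ∀ u : Vtx N, Err a b v u l w L ≤
      lam * ∑ C ∈ tiles N L, Ex (fun z : Fin w × Fin w => Ex (fun ω : Edge N → Bool =>
        |FF a b v u ω - FF a b v u (sg L C (l * z.1, l * z.2) ω)|)) +
      1 / lam ^ 2 * (16 * (76 * P)) := by
    intro u
    unfold Err
    have h1 : ∀ C ∈ tiles N L, corner L C = C := by
      intro C hC
      unfold tiles at hC
      exact (Finset.mem_filter.mp hC).2
    refine (Finset.sum_le_sum fun C hC =>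
      err_tile (a := a) (b := b) (l := l) hL hw hLN C (h1 C hC) v u lam hlam).trans ?_
    rw [Finset.sum_add_distrib, ← Finset.mul_sum, ← Finset.mul_sum, ← Finset.mul_sum]
    refine add_le_add le_rfl (mul_le_mul_of_nonneg_left
      (mul_le_mul_of_nonneg_left ?_ (by norm_num)) (by positivity))
    refine (fourth_sum ha hab hL v u).trans (le_of_eq ?_)
    rw [hP]; ring
  -- average over the starting points
  have hz : ∀ z : Fin w × Fin w, Ex (fun u : Vtx N => ∑ C ∈ tiles N L,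
      Ex (fun ω : Edge N → Bool =>
        |FF a b v u ω - FF a b v u (sg L C (l * z.1, l * z.2) ω)|)) ≤
      50 * (b ^ 2 / a) * (((l * w : ℕ) : ℝ) / L) * rho 0 v + 8 * b * ((l * w : ℕ) : ℝ) := by
    intro z
    exact shift_avg ha hab hL hLN hm v (l * z.1, l * z.2)
      (Nat.mul_lt_mul_of_pos_left z.1.2 hl) (Nat.mul_lt_mul_of_pos_left z.2.2 hl)
  have hswap : Ex (fun u : Vtx N => ∑ C ∈ tiles N L, Ex (fun z : Fin w × Fin w =>
      Ex (fun ω : Edge N → Bool =>
        |FF a b v u ω - FF a b v u (sg L C (l * z.1, l * z.2) ω)|))) =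
      Ex (fun z : Fin w × Fin w => Ex (fun u : Vtx N => ∑ C ∈ tiles N L,
        Ex (fun ω : Edge N → Bool =>
          |FF a b v u ω - FF a b v u (sg L C (l * z.1, l * z.2) ω)|))) := by
    rw [← Ex_comm]
    congr 1
    funext u
    rw [Ex_sum]
  calc Ex (fun u : Vtx N => Err a b v u l w L)
      ≤ Ex (fun u : Vtx N => lam * ∑ C ∈ tiles N L, Ex (fun z : Fin w × Fin w =>
          Ex (fun ω : Edge N → Bool =>
            |FF a b v u ω - FF a b v u (sg L C (l * z.1, l * z.2) ω)|)) +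
          1 / lam ^ 2 * (16 * (76 * P))) := Ex_mono hu
    _ = lam * Ex (fun z : Fin w × Fin w => Ex (fun u : Vtx N => ∑ C ∈ tiles N L,
        Ex (fun ω : Edge N → Bool =>
          |FF a b v u ω - FF a b v u (sg L C (l * z.1, l * z.2) ω)|))) +
          1 / lam ^ 2 * (16 * (76 * P)) := by
        rw [Ex_add, Ex_mul_left, Ex_const, hswap]
    _ ≤ lam * (50 * (b ^ 2 / a) * (((l * w : ℕ) : ℝ) / L) * rho 0 v +
          8 * b * ((l * w : ℕ) : ℝ)) + 1300 * P / lam ^ 2 := by
        refine add_le_add (mul_le_mul_of_nonneg_left ?_ hlam.le) ?_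
        · refine (Ex_mono hz).trans (le_of_eq ?_)
          rw [Ex_const]
        · rw [one_div, inv_mul_eq_div]
          refine div_le_div_of_nonneg_right ?_ hl2.le
          linarith
    _ = _ := by rw [hP]; ring

end

end Pool.FPP
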