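import Pool.Agent.FPP.AV

/-!
Module ES: Efron-Stein and pair formulas.
efron_stein: induction on `S` (or martingale differences
`d_i = E_{s_1..s_{i-1}} (u - E_{s_i} u)`, orthogonal, `‖d_i‖ ≤ ‖u - E_{s_i} u‖`).  A short way: induction
with `av_var`: for `S = insert s S'`,
`E_S (u - E_S u)^2 = E_S (u - E_s u)^2 + E_S (E_s u - E_S u)^2`, and for `v = E_s u`,
`E_S (v - E_{S'} v)^2 ≤ sum over s' of E_S (v - E_{s'} v)^2 ≤ sum of E_S (u - E_{s'} u)^2`
(as `v - E_{s'} v = E_s (u - E_{s'} u)`).
Ex_res_sq: given the coordinates off `A`, `F (res A w)` and `F (fstc w)` are independent with the same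
law. Ex_inc_sq: the swap of the `A`-coordinates of the two configurations exchanges `res` and `fstc`.
Ex_inc_pow_four: swap symmetry gives `Ex inc^4 = (1/2) Ex (F res - F fst)^4`, and
`(x - y)^4 ≤ 8 x^4 + 8 y^4`.
-/

set_option autoImplicit false

noncomputable section

namespace Pool.FPP

open Finset

section

variable {ι α : Type*} [Fintype ι] [DecidableEq ι] [Fintype α] [Nonempty α]

private theorem es_av_idem (A B : Finset ι) (h : B ⊆ A) (f : (ι → α) → ℝ) :
    av A (av B f) = av A f := by
  rw [av_av, Finset.union_eq_left.mpr h]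

private theorem es_av_comm (A B : Finset ι) (f : (ι → α) → ℝ) :
    av A (av B f) = av B (av A f) := by
  rw [av_av, av_av, Finset.union_comm]

/-- second moment of `f - av B f` over a bigger set -/
private theorem es_var (A B : Finset ι) (h : B ⊆ A) (f : (ι → α) → ℝ) (ω : ι → α) :
    av A (fun ω => (f ω - av B f ω) ^ 2) ω =
      av A (fun ω => f ω ^ 2) ω - av A (fun ω => (av B f ω) ^ 2) ω := by
  have h1 : av A (fun ω => (f ω - av B f ω) ^ 2) =
      av A (av B (fun ω => (f ω - av B f ω) ^ 2)) := (es_av_idem A B h _).symm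
  have h2 : av B (fun ω => (f ω - av B f ω) ^ 2) =
      fun ω => av B (fun ω => f ω ^ 2) ω - (av B f ω) ^ 2 := by
    funext ω
    exact av_var B f ω
  rw [h1, h2, av_sub]
  have h3 : av A (fun ω => av B (fun ω => f ω ^ 2) ω) = av A (fun ω => f ω ^ 2) :=
    es_av_idem A B h _
  rw [h3]

/-- Efron-Stein for disjoint groups of coordinates -/
theorem efron_stein {σ : Type*} [DecidableEq σ] (B : σ → Finset ι)
    (hB : ∀ i j, i ≠ j → Disjoint (B i) (B j)) (S : Finset σ) (u : (ι → α) → ℝ) (ω : ι → α) :
    av (U B S) (fun ω => (u ω - av (U B S) u ω) ^ 2) ω ≤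
      ∑ s ∈ S, av (U B S) (fun ω => (u ω - av (B s) u ω) ^ 2) ω := by
  clear hB
  induction S using Finset.induction_on generalizing u ω with
  | empty =>
    have h0 : U B (∅ : Finset σ) = ∅ := by simp [U]
    rw [h0, av_empty, av_empty]
    simp
  | insert s S' hs ih =>
    set A : Finset ι := U B (insert s S') with hA
    have hA2 : A = B s ∪ U B S' := by rw [hA]; simp [U, Finset.biUnion_insert]
    have hsub1 : B s ⊆ A := by rw [hA2]; exact Finset.subset_union_left
    have hsub2 : U B S' ⊆ A := by rw [hA2]; exact Finset.subset_union_right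
    rw [Finset.sum_insert hs]
    set v : (ι → α) → ℝ := av (B s) u with hv
    have hv1 : av A v = av A u := es_av_idem A (B s) hsub1 u
    have hv2 : av (U B S') v = av A u := by
      rw [hv, av_av, hA2, Finset.union_comm]
    have e1 : av A (fun ω => (u ω - av A u ω) ^ 2) ω =
        av A (fun ω => (u ω - v ω) ^ 2) ω + av A (fun ω => (v ω - av A u ω) ^ 2) ω := by
      rw [es_var A A (Finset.Subset.refl A) u ω, es_var A (B s) hsub1 u ω, ← hv1,
        es_var A A (Finset.Subset.refl A) v ω]
      ring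
    rw [e1]
    refine add_le_add le_rfl ?_
    have e2 : av A (fun ω => (v ω - av A u ω) ^ 2) =
        av A (av (U B S') (fun ω => (v ω - av (U B S') v ω) ^ 2)) := by
      rw [es_av_idem A (U B S') hsub2, hv2]
    rw [e2]
    calc av A (av (U B S') (fun ω => (v ω - av (U B S') v ω) ^ 2)) ω
        ≤ av A (fun ω => ∑ s' ∈ S', av (U B S') (fun ω => (v ω - av (B s') v ω) ^ 2) ω) ω :=
          av_mono A (fun ω => ih v ω) ω
      _ = ∑ s' ∈ S', av A (av (U B S') (fun ω => (v ω - av (B s') v ω) ^ 2)) ω := by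
          rw [av_sum]
      _ = ∑ s' ∈ S', av A (fun ω => (v ω - av (B s') v ω) ^ 2) ω := by
          refine Finset.sum_congr rfl fun s' _ => ?_
          rw [es_av_idem A (U B S') hsub2]
      _ ≤ ∑ s' ∈ S', av A (fun ω => (u ω - av (B s') u ω) ^ 2) ω := by
          refine Finset.sum_le_sum fun s' _ => ?_
          have h3 : ∀ ω, v ω - av (B s') v ω = av (B s) (fun ω => u ω - av (B s') u ω) ω := by
            intro ω
            rw [av_sub, hv, es_av_comm (B s') (B s)]
          calc av A (fun ω => (v ω - av (B s') v ω) ^ 2) ω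
              = av A (fun ω => (av (B s) (fun ω => u ω - av (B s') u ω) ω) ^ 2) ω := by
                simp_rw [h3]
            _ ≤ av A (fun ω => av (B s) (fun ω => (u ω - av (B s') u ω) ^ 2) ω) ω :=
                av_mono A (fun ω => av_sq_le (B s) _ ω) ω
            _ = av A (fun ω => (u ω - av (B s') u ω) ^ 2) ω := by
                have := es_av_idem A (B s) hsub1 (fun ω => (u ω - av (B s') u ω) ^ 2)
                exact congrFun this ω

/-- the variance is at most the sum of the conditional variances of a covering family -/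
theorem efron_stein_Ex {σ : Type*} [DecidableEq σ] (B : σ → Finset ι)
    (hB : ∀ i j, i ≠ j → Disjoint (B i) (B j)) (S : Finset σ) (hS : U B S = univ)
    (u : (ι → α) → ℝ) :
    Ex (fun ω => (u ω - Ex u) ^ 2) ≤ ∑ s ∈ S, Ex (fun ω => (u ω - av (B s) u ω) ^ 2) := by
  have ω0 : ι → α := fun _ => Classical.arbitrary α
  have h := efron_stein B hB S u ω0
  rw [hS] at h
  simp_rw [av_univ] at h
  exact h

/-- the swap of the `A`-coordinates of the two configurations -/
private def esSwap (A : Finset ι) (w : ι → α × α) : ι → α × α :=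
  fun i => if i ∈ A then ((w i).2, (w i).1) else w i

omit [Fintype ι] [Fintype α] [Nonempty α] in
private theorem esSwap_invol (A : Finset ι) (w : ι → α × α) : esSwap A (esSwap A w) = w := by
  funext i
  unfold esSwap
  split_ifs <;> rfl

private def esSwapE (A : Finset ι) : (ι → α × α) ≃ (ι → α × α) where
  toFun := esSwap A
  invFun := esSwap A
  left_inv := esSwap_invol A
  right_inv := esSwap_invol A

omit [Fintype ι] [Fintype α] [Nonempty α] in
private theorem fstc_esSwap (A : Finset ι) (w : ι → α × α) : fstc (esSwap A w) = res A w := by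
  funext i
  unfold fstc esSwap res mix sndc fstc
  split_ifs <;> rfl

omit [Fintype ι] [Fintype α] [Nonempty α] in
private theorem res_esSwap (A : Finset ι) (w : ι → α × α) : res A (esSwap A w) = fstc w := by
  funext i
  unfold res mix sndc fstc esSwap
  by_cases h : i ∈ A
  · simp [h]
  · simp [h]

/-- swap symmetry -/
private theorem es_Ex_swap (A : Finset ι) (g : (ι → α × α) → ℝ) :
    Ex (fun w => g (esSwap A w)) = Ex g := Ex_equiv (esSwapE A) g

private theorem es_Ex_pair (g : (ι → α) → (ι → α) → ℝ) :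
    Ex (fun w : ι → α × α => g (fstc w) (sndc w)) = Ex (fun ω => Ex (fun η => g ω η)) := by
  have h := Ex_equiv (Equiv.arrowProdEquivProdArrow ι (fun _ => α) (fun _ => α))
    (fun p : (ι → α) × (ι → α) => g p.1 p.2)
  rw [Ex_prod] at h
  exact h

/-- marginal of the pair configuration -/
theorem Ex_fstc (f : (ι → α) → ℝ) : Ex (fun w : ι → α × α => f (fstc w)) = Ex f := by
  have h := es_Ex_pair (ι := ι) (α := α) (fun ω _ => f ω)
  rw [h]
  simp_rw [Ex_const]

theorem Ex_res (A : Finset ι) (f : (ι → α) → ℝ) :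
    Ex (fun w : ι → α × α => f (res A w)) = Ex f := by
  rw [← Ex_fstc f, ← es_Ex_swap A (fun w => f (fstc w))]
  simp_rw [fstc_esSwap]

/-- pair formula for the conditional variance -/
theorem Ex_res_sq (A : Finset ι) (F : (ι → α) → ℝ) :
    Ex (fun w : ι → α × α => (F (res A w) - F (fstc w)) ^ 2) =
      2 * Ex (fun ω => (F ω - av A F ω) ^ 2) := by
  have hcross : Ex (fun w : ι → α × α => F (fstc w) * F (res A w)) =
      Ex (fun ω => (av A F ω) ^ 2) := by
    have h1 := es_Ex_pair (ι := ι) (α := α) (fun ω η => F ω * F (mix A η ω))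
    have h2 : (fun w : ι → α × α => F (fstc w) * F (res A w)) =
        fun w => F (fstc w) * F (mix A (sndc w) (fstc w)) := rfl
    rw [h2, h1]
    have h3 : (fun ω : ι → α => Ex (fun η => F ω * F (mix A η ω))) =
        fun ω => F ω * av A F ω := by
      funext ω
      rw [Ex_mul_left]
      rfl
    rw [h3, ← Ex_av A (fun ω => F ω * av A F ω)]
    congr 1
    funext ω
    have h4 := av_mul_of_indep A F (av A F) (fun η ω => av_mix A F η ω) ω
    simp_rw [mul_comm (F _) (av A F _)]
    rw [h4, sq]
  have hself : Ex (fun ω => (F ω - av A F ω) ^ 2) =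
      Ex (fun ω => F ω ^ 2) - Ex (fun ω => (av A F ω) ^ 2) := by
    rw [← Ex_av A (fun ω => (F ω - av A F ω) ^ 2), ← Ex_av A (fun ω => F ω ^ 2), ← Ex_sub]
    congr 1
    funext ω
    exact av_var A F ω
  have hexp : (fun w : ι → α × α => (F (res A w) - F (fstc w)) ^ 2) =
      fun w => F (res A w) ^ 2 + (F (fstc w) ^ 2 - 2 * (F (fstc w) * F (res A w))) := by
    funext w; ring
  rw [hexp, Ex_add, Ex_sub, Ex_mul_left, hcross, Ex_res A (fun ω => F ω ^ 2),
    Ex_fstc (fun ω => F ω ^ 2), hself]
  ring

/-- symmetrization -/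
private theorem es_inc_sym (A : Finset ι) (F : (ι → α) → ℝ) (n : ℕ) (hn : n ≠ 0)
    (he : Even n) :
    Ex (fun w : ι → α × α => inc A F w ^ n) =
      (1 / 2) * Ex (fun w : ι → α × α => (F (res A w) - F (fstc w)) ^ n) := by
  have h1 : Ex (fun w : ι → α × α => inc A F w ^ n) =
      Ex (fun w : ι → α × α => (max 0 (F (fstc w) - F (res A w))) ^ n) := by
    rw [← es_Ex_swap A (fun w => inc A F w ^ n)]
    congr 1
    funext w
    unfold inc
    rw [fstc_esSwap, res_esSwap]
  have h2 : Ex (fun w : ι → α × α => (F (res A w) - F (fstc w)) ^ n) =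
      Ex (fun w : ι → α × α => inc A F w ^ n) +
      Ex (fun w : ι → α × α => (max 0 (F (fstc w) - F (res A w))) ^ n) := by
    rw [← Ex_add]
    congr 1
    funext w
    unfold inc
    rcases le_total (F (fstc w)) (F (res A w)) with h | h
    · rw [max_eq_right (sub_nonneg.mpr h), max_eq_left (sub_nonpos.mpr h), zero_pow hn, add_zero]
    · rw [max_eq_left (sub_nonpos.mpr h), max_eq_right (sub_nonneg.mpr h), zero_pow hn, zero_add,
        ← neg_sub, he.neg_pow]
  rw [h2, ← h1]
  ring

theorem Ex_inc_sq (A : Finset ι) (F : (ι → α) → ℝ) :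
    Ex (fun w : ι → α × α => inc A F w ^ 2) = Ex (fun ω => (F ω - av A F ω) ^ 2) := by
  rw [es_inc_sym A F 2 (by norm_num) (by decide), Ex_res_sq]
  ring

theorem Ex_inc_pow_four (A : Finset ι) (F : (ι → α) → ℝ) :
    Ex (fun w : ι → α × α => inc A F w ^ 4) ≤ 8 * Ex (fun ω => (F ω - av A F ω) ^ 4) := by
  rw [es_inc_sym A F 4 (by norm_num) (by decide)]
  have h1 : Ex (fun w : ι → α × α => (F (res A w) - F (fstc w)) ^ 4) ≤
      Ex (fun w : ι → α × α => 8 * (F (res A w) - av A F (res A w)) ^ 4 +
        8 * (F (fstc w) - av A F (fstc w)) ^ 4) := by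
    refine Ex_mono fun w => ?_
    have h2 : av A F (res A w) = av A F (fstc w) := av_mix A F (sndc w) (fstc w)
    rw [h2]
    set x := F (res A w) - av A F (fstc w) with hx
    set y := F (fstc w) - av A F (fstc w) with hy
    have h3 : F (res A w) - F (fstc w) = x - y := by rw [hx, hy]; ring
    rw [h3]
    nlinarith [sq_nonneg (x + y), sq_nonneg (x ^ 2 - y ^ 2), sq_nonneg (x - y),
      mul_nonneg (sq_nonneg (x + y)) (sq_nonneg (x - y)), sq_nonneg ((x + y) ^ 2),
      sq_nonneg (x ^ 2 + y ^ 2), sq_nonneg (x * y)]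
  rw [Ex_add, Ex_mul_left, Ex_mul_left, Ex_res A (fun ω => (F ω - av A F ω) ^ 4),
    Ex_fstc (fun ω => (F ω - av A F ω) ^ 4)] at h1
  linarith

end

end Pool.FPP
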