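import Pool.Agent.FPP.WLK
import Pool.Agent.FPP.AV

/-!
Module TRA: transfer from the torus to the lattice (the only module with measure theory).
The lattice passage time to v depends only on the edges in the box of radius m = (b/a)|v|_1 + 1 around 0 (walks
of larger length cost more than b|v|_1). For N > 2m+2 the reduction mod N is injective on these edges, torus walks
from 0 of length ≤ m lift uniquely, and a lift ending at another preimage of v would be longer than m; so
FF a b (redV N v) 0 (ω̄) = latticeDist (ω) whenever ω(e) = ω̄(e mod N) on the box. Both variances are the variance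
of the same function of the finitely many fair bits of the box.
-/

set_option autoImplicit false

noncomputable section

namespace Pool.FPP

open Finset

/-- passage time on the square lattice, exactly as in the problem -/
def latticeDist (a b : ℝ) (v : ℤ × ℤ) (ω : (ℤ × ℤ) × Fin 2 → Bool) : ℝ :=
  sInf {t : ℝ | ∃ (n : ℕ) (p : ℕ → ℤ × ℤ), p 0 = 0 ∧ p n = v ∧
    (∀ k < n, |(p (k+1)).1 - (p k).1| + |(p (k+1)).2 - (p k).2| = 1) ∧
    t = ∑ k ∈ Finset.range n,
      (if ω ((min (p k).1 (p (k+1)).1, min (p k).2 (p (k+1)).2),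
            (if (p k).2 = (p (k+1)).2 then (0 : Fin 2) else (1 : Fin 2))) = true
        then a else b)}

/-- the variance on the lattice, exactly as in the problem -/
def latticeVar (a b : ℝ) (v : ℤ × ℤ) : ℝ :=
  ProbabilityTheory.variance (latticeDist a b v)
    (MeasureTheory.Measure.infinitePi
      (fun _ : (ℤ × ℤ) × Fin 2 => (PMF.uniformOfFintype Bool).toMeasure))

/-- reduction of a lattice vertex -/
def redV (N : ℕ) (v : ℤ × ℤ) : Vtx N := ((v.1 : ZMod N), (v.2 : ZMod N))

/-! ### lattice walks -/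

/-- second end point of a lattice edge -/
def traHd (e : (ℤ × ℤ) × Bool) : ℤ × ℤ :=
  if e.2 then (e.1.1, e.1.2 + 1) else (e.1.1 + 1, e.1.2)

/-- lattice walks with their lists of edges -/
inductive TraWalk : ℤ × ℤ → ℤ × ℤ → List ((ℤ × ℤ) × Bool) → Prop
  | nil (x : ℤ × ℤ) : TraWalk x x []
  | fwd (e : (ℤ × ℤ) × Bool) (y : ℤ × ℤ) (l : List ((ℤ × ℤ) × Bool)) :
      TraWalk (traHd e) y l → TraWalk e.1 y (e :: l)
  | bwd (e : (ℤ × ℤ) × Bool) (y : ℤ × ℤ) (l : List ((ℤ × ℤ) × Bool)) :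
      TraWalk e.1 y l → TraWalk (traHd e) y (e :: l)

/-- reduction of a lattice edge -/
def traE (N : ℕ) (e : (ℤ × ℤ) × Bool) : Edge N := (redV N e.1, e.2)

/-- the edge in the notation of the problem -/
def traF (e : (ℤ × ℤ) × Bool) : (ℤ × ℤ) × Fin 2 := (e.1, if e.2 then 1 else 0)

/-- reduction of an edge in the notation of the problem -/
def traR (N : ℕ) (e : (ℤ × ℤ) × Fin 2) : Edge N := (redV N e.1, decide (e.2 = 1))

theorem traR_traF (N : ℕ) (e : (ℤ × ℤ) × Bool) : traR N (traF e) = traE N e := by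
  obtain ⟨x, d⟩ := e
  cases d <;> simp [traR, traF, traE]

theorem redV_traHd (N : ℕ) (e : (ℤ × ℤ) × Bool) : redV N (traHd e) = hd (traE N e) := by
  obtain ⟨x, d⟩ := e
  cases d <;> simp [traHd, hd, redV, traE]

theorem TraWalk.red {N : ℕ} {x y : ℤ × ℤ} {l : List ((ℤ × ℤ) × Bool)} (h : TraWalk x y l) :
    Walk (redV N x) (redV N y) (l.map (traE N)) := by
  induction h with
  | nil x => exact Walk.nil _
  | fwd e y l _ ih =>
    rw [redV_traHd] at ih
    exact Walk.fwd (traE N e) _ _ ih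
  | bwd e y l _ ih =>
    rw [redV_traHd]
    exact Walk.bwd (traE N e) _ _ ih

theorem tra_lift {N : ℕ} {z z' : Vtx N} {l' : List (Edge N)} (h : Walk z z' l') :
    ∀ x : ℤ × ℤ, redV N x = z →
      ∃ (y : ℤ × ℤ) (l : List ((ℤ × ℤ) × Bool)), TraWalk x y l ∧ redV N y = z' ∧
        l.map (traE N) = l' := by
  induction h with
  | nil z => exact fun x hx => ⟨x, [], TraWalk.nil x, hx, rfl⟩
  | fwd e y l _ ih =>
    intro x hx
    have he : traE N (x, e.2) = e := by
      obtain ⟨e1, e2⟩ := e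
      simp only [traE]
      simp only at hx
      rw [hx]
    obtain ⟨y', l', hw, hy, hl⟩ := ih (traHd (x, e.2)) (by rw [redV_traHd, he])
    exact ⟨y', (x, e.2) :: l', TraWalk.fwd (x, e.2) y' l' hw, hy, by simp [hl, he]⟩
  | bwd e y l _ ih =>
    intro x hx
    obtain ⟨⟨e1, e1'⟩, d⟩ := e
    obtain ⟨x1, x2⟩ := x
    cases d with
    | false =>
      simp only [redV, hd, Bool.false_eq_true, if_false, Prod.mk.injEq] at hx
      have he : traE N ((x1 - 1, x2), false) = ((e1, e1'), false) := by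
        simp only [traE, redV, Prod.mk.injEq, and_true]
        push_cast
        exact ⟨by rw [hx.1]; ring, hx.2⟩
      have hh : traHd ((x1 - 1, x2), false) = (x1, x2) := by simp [traHd]
      obtain ⟨y', l', hw, hy, hl⟩ := ih (x1 - 1, x2) (by
        have := congrArg Prod.fst he
        exact this)
      refine ⟨y', ((x1 - 1, x2), false) :: l', ?_, hy, by simp [hl, he]⟩
      have := TraWalk.bwd ((x1 - 1, x2), false) y' l' hw
      rwa [hh] at this
    | true =>
      simp only [redV, hd, if_true, Prod.mk.injEq] at hx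
      have he : traE N ((x1, x2 - 1), true) = ((e1, e1'), true) := by
        simp only [traE, redV, Prod.mk.injEq, and_true]
        push_cast
        exact ⟨hx.1, by rw [hx.2]; ring⟩
      have hh : traHd ((x1, x2 - 1), true) = (x1, x2) := by simp [traHd]
      obtain ⟨y', l', hw, hy, hl⟩ := ih (x1, x2 - 1) (by
        have := congrArg Prod.fst he
        exact this)
      refine ⟨y', ((x1, x2 - 1), true) :: l', ?_, hy, by simp [hl, he]⟩
      have := TraWalk.bwd ((x1, x2 - 1), true) y' l' hw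
      rwa [hh] at this

theorem TraWalk.bound {x y : ℤ × ℤ} {l : List ((ℤ × ℤ) × Bool)} (h : TraWalk x y l) :
    (∀ e ∈ l, (e.1.1 - x.1).natAbs ≤ l.length ∧ (e.1.2 - x.2).natAbs ≤ l.length) ∧
      (y.1 - x.1).natAbs + (y.2 - x.2).natAbs ≤ l.length := by
  induction h with
  | nil x => simp
  | fwd e y l _ ih =>
    obtain ⟨⟨e1, e2⟩, d⟩ := e
    cases d <;> simp only [traHd, Bool.false_eq_true, if_false, if_true] at ih <;>
    · refine ⟨fun e' he' => ?_, ?_⟩
      · rcases List.mem_cons.1 he' with rfl | he'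
        · simp
        · have := ih.1 e' he'
          simp only [List.length_cons]
          omega
      · have := ih.2
        simp only [List.length_cons]
        omega
  | bwd e y l _ ih =>
    obtain ⟨⟨e1, e2⟩, d⟩ := e
    cases d <;> simp only [traHd, Bool.false_eq_true, if_false, if_true] at ih ⊢ <;>
    · refine ⟨fun e' he' => ?_, ?_⟩
      · rcases List.mem_cons.1 he' with rfl | he'
        · simp only [List.length_cons]
          omega
        · have := ih.1 e' he'
          simp only [List.length_cons]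
          omega
      · have := ih.2
        simp only [List.length_cons]
        omega

theorem tra_straight (n : ℕ) : ∀ x v : ℤ × ℤ, (v.1 - x.1).natAbs + (v.2 - x.2).natAbs = n →
    ∃ l : List ((ℤ × ℤ) × Bool), TraWalk x v l ∧ l.length = n := by
  induction n with
  | zero =>
    intro x v h
    have h1 : x = v := by
      obtain ⟨x1, x2⟩ := x
      obtain ⟨v1, v2⟩ := v
      simp only at h
      ext
      · simp only; omega
      · simp only; omega
    subst h1
    exact ⟨[], TraWalk.nil x, rfl⟩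
  | succ n ih =>
    intro x v h
    obtain ⟨x1, x2⟩ := x
    obtain ⟨v1, v2⟩ := v
    simp only at h
    rcases lt_trichotomy x1 v1 with h1 | h1 | h1
    · obtain ⟨l, hl, hn⟩ := ih (x1 + 1, x2) (v1, v2) (by simp only; omega)
      exact ⟨((x1, x2), false) :: l, TraWalk.fwd ((x1, x2), false) _ _ (by simpa [traHd] using hl),
        by simp [hn]⟩
    · rcases lt_trichotomy x2 v2 with h2 | h2 | h2
      · obtain ⟨l, hl, hn⟩ := ih (x1, x2 + 1) (v1, v2) (by simp only; omega)
        exact ⟨((x1, x2), true) :: l, TraWalk.fwd ((x1, x2), true) _ _ (by simpa [traHd] using hl),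
          by simp [hn]⟩
      · omega
      · obtain ⟨l, hl, hn⟩ := ih (x1, x2 - 1) (v1, v2) (by simp only; omega)
        have := TraWalk.bwd ((x1, x2 - 1), true) (v1, v2) l hl
        exact ⟨((x1, x2 - 1), true) :: l, by simpa [traHd] using this, by simp [hn]⟩
    · obtain ⟨l, hl, hn⟩ := ih (x1 - 1, x2) (v1, v2) (by simp only; omega)
      have := TraWalk.bwd ((x1 - 1, x2), false) (v1, v2) l hl
      exact ⟨((x1 - 1, x2), false) :: l, by simpa [traHd] using this, by simp [hn]⟩

/-- the edge between two adjacent vertices, as in the problem -/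
def traO (x y : ℤ × ℤ) : (ℤ × ℤ) × Fin 2 :=
  ((min x.1 y.1, min x.2 y.2), if x.2 = y.2 then (0 : Fin 2) else (1 : Fin 2))

theorem tra_step {x y : ℤ × ℤ} (h : |y.1 - x.1| + |y.2 - x.2| = 1) :
    ∃ e : (ℤ × ℤ) × Bool, ((e.1 = x ∧ traHd e = y) ∨ (traHd e = x ∧ e.1 = y)) ∧
      traO x y = traF e := by
  obtain ⟨x1, x2⟩ := x
  obtain ⟨y1, y2⟩ := y
  simp only at h
  have hc : (y1 = x1 + 1 ∧ y2 = x2) ∨ (y1 = x1 - 1 ∧ y2 = x2) ∨ (y1 = x1 ∧ y2 = x2 + 1) ∨
      (y1 = x1 ∧ y2 = x2 - 1) := by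
    rcases abs_cases (y1 - x1) with ⟨h1, h1'⟩ | ⟨h1, h1'⟩ <;>
    rcases abs_cases (y2 - x2) with ⟨h2, h2'⟩ | ⟨h2, h2'⟩ <;> omega
  rcases hc with ⟨rfl, rfl⟩ | ⟨rfl, rfl⟩ | ⟨rfl, rfl⟩ | ⟨rfl, rfl⟩
  · exact ⟨((x1, y2), false), Or.inl ⟨rfl, by simp [traHd]⟩, by simp [traO, traF]⟩
  · exact ⟨((x1 - 1, y2), false), Or.inr ⟨by simp [traHd], rfl⟩, by simp [traO, traF]⟩
  · exact ⟨((y1, x2), true), Or.inl ⟨rfl, by simp [traHd]⟩, by simp [traO, traF]⟩
  · exact ⟨((y1, x2 - 1), true), Or.inr ⟨by simp [traHd], rfl⟩, by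
      have h3 : x2 ≠ x2 - 1 := by omega
      simp [traO, traF, h3]⟩

theorem tra_step_conv {x y : ℤ × ℤ} {e : (ℤ × ℤ) × Bool}
    (h : (e.1 = x ∧ traHd e = y) ∨ (traHd e = x ∧ e.1 = y)) :
    |y.1 - x.1| + |y.2 - x.2| = 1 ∧ traO x y = traF e := by
  obtain ⟨⟨e1, e2⟩, d⟩ := e
  rcases h with ⟨rfl, rfl⟩ | ⟨rfl, rfl⟩ <;> cases d <;> simp [traHd, traO, traF]

theorem tra_path_to_walk (W : (ℤ × ℤ) × Fin 2 → ℝ) (n : ℕ) : ∀ p : ℕ → ℤ × ℤ,
    (∀ k < n, |(p (k+1)).1 - (p k).1| + |(p (k+1)).2 - (p k).2| = 1) →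
    ∃ l : List ((ℤ × ℤ) × Bool), TraWalk (p 0) (p n) l ∧ l.length = n ∧
      ∑ k ∈ Finset.range n, W (traO (p k) (p (k+1))) = (l.map (fun e => W (traF e))).sum := by
  induction n with
  | zero => exact fun p _ => ⟨[], TraWalk.nil _, rfl, by simp⟩
  | succ n ih =>
    intro p hp
    obtain ⟨l, hw, hl, hs⟩ := ih (fun k => p (k + 1)) (fun k hk => hp (k + 1) (by omega))
    obtain ⟨e, he, hO⟩ := tra_step (hp 0 (by omega))
    refine ⟨e :: l, ?_, by simp [hl], ?_⟩
    · rcases he with ⟨h1, h2⟩ | ⟨h1, h2⟩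
      · rw [← h1]
        refine TraWalk.fwd e _ _ ?_
        rw [h2]
        exact hw
      · rw [← h1]
        refine TraWalk.bwd e _ _ ?_
        rw [h2]
        exact hw
    · rw [Finset.sum_range_succ', hs, List.map_cons, List.sum_cons, hO]
      ring

theorem tra_walk_to_path (W : (ℤ × ℤ) × Fin 2 → ℝ) {x y : ℤ × ℤ} {l : List ((ℤ × ℤ) × Bool)}
    (h : TraWalk x y l) : ∃ p : ℕ → ℤ × ℤ, p 0 = x ∧ p l.length = y ∧
      (∀ k < l.length, |(p (k+1)).1 - (p k).1| + |(p (k+1)).2 - (p k).2| = 1) ∧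
      ∑ k ∈ Finset.range l.length, W (traO (p k) (p (k+1))) =
        (l.map (fun e => W (traF e))).sum := by
  have key : ∀ (e : (ℤ × ℤ) × Bool) (x y z : ℤ × ℤ) (l : List ((ℤ × ℤ) × Bool)),
      ((e.1 = x ∧ traHd e = y) ∨ (traHd e = x ∧ e.1 = y)) →
      (∃ p : ℕ → ℤ × ℤ, p 0 = y ∧ p l.length = z ∧
        (∀ k < l.length, |(p (k+1)).1 - (p k).1| + |(p (k+1)).2 - (p k).2| = 1) ∧
        ∑ k ∈ Finset.range l.length, W (traO (p k) (p (k+1))) =
          (l.map (fun e => W (traF e))).sum) →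
      ∃ p : ℕ → ℤ × ℤ, p 0 = x ∧ p (e :: l).length = z ∧
        (∀ k < (e :: l).length, |(p (k+1)).1 - (p k).1| + |(p (k+1)).2 - (p k).2| = 1) ∧
        ∑ k ∈ Finset.range (e :: l).length, W (traO (p k) (p (k+1))) =
          ((e :: l).map (fun e => W (traF e))).sum := by
    rintro e x y z l he ⟨p, hp0, hpl, hps, hpw⟩
    obtain ⟨ha, hO⟩ := tra_step_conv he
    let q : ℕ → ℤ × ℤ := fun k => match k with
      | 0 => x
      | k + 1 => p k
    have hq0 : q 0 = x := rfl
    have hq1 : ∀ k, q (k + 1) = p k := fun _ => rfl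
    refine ⟨q, hq0, ?_, ?_, ?_⟩
    · rw [List.length_cons, hq1]
      exact hpl
    · intro k hk
      rcases k with _ | k
      · rw [hq1, hq0, hp0]
        exact ha
      · rw [hq1, hq1]
        exact hps k (by simpa using hk)
    · rw [List.length_cons, Finset.sum_range_succ', List.map_cons, List.sum_cons]
      simp only [hq1, hq0, zero_add, hp0, hO]
      rw [hpw]
      ring
  induction h with
  | nil x => exact ⟨fun _ => x, rfl, rfl, by simp, by simp⟩
  | fwd e y l _ ih => exact key e e.1 (traHd e) y l (Or.inl ⟨rfl, rfl⟩) ih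
  | bwd e y l _ ih => exact key e (traHd e) e.1 y l (Or.inr ⟨rfl, rfl⟩) ih

theorem tra_sum_bounds {α : Type*} {a b : ℝ} (f : α → ℝ) (hf : ∀ x, a ≤ f x ∧ f x ≤ b)
    (l : List α) : a * l.length ≤ (l.map f).sum ∧ (l.map f).sum ≤ b * l.length := by
  induction l with
  | nil => simp
  | cons x l ih =>
    have := hf x
    simp only [List.map_cons, List.sum_cons, List.length_cons]
    push_cast
    constructor <;> nlinarith [ih.1, ih.2, this.1, this.2]

theorem tra_int_eq {N m : ℕ} (hN : 2 * m < N) {x y : ℤ} (hx : x.natAbs ≤ m) (hy : y.natAbs ≤ m)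
    (h : (x : ZMod N) = (y : ZMod N)) : x = y := by
  have h1 : (N : ℤ) ∣ y - x := (ZMod.intCast_eq_intCast_iff_dvd_sub x y N).1 h
  obtain ⟨k, hk⟩ := h1
  have h2 : k = 0 := by
    by_contra hk0
    have h3 : (N : ℤ) ≤ |y - x| := by
      rw [hk, abs_mul]
      have : (1 : ℤ) ≤ |k| := Int.one_le_abs hk0
      have hN0 : (0 : ℤ) ≤ (N : ℤ) := by positivity
      rw [abs_of_nonneg hN0]
      nlinarith
    have h4 : |y - x| ≤ 2 * m := by
      rw [abs_le]
      constructor <;> omega
    omega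
  rw [h2] at hk
  omega

/-- the passage times agree when the configurations agree on the box -/
theorem tra_dist_eq {a b : ℝ} (ha : 0 < a) (hab : a < b) (v : ℤ × ℤ) (N m : ℕ) [NeZero N]
    (hm : b * ((v.1.natAbs + v.2.natAbs : ℕ) : ℝ) < a * ((m : ℝ) + 1))
    (hK : v.1.natAbs + v.2.natAbs ≤ m) (hN : 2 * m < N)
    (ω : (ℤ × ℤ) × Fin 2 → Bool) (ω' : Edge N → Bool)
    (hω : ∀ e : (ℤ × ℤ) × Fin 2, e.1.1.natAbs ≤ m → e.1.2.natAbs ≤ m → ω e = ω' (traR N e)) :
    latticeDist a b v ω = FF a b (redV N v) 0 ω' := by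
  have h00 : (0 : Vtx N) = redV N 0 := by simp [redV, Prod.ext_iff]
  unfold latticeDist FF dst
  rw [zero_add]
  set K := v.1.natAbs + v.2.natAbs with hKdef
  let W : (ℤ × ℤ) × Fin 2 → ℝ := fun e => if ω e = true then a else b
  have hW : ∀ e, a ≤ W e ∧ W e ≤ b := by
    intro e
    simp only [W]
    split_ifs
    · exact ⟨le_refl _, hab.le⟩
    · exact ⟨hab.le, le_refl _⟩
  have hW' : ∀ e : Edge N, a ≤ wt a b ω' e ∧ wt a b ω' e ≤ b := by
    intro e
    simp only [wt]
    split_ifs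
    · exact ⟨le_refl _, hab.le⟩
    · exact ⟨hab.le, le_refl _⟩
  -- costs agree for short walks
  have hcost : ∀ (y : ℤ × ℤ) (l : List ((ℤ × ℤ) × Bool)), TraWalk 0 y l → l.length ≤ m →
      cost a b ω' (l.map (traE N)) = (l.map (fun e => W (traF e))).sum := by
    intro y l hl hlm
    unfold cost
    rw [List.map_map]
    congr 1
    apply List.map_congr_left
    intro e he
    obtain ⟨h1, h2⟩ := hl.bound.1 e he
    simp only [Prod.fst_zero, Prod.snd_zero, sub_zero] at h1 h2
    have := hω (traF e) (by simpa [traF] using h1.trans hlm) (by simpa [traF] using h2.trans hlm)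
    simp only [Function.comp, W, wt, this, traR_traF]
  -- a straight walk
  obtain ⟨l₀, hl₀, hlen₀⟩ := tra_straight K 0 v (by simp [hKdef])
  have hA : ∀ t ∈ {t : ℝ | ∃ (n : ℕ) (p : ℕ → ℤ × ℤ), p 0 = 0 ∧ p n = v ∧
      (∀ k < n, |(p (k+1)).1 - (p k).1| + |(p (k+1)).2 - (p k).2| = 1) ∧
      t = ∑ k ∈ Finset.range n, (if ω ((min (p k).1 (p (k+1)).1, min (p k).2 (p (k+1)).2),
            (if (p k).2 = (p (k+1)).2 then (0 : Fin 2) else (1 : Fin 2))) = true
        then a else b)},
      ∃ t' ∈ {t : ℝ | ∃ l : List (Edge N), Walk 0 (redV N v) l ∧ t = cost a b ω' l}, t' ≤ t := by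
    rintro t ⟨n, p, hp0, hpn, hps, rfl⟩
    obtain ⟨l, hw, hl, hs⟩ := tra_path_to_walk W n p hps
    rw [hp0, hpn] at hw
    have hs' : (∑ k ∈ Finset.range n, (if ω ((min (p k).1 (p (k+1)).1, min (p k).2 (p (k+1)).2),
            (if (p k).2 = (p (k+1)).2 then (0 : Fin 2) else (1 : Fin 2))) = true
        then a else b)) = (l.map (fun e => W (traF e))).sum := hs
    rw [hs']
    by_cases hnm : n ≤ m
    · refine ⟨cost a b ω' (l.map (traE N)), ⟨_, ?_, rfl⟩, ?_⟩
      · have := hw.red (N := N)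
        rwa [← h00] at this
      · rw [hcost v l hw (by omega)]
    · refine ⟨cost a b ω' (l₀.map (traE N)), ⟨_, ?_, rfl⟩, ?_⟩
      · have := hl₀.red (N := N)
        rwa [← h00] at this
      · have h1 := (tra_sum_bounds (wt a b ω') hW' (l₀.map (traE N))).2
        have h2 := (tra_sum_bounds (fun e => W (traF e)) (fun e => hW _) l).1
        rw [List.length_map, hlen₀] at h1
        rw [hl] at h2
        have h3 : ((m : ℝ) + 1) ≤ (n : ℝ) := by
          have : m + 1 ≤ n := by omega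
          exact_mod_cast this
        unfold cost
        nlinarith
  have hB : ∀ t ∈ {t : ℝ | ∃ l : List (Edge N), Walk 0 (redV N v) l ∧ t = cost a b ω' l},
      ∃ t' ∈ {t : ℝ | ∃ (n : ℕ) (p : ℕ → ℤ × ℤ), p 0 = 0 ∧ p n = v ∧
      (∀ k < n, |(p (k+1)).1 - (p k).1| + |(p (k+1)).2 - (p k).2| = 1) ∧
      t = ∑ k ∈ Finset.range n, (if ω ((min (p k).1 (p (k+1)).1, min (p k).2 (p (k+1)).2),
            (if (p k).2 = (p (k+1)).2 then (0 : Fin 2) else (1 : Fin 2))) = true
        then a else b)}, t' ≤ t := by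
    rintro t ⟨l', hw', rfl⟩
    obtain ⟨y, l, hw, hy, hl⟩ := tra_lift hw' 0 h00.symm
    have hlen : l.length = l'.length := by rw [← hl, List.length_map]
    by_cases hnm : l'.length ≤ m
    · have hyv : y = v := by
        have hb := hw.bound.2
        simp only [Prod.fst_zero, Prod.snd_zero, sub_zero] at hb
        simp only [redV, Prod.mk.injEq] at hy
        refine Prod.ext ?_ ?_
        · exact tra_int_eq hN (by omega) (by omega) hy.1
        · exact tra_int_eq hN (by omega) (by omega) hy.2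
      subst hyv
      obtain ⟨p, hp0, hpn, hps, hpw⟩ := tra_walk_to_path W hw
      refine ⟨_, ⟨l.length, p, hp0, hpn, hps, rfl⟩, ?_⟩
      have h1 := hcost y l hw (by omega)
      rw [hl] at h1
      rw [h1, ← hpw]
      exact le_of_eq rfl
    · obtain ⟨p, hp0, hpn, hps, hpw⟩ := tra_walk_to_path W hl₀
      refine ⟨_, ⟨l₀.length, p, hp0, hpn, hps, rfl⟩, ?_⟩
      have h1 := (tra_sum_bounds (fun e => W (traF e)) (fun e => hW _) l₀).2
      have h2 := (tra_sum_bounds (wt a b ω') hW' l').1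
      rw [← hpw] at h1
      have h3 : ((m : ℝ) + 1) ≤ (l'.length : ℝ) := by
        have : m + 1 ≤ l'.length := by omega
        exact_mod_cast this
      have h4 : ∑ k ∈ Finset.range l₀.length,
          (if ω ((min (p k).1 (p (k+1)).1, min (p k).2 (p (k+1)).2),
            (if (p k).2 = (p (k+1)).2 then (0 : Fin 2) else (1 : Fin 2))) = true
          then a else b) ≤ b * (l₀.length : ℝ) := h1
      rw [show ((l₀.length : ℕ) : ℝ) = (K : ℝ) by rw [hlen₀]] at h4
      unfold cost
      nlinarith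
  have hA0 : BddBelow {t : ℝ | ∃ (n : ℕ) (p : ℕ → ℤ × ℤ), p 0 = 0 ∧ p n = v ∧
      (∀ k < n, |(p (k+1)).1 - (p k).1| + |(p (k+1)).2 - (p k).2| = 1) ∧
      t = ∑ k ∈ Finset.range n, (if ω ((min (p k).1 (p (k+1)).1, min (p k).2 (p (k+1)).2),
            (if (p k).2 = (p (k+1)).2 then (0 : Fin 2) else (1 : Fin 2))) = true
        then a else b)} := by
    refine ⟨0, ?_⟩
    rintro t ⟨n, p, _, _, _, rfl⟩
    exact Finset.sum_nonneg (fun k _ => by split_ifs <;> linarith)
  have hB0 : BddBelow {t : ℝ | ∃ l : List (Edge N), Walk 0 (redV N v) l ∧ t = cost a b ω' l} := by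
    refine ⟨0, ?_⟩
    rintro t ⟨l, _, rfl⟩
    have := (tra_sum_bounds (wt a b ω') hW' l).1
    unfold cost
    have h2 : 0 ≤ a * (l.length : ℝ) := by positivity
    linarith
  have hB1 : {t : ℝ | ∃ l : List (Edge N), Walk 0 (redV N v) l ∧ t = cost a b ω' l}.Nonempty := by
    refine ⟨_, l₀.map (traE N), ?_, rfl⟩
    have := hl₀.red (N := N)
    rwa [← h00] at this
  have hA1 : {t : ℝ | ∃ (n : ℕ) (p : ℕ → ℤ × ℤ), p 0 = 0 ∧ p n = v ∧
      (∀ k < n, |(p (k+1)).1 - (p k).1| + |(p (k+1)).2 - (p k).2| = 1) ∧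
      t = ∑ k ∈ Finset.range n, (if ω ((min (p k).1 (p (k+1)).1, min (p k).2 (p (k+1)).2),
            (if (p k).2 = (p (k+1)).2 then (0 : Fin 2) else (1 : Fin 2))) = true
        then a else b)}.Nonempty := by
    obtain ⟨t, ht⟩ := hB1
    obtain ⟨t', ht', _⟩ := hB t ht
    exact ⟨t', ht'⟩
  apply le_antisymm
  · apply le_csInf hB1
    intro t ht
    obtain ⟨t', ht', hle⟩ := hB t ht
    exact (csInf_le hA0 ht').trans hle
  · apply le_csInf hA1
    intro t ht
    obtain ⟨t', ht', hle⟩ := hA t ht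
    exact (csInf_le hB0 ht').trans hle

/-! ### finitely many fair bits -/

theorem tra_Ex_comp {ι κ : Type*} [Fintype ι] [DecidableEq ι] [Fintype κ] [DecidableEq κ]
    (f : κ → ι) (hf : Function.Injective f) (H : (κ → Bool) → ℝ) :
    Ex (fun ω : ι → Bool => H (fun k => ω (f k))) = Ex H := by
  classical
  let p : ι → Prop := fun i => i ∈ Set.range f
  let e1 : (ι → Bool) ≃ ({i // p i} → Bool) × ({i // ¬ p i} → Bool) :=
    Equiv.piEquivPiSubtypeProd p (fun _ => Bool)
  let e2 : κ ≃ {i // p i} := Equiv.ofInjective f hf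
  let e3 : ({i // p i} → Bool) ≃ (κ → Bool) := Equiv.arrowCongr e2.symm (Equiv.refl Bool)
  let e4 : (ι → Bool) ≃ (κ → Bool) × ({i // ¬ p i} → Bool) :=
    e1.trans (Equiv.prodCongr e3 (Equiv.refl _))
  have hfst : ∀ ω : ι → Bool, (e4 ω).1 = fun k => ω (f k) := by
    intro ω
    rfl
  unfold Ex
  have hs : ∑ ω : ι → Bool, H (fun k => ω (f k)) =
      (Fintype.card ({i // ¬ p i} → Bool) : ℝ) * ∑ η : κ → Bool, H η := by
    have h1 : ∑ ω : ι → Bool, H (fun k => ω (f k)) =
        ∑ w : (κ → Bool) × ({i // ¬ p i} → Bool), H w.1 :=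
      Fintype.sum_equiv e4 _ _ (fun ω => by rw [hfst])
    rw [h1, Fintype.sum_prod_type]
    simp only [Finset.sum_const, Finset.card_univ, nsmul_eq_mul]
    rw [Finset.mul_sum]
  have hc : (Fintype.card (ι → Bool) : ℝ) =
      (Fintype.card (κ → Bool) : ℝ) * (Fintype.card ({i // ¬ p i} → Bool) : ℝ) := by
    rw [Fintype.card_congr e4, Fintype.card_prod]
    push_cast
    ring
  rw [hs, hc]
  have h1 : (Fintype.card ({i // ¬ p i} → Bool) : ℝ) ≠ 0 := by
    exact_mod_cast Fintype.card_ne_zero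
  have h2 : (Fintype.card (κ → Bool) : ℝ) ≠ 0 := by
    exact_mod_cast Fintype.card_ne_zero
  field_simp

open MeasureTheory in
theorem tra_integral {ι : Type*} [DecidableEq ι] (B : Finset ι) (H : (B → Bool) → ℝ) :
    ∫ ω, H (B.restrict ω) ∂(Measure.infinitePi
      (fun _ : ι => (PMF.uniformOfFintype Bool).toMeasure)) = Ex H := by
  have hH : Measurable H := measurable_of_finite H
  refine (integral_restrict_infinitePi (μ := fun _ : ι => (PMF.uniformOfFintype Bool).toMeasure)
    (s := B) (f := H) hH.aestronglyMeasurable).trans ?_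
  rw [integral_fintype]
  · unfold Ex
    rw [Finset.sum_div]
    apply Finset.sum_congr rfl
    intro η _
    have h1 : (Measure.pi (fun _ : B => (PMF.uniformOfFintype Bool).toMeasure)).real {η} =
        (1 / 2 : ℝ) ^ B.card := by
      rw [Measure.real, Measure.pi_singleton]
      have h2 : ∀ x : Bool, (PMF.uniformOfFintype Bool).toMeasure {x} = (2 : ENNReal)⁻¹ := by
        intro x
        rw [PMF.toMeasure_apply_singleton _ _ (measurableSet_singleton x)]
        simp
      simp only [h2, Finset.prod_const, Finset.card_univ, Fintype.card_coe]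
      rw [ENNReal.toReal_pow, ENNReal.toReal_inv]
      simp
    rw [h1, smul_eq_mul, Fintype.card_fun, Fintype.card_bool, Fintype.card_coe]
    push_cast
    rw [one_div, inv_pow]
    field_simp
  · exact Integrable.of_finite

open MeasureTheory in
theorem tra_var {ι : Type*} [DecidableEq ι] (B : Finset ι) (G : (B → Bool) → ℝ) :
    ProbabilityTheory.variance (fun ω : ι → Bool => G (B.restrict ω)) (Measure.infinitePi
      (fun _ : ι => (PMF.uniformOfFintype Bool).toMeasure)) =
    Ex (fun η => (G η - Ex G) ^ 2) := by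
  have hG : Measurable G := measurable_of_finite G
  have hm : Measurable (fun ω : ι → Bool => G (B.restrict ω)) :=
    hG.comp (Finset.measurable_restrict B)
  rw [ProbabilityTheory.variance_eq_integral hm.aemeasurable, tra_integral B G]
  exact tra_integral B (fun η => (G η - Ex G) ^ 2)

theorem rho_redV {N : ℕ} [NeZero N] (v : ℤ × ℤ) (hN : 2 * (v.1.natAbs + v.2.natAbs) < N) :
    rho 0 (redV N v) = v.1.natAbs + v.2.natAbs := by
  have h : ∀ x : ℤ, 2 * x.natAbs < N → (ZMod.valMinAbs ((0 : ZMod N) - (x : ZMod N))).natAbs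
      = x.natAbs := by
    intro x hx
    rw [zero_sub]
    have h1 : ((-x : ℤ) : ZMod N) = -(x : ZMod N) := by push_cast; rfl
    have h2 : (-(x : ZMod N)).valMinAbs = -x := by
      rw [ZMod.valMinAbs_spec]
      refine ⟨h1.symm, ?_, ?_⟩
      · omega
      · omega
    rw [h2, Int.natAbs_neg]
  unfold rho redV
  simp only [Prod.fst_zero, Prod.snd_zero]
  rw [h v.1 (by omega), h v.2 (by omega)]

/-- TRANSFER: for a large torus the two variances agree -/
theorem transfer (a b : ℝ) (ha : 0 < a) (hab : a < b) (v : ℤ × ℤ) :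
    ∃ N₀ : ℕ, ∀ (N : ℕ) [NeZero N], N₀ ≤ N →
      latticeVar a b v =
        Ex (fun ω : Edge N → Bool => (FF a b (redV N v) 0 ω - Ex (FF a b (redV N v) 0)) ^ 2) := by
  classical
  set K := v.1.natAbs + v.2.natAbs with hK
  set m := ⌈b * (K : ℝ) / a⌉₊ + K with hmdef
  have hm : b * ((v.1.natAbs + v.2.natAbs : ℕ) : ℝ) < a * ((m : ℝ) + 1) := by
    have h1 : b * (K : ℝ) / a ≤ ⌈b * (K : ℝ) / a⌉₊ := Nat.le_ceil _
    have h2 : ((⌈b * (K : ℝ) / a⌉₊ : ℕ) : ℝ) ≤ (m : ℝ) := by
      exact_mod_cast (by omega : ⌈b * (K : ℝ) / a⌉₊ ≤ m)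
    have h3 : b * (K : ℝ) / a < (m : ℝ) + 1 := by linarith
    rw [div_lt_iff₀ ha] at h3
    rw [← hK]
    linarith
  refine ⟨2 * m + 1, fun N _ hN => ?_⟩
  let B : Finset ((ℤ × ℤ) × Fin 2) :=
    (Finset.Icc (-(m : ℤ)) m ×ˢ Finset.Icc (-(m : ℤ)) m) ×ˢ Finset.univ
  have hmemB : ∀ e : (ℤ × ℤ) × Fin 2, e ∈ B ↔ e.1.1.natAbs ≤ m ∧ e.1.2.natAbs ≤ m := by
    intro e
    simp only [B, Finset.mem_product, Finset.mem_Icc, Finset.mem_univ, and_true]
    omega
  let f : B → Edge N := fun e => traR N e.1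
  have hf : Function.Injective f := by
    rintro ⟨⟨⟨x1, x2⟩, d⟩, hx⟩ ⟨⟨⟨y1, y2⟩, d'⟩, hy⟩ hxy
    rw [hmemB] at hx hy
    simp only [f, traR, redV, Prod.mk.injEq] at hxy
    have h1 := tra_int_eq (by omega : 2 * m < N) hx.1 hy.1 hxy.1.1
    have h2 := tra_int_eq (by omega : 2 * m < N) hx.2 hy.2 hxy.1.2
    simp only at h1 h2
    have h3 : d = d' := by
      have := hxy.2
      revert this
      fin_cases d <;> fin_cases d' <;> simp
    subst h1 h2 h3
    rfl
  let G : (B → Bool) → ℝ := fun η =>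
    FF a b (redV N v) 0 (Function.extend f η (fun _ => true))
  have hlat : ∀ ω : (ℤ × ℤ) × Fin 2 → Bool, latticeDist a b v ω = G (B.restrict ω) := by
    intro ω
    refine tra_dist_eq ha hab v N m hm (by omega) (by omega) ω _ ?_
    intro e h1 h2
    have he : e ∈ B := (hmemB e).2 ⟨h1, h2⟩
    have h3 : traR N e = f ⟨e, he⟩ := rfl
    rw [h3, hf.extend_apply]
    rfl
  have hFF : ∀ ω' : Edge N → Bool, FF a b (redV N v) 0 ω' = G (fun e => ω' (f e)) := by
    intro ω'
    rw [← tra_dist_eq ha hab v N m hm (by omega) (by omega) (fun e => ω' (traR N e)) ω'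
      (fun e _ _ => rfl), hlat]
    rfl
  have hE : Ex (FF a b (redV N v) (0 : Vtx N)) = Ex G := by
    have h1 : FF a b (redV N v) (0 : Vtx N) = fun ω' : Edge N → Bool => G (fun e => ω' (f e)) :=
      funext hFF
    rw [h1]
    exact tra_Ex_comp f hf G
  unfold latticeVar
  rw [hE, show latticeDist a b v = fun ω => G (B.restrict ω) from funext hlat, tra_var B G]
  have h2 : (fun ω' : Edge N → Bool => (FF a b (redV N v) 0 ω' - Ex G) ^ 2) =
      fun ω' : Edge N → Bool => (fun η : B → Bool => (G η - Ex G) ^ 2) (fun e => ω' (f e)) := by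
    funext ω'
    simp only [hFF]
  rw [h2]
  exact (tra_Ex_comp f hf (fun η : B → Bool => (G η - Ex G) ^ 2)).symm

end Pool.FPP
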