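import Pool.Agent.FPP.ITE
import Pool.Agent.FPP.TRA

/-!
Module FIN: final assembly for MP_104733_pr.
n = |v|_1 = rho 0 (redV N v), |v| ≤ n ≤ 2|v|. N = 2^J large; j with 2^j ≤ n < 2^{j+1} (n ≥ 2), torus_bound; n = 1:
torus_trivial.  latticeVar is the variance of the statement (rfl / unfold).
-/

set_option autoImplicit false

noncomputable section

namespace Pool.FPP

/-- the bound for the lattice variance in terms of the graph distance `n` of `0` and `v`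
and an exponent `j` with `n < 2 ^ (j + 1)` -/
theorem fin_lattice_bound (a b : ℝ) (ha : 0 < a) (hab : a < b) (k : ℕ) :
    ∃ D : ℝ, 0 ≤ D ∧ ∀ v : ℤ × ℤ, 1 ≤ v.1.natAbs + v.2.natAbs →
      ∃ j : ℕ, 1 ≤ j ∧ v.1.natAbs + v.2.natAbs < 2 ^ (j + 1) ∧
        latticeVar a b v ≤ D * ((v.1.natAbs + v.2.natAbs : ℕ) : ℝ) / (j : ℝ) ^ k := by
  obtain ⟨C, hC, hT⟩ := torus_bound a b ha hab k
  have hc1 : 0 ≤ (b - a) ^ 2 * (b / a) :=
    mul_nonneg (sq_nonneg _) (div_nonneg (ha.trans hab).le ha.le)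
  refine ⟨C + (b - a) ^ 2 * (b / a), add_nonneg hC hc1, ?_⟩
  intro v hv
  obtain ⟨N₀, hN₀⟩ := transfer a b ha hab v
  set n : ℕ := v.1.natAbs + v.2.natAbs with hn
  have hbig : N₀ + 2 * n + 1 ≤ 2 ^ (N₀ + 2 * n + 1) := Nat.lt_two_pow_self.le
  have hN1 : N₀ ≤ 2 ^ (N₀ + 2 * n + 1) := by omega
  have hN2 : 2 * n < 2 ^ (N₀ + 2 * n + 1) := by omega
  have hvar := hN₀ (2 ^ (N₀ + 2 * n + 1)) hN1
  have hrho : rho 0 (redV (2 ^ (N₀ + 2 * n + 1)) v) = n := rho_redV v hN2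
  have hn0 : (0 : ℝ) ≤ (n : ℝ) := Nat.cast_nonneg n
  by_cases h1 : n = 1
  · refine ⟨1, le_refl 1, by rw [h1]; norm_num, ?_⟩
    have ht := torus_trivial a b ha hab (2 ^ (N₀ + 2 * n + 1)) (redV (2 ^ (N₀ + 2 * n + 1)) v)
    rw [hvar, Nat.cast_one, one_pow, div_one]
    rw [hrho] at ht
    refine ht.trans ?_
    exact mul_le_mul_of_nonneg_right (le_add_of_nonneg_left hC) hn0
  · have h2 : 2 ≤ n := by omega
    have hj1 : 1 ≤ Nat.log 2 n := Nat.log_pos (by norm_num) h2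
    have hjn : 2 ^ Nat.log 2 n ≤ n := Nat.pow_log_le_self 2 (by omega)
    have hnj : n < 2 ^ (Nat.log 2 n + 1) := Nat.lt_pow_succ_log_self (by norm_num) n
    refine ⟨Nat.log 2 n, hj1, hnj, ?_⟩
    have hjJ : Nat.log 2 n ≤ N₀ + 2 * n + 1 := by
      have := Nat.log_le_self 2 n
      omega
    have ht := hT (2 ^ (N₀ + 2 * n + 1)) (redV (2 ^ (N₀ + 2 * n + 1)) v) (Nat.log 2 n) hj1
      (pow_dvd_pow 2 hjJ) (by rw [hrho]; exact hjn)
    rw [hrho] at ht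
    rw [hvar]
    refine ht.trans ?_
    have hp : (0 : ℝ) ≤ ((Nat.log 2 n : ℕ) : ℝ) ^ k := pow_nonneg (Nat.cast_nonneg _) _
    exact div_le_div_of_nonneg_right
      (mul_le_mul_of_nonneg_right (le_add_of_nonneg_right hc1) hn0) hp

theorem fin_real (x y : ℤ) :
    Real.sqrt ((x : ℝ) ^ 2 + (y : ℝ) ^ 2) ≤ ((x.natAbs + y.natAbs : ℕ) : ℝ) ∧
    ((x.natAbs + y.natAbs : ℕ) : ℝ) ≤ 2 * Real.sqrt ((x : ℝ) ^ 2 + (y : ℝ) ^ 2) := by
  have hx : ((x.natAbs : ℕ) : ℝ) = |(x : ℝ)| := by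
    rw [Nat.cast_natAbs, Int.cast_abs]
  have hy : ((y.natAbs : ℕ) : ℝ) = |(y : ℝ)| := by
    rw [Nat.cast_natAbs, Int.cast_abs]
  have hsx : |(x : ℝ)| ≤ Real.sqrt ((x : ℝ) ^ 2 + (y : ℝ) ^ 2) := by
    refine Real.abs_le_sqrt ?_
    nlinarith [sq_nonneg (y : ℝ)]
  have hsy : |(y : ℝ)| ≤ Real.sqrt ((x : ℝ) ^ 2 + (y : ℝ) ^ 2) := by
    refine Real.abs_le_sqrt ?_
    nlinarith [sq_nonneg (x : ℝ)]
  rw [Nat.cast_add, hx, hy]
  constructor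
  · rw [Real.sqrt_le_left (by positivity)]
    have h1 := sq_abs (x : ℝ)
    have h2 := sq_abs (y : ℝ)
    nlinarith [mul_nonneg (abs_nonneg (x : ℝ)) (abs_nonneg (y : ℝ))]
  · linarith

theorem main_bound : ∀ a b : ℝ, 0 < a → a < b → ∀ k : ℕ, ∃ C : ℝ, ∀ v : ℤ × ℤ, v ≠ 0 →
    ProbabilityTheory.variance
      (fun ω : (ℤ × ℤ) × Fin 2 → Bool =>
        sInf {t : ℝ | ∃ (n : ℕ) (p : ℕ → ℤ × ℤ), p 0 = 0 ∧ p n = v ∧
          (∀ k < n, |(p (k+1)).1 - (p k).1| + |(p (k+1)).2 - (p k).2| = 1) ∧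
          t = ∑ k ∈ Finset.range n,
            (if ω ((min (p k).1 (p (k+1)).1, min (p k).2 (p (k+1)).2),
                  (if (p k).2 = (p (k+1)).2 then (0 : Fin 2) else (1 : Fin 2))) = true
              then a else b)})
      (MeasureTheory.Measure.infinitePi
        (fun _ : (ℤ × ℤ) × Fin 2 => (PMF.uniformOfFintype Bool).toMeasure))
    ≤ C * Real.sqrt (((v.1 : ℝ)) ^ 2 + ((v.2 : ℝ)) ^ 2) /
        Real.log (2 + Real.sqrt (((v.1 : ℝ)) ^ 2 + ((v.2 : ℝ)) ^ 2)) ^ k := by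
  intro a b ha hab k
  obtain ⟨D, hD, hb⟩ := fin_lattice_bound a b ha hab k
  refine ⟨D * 2 * 3 ^ k, ?_⟩
  intro v hv
  have hn1 : 1 ≤ v.1.natAbs + v.2.natAbs := by
    by_contra hcon
    apply hv
    have h1 : v.1.natAbs = 0 := by omega
    have h2 : v.2.natAbs = 0 := by omega
    exact Prod.ext (Int.natAbs_eq_zero.mp h1) (Int.natAbs_eq_zero.mp h2)
  obtain ⟨j, hj1, hnj, hvar⟩ := hb v hn1
  change latticeVar a b v ≤ _
  refine hvar.trans ?_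
  obtain ⟨hr1, hr2⟩ := fin_real v.1 v.2
  set r : ℝ := Real.sqrt (((v.1 : ℝ)) ^ 2 + ((v.2 : ℝ)) ^ 2) with hr
  set n : ℕ := v.1.natAbs + v.2.natAbs with hn
  have hr0 : 0 ≤ r := Real.sqrt_nonneg _
  have hj : (1 : ℝ) ≤ (j : ℝ) := by exact_mod_cast hj1
  have hjp : (0 : ℝ) < (j : ℝ) := lt_of_lt_of_le one_pos hj
  have hlogpos : 0 < Real.log (2 + r) := Real.log_pos (by linarith)
  have hlog : Real.log (2 + r) ≤ 3 * (j : ℝ) := by
    have h1 : 2 + r ≤ (2 : ℝ) ^ (j + 2) := by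
      have h2 : n + 2 ≤ 2 ^ (j + 2) := by
        have h3 : 2 ^ 1 ≤ 2 ^ j := Nat.pow_le_pow_right (by norm_num) hj1
        have h4 : 2 ^ (j + 2) = 2 * 2 ^ (j + 1) := by ring
        have h5 : 2 ^ (j + 1) = 2 * 2 ^ j := by ring
        omega
      have h6 : (n : ℝ) + 2 ≤ (2 : ℝ) ^ (j + 2) := by exact_mod_cast h2
      linarith
    have h7 : Real.log (2 + r) ≤ Real.log ((2 : ℝ) ^ (j + 2)) :=
      Real.log_le_log (by linarith) h1
    rw [Real.log_pow] at h7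
    have h8 : Real.log 2 ≤ 1 := by
      have := Real.log_two_lt_d9
      linarith
    have h9 : ((j + 2 : ℕ) : ℝ) * Real.log 2 ≤ ((j + 2 : ℕ) : ℝ) * 1 :=
      mul_le_mul_of_nonneg_left h8 (Nat.cast_nonneg _)
    have h10 : ((j + 2 : ℕ) : ℝ) = (j : ℝ) + 2 := by push_cast; ring
    rw [h10] at h9 h7
    linarith
  have hpow : Real.log (2 + r) ^ k ≤ 3 ^ k * (j : ℝ) ^ k := by
    rw [← mul_pow]
    exact pow_le_pow_left₀ hlogpos.le hlog k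
  have hL : 0 < Real.log (2 + r) ^ k := pow_pos hlogpos k
  have hJ : 0 < (j : ℝ) ^ k := pow_pos hjp k
  rw [div_le_div_iff₀ hJ hL]
  have e1 : D * (n : ℝ) * Real.log (2 + r) ^ k ≤ D * (2 * r) * (3 ^ k * (j : ℝ) ^ k) := by
    refine mul_le_mul (mul_le_mul_of_nonneg_left hr2 hD) hpow hL.le ?_
    exact mul_nonneg hD (mul_nonneg (by norm_num) hr0)
  calc D * (n : ℝ) * Real.log (2 + r) ^ k ≤ D * (2 * r) * (3 ^ k * (j : ℝ) ^ k) := e1
    _ = D * 2 * 3 ^ k * r * (j : ℝ) ^ k := by ring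

end Pool.FPP
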