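import Mathlib

/-!
Module GAP: many near-tie tiles around a hub force a gap in the hub times.
R* = c0 p W (c0 small). Suppose every y ∈ NT with ρ(h0,y) ≤ 2W has a hub h with |T h - T y| < R' := α R* - γ.
Then ρ(h,y) ≤ R*, ρ(h,h0) ≤ 3W, |T h - T h0| ≤ 3βW. Cut [T h0 - 3βW, T h0 + 3βW] in at most 6βW/R* + 1
intervals of length R*; hubs with times in the same interval are at ρ-distance ≤ (R*+γ)/α ≤ 2R*/α, so all
the y served by hubs of one interval are in one ball of radius (1+2/α)R*: at most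
(6βW/R* + 1)(A(2+2/α)R*)^2 ≤ C c0 p W^2 < p W^2 tiles, contradiction. So some y has no hub time in
(T y - R', T y + R'), R' ≥ α R*/2. Take τ = T y.
-/

set_option autoImplicit false

noncomputable section

namespace Pool.FPP

open Finset

open Classical in
/-- THE GAP LEMMA -/
theorem gap_lemma (α β γ A : ℝ) (hα : 0 < α) (hαβ : α ≤ β) (hγ : 0 ≤ γ) (hA : 1 ≤ A) :
    ∃ c C₀ : ℝ, 0 < c ∧ 1 ≤ C₀ ∧
      ∀ (𝕋 : Type) (Tile NT Hub : Finset 𝕋), Hub ⊆ NT → NT ⊆ Tile →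
        ∀ (T : 𝕋 → ℝ) (ρ : 𝕋 → 𝕋 → ℝ), (∀ x, ρ x x = 0) → (∀ x y, ρ x y = ρ y x) →
        (∀ x y z, ρ x z ≤ ρ x y + ρ y z) →
        (∀ h ∈ Hub, ∀ y ∈ NT, α * ρ h y - γ ≤ |T h - T y|) →
        (∀ x ∈ Tile, ∀ y ∈ Tile, |T x - T y| ≤ β * ρ x y) →
        (∀ x ∈ Tile, ∀ r : ℝ, 0 ≤ r →
          ((Tile.filter (fun y => ρ x y ≤ r)).card : ℝ) ≤ (A * (r + 1)) ^ 2) →
        ∀ p : ℝ, 0 < p → p ≤ 1 → ∀ W : ℕ, C₀ / p ≤ W → ∀ h₀ ∈ Hub,
        p * (W : ℝ) ^ 2 < ((NT.filter (fun y => ρ h₀ y ≤ 2 * W)).card : ℝ) →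
        ∃ τ : ℝ, |τ - T h₀| ≤ 2 * β * W ∧ ∀ h ∈ Hub, c * p * W ≤ |T h - τ| := by
  classical
  have hβ : 0 < β := lt_of_lt_of_le hα hαβ
  have hA0 : 0 < A := by linarith
  obtain ⟨c, hc0, hc1, hc2⟩ : ∃ c : ℝ, 0 < c ∧ c ≤ 1 ∧ c * (16 * A ^ 2 * (4 * β + 3)) ≤ α ^ 2 := by
    refine ⟨min 1 (α ^ 2 / (16 * A ^ 2 * (4 * β + 3))), ?_, min_le_left _ _, ?_⟩
    · apply lt_min one_pos
      positivity
    · have h1 : min 1 (α ^ 2 / (16 * A ^ 2 * (4 * β + 3))) ≤ α ^ 2 / (16 * A ^ 2 * (4 * β + 3)) :=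
        min_le_right _ _
      rwa [le_div_iff₀ (by positivity)] at h1
  refine ⟨c, max 1 ((2 * γ + α) / c), hc0, le_max_left _ _, ?_⟩
  intro 𝕋 Tile NT Hub hHN hNT T ρ hρ0 hρc hρt hH1 hH2 hH3 p hp0 hp1 W hW h₀ hh₀ hcard
  have hpW : max 1 ((2 * γ + α) / c) ≤ p * W := by
    rw [div_le_iff₀ hp0] at hW
    linarith
  have hpW1 : 1 ≤ p * (W : ℝ) := le_trans (le_max_left _ _) hpW
  have hpW2 : 2 * γ + α ≤ c * (p * W) := by
    have := le_trans (le_max_right _ _) hpW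
    rw [div_le_iff₀ hc0] at this
    linarith
  have hW0 : (0 : ℝ) < W := by
    by_contra hcon
    push Not at hcon
    nlinarith
  set δ : ℝ := c * p * W with hδ
  have hδ0 : 0 < δ := by positivity
  by_contra hcon
  push Not at hcon
  have hρn : ∀ x y, 0 ≤ ρ x y := by
    intro x y
    have h1 := hρt x y x
    rw [hρ0, hρc y x] at h1
    linarith
  -- the set to be counted
  set S := NT.filter (fun y => ρ h₀ y ≤ 2 * W) with hS
  have hh₀T : h₀ ∈ Tile := hNT (hHN hh₀)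
  have hST : ∀ y ∈ S, y ∈ NT ∧ ρ h₀ y ≤ 2 * W := by
    intro y hy
    rw [hS, Finset.mem_filter] at hy
    exact hy
  have htime : ∀ y ∈ S, |T y - T h₀| ≤ 2 * β * W := by
    intro y hy
    obtain ⟨h1, h2⟩ := hST y hy
    have h3 := hH2 y (hNT h1) h₀ hh₀T
    rw [hρc] at h3
    calc |T y - T h₀| ≤ β * ρ h₀ y := h3
      _ ≤ β * (2 * W) := by gcongr
      _ = 2 * β * W := by ring
  have hhub : ∀ y ∈ S, ∃ h ∈ Hub, |T h - T y| < δ := by
    intro y hy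
    exact hcon (T y) (htime y hy)
  -- two points of S with close times are close
  have hclose : ∀ y ∈ S, ∀ y' ∈ S, |T y - T y'| < δ → ρ y y' ≤ (3 * δ + 2 * γ) / α := by
    intro y hy y' hy' hlt
    obtain ⟨h, hh, hhy⟩ := hhub y hy
    have h1 := hH1 h hh y (hST y hy).1
    have h2 := hH1 h hh y' (hST y' hy').1
    have h3 : |T h - T y'| < 2 * δ := by
      have := abs_sub_le (T h) (T y) (T y')
      linarith
    have h4 := hρt y h y'
    rw [hρc y h] at h4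
    rw [le_div_iff₀ hα]
    have h5 : α * ρ h y + α * ρ h y' ≤ 3 * δ + 2 * γ := by linarith
    have h6 : α * ρ y y' ≤ α * (ρ h y + ρ h y') := by gcongr
    linarith
  set R : ℝ := (3 * δ + 2 * γ) / α with hR
  have hR0 : 0 ≤ R := by positivity
  set X : ℝ := 2 * β * W / δ with hX
  have hX0 : 0 ≤ X := by positivity
  let f : 𝕋 → ℤ := fun y => ⌊(T y - T h₀) / δ⌋
  have hmaps : ∀ y ∈ S, f y ∈ Finset.Icc ⌊-X⌋ ⌊X⌋ := by
    intro y hy
    have h1 := abs_le.mp (htime y hy)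
    rw [Finset.mem_Icc]
    constructor
    · apply Int.floor_le_floor
      rw [hX, ← neg_div]
      gcongr
      linarith [h1.1]
    · apply Int.floor_le_floor
      rw [hX]
      gcongr
      linarith [h1.2]
  have hfib : ∀ k ∈ Finset.Icc ⌊-X⌋ ⌊X⌋, (S.filter (fun y => f y = k)).card ≤
      ⌊(A * (R + 1)) ^ 2⌋₊ := by
    intro k _
    rcases (S.filter (fun y => f y = k)).eq_empty_or_nonempty with he | ⟨y0, hy0⟩
    · rw [he]
      simp
    · rw [Finset.mem_filter] at hy0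
      apply Nat.le_floor
      refine le_trans ?_ (hH3 y0 (hNT (hST y0 hy0.1).1) R hR0)
      norm_cast
      apply Finset.card_le_card
      intro y hy
      rw [Finset.mem_filter] at hy
      rw [Finset.mem_filter]
      refine ⟨hNT (hST y hy.1).1, ?_⟩
      apply hclose y0 hy0.1 y hy.1
      have h1 : f y0 = f y := by rw [hy0.2, hy.2]
      have h2 := Int.abs_sub_lt_one_of_floor_eq_floor h1
      rw [← sub_div, abs_div, abs_of_pos hδ0, div_lt_one hδ0] at h2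
      have h3 : T y0 - T h₀ - (T y - T h₀) = T y0 - T y := by ring
      rwa [h3] at h2
  have hcnt := Finset.card_le_mul_card_image_of_maps_to hmaps _ hfib
  have hcardI : ((Finset.Icc ⌊-X⌋ ⌊X⌋).card : ℝ) ≤ 2 * X + 2 := by
    rw [Int.card_Icc]
    have h1 : ⌊-X⌋ ≤ ⌊X⌋ + 1 := by
      have : ⌊-X⌋ ≤ ⌊X⌋ := Int.floor_le_floor (by linarith)
      omega
    have h2 : (((⌊X⌋ + 1 - ⌊-X⌋).toNat : ℕ) : ℝ) = ((⌊X⌋ + 1 - ⌊-X⌋ : ℤ) : ℝ) := by
      rw [← Int.cast_natCast, Int.toNat_of_nonneg (by omega)]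
    rw [h2]
    push_cast
    have h3 := Int.floor_le X
    have h4 := Int.lt_floor_add_one (-X)
    linarith
  have hfl : ((⌊(A * (R + 1)) ^ 2⌋₊ : ℕ) : ℝ) ≤ (A * (R + 1)) ^ 2 := Nat.floor_le (by positivity)
  have hcnt' : (S.card : ℝ) ≤ (A * (R + 1)) ^ 2 * (2 * X + 2) := by
    have h1 : (S.card : ℝ) ≤ (⌊(A * (R + 1)) ^ 2⌋₊ : ℝ) * (Finset.Icc ⌊-X⌋ ⌊X⌋).card := by
      exact_mod_cast hcnt
    refine h1.trans ?_
    gcongr
  -- arithmetic
  have hR1 : R + 1 ≤ 4 * δ / α := by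
    rw [hR, div_add_one hα.ne']
    gcongr
    have : c * (p * W) = δ := by rw [hδ]; ring
    linarith
  have hX2 : X = 2 * β / (c * p) := by
    rw [hX, hδ]
    field_simp
  have hfinal : (A * (R + 1)) ^ 2 * (2 * X + 2) ≤ p * (W : ℝ) ^ 2 := by
    have h1 : (A * (R + 1)) ^ 2 ≤ (A * (4 * δ / α)) ^ 2 := by gcongr
    have h2 : (A * (R + 1)) ^ 2 * (2 * X + 2) ≤ (A * (4 * δ / α)) ^ 2 * (2 * X + 2) := by gcongr
    refine h2.trans ?_
    rw [hX2, hδ]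
    have h3 : (A * (4 * (c * p * W) / α)) ^ 2 * (2 * (2 * β / (c * p)) + 2) =
        (16 * A ^ 2 * (4 * β * c + 2 * c ^ 2 * p) / α ^ 2) * (p * (W : ℝ) ^ 2) := by
      field_simp
      ring
    rw [h3]
    have h4 : 16 * A ^ 2 * (4 * β * c + 2 * c ^ 2 * p) / α ^ 2 ≤ 1 := by
      rw [div_le_one (by positivity)]
      refine le_trans ?_ hc2
      have h5 : c ^ 2 * p ≤ c := by
        calc c ^ 2 * p ≤ c ^ 2 * 1 := by gcongr
          _ = c * c := by ring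
          _ ≤ c * 1 := by gcongr
          _ = c := by ring
      have h6 : 4 * β * c + 2 * c ^ 2 * p ≤ c * (4 * β + 3) := by nlinarith
      calc 16 * A ^ 2 * (4 * β * c + 2 * c ^ 2 * p) ≤ 16 * A ^ 2 * (c * (4 * β + 3)) := by gcongr
        _ = c * (16 * A ^ 2 * (4 * β + 3)) := by ring
    have h7 : 0 ≤ p * (W : ℝ) ^ 2 := by positivity
    calc 16 * A ^ 2 * (4 * β * c + 2 * c ^ 2 * p) / α ^ 2 * (p * (W : ℝ) ^ 2)
        ≤ 1 * (p * (W : ℝ) ^ 2) := by gcongr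
      _ = _ := one_mul _
  linarith

end Pool.FPP
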