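import Pool.Agent.FPP.PRJ

/-!
Module HC: the hypercontractive inequality.
Induction on `J`.  One step, coordinate `j`, `u = Tn blk J' f`, `c = E_j u`, `g = u - E_j u`,
`A = E_L c^2`, `B = E_L (c g)`, `G = E_L g^2` (functions, `A` independent of block `j`): `E_j B = 0`,
`B^2 ≤ A G`, and
E_j (A + B + G/4)^2 = A^2 + E B^2 + E G^2/16 + A E G/2 + E(B G)/2
   ≤ A^2 + A EG + EG^2/16 + A EG/2 + (1/2)E(sqrt A G^{3/2}), sqrt A G^{3/2} ≤ A G + G^2/4,
so total ≤ A^2 + 2 A EG + (3/16) EG^2 ≤ (A + EG)^2 + (3/16) EG^2,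
A + EG = E_{L+j} u^2, G = E_L (D_j u)^2.  (T_j u = c + g/2, E_L (T_j u)^2 = A + B + G/4.)
`Tn blk (insert j J') f = E_j (Tn J' f) + (1/2)(1 - E_j)(Tn J' f)`, and `(1-E_j) Tn J' f = Tn J' ((1-E_j) f)`,
`cmp blk S S ((1-E_j) f) = cmp blk (insert j S) (insert j S) f`.
-/

set_option autoImplicit false

noncomputable section

namespace Pool.FPP

open Finset

section

variable {ι κ α : Type*} [Fintype ι] [DecidableEq ι] [Fintype α] [Nonempty α] [DecidableEq κ]

/-- noise operator with parameter 1/2 on the blocks of `J` -/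
def Tn (blk : κ → Finset ι) (J : Finset κ) (f : (ι → α) → ℝ) (ω : ι → α) : ℝ :=
  ∑ S ∈ J.powerset, (1 / 2 : ℝ) ^ S.card * cmp blk J S f ω

section private_lemmas

omit [DecidableEq κ] in
private theorem hc_av_comm (A B : Finset ι) (f : (ι → α) → ℝ) :
    av A (av B f) = av B (av A f) := by
  rw [av_av, av_av, Finset.union_comm]

private theorem hc_ind_mix {A : Finset ι} {h : (ι → α) → ℝ} (hh : av A h = h) (η ω : ι → α) :
    h (mix A η ω) = h ω := by
  rw [← hh]
  exact av_mix A h η ω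

private theorem hc_ind_av {A : Finset ι} (B : Finset ι) {h : (ι → α) → ℝ} (hh : av A h = h) :
    av A (av B h) = av B h := by
  rw [hc_av_comm, hh]

private theorem hc_ind_self (A : Finset ι) (f : (ι → α) → ℝ) : av A (av A f) = av A f := by
  rw [av_av, Finset.union_self]

private theorem hc_ind_sq {A : Finset ι} {h : (ι → α) → ℝ} (hh : av A h = h) :
    av A (fun ω => h ω ^ 2) = fun ω => h ω ^ 2 := by
  funext ω
  have h1 : av A (fun ω => h ω ^ 2) ω = Ex (fun _ : ι → α => h ω ^ 2) := by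
    unfold av
    congr 1
    funext η
    change h (mix A η ω) ^ 2 = h ω ^ 2
    rw [hc_ind_mix hh]
  rw [h1, Ex_const]

omit [Fintype ι] in
private theorem hc_U_insert (blk : κ → Finset ι) (j : κ) (S : Finset κ) :
    U blk (insert j S) = blk j ∪ U blk S := by
  unfold U
  rw [Finset.biUnion_insert]

private theorem hc_cmp_sub (blk : κ → Finset ι) (K J : Finset κ) (f g : (ι → α) → ℝ) (ω : ι → α) :
    cmp blk K J (fun ω => f ω - g ω) ω = cmp blk K J f ω - cmp blk K J g ω := by
  unfold cmp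
  rw [← Finset.sum_sub_distrib]
  apply Finset.sum_congr rfl
  intro T _
  rw [av_sub]
  ring

private theorem hc_cmp_av (blk : κ → Finset ι) (K J : Finset κ) (B : Finset ι)
    (f : (ι → α) → ℝ) : cmp blk K J (av B f) = av B (cmp blk K J f) := by
  funext ω
  unfold cmp
  rw [av_sum]
  apply Finset.sum_congr rfl
  intro T _
  rw [av_mul_left, hc_av_comm]

private theorem hc_cmp_insert_left (blk : κ → Finset ι) {j : κ} {J' S : Finset κ} (hj : j ∉ J')
    (hS : S ⊆ J') (f : (ι → α) → ℝ) :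
    cmp blk (insert j J') S f = av (blk j) (cmp blk J' S f) := by
  funext ω
  unfold cmp
  rw [av_sum]
  apply Finset.sum_congr rfl
  intro T _
  rw [av_mul_left]
  have hjS : j ∉ S := fun h => hj (hS h)
  have e : insert j J' \ S ∪ T = insert j (J' \ S ∪ T) := by
    rw [Finset.insert_sdiff_of_notMem _ hjS, Finset.insert_union]
  rw [e, hc_U_insert, ← av_av]

private theorem hc_cmp_insert_both (blk : κ → Finset ι) {j : κ} {J' S : Finset κ} (hj : j ∉ J')
    (hS : S ⊆ J') (f : (ι → α) → ℝ) (ω : ι → α) :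
    cmp blk (insert j J') (insert j S) f ω
      = cmp blk J' S f ω - av (blk j) (cmp blk J' S f) ω := by
  have hjS : j ∉ S := fun h => hj (hS h)
  have e0 : insert j J' \ insert j S = J' \ S := by
    ext x
    simp only [Finset.mem_sdiff, Finset.mem_insert, not_or]
    constructor
    · rintro ⟨h1 | h1, h2, h3⟩
      · exact absurd h1 h2
      · exact ⟨h1, h3⟩
    · rintro ⟨h1, h3⟩
      exact ⟨Or.inr h1, fun h => hj (h ▸ h1), h3⟩
  unfold cmp
  rw [Finset.sum_powerset_insert hjS, e0, av_sum, sub_eq_add_neg, ← Finset.sum_neg_distrib]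
  congr 1
  apply Finset.sum_congr rfl
  intro T hT
  have hjT : j ∉ T := fun h => hjS (Finset.mem_powerset.1 hT h)
  rw [Finset.card_insert_of_notMem hjT, av_mul_left, Finset.union_insert, hc_U_insert, ← av_av,
    pow_succ]
  ring

private theorem hc_Tn_insert (blk : κ → Finset ι) {j : κ} {J' : Finset κ} (hj : j ∉ J')
    (f : (ι → α) → ℝ) (ω : ι → α) :
    Tn blk (insert j J') f ω = (1 / 2) * (av (blk j) (Tn blk J' f) ω + Tn blk J' f ω) := by
  unfold Tn
  rw [Finset.sum_powerset_insert hj, av_sum, ← Finset.sum_add_distrib, ← Finset.sum_add_distrib,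
    Finset.mul_sum]
  apply Finset.sum_congr rfl
  intro S hS
  have hS' := Finset.mem_powerset.1 hS
  have hjS : j ∉ S := fun h => hj (hS' h)
  rw [hc_cmp_insert_left blk hj hS', hc_cmp_insert_both blk hj hS', av_mul_left,
    Finset.card_insert_of_notMem hjS, pow_succ]
  ring

private theorem hc_Tn_D (blk : κ → Finset ι) (B : Finset ι) (J' : Finset κ)
    (f : (ι → α) → ℝ) (ω : ι → α) :
    Tn blk J' (fun ω => f ω - av B f ω) ω = Tn blk J' f ω - av B (Tn blk J' f) ω := by
  unfold Tn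
  rw [av_sum, ← Finset.sum_sub_distrib]
  apply Finset.sum_congr rfl
  intro S _
  rw [hc_cmp_sub, av_mul_left]
  have : (fun ω => av B f ω) = av B f := rfl
  rw [hc_cmp_av]
  ring

private theorem hc_cmp_self_insert (blk : κ → Finset ι) {j : κ} {S : Finset κ} (hj : j ∉ S)
    (f : (ι → α) → ℝ) (ω : ι → α) :
    cmp blk S S (fun ω => f ω - av (blk j) f ω) ω = cmp blk (insert j S) (insert j S) f ω := by
  rw [hc_cmp_insert_both blk hj (Finset.Subset.refl S), hc_cmp_sub, hc_cmp_av]

/-- one step, pointwise in the outer coordinates -/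
private theorem hc_step (A B : Finset ι) (u : (ι → α) → ℝ) (ω : ι → α) :
    av A (fun ω => (av B (fun ω => ((1 / 2) * (av A u ω + u ω)) ^ 2) ω) ^ 2) ω ≤
      (av (A ∪ B) (fun ω => u ω ^ 2) ω) ^ 2 +
        (3 / 16) * av A (fun ω => (av B (fun ω => (u ω - av A u ω) ^ 2) ω) ^ 2) ω := by
  obtain ⟨c, hc⟩ : ∃ c : (ι → α) → ℝ, c = av A u := ⟨_, rfl⟩
  obtain ⟨g, hg⟩ : ∃ g : (ι → α) → ℝ, g = fun ω => u ω - c ω := ⟨_, rfl⟩
  obtain ⟨a, ha⟩ : ∃ a : (ι → α) → ℝ, a = av B (fun ω => c ω ^ 2) := ⟨_, rfl⟩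
  obtain ⟨b, hb⟩ : ∃ b : (ι → α) → ℝ, b = av B (fun ω => c ω * g ω) := ⟨_, rfl⟩
  obtain ⟨G, hG⟩ : ∃ G : (ι → α) → ℝ, G = av B (fun ω => g ω ^ 2) := ⟨_, rfl⟩
  have hu : ∀ ω, u ω = c ω + g ω := by
    intro ω
    rw [hg]
    ring
  have h1 : ∀ ω, av B (fun ω => ((1 / 2) * (c ω + u ω)) ^ 2) ω = a ω + b ω + (1 / 4) * G ω := by
    intro ω
    have e : (fun ω => ((1 / 2) * (c ω + u ω)) ^ 2)
        = fun ω => (c ω ^ 2 + c ω * g ω) + (1 / 4) * g ω ^ 2 := by
      funext ω
      rw [hu ω]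
      ring
    rw [e, av_add, av_add, av_mul_left, ha, hb, hG]
  have h1' : ∀ ω, av B (fun ω => u ω ^ 2) ω = a ω + 2 * b ω + G ω := by
    intro ω
    have e : (fun ω => u ω ^ 2) = fun ω => (c ω ^ 2 + 2 * (c ω * g ω)) + g ω ^ 2 := by
      funext ω
      rw [hu ω]
      ring
    rw [e, av_add, av_add, av_mul_left, ha, hb, hG]
  have h2 : ∀ ω, b ω ^ 2 ≤ a ω * G ω := by
    intro ω
    rw [ha, hb, hG]
    exact av_cauchy B c g ω
  have ha0 : ∀ ω, 0 ≤ a ω := by
    intro ω
    rw [ha]
    exact av_nonneg B (fun ω => sq_nonneg _) ω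
  have hG0 : ∀ ω, 0 ≤ G ω := by
    intro ω
    rw [hG]
    exact av_nonneg B (fun ω => sq_nonneg _) ω
  have h3 : ∀ ω, (a ω + b ω + (1 / 4) * G ω) ^ 2
      ≤ ((a ω * a ω + a ω * (2 * G ω)) + a ω * (2 * b ω)) + (3 / 16) * G ω ^ 2 := by
    intro ω
    have hle : b ω ≤ a ω + G ω / 4 := by
      by_contra hcon
      push Not at hcon
      have h5 : 0 ≤ a ω + G ω / 4 := by
        have := ha0 ω
        have := hG0 ω
        linarith
      have h6 : (a ω + G ω / 4) ^ 2 < b ω ^ 2 := by
        apply pow_lt_pow_left₀ hcon h5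
        norm_num
      have h7 := h2 ω
      nlinarith [sq_nonneg (a ω - G ω / 4)]
    have h8 := mul_le_mul_of_nonneg_right hle (hG0 ω)
    have h9 := h2 ω
    nlinarith
  have hcself : av A c = c := by rw [hc]; exact hc_ind_self A u
  have haself : av A a = a := by rw [ha]; exact hc_ind_av B (hc_ind_sq hcself)
  have hgzero : ∀ ω, av A g ω = 0 := by
    intro ω
    rw [hg, av_sub, hcself, ← hc, sub_self]
  have hbzero : ∀ ω, av A b ω = 0 := by
    intro ω
    rw [hb, hc_av_comm]
    have e : av A (fun ω => c ω * g ω) = fun _ => 0 := by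
      funext ω
      rw [av_mul_of_indep A g c (hc_ind_mix hcself), hgzero, mul_zero]
    rw [e, av_const]
  have hmul : ∀ (f : (ι → α) → ℝ) (ω : ι → α), av A (fun ω => a ω * f ω) ω = a ω * av A f ω :=
    fun f ω => av_mul_of_indep A f a (hc_ind_mix haself) ω
  have hL : av A (fun ω => (av B (fun ω => ((1 / 2) * (c ω + u ω)) ^ 2) ω) ^ 2) ω
      ≤ a ω * a ω + 2 * a ω * av A G ω + (3 / 16) * av A (fun ω => G ω ^ 2) ω := by
    have e1 : av A (fun ω => (av B (fun ω => ((1 / 2) * (c ω + u ω)) ^ 2) ω) ^ 2) ω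
        ≤ av A (fun ω => ((a ω * a ω + a ω * (2 * G ω)) + a ω * (2 * b ω)) + (3 / 16) * G ω ^ 2) ω := by
      apply av_mono
      intro ω
      rw [h1]
      exact h3 ω
    refine e1.trans (le_of_eq ?_)
    rw [av_add, av_add, av_add, hmul, hmul, hmul, av_mul_left, av_mul_left, av_mul_left, haself,
      hbzero]
    ring
  have hR : av (A ∪ B) (fun ω => u ω ^ 2) ω = a ω + av A G ω := by
    rw [← av_av]
    have e : av B (fun ω => u ω ^ 2) = fun ω => (a ω + 2 * b ω) + G ω := by
      funext ω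
      exact h1' ω
    rw [e, av_add, av_add, av_mul_left, haself, hbzero]
    ring
  rw [hR]
  have hGG : (fun ω => av B (fun ω => (u ω - av A u ω) ^ 2) ω) = G := by
    rw [hG, hg, hc]
  have hfin : av A (fun ω => (av B (fun ω => (u ω - av A u ω) ^ 2) ω) ^ 2) ω
      = av A (fun ω => G ω ^ 2) ω := by
    rw [← hGG]
  rw [hfin, ← hc]
  have := sq_nonneg (av A G ω)
  nlinarith [hL]

end private_lemmas

/-- THE HYPERCONTRACTIVE INEQUALITY -/
theorem HC_ineq (blk : κ → Finset ι) (hdisj : ∀ i j, i ≠ j → Disjoint (blk i) (blk j))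
    (J : Finset κ) : ∀ (K L : Finset κ), J ⊆ K → L ⊆ K → Disjoint J L →
    ∀ (f : (ι → α) → ℝ) (ω₀ : ι → α),
    av (U blk K) (fun ω => (av (U blk L) (fun ω => Tn blk J f ω ^ 2) ω) ^ 2) ω₀ ≤
      ∑ S ∈ J.powerset, (3 / 16 : ℝ) ^ S.card *
        av (U blk K) (fun ω =>
          (av (U blk (L ∪ (J \ S))) (fun ω => cmp blk S S f ω ^ 2) ω) ^ 2) ω₀ := by
  induction J using Finset.induction_on with
  | empty =>
    intro K L _ _ _ f ω₀
    rw [Finset.powerset_empty, Finset.sum_singleton, Finset.card_empty, pow_zero, one_mul,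
      Finset.empty_sdiff, Finset.union_empty]
    have e : Tn blk ∅ f = cmp blk ∅ ∅ f := by
      funext ω
      unfold Tn
      rw [Finset.powerset_empty, Finset.sum_singleton, Finset.card_empty, pow_zero, one_mul]
    rw [e]
  | insert j J' hj ih =>
    intro K L hJK hLK hd f ω₀
    have hjK : j ∈ K := hJK (Finset.mem_insert_self j J')
    have hJ'K : J' ⊆ K := fun x hx => hJK (Finset.mem_insert_of_mem hx)
    have hd' : Disjoint J' L := Finset.disjoint_of_subset_left (Finset.subset_insert j J') hd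
    have hL'K : insert j L ⊆ K := Finset.insert_subset hjK hLK
    have hd'' : Disjoint J' (insert j L) := by
      rw [Finset.disjoint_insert_right]
      exact ⟨hj, hd'⟩
    -- the outer average absorbs the average over the block `j`
    have hout : ∀ h : (ι → α) → ℝ, av (U blk K) (av (blk j) h) ω₀ = av (U blk K) h ω₀ := by
      intro h
      rw [av_av]
      congr 1
      exact Finset.union_eq_left.2 (Finset.subset_biUnion_of_mem blk hjK)
    have hTn : Tn blk (insert j J') f
        = fun ω => (1 / 2) * (av (blk j) (Tn blk J' f) ω + Tn blk J' f ω) := by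
      funext ω
      exact hc_Tn_insert blk hj f ω
    rw [hTn, ← hout]
    have hstep : av (U blk K) (av (blk j) (fun ω => (av (U blk L) (fun ω =>
          ((1 / 2) * (av (blk j) (Tn blk J' f) ω + Tn blk J' f ω)) ^ 2) ω) ^ 2)) ω₀
        ≤ av (U blk K) (fun ω => (av (blk j ∪ U blk L) (fun ω => Tn blk J' f ω ^ 2) ω) ^ 2 +
          (3 / 16) * av (blk j) (fun ω => (av (U blk L) (fun ω =>
            (Tn blk J' f ω - av (blk j) (Tn blk J' f) ω) ^ 2) ω) ^ 2) ω) ω₀ :=
      av_mono _ (fun ω => hc_step (blk j) (U blk L) (Tn blk J' f) ω) ω₀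
    refine hstep.trans ?_
    have hsplit : av (U blk K) (fun ω => (av (blk j ∪ U blk L) (fun ω => Tn blk J' f ω ^ 2) ω) ^ 2 +
          (3 / 16) * av (blk j) (fun ω => (av (U blk L) (fun ω =>
            (Tn blk J' f ω - av (blk j) (Tn blk J' f) ω) ^ 2) ω) ^ 2) ω) ω₀
        = av (U blk K) (fun ω => (av (U blk (insert j L)) (fun ω => Tn blk J' f ω ^ 2) ω) ^ 2) ω₀ +
          (3 / 16) * av (U blk K) (fun ω => (av (U blk L) (fun ω =>
            Tn blk J' (fun ω => f ω - av (blk j) f ω) ω ^ 2) ω) ^ 2) ω₀ := by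
      rw [av_add, av_mul_left, hc_U_insert]
      congr 1
      congr 1
      have hout' := hout (fun ω => (av (U blk L) (fun ω =>
            (Tn blk J' f ω - av (blk j) (Tn blk J' f) ω) ^ 2) ω) ^ 2)
      refine hout'.trans ?_
      have e : (fun ω => Tn blk J' (fun ω => f ω - av (blk j) f ω) ω ^ 2)
          = fun ω => (Tn blk J' f ω - av (blk j) (Tn blk J' f) ω) ^ 2 := by
        funext ω
        rw [hc_Tn_D]
      rw [e]
    rw [hsplit, Finset.sum_powerset_insert hj]
    apply add_le_add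
    · refine (ih K (insert j L) hJ'K hL'K hd'' f ω₀).trans (le_of_eq ?_)
      apply Finset.sum_congr rfl
      intro S hS
      have hjS : j ∉ S := fun h => hj (Finset.mem_powerset.1 hS h)
      have e : L ∪ (insert j J' \ S) = insert j L ∪ (J' \ S) := by
        rw [Finset.insert_sdiff_of_notMem _ hjS, Finset.union_insert, Finset.insert_union]
      rw [e]
    · have h2 := mul_le_mul_of_nonneg_left
        (ih K L hJ'K hLK hd' (fun ω => f ω - av (blk j) f ω) ω₀) (by norm_num : (0 : ℝ) ≤ 3 / 16)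
      refine h2.trans (le_of_eq ?_)
      rw [Finset.mul_sum]
      apply Finset.sum_congr rfl
      intro S hS
      have hjS : j ∉ S := fun h => hj (Finset.mem_powerset.1 hS h)
      have e : insert j J' \ insert j S = J' \ S := by
        ext x
        simp only [Finset.mem_sdiff, Finset.mem_insert, not_or]
        constructor
        · rintro ⟨h1 | h1, h2, h3⟩
          · exact absurd h1 h2
          · exact ⟨h1, h3⟩
        · rintro ⟨h1, h3⟩
          exact ⟨Or.inr h1, fun h => hj (h ▸ h1), h3⟩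
      have e2 : (fun ω => cmp blk S S (fun ω => f ω - av (blk j) f ω) ω ^ 2)
          = fun ω => cmp blk (insert j S) (insert j S) f ω ^ 2 := by
        funext ω
        rw [hc_cmp_self_insert blk hjS]
      rw [e, e2, Finset.card_insert_of_notMem hjS, pow_succ]
      ring

end

end Pool.FPP
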