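import Pool.Agent.FPP.PRJ

/-!
Module PAR0: pair space facts.
Pd_fstc, Pd_res: av of a function of `fstc w` is the av of the function (marginal of the uniform measure);
`res A w = fstc (swap_A w)` where swap_A exchanges the two entries at the coordinates in A; swap is a
bijection, acts coordinatewise, so it commutes with every `av B`.
pair_identity: E[F(res w) h(fstc w)] = Ex (av A F * av A h) = 0, so
Ex (F h) = Ex_w[(F(fst)-F(res)) h(fst)] = (1/2) Ex_w[(F(res)-F(fst))(h(res)-h(fst))] (swap symmetry)
= Ex_w[(F(res)-F(fst))_+ (h(res)-h(fst))] (swap symmetry again).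
-/

set_option autoImplicit false

noncomputable section

namespace Pool.FPP

open Finset

section

variable {ι κ α : Type*} [Fintype ι] [DecidableEq ι] [Fintype α] [Nonempty α] [DecidableEq κ]

omit [Fintype ι] [Fintype α] [Nonempty α] in
/-- exchange the two entries at the coordinates in `A` -/
private def p0_sw (A : Finset ι) (w : ι → α × α) : ι → α × α :=
  fun i => if i ∈ A then ((w i).2, (w i).1) else w i

omit [Fintype ι] [Fintype α] [Nonempty α] in
private lemma p0_sw_inv (A : Finset ι) : Function.Involutive (p0_sw (α := α) A) := by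
  intro w
  funext i
  by_cases hi : i ∈ A <;> simp [p0_sw, hi]

omit [Fintype ι] [Fintype α] [Nonempty α] in
private lemma p0_fstc_sw (A : Finset ι) (w : ι → α × α) : fstc (p0_sw A w) = res A w := by
  funext i
  by_cases hi : i ∈ A <;> simp [p0_sw, fstc, sndc, res, mix, hi]

omit [Fintype ι] [Fintype α] [Nonempty α] in
private lemma p0_res_sw (A : Finset ι) (w : ι → α × α) : res A (p0_sw A w) = fstc w := by
  rw [← p0_fstc_sw, p0_sw_inv A w]

omit [Nonempty α] in
private lemma p0_Ex_sw (A : Finset ι) (G : (ι → α × α) → ℝ) :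
    Ex (fun w => G (p0_sw A w)) = Ex G :=
  Ex_equiv (p0_sw_inv A).toPerm G

private lemma p0_av_fstc (B : Finset ι) (f : (ι → α) → ℝ) (w : ι → α × α) :
    av B (fun w : ι → α × α => f (fstc w)) w = av B f (fstc w) := by
  unfold av
  have h : ∀ η : ι → α × α, fstc (mix B η w) = mix B (fstc η) (fstc w) := by
    intro η
    funext i
    by_cases hi : i ∈ B <;> simp [fstc, mix, hi]
  simp only [h]
  exact Ex_fstc (fun η : ι → α => f (mix B η (fstc w)))

private lemma p0_av_res (B A : Finset ι) (f : (ι → α) → ℝ) (w : ι → α × α) :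
    av B (fun w : ι → α × α => f (res A w)) w = av B f (res A w) := by
  have h : ∀ η : ι → α × α, res A (mix B η w) = fstc (mix B (p0_sw A η) (p0_sw A w)) := by
    intro η
    funext i
    by_cases hi : i ∈ B
    · by_cases hA : i ∈ A <;> simp [fstc, sndc, res, mix, p0_sw, hi, hA]
    · by_cases hA : i ∈ A <;> simp [fstc, sndc, res, mix, p0_sw, hi, hA]
  have h1 : av B (fun w : ι → α × α => f (res A w)) w =
      Ex (fun η : ι → α × α => f (fstc (mix B (p0_sw A η) (p0_sw A w)))) := by
    unfold av
    simp only [h]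
  rw [h1, p0_Ex_sw A (fun η : ι → α × α => f (fstc (mix B η (p0_sw A w))))]
  have h2 := p0_av_fstc B f (p0_sw A w)
  rw [p0_fstc_sw] at h2
  exact h2

theorem Pd_fstc (blk : κ → Finset ι) (K : Finset κ) (d : ℕ) (f : (ι → α) → ℝ) :
    Pd blk K d (fun w : ι → α × α => f (fstc w)) = fun w => Pd blk K d f (fstc w) := by
  funext w
  unfold Pd cmp
  simp only [p0_av_fstc]

theorem Pd_res (blk : κ → Finset ι) (K : Finset κ) (d : ℕ) (A : Finset ι) (f : (ι → α) → ℝ) :
    Pd blk K d (fun w : ι → α × α => f (res A w)) = fun w => Pd blk K d f (res A w) := by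
  funext w
  unfold Pd cmp
  simp only [p0_av_res]

/-- pairs of configurations -/
private def p0_pe : (ι → α × α) ≃ (ι → α) × (ι → α) where
  toFun w := (fstc w, sndc w)
  invFun p := fun i => (p.1 i, p.2 i)
  left_inv w := by
    funext i
    rfl
  right_inv p := rfl

/-- conditional independence -/
private lemma p0_cross (A : Finset ι) (F h : (ι → α) → ℝ) (hh : ∀ ω, av A h ω = 0) :
    Ex (fun w : ι → α × α => F (res A w) * h (fstc w)) = 0 := by
  have h1 := Ex_equiv (p0_pe (ι := ι) (α := α))
    (fun p : (ι → α) × (ι → α) => F (mix A p.2 p.1) * h p.1)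
  rw [Ex_prod] at h1
  have h2 : Ex (fun w : ι → α × α => F (res A w) * h (fstc w)) =
      Ex (fun x : ι → α => Ex (fun y : ι → α => F (mix A y x) * h x)) := h1
  rw [h2]
  have h3 : (fun x : ι → α => Ex (fun y : ι → α => F (mix A y x) * h x)) =
      fun x => av A F x * h x := by
    funext x
    rw [Ex_mul_right]
    rfl
  rw [h3, ← Ex_av A]
  have h4 : av A (fun x => av A F x * h x) = fun _ => 0 := by
    funext ω
    rw [av_mul_of_indep A h (av A F) (fun η ω => av_mix A F η ω) ω, hh ω, mul_zero]
  rw [h4, Ex_const]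

private lemma p0_double (A : Finset ι) (F h : (ι → α) → ℝ) (hh : ∀ ω, av A h ω = 0) :
    Ex (fun w : ι → α × α => (F (res A w) - F (fstc w)) * (h (res A w) - h (fstc w))) =
      2 * Ex (fun ω => F ω * h ω) := by
  have e1 : (fun w : ι → α × α => (F (res A w) - F (fstc w)) * (h (res A w) - h (fstc w))) =
      fun w => ((F (res A w) * h (res A w)) + (F (fstc w) * h (fstc w))) -
        ((F (res A w) * h (fstc w)) + (F (fstc w) * h (res A w))) := by
    funext w
    ring
  have e2 : Ex (fun w : ι → α × α => F (fstc w) * h (fstc w)) = Ex (fun ω => F ω * h ω) :=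
    Ex_fstc (fun ω => F ω * h ω)
  have e3 : Ex (fun w : ι → α × α => F (res A w) * h (res A w)) = Ex (fun ω => F ω * h ω) :=
    Ex_res A (fun ω => F ω * h ω)
  have e4 := p0_cross A F h hh
  have e5 : Ex (fun w : ι → α × α => F (fstc w) * h (res A w)) = 0 := by
    have := p0_Ex_sw A (fun w : ι → α × α => F (res A w) * h (fstc w))
    simp only [p0_res_sw, p0_fstc_sw] at this
    rw [this, e4]
  rw [e1, Ex_sub, Ex_add, Ex_add, e2, e3, e4, e5]
  ring

theorem pair_identity (A : Finset ι) (F h : (ι → α) → ℝ) (hh : ∀ ω, av A h ω = 0) :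
    Ex (fun ω => F ω * h ω) =
      Ex (fun w : ι → α × α => inc A F w * (h (res A w) - h (fstc w))) := by
  have h1 := p0_double A F h hh
  have h2 := p0_Ex_sw A (fun w : ι → α × α => inc A F w * (h (res A w) - h (fstc w)))
  have e1 : (fun w : ι → α × α => (F (res A w) - F (fstc w)) * (h (res A w) - h (fstc w))) =
      fun w => inc A F w * (h (res A w) - h (fstc w)) +
        inc A F (p0_sw A w) * (h (res A (p0_sw A w)) - h (fstc (p0_sw A w))) := by
    funext w
    unfold inc
    rw [p0_res_sw, p0_fstc_sw]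
    rcases le_total (F (res A w) - F (fstc w)) 0 with h0 | h0
    · rw [max_eq_left h0, max_eq_right (by linarith)]
      ring
    · rw [max_eq_right h0, max_eq_left (by linarith)]
      ring
  rw [e1, Ex_add, h2] at h1
  linarith

theorem pair_norm (A : Finset ι) (h : (ι → α) → ℝ) (hh : ∀ ω, av A h ω = 0) :
    Ex (fun w : ι → α × α => (h (res A w) - h (fstc w)) ^ 2) = 2 * Ex (fun ω => h ω ^ 2) := by
  have h1 := p0_double A h h hh
  simp only [← pow_two] at h1
  exact h1

end

end Pool.FPP
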