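import Pool.Agent.FPP.LEV
import Pool.Agent.FPP.PAR0

/-!
Module PAR: the parts inequality.
g = avg_z F_z, h = Pd(g - E_{K0} g) = Pd g - E_{K0} Pd g, so E_{K0} h = 0, Pd h = h.
Ex h^2 = Ex (g h) (self adjoint, idempotent, E_{K0} h = 0). pair_identity for each z:
Ex h^2 = Ex_w[f H], f = avg_z inc (F_z), H = h(res) - h(fst), Ex H^2 = 2 Ex h^2, Pd H = H (Pd_fstc, Pd_res).
f = f_small + f_large + f_high + sum_{i<q} f_i, f_i = avg_z inc 1{t_i < inc ≤ t_{i+1}} 1{Low z (fstc w)}.
Ex (f_i H) = Ex ((Pd f_i) H) ≤ ‖Pd f_i‖ ‖H‖. level_ineq for f_i with θ = t_{i+1}^2 p (from hplant and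
(avg_z 1)^2 ≤ avg_z 1), E_K f_i ≤ e_i/t_i, E_K f_i^2 ≤ e_i where e_i = avg_z E_K (inc^2 1{slice i}) (at a
point w): (E_K (Pd f_i)^2)^3 ≤ 32^d p r^2 e_i^3 ≤ (lam e_i)^3, so E_K (Pd f_i)^2 ≤ lam e_i pointwise, then Ex.
‖h‖ ≤ sqrt 2 * (sum of q+3 norms); square and Cauchy-Schwarz for the sum.
-/

set_option autoImplicit false

noncomputable section

namespace Pool.FPP

open Finset

section

variable {ι κ α : Type*} [Fintype ι] [DecidableEq ι] [Fintype α] [Nonempty α] [DecidableEq κ]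

/-- self adjointness for the full average -/
theorem par_selfadj (blk : κ → Finset ι) (hdisj : ∀ i j, i ≠ j → Disjoint (blk i) (blk j))
    (K : Finset κ) (d : ℕ) (f g : (ι → α) → ℝ) :
    Ex (fun ω => Pd blk K d f ω * g ω) = Ex (fun ω => f ω * Pd blk K d g ω) := by
  calc Ex (fun ω => Pd blk K d f ω * g ω)
      = Ex (av (U blk K) (fun ω => Pd blk K d f ω * g ω)) := (Ex_av _ _).symm
    _ = Ex (av (U blk K) (fun ω => f ω * Pd blk K d g ω)) := by
        congr 1; funext ω; exact Pd_selfadj blk hdisj K d f g ω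
    _ = Ex (fun ω => f ω * Pd blk K d g ω) := Ex_av _ _

/-- a function with vanishing average is orthogonal to averages -/
theorem par_orth (A : Finset ι) (g h : (ι → α) → ℝ) (hh : ∀ ω, av A h ω = 0) :
    Ex (fun ω => av A g ω * h ω) = 0 := by
  calc Ex (fun ω => av A g ω * h ω) = Ex (av A (fun ω => av A g ω * h ω)) := (Ex_av _ _).symm
    _ = Ex (fun _ : ι → α => (0 : ℝ)) := by
        congr 1; funext ω
        rw [av_mul_of_indep A h (av A g) (fun η ω => av_mix A g η ω), hh, mul_zero]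
    _ = 0 := Ex_const 0

/-- bound of the pairing of the average of a family with a function -/
theorem par_cauchy {Ω Z : Type*} [Fintype Ω] [Fintype Z] [Nonempty Z] (φ : Z → Ω → ℝ)
    (H : Ω → ℝ) :
    (Ex (fun w => Ex (fun z => φ z w) * H w)) ^ 2 ≤
      Ex (fun z => Ex (fun w => φ z w ^ 2)) * Ex (fun w => H w ^ 2) := by
  refine (Ex_cauchy _ _).trans (mul_le_mul_of_nonneg_right ?_ (Ex_nonneg fun w => sq_nonneg _))
  calc Ex (fun w => Ex (fun z => φ z w) ^ 2) ≤ Ex (fun w => Ex (fun z => φ z w ^ 2)) :=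
        Ex_mono fun w => Ex_sq_le _
    _ = Ex (fun z => Ex (fun w => φ z w ^ 2)) := Ex_comm _

open Classical in
/-- splitting of a positive number according to the levels -/
theorem par_split (q : ℕ) (t : ℕ → ℝ) (htmono : ∀ i < q, t i ≤ t (i + 1)) (y : ℝ) (L : Prop) :
    y = (if y ≤ t 0 then y else 0) + (if t q < y then y else 0)
      + (if t 0 < y ∧ y ≤ t q ∧ ¬ L then y else 0)
      + ∑ i ∈ range q, (if t i < y ∧ y ≤ t (i + 1) ∧ L then y else 0) := by
  have hmono : ∀ n ≤ q, t 0 ≤ t n := by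
    intro n hn
    induction n with
    | zero => exact le_rfl
    | succ n ih => exact (ih (by omega)).trans (htmono n (by omega))
  have key : ∀ n ≤ q, ∑ i ∈ range n, (if t i < y ∧ y ≤ t (i + 1) ∧ L then y else 0)
      = if t 0 < y ∧ y ≤ t n ∧ L then y else 0 := by
    intro n hn
    induction n with
    | zero =>
      simp only [range_zero, sum_empty]
      rw [if_neg]
      rintro ⟨h1, h2, _⟩
      exact absurd h1 (not_lt.2 h2)
    | succ n ih =>
      rw [sum_range_succ, ih (by omega)]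
      have h1 := hmono n (by omega)
      have h2 := htmono n (by omega)
      by_cases hL : L
      · by_cases h3 : y ≤ t n
        · have h4 : ¬ t n < y := not_lt.2 h3
          have h5 : y ≤ t (n + 1) := h3.trans h2
          simp [hL, h3, h4, h5]
        · have h4 : t n < y := not_le.1 h3
          have h5 : t 0 < y := lt_of_le_of_lt h1 h4
          simp [hL, h3, h4, h5]
      · simp [hL]
  rw [key q le_rfl]
  have h0 := hmono q le_rfl
  by_cases h1 : y ≤ t 0
  · have h2 : ¬ t q < y := not_lt.2 (h1.trans h0)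
    have h3 : ¬ t 0 < y := not_lt.2 h1
    simp [h1, h2, h3]
  · have h1' : t 0 < y := not_le.1 h1
    by_cases h2 : t q < y
    · have h3 : ¬ y ≤ t q := not_le.2 h2
      simp [h1, h2, h3]
    · have h3 : y ≤ t q := not_lt.1 h2
      by_cases hL : L
      · simp [h1, h2, h3, h1', hL]
      · simp [h1, h2, h3, h1', hL]

open Classical in
/-- the squares of the slices add up to at most the square -/
theorem par_split_sq (q : ℕ) (t : ℕ → ℝ) (htmono : ∀ i < q, t i ≤ t (i + 1)) (y : ℝ) (L : Prop) :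
    ∑ i ∈ range q, (if t i < y ∧ y ≤ t (i + 1) ∧ L then y ^ 2 else 0) ≤ y ^ 2 := by
  have hmono : ∀ n ≤ q, t 0 ≤ t n := by
    intro n hn
    induction n with
    | zero => exact le_rfl
    | succ n ih => exact (ih (by omega)).trans (htmono n (by omega))
  have key : ∀ n ≤ q, ∑ i ∈ range n, (if t i < y ∧ y ≤ t (i + 1) ∧ L then y ^ 2 else 0)
      ≤ if y ≤ t n then y ^ 2 else 0 := by
    intro n hn
    induction n with
    | zero =>
      simp only [range_zero, sum_empty]
      split_ifs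
      · exact sq_nonneg _
      · exact le_rfl
    | succ n ih =>
      rw [sum_range_succ]
      have h0 := ih (by omega)
      have h2 := htmono n (by omega)
      by_cases h3 : y ≤ t n
      · have h4 : ¬ t n < y := not_lt.2 h3
        have h5 : y ≤ t (n + 1) := h3.trans h2
        rw [if_pos h3] at h0
        rw [if_pos h5, if_neg (fun h => h4 h.1), add_zero]
        exact h0
      · rw [if_neg h3] at h0
        by_cases h5 : y ≤ t (n + 1)
        · rw [if_pos h5]
          have : (if t n < y ∧ y ≤ t (n + 1) ∧ L then y ^ 2 else 0) ≤ y ^ 2 := by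
            split_ifs
            · exact le_rfl
            · exact sq_nonneg _
          linarith
        · rw [if_neg h5, if_neg (fun h => h5 h.2.1)]
          linarith
  refine (key q le_rfl).trans ?_
  split_ifs
  · exact le_rfl
  · exact sq_nonneg _

/-- Cauchy-Schwarz for the sum of all parts -/
theorem par_sum (q : ℕ) (a1 a2 a3 : ℝ) (a : ℕ → ℝ) :
    (a1 + a2 + a3 + ∑ i ∈ range q, a i) ^ 2 ≤
      ((q : ℝ) + 3) * (a1 ^ 2 + a2 ^ 2 + a3 ^ 2 + ∑ i ∈ range q, a i ^ 2) := by
  set b : ℕ → ℝ := fun j => if j < q then a j else if j = q then a1 else if j = q + 1 then a2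
    else a3 with hb
  have h1 : ∑ j ∈ range (q + 3), b j = a1 + a2 + a3 + ∑ i ∈ range q, a i := by
    rw [sum_range_succ, sum_range_succ, sum_range_succ]
    have : ∑ j ∈ range q, b j = ∑ i ∈ range q, a i :=
      sum_congr rfl fun j hj => by simp [hb, mem_range.1 hj]
    rw [this]
    simp [hb]
    ring
  have h2 : ∑ j ∈ range (q + 3), b j ^ 2 = a1 ^ 2 + a2 ^ 2 + a3 ^ 2 + ∑ i ∈ range q, a i ^ 2 := by
    rw [sum_range_succ, sum_range_succ, sum_range_succ]
    have : ∑ j ∈ range q, b j ^ 2 = ∑ i ∈ range q, a i ^ 2 :=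
      sum_congr rfl fun j hj => by simp [hb, mem_range.1 hj]
    rw [this]
    simp [hb]
    ring
  have h3 := sq_sum_le_card_mul_sum_sq (s := range (q + 3)) (f := b)
  rw [h1, h2, card_range] at h3
  push_cast at h3
  exact h3

open Classical in
/-- the slice bound, pointwise in the outer coordinates -/
theorem par_slice (blk : κ → Finset ι) (hdisj : ∀ i j, i ≠ j → Disjoint (blk i) (blk j))
    (K : Finset κ) (d : ℕ) {Z : Type*} [Fintype Z] [Nonempty Z] (y : Z → (ι → α) → ℝ)
    (L : Z → (ι → α) → Prop) (s₀ s s' r p lam : ℝ) (hs0 : s₀ ≤ s) (hs : 0 < s) (hss : s ≤ s')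
    (hsr : s' ≤ r * s) (hp : 0 ≤ p) (hlam : 0 ≤ lam) (hlam3 : 32 ^ d * r ^ 2 * p ≤ lam ^ 3)
    (hplant : ∀ S ⊆ K, S.card ≤ d → ∀ w : ι → α,
      Ex (fun z : Z => av (U blk (K \ S)) (fun w' : ι → α =>
        if s₀ < y z w' ∧ L z w' then (1 : ℝ) else 0) w) ≤ p) (w : ι → α) :
    av (U blk K) (fun w => Pd blk K d (fun w => Ex (fun z => if s < y z w ∧ y z w ≤ s' ∧ L z w
        then y z w else 0)) w ^ 2) w ≤
      lam * av (U blk K) (fun w => Ex (fun z => if s < y z w ∧ y z w ≤ s' ∧ L z w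
        then y z w ^ 2 else 0)) w := by
  set f : (ι → α) → ℝ := fun w => Ex (fun z => if s < y z w ∧ y z w ≤ s' ∧ L z w
        then y z w else 0) with hf
  set e : (ι → α) → ℝ := fun w => Ex (fun z => if s < y z w ∧ y z w ≤ s' ∧ L z w
        then y z w ^ 2 else 0) with he
  have hs' : 0 < s' := lt_of_lt_of_le hs hss
  have hf0 : ∀ w, 0 ≤ f w := fun w => Ex_nonneg fun z => by
    split_ifs with h
    · exact (hs.trans h.1).le
    · exact le_rfl
  have he0 : ∀ w, 0 ≤ e w := fun w => Ex_nonneg fun z => by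
    split_ifs with h
    · exact sq_nonneg _
    · exact le_rfl
  have hfe : ∀ w, f w ^ 2 ≤ e w := fun w => by
    refine (Ex_sq_le _).trans (Ex_mono fun z => ?_)
    split_ifs with h
    · exact le_rfl
    · simp
  have hfe1 : ∀ w, f w ≤ e w / s := fun w => by
    rw [le_div_iff₀ hs, hf, he]
    simp only
    rw [← Ex_mul_right]
    refine Ex_mono fun z => ?_
    split_ifs with h
    · nlinarith [h.1]
    · simp
  have hlev := level_ineq blk hdisj K d f (s' ^ 2 * p) w (by
    intro S hS hSd η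
    have h1 : ∀ w', f w' ^ 2 ≤ s' ^ 2 * Ex (fun z : Z =>
        if s₀ < y z w' ∧ L z w' then (1 : ℝ) else 0) := by
      intro w'
      have h2 : f w' ≤ s' * Ex (fun z : Z => if s₀ < y z w' ∧ L z w' then (1 : ℝ) else 0) := by
        rw [← Ex_mul_left]
        refine Ex_mono fun z => ?_
        by_cases h : s < y z w' ∧ y z w' ≤ s' ∧ L z w'
        · rw [if_pos h, if_pos ⟨lt_of_le_of_lt hs0 h.1, h.2.2⟩, mul_one]
          exact h.2.1
        · rw [if_neg h]
          split_ifs
          · rw [mul_one]; exact hs'.le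
          · simp
      have h3 : (Ex (fun z : Z => if s₀ < y z w' ∧ L z w' then (1 : ℝ) else 0)) ^ 2 ≤
          Ex (fun z : Z => if s₀ < y z w' ∧ L z w' then (1 : ℝ) else 0) := by
        refine (Ex_sq_le _).trans (Ex_mono fun z => ?_)
        split_ifs <;> simp
      calc f w' ^ 2 ≤ (s' * Ex (fun z : Z => if s₀ < y z w' ∧ L z w' then (1 : ℝ) else 0)) ^ 2 :=
            pow_le_pow_left₀ (hf0 w') h2 2
        _ = s' ^ 2 * (Ex (fun z : Z => if s₀ < y z w' ∧ L z w' then (1 : ℝ) else 0)) ^ 2 := by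
            ring
        _ ≤ _ := mul_le_mul_of_nonneg_left h3 (sq_nonneg _)
    calc av (U blk (K \ S)) (fun ω => f ω ^ 2) (mix (U blk K) η w)
        ≤ av (U blk (K \ S)) (fun w' => s' ^ 2 * Ex (fun z : Z =>
            if s₀ < y z w' ∧ L z w' then (1 : ℝ) else 0)) (mix (U blk K) η w) :=
          av_mono _ h1 _
      _ = s' ^ 2 * Ex (fun z : Z => av (U blk (K \ S)) (fun w' =>
            if s₀ < y z w' ∧ L z w' then (1 : ℝ) else 0) (mix (U blk K) η w)) := by
          rw [av_mul_left, av_Ex]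
      _ ≤ s' ^ 2 * p := mul_le_mul_of_nonneg_left (hplant S hS hSd _) (sq_nonneg _))
  set X : ℝ := av (U blk K) (fun w => Pd blk K d f w ^ 2) w with hX
  set Y : ℝ := av (U blk K) e w with hY
  have hX0 : 0 ≤ X := av_nonneg _ (fun _ => sq_nonneg _) _
  have hY0 : 0 ≤ Y := av_nonneg _ he0 _
  have h1 : av (U blk K) (fun ω => |f ω|) w ≤ Y / s := by
    calc av (U blk K) (fun ω => |f ω|) w ≤ av (U blk K) (fun ω => s⁻¹ * e ω) w :=
          av_mono _ (fun ω => by
            rw [abs_of_nonneg (hf0 ω)]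
            refine (hfe1 ω).trans (le_of_eq ?_)
            rw [div_eq_inv_mul]) _
      _ = Y / s := by rw [av_mul_left, div_eq_inv_mul]
  have h1' : 0 ≤ av (U blk K) (fun ω => |f ω|) w := av_nonneg _ (fun _ => abs_nonneg _) _
  have h2 : av (U blk K) (fun ω => f ω ^ 2) w ≤ Y := av_mono _ hfe _
  have h2' : 0 ≤ av (U blk K) (fun ω => f ω ^ 2) w := av_nonneg _ (fun _ => sq_nonneg _) _
  have h3 : X ^ 3 ≤ (lam * Y) ^ 3 := by
    calc X ^ 3 ≤ 32 ^ d * (s' ^ 2 * p) * (av (U blk K) (fun ω => |f ω|) w) ^ 2 *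
        av (U blk K) (fun ω => f ω ^ 2) w := hlev
      _ ≤ 32 ^ d * (s' ^ 2 * p) * (Y / s) ^ 2 * Y := by
          gcongr
      _ = 32 ^ d * p * (s' / s) ^ 2 * Y ^ 3 := by
          field_simp
      _ ≤ 32 ^ d * p * r ^ 2 * Y ^ 3 := by
          have h4 : s' / s ≤ r := by
            rw [div_le_iff₀ hs]; exact hsr
          have h5 : 0 ≤ s' / s := by positivity
          gcongr
      _ = (32 ^ d * r ^ 2 * p) * Y ^ 3 := by ring
      _ ≤ lam ^ 3 * Y ^ 3 := mul_le_mul_of_nonneg_right hlam3 (by positivity)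
      _ = (lam * Y) ^ 3 := by ring
  exact le_of_pow_le_pow_left₀ (by norm_num) (mul_nonneg hlam hY0) h3

open Classical in
/-- THE PARTS INEQUALITY. -/
theorem parts_ineq (blk : κ → Finset ι) (hdisj : ∀ i j, i ≠ j → Disjoint (blk i) (blk j))
    (K K₀ : Finset κ) (hK₀ : K₀ ⊆ K) (d : ℕ)
    {Z : Type*} [Fintype Z] [Nonempty Z] (F : Z → (ι → α) → ℝ) (Low : Z → (ι → α) → Prop)
    (q : ℕ) (t : ℕ → ℝ) (r p lam : ℝ) (ht0 : 0 < t 0) (htmono : ∀ i < q, t i ≤ t (i + 1))
    (htr : ∀ i < q, t (i + 1) ≤ r * t i) (hp : 0 ≤ p) (hlam : 0 ≤ lam)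
    (hlam3 : 32 ^ d * r ^ 2 * p ≤ lam ^ 3)
    (hplant : ∀ S ⊆ K, S.card ≤ d → ∀ w : ι → α × α,
      Ex (fun z : Z => av (U blk (K \ S)) (fun w' : ι → α × α =>
        if t 0 < inc (U blk K₀) (F z) w' ∧ Low z (fstc w') then (1 : ℝ) else 0) w) ≤ p) :
    Ex (fun ω => Pd blk K d (fun ω' => Ex (fun z => F z ω') -
        av (U blk K₀) (fun ω'' => Ex (fun z => F z ω'')) ω') ω ^ 2) ≤
      2 * ((q : ℝ) + 3) * (
        Ex (fun z : Z => Ex (fun w : ι → α × α =>
          if inc (U blk K₀) (F z) w ≤ t 0 then inc (U blk K₀) (F z) w ^ 2 else 0))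
        + Ex (fun z : Z => Ex (fun w : ι → α × α =>
          if t q < inc (U blk K₀) (F z) w then inc (U blk K₀) (F z) w ^ 2 else 0))
        + lam * Ex (fun z : Z => Ex (fun w : ι → α × α => inc (U blk K₀) (F z) w ^ 2))
        + Ex (fun z : Z => Ex (fun w : ι → α × α =>
          if t 0 < inc (U blk K₀) (F z) w ∧ inc (U blk K₀) (F z) w ≤ t q ∧ ¬ Low z (fstc w)
          then inc (U blk K₀) (F z) w ^ 2 else 0))) := by
  set A : Finset ι := U blk K₀ with hA
  set g : (ι → α) → ℝ := fun ω => Ex (fun z => F z ω) with hg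
  set u : (ι → α) → ℝ := fun ω => g ω - av A g ω with hu
  set h : (ι → α) → ℝ := Pd blk K d u with hh
  set y : Z → (ι → α × α) → ℝ := fun z w => inc A (F z) w with hy
  have hmono : ∀ n ≤ q, t 0 ≤ t n := by
    intro n hn
    induction n with
    | zero => exact le_rfl
    | succ n ih => exact (ih (by omega)).trans (htmono n (by omega))
  -- `h` has zero average over `A`
  have hh' : h = fun ω => Pd blk K d g ω - av A (Pd blk K d g) ω := by
    rw [hh, hu, Pd_sub]
    funext ω
    rw [hA, Pd_av_comm blk hdisj K K₀ hK₀ d g]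
  have hh0 : ∀ ω, av A h ω = 0 := by
    intro ω
    rw [hh', av_sub, av_av, Finset.union_self, sub_self]
  -- `Pd h = h`
  have hPh : Pd blk K d h = h := by rw [hh, Pd_idem blk hdisj]
  -- `Ex h^2 = Ex (g h)`
  have e1 : Ex (fun ω => h ω ^ 2) = Ex (fun ω => g ω * h ω) := by
    have h1 : Ex (fun ω => h ω ^ 2) = Ex (fun ω => u ω * h ω) := by
      calc Ex (fun ω => h ω ^ 2) = Ex (fun ω => Pd blk K d u ω * h ω) := by
            congr 1; funext ω; rw [← hh]; ring
        _ = Ex (fun ω => u ω * Pd blk K d h ω) := par_selfadj blk hdisj K d u h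
        _ = Ex (fun ω => u ω * h ω) := by rw [hPh]
    have h2 : Ex (fun ω => u ω * h ω) = Ex (fun ω => g ω * h ω) - Ex (fun ω => av A g ω * h ω) := by
      rw [← Ex_sub]
      congr 1; funext ω; rw [hu]; ring
    rw [h1, h2, par_orth A g h hh0, sub_zero]
  set Hw : (ι → α × α) → ℝ := fun w => h (res A w) - h (fstc w) with hHw
  have e2 : Ex (fun ω => h ω ^ 2) = Ex (fun w => Ex (fun z => y z w) * Hw w) := by
    rw [e1]
    calc Ex (fun ω => g ω * h ω) = Ex (fun ω => Ex (fun z => F z ω * h ω)) := by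
          congr 1; funext ω; rw [hg, Ex_mul_right]
      _ = Ex (fun z => Ex (fun ω => F z ω * h ω)) := Ex_comm _
      _ = Ex (fun z => Ex (fun w => y z w * Hw w)) := by
          congr 1; funext z; exact pair_identity A (F z) h hh0
      _ = Ex (fun w => Ex (fun z => y z w * Hw w)) := Ex_comm _
      _ = Ex (fun w => Ex (fun z => y z w) * Hw w) := by
          congr 1; funext w; rw [Ex_mul_right]
  have e3 : Ex (fun w => Hw w ^ 2) = 2 * Ex (fun ω => h ω ^ 2) := pair_norm A h hh0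
  have e4 : Pd blk K d Hw = Hw := by
    have h1 := Pd_sub blk K d (fun w : ι → α × α => h (res A w)) (fun w => h (fstc w))
    rw [Pd_fstc, Pd_res, hPh] at h1
    exact h1
  set X : ℝ := Ex (fun ω => h ω ^ 2) with hX
  have hX0 : 0 ≤ X := Ex_nonneg fun _ => sq_nonneg _
  -- the parts
  set f1 : Z → (ι → α × α) → ℝ := fun z w => if y z w ≤ t 0 then y z w else 0 with hf1
  set f2 : Z → (ι → α × α) → ℝ := fun z w => if t q < y z w then y z w else 0 with hf2
  set f3 : Z → (ι → α × α) → ℝ := fun z w =>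
    if t 0 < y z w ∧ y z w ≤ t q ∧ ¬ Low z (fstc w) then y z w else 0 with hf3
  set fi : ℕ → Z → (ι → α × α) → ℝ := fun i z w =>
    if t i < y z w ∧ y z w ≤ t (i + 1) ∧ Low z (fstc w) then y z w else 0 with hfi
  set a1 : ℝ := Ex (fun w => Ex (fun z => f1 z w) * Hw w) with ha1
  set a2 : ℝ := Ex (fun w => Ex (fun z => f2 z w) * Hw w) with ha2
  set a3 : ℝ := Ex (fun w => Ex (fun z => f3 z w) * Hw w) with ha3
  set ai : ℕ → ℝ := fun i => Ex (fun w => Ex (fun z => fi i z w) * Hw w) with hai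
  have hsum : X = a1 + a2 + a3 + ∑ i ∈ range q, ai i := by
    rw [e2, ha1, ha2, ha3, hai, ← Ex_add, ← Ex_add, ← Ex_sum, ← Ex_add]
    congr 1
    funext w
    rw [← add_mul, ← add_mul, ← sum_mul, ← add_mul, ← Ex_add, ← Ex_add, ← Ex_sum, ← Ex_add]
    congr 2
    funext z
    exact par_split q t htmono (y z w) (Low z (fstc w))
  -- bounds of the parts
  set P1 : ℝ := Ex (fun z => Ex (fun w => if y z w ≤ t 0 then y z w ^ 2 else 0)) with hP1
  set P2 : ℝ := Ex (fun z => Ex (fun w => if t q < y z w then y z w ^ 2 else 0)) with hP2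
  set P3 : ℝ := Ex (fun z => Ex (fun w =>
    if t 0 < y z w ∧ y z w ≤ t q ∧ ¬ Low z (fstc w) then y z w ^ 2 else 0)) with hP3
  set Pi : ℕ → ℝ := fun i => Ex (fun z => Ex (fun w =>
    if t i < y z w ∧ y z w ≤ t (i + 1) ∧ Low z (fstc w) then y z w ^ 2 else 0)) with hPi
  have b1 : a1 ^ 2 ≤ P1 * (2 * X) := by
    rw [← e3]
    refine (par_cauchy f1 Hw).trans (le_of_eq ?_)
    congr 2; funext z; congr 1; funext w
    simp only [hf1]; split_ifs <;> simp
  have b2 : a2 ^ 2 ≤ P2 * (2 * X) := by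
    rw [← e3]
    refine (par_cauchy f2 Hw).trans (le_of_eq ?_)
    congr 2; funext z; congr 1; funext w
    simp only [hf2]; split_ifs <;> simp
  have b3 : a3 ^ 2 ≤ P3 * (2 * X) := by
    rw [← e3]
    refine (par_cauchy f3 Hw).trans (le_of_eq ?_)
    congr 2; funext z; congr 1; funext w
    simp only [hf3]; split_ifs <;> simp
  have bi : ∀ i < q, ai i ^ 2 ≤ (lam * Pi i) * (2 * X) := by
    intro i hi
    set G : (ι → α × α) → ℝ := fun w => Ex (fun z => fi i z w) with hG
    have h1 : ai i = Ex (fun w => Pd blk K d G w * Hw w) := by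
      rw [par_selfadj blk hdisj K d G Hw, e4]
    have h2 : Ex (fun w => Pd blk K d G w ^ 2) ≤ lam * Pi i := by
      calc Ex (fun w => Pd blk K d G w ^ 2)
          = Ex (av (U blk K) (fun w => Pd blk K d G w ^ 2)) := (Ex_av _ _).symm
        _ ≤ Ex (fun w => lam * av (U blk K) (fun w => Ex (fun z =>
              if t i < y z w ∧ y z w ≤ t (i + 1) ∧ Low z (fstc w) then y z w ^ 2 else 0)) w) :=
            Ex_mono fun w => par_slice blk hdisj K d y (fun z w => Low z (fstc w)) (t 0) (t i)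
              (t (i + 1)) r p lam (hmono i hi.le) (ht0.trans_le (hmono i hi.le)) (htmono i hi)
              (htr i hi) hp hlam hlam3 hplant w
        _ = lam * Ex (fun w => Ex (fun z =>
              if t i < y z w ∧ y z w ≤ t (i + 1) ∧ Low z (fstc w) then y z w ^ 2 else 0)) := by
            rw [Ex_mul_left]
            congr 1
            exact Ex_av _ _
        _ = lam * Pi i := by rw [Ex_comm]
    rw [h1, ← e3]
    exact (Ex_cauchy _ _).trans
      (mul_le_mul_of_nonneg_right h2 (Ex_nonneg fun w => sq_nonneg _))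
  have hPisum : ∑ i ∈ range q, Pi i ≤ Ex (fun z => Ex (fun w => y z w ^ 2)) := by
    rw [hPi, ← Ex_sum]
    refine Ex_mono fun z => ?_
    rw [← Ex_sum]
    exact Ex_mono fun w => par_split_sq q t htmono (y z w) (Low z (fstc w))
  have hP1' : 0 ≤ P1 := Ex_nonneg fun z => Ex_nonneg fun w => by
    split_ifs <;> first | exact sq_nonneg _ | exact le_rfl
  have hP2' : 0 ≤ P2 := Ex_nonneg fun z => Ex_nonneg fun w => by
    split_ifs <;> first | exact sq_nonneg _ | exact le_rfl
  have hP3' : 0 ≤ P3 := Ex_nonneg fun z => Ex_nonneg fun w => by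
    split_ifs <;> first | exact sq_nonneg _ | exact le_rfl
  have hE0 : 0 ≤ Ex (fun z => Ex (fun w => y z w ^ 2)) :=
    Ex_nonneg fun z => Ex_nonneg fun w => sq_nonneg _
  have hq3 : (0 : ℝ) < (q : ℝ) + 3 := by positivity
  have main : X ^ 2 ≤ ((q : ℝ) + 3) * ((P1 + P2 + P3 + lam * Ex (fun z => Ex (fun w => y z w ^ 2)))
      * (2 * X)) := by
    calc X ^ 2 = (a1 + a2 + a3 + ∑ i ∈ range q, ai i) ^ 2 := by rw [← hsum]
      _ ≤ ((q : ℝ) + 3) * (a1 ^ 2 + a2 ^ 2 + a3 ^ 2 + ∑ i ∈ range q, ai i ^ 2) := par_sum _ _ _ _ _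
      _ ≤ ((q : ℝ) + 3) * (P1 * (2 * X) + P2 * (2 * X) + P3 * (2 * X) +
            ∑ i ∈ range q, (lam * Pi i) * (2 * X)) := by
          have h1 : ∑ i ∈ range q, ai i ^ 2 ≤ ∑ i ∈ range q, (lam * Pi i) * (2 * X) :=
            sum_le_sum fun i hi => bi i (mem_range.1 hi)
          apply mul_le_mul_of_nonneg_left _ hq3.le
          linarith
      _ = ((q : ℝ) + 3) * ((P1 + P2 + P3 + lam * ∑ i ∈ range q, Pi i) * (2 * X)) := by
          rw [← sum_mul, ← mul_sum]; ring
      _ ≤ _ := by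
          have h1 := mul_le_mul_of_nonneg_left hPisum hlam
          apply mul_le_mul_of_nonneg_left _ hq3.le
          apply mul_le_mul_of_nonneg_right _ (by linarith)
          linarith
  change X ≤ 2 * ((q : ℝ) + 3) * (P1 + P2 + lam * Ex (fun z => Ex (fun w => y z w ^ 2)) + P3)
  rcases hX0.eq_or_lt with h0 | h0
  · rw [← h0]
    have := mul_nonneg hlam hE0
    positivity
  · have h1 : X * X ≤ X * (2 * ((q : ℝ) + 3) *
        (P1 + P2 + lam * Ex (fun z => Ex (fun w => y z w ^ 2)) + P3)) := by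
      calc X * X = X ^ 2 := by ring
        _ ≤ _ := main
        _ = _ := by ring
    exact le_of_mul_le_mul_left h1 h0

end

end Pool.FPP
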