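import Pool.Agent.FPP.NTC

/-!
Module PLT: the planting bound.
Fix ω2. For each z, sg_z applied to both configurations is a bijection of w', so average over w^ = sg_z w'
(uniform, the same for all z). With K = subTiles l L C, base environment W = (w^ on tileE L C, ω2 outside):
the configuration seen at z agrees with W off the images under innV z of the tiles of S (at most d tiles of
side l, corner_innV_sub). Z* = set of z for which the event holds for this w^. For z in Z*: tile
pi_z c0 = innV z c0 is NT level 0 in the planted environment (inc_sg, NT_of_inc), so NT of level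
3 d b (2l+2) in W, so NT of level 6 d b (2l+2) = 12 b d (l+1) ≤ x in the environment planted at any other z'.
Split Z* in 4 groups according to whether the coordinates of c0 + z wrap around the tile; in a group the
tiles pi_z c0 are distinct and pairwise in the open window of radius l0 w (differences l0 (z - z')), so if
the group contains z0, then it has at most cntNT(env. planted at z0, pi_{z0} c0) ≤ p w^2 elements.
So |Z*| ≤ 4 p w^2 for every w^; average.
-/

set_option autoImplicit false

noncomputable section

namespace Pool.FPP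

open Finset

section

variable {N : ℕ} [NeZero N] {a b : ℝ}

/-- the permutation of the edges given by the inner shift -/
private def pltE {L : ℕ} (hL : 0 < L) (hLN : L ∣ N) (C : Vtx N) (hC : corner L C = C)
    (z : ℕ × ℕ) : Edge N ≃ Edge N where
  toFun e := (innV L C z e.1, e.2)
  invFun e := (innV L C (L - z.1 % L, L - z.2 % L) e.1, e.2)
  left_inv e := by
    have := (innV_innV hL hLN C hC z e.1).1
    simp only [this]
  right_inv e := by
    have := (innV_innV hL hLN C hC z e.1).2
    simp only [this]

private theorem NT_mono {v u : Vtx N} {l : ℕ} {x y : ℝ} (hxy : x ≤ y) {ω : Edge N → Bool}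
    {c : Vtx N} (h : NT a b v u l x ω c) : NT a b v u l y ω c := by
  obtain ⟨y', h1, h2⟩ := h
  exact ⟨y', h1, h2.trans hxy⟩

/-- integers with the same residue: the minimal representative is at most any other one -/
private theorem plt_min (k : ℤ) : (ZMod.valMinAbs ((k : ℤ) : ZMod N)).natAbs ≤ k.natAbs := by
  refine ZMod.natAbs_min_of_le_div_two N _ k ?_ (ZMod.natAbs_valMinAbs_le _)
  rw [ZMod.coe_valMinAbs]

/-- the offset of the shifted corner -/
private def plo (L l₀ o i : ℕ) : ℕ := (o + l₀ * i) % L

private theorem plo_diff {L l₀ w o i i' : ℕ} (ho : o < L) (hi : i < w) (hi' : i' < w)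
    (hwL : 2 * (l₀ * w) ≤ L) (hg : decide (L ≤ o + l₀ * i) = decide (L ≤ o + l₀ * i')) :
    ((plo L l₀ o i : ℕ) : ℤ) - ((plo L l₀ o i' : ℕ) : ℤ) = (l₀ : ℤ) * i - (l₀ : ℤ) * i' := by
  have h1 : l₀ * i ≤ l₀ * w := Nat.mul_le_mul_left _ hi.le
  have h2 : l₀ * i' ≤ l₀ * w := Nat.mul_le_mul_left _ hi'.le
  unfold plo
  by_cases hc : L ≤ o + l₀ * i
  · have hc' : L ≤ o + l₀ * i' := by
      rw [decide_eq_decide] at hg
      exact hg.mp hc
    rw [Nat.mod_eq_sub_mod hc, Nat.mod_eq_sub_mod hc', Nat.mod_eq_of_lt (by omega),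
      Nat.mod_eq_of_lt (by omega)]
    push_cast [Nat.cast_sub hc, Nat.cast_sub hc']
    ring
  · have hc' : ¬ L ≤ o + l₀ * i' := by
      rw [decide_eq_decide] at hg
      exact fun h => hc (hg.mpr h)
    rw [Nat.mod_eq_of_lt (by omega), Nat.mod_eq_of_lt (by omega)]
    push_cast
    ring

private theorem plo_abs {l₀ w i i' : ℕ} (h0 : 0 < l₀) (hi : i < w) (hi' : i' < w) :
    ((l₀ : ℤ) * i - (l₀ : ℤ) * i').natAbs < l₀ * w := by
  rw [← mul_sub, Int.natAbs_mul, Int.natAbs_natCast]
  refine Nat.mul_lt_mul_of_pos_left ?_ h0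
  omega

open Classical in
/-- THE PLANTING BOUND. -/
theorem planting (ha : 0 < a) (hab : a < b) {l l₀ L w d : ℕ} (hl : 0 < l) (hl₀ : l ∣ l₀)
    (h0 : 0 < l₀) (h : l₀ ∣ L) (hL : 0 < L) (hLN : L ∣ N) (hw : 0 < w) (hwL : 2 * (l₀ * w) ≤ L)
    (v u C : Vtx N) (hC : corner L C = C) (c₀ : Vtx N) (hc₀ : c₀ ∈ subTiles l₀ L C)
    (x t₀ p : ℝ) (hx : 12 * b * d * (l + 1) ≤ x) (ht₀ : 0 < t₀) (hp : 0 < p)
    (S : Finset (Vtx N)) (hS : S ⊆ subTiles l L C) (hSd : S.card ≤ d)
    (ω2 : Edge N → Bool × Bool) :
    Ex (fun z : Fin w × Fin w => av (U (tileE l) (subTiles l L C \ S))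
      (fun w' : Edge N → Bool × Bool =>
        if t₀ < inc (tileE l₀ c₀) (fun ω => FF a b v u (sg L C (l₀ * z.1, l₀ * z.2) ω)) w' ∧
          (cntNT a b v u l₀ x (l₀ * w) (sg L C (l₀ * z.1, l₀ * z.2) (fstc w'))
            (innV L C (l₀ * z.1, l₀ * z.2) c₀) : ℝ) ≤ p * w ^ 2
        then (1 : ℝ) else 0) ω2) ≤ 4 * p := by
  have hb : 0 < b := ha.trans hab
  have hlL : l ∣ L := hl₀.trans h
  set A := U (tileE l) (subTiles l L C \ S) with hA
  -- the shift by `z` as a pair of naturals
  set zz : Fin w × Fin w → ℕ × ℕ := fun z => (l₀ * (z.1 : ℕ), l₀ * (z.2 : ℕ)) with hzz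
  set π : Fin w × Fin w → (Edge N ≃ Edge N) := fun z => pltE hL hLN C hC (zz z) with hπ
  -- the configuration before the shift
  set wz : (Edge N → Bool × Bool) → Fin w × Fin w → (Edge N → Bool × Bool) :=
    fun θ z => mix A (fun e => θ (π z e)) ω2 with hwz
  set ev : Fin w × Fin w → (Edge N → Bool × Bool) → Prop := fun z w' =>
    t₀ < inc (tileE l₀ c₀) (fun ω => FF a b v u (sg L C (l₀ * z.1, l₀ * z.2) ω)) w' ∧
          (cntNT a b v u l₀ x (l₀ * w) (sg L C (l₀ * z.1, l₀ * z.2) (fstc w'))
            (innV L C (l₀ * z.1, l₀ * z.2) c₀) : ℝ) ≤ p * w ^ 2 with hev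
  have step1 : Ex (fun z : Fin w × Fin w => av A (fun w' : Edge N → Bool × Bool =>
      if ev z w' then (1 : ℝ) else 0) ω2) =
      Ex (fun θ : Edge N → Bool × Bool => Ex (fun z : Fin w × Fin w =>
        if ev z (wz θ z) then (1 : ℝ) else 0)) := by
    rw [Ex_comm (fun (θ : Edge N → Bool × Bool) (z : Fin w × Fin w) =>
        if ev z (wz θ z) then (1 : ℝ) else 0)]
    congr 1
    funext z
    unfold av
    have hq := Ex_equiv ((π z).symm.arrowCongr (Equiv.refl (Bool × Bool)))
      (fun η : Edge N → Bool × Bool => if ev z (mix A η ω2) then (1 : ℝ) else 0)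
    rw [← hq]
    rfl
  rw [step1]
  -- pointwise bound
  have key : ∀ θ : Edge N → Bool × Bool,
      Ex (fun z : Fin w × Fin w => if ev z (wz θ z) then (1 : ℝ) else 0) ≤ 4 * p := by
    intro θ
    set Zs : Finset (Fin w × Fin w) := univ.filter (fun z => ev z (wz θ z)) with hZs
    set cz : Fin w × Fin w → Vtx N := fun z => innV L C (zz z) c₀ with hcz
    set oz : Fin w × Fin w → (Edge N → Bool) := fun z => sg L C (zz z) (fstc (wz θ z)) with hoz
    have hcard : (Zs.card : ℝ) ≤ 4 * (p * w ^ 2) := by
      obtain ⟨hc1, hc2⟩ := mem_subTiles.mp hc₀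
      -- all tiles `cz z`, `z ∈ Zs`, are near-tie tiles in all planted environments
      have hagree : ∀ z, ∀ e ∉ U (tileE l) (S.image (innV L C (zz z))),
          oz z e = fstc (mix (tileE L C) θ ω2) e := by
        intro z e he
        have hsub : ∀ e' : Edge N, e' ∈ A → corner L e'.1 = C := by
          intro e' he'
          rw [hA, U, Finset.mem_biUnion] at he'
          obtain ⟨c, hc, hce⟩ := he'
          have h1 := (mem_subTiles.mp (Finset.mem_sdiff.mp hc).1)
          have h2 : corner l e'.1 = c := (Finset.mem_filter.mp hce).2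
          rw [← corner_nest hl hlL hL e'.1, h2]
          exact h1.2
        set e' : Edge N := (π z).symm e with he'
        have hee : π z e' = e := (π z).apply_symm_apply e
        have hoze : oz z e = (wz θ z e').1 := rfl
        rw [hoze]
        have hwze : wz θ z e' = if e' ∈ A then θ e else ω2 e' := by
          change (if e' ∈ A then θ (π z e') else ω2 e') = _
          rw [hee]
        rw [hwze]
        change _ = (if e ∈ tileE L C then θ e else ω2 e).1
        by_cases hin : e ∈ tileE L C
        · rw [if_pos hin]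
          have hce : corner L e.1 = C := (Finset.mem_filter.mp hin).2
          have hce' : corner L e'.1 = C := by
            have h3 : corner L e'.1 = corner L e.1 := by
              have h4 : e'.1 = innV L C (L - (zz z).1 % L, L - (zz z).2 % L) e.1 := rfl
              rw [h4, corner_innV hL hLN C hC]
            rw [h3, hce]
          have he'A : e' ∈ A := by
            by_contra hnot
            apply he
            have hmem : corner l e'.1 ∈ subTiles l L C := by
              rw [mem_subTiles]
              exact ⟨corner_corner l e'.1, by rw [corner_nest hl hlL hL]; exact hce'⟩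
            have hSmem : corner l e'.1 ∈ S := by
              by_contra hnS
              apply hnot
              rw [hA, U, Finset.mem_biUnion]
              refine ⟨corner l e'.1, Finset.mem_sdiff.mpr ⟨hmem, hnS⟩, ?_⟩
              exact Finset.mem_filter.mpr ⟨Finset.mem_univ _, rfl⟩
            rw [U, Finset.mem_biUnion]
            refine ⟨innV L C (zz z) (corner l e'.1), Finset.mem_image_of_mem _ hSmem, ?_⟩
            rw [tileE, Finset.mem_filter]
            refine ⟨Finset.mem_univ _, ?_⟩
            obtain ⟨g, hg⟩ := hl₀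
            have h5 : zz z = (l * (g * (z.1 : ℕ)), l * (g * (z.2 : ℕ))) := by
              rw [hzz, hg]
              simp only [Prod.mk.injEq]
              constructor <;> ring
            have h6 : e.1 = innV L C (zz z) e'.1 := by
              have := congrArg Prod.fst hee
              exact this.symm
            rw [h6, h5]
            exact corner_innV_sub hl hlL hL hLN C hC _ _ _
          rw [if_pos he'A]
        · rw [if_neg hin]
          have hce : corner L e.1 ≠ C := fun hh =>
            hin (Finset.mem_filter.mpr ⟨Finset.mem_univ _, hh⟩)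
          have h4 : e' = e := by
            have h5 : e'.1 = innV L C (L - (zz z).1 % L, L - (zz z).2 % L) e.1 := rfl
            have h6 : e'.1 = e.1 := by rw [h5, innV_of_ne hce]
            exact Prod.ext h6 rfl
          rw [h4]
          have h7 : e ∉ A := fun hh => hce (hsub e hh)
          rw [if_neg h7]
      have hNT : ∀ z ∈ Zs, ∀ z' : Fin w × Fin w, NT a b v u l₀ x (oz z') (cz z) := by
        intro z hz z'
        have hzev : ev z (wz θ z) := (Finset.mem_filter.mp hz).2
        have h1 : NT a b v u l₀ 0 (oz z) (cz z) := by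
          have h2 := inc_sg h0 h hL hLN C hC (z.1 : ℕ) (z.2 : ℕ) (FF a b v u) c₀ hc₀ (wz θ z)
          have h3 : 0 < inc (tileE l₀ c₀) (fun ω => FF a b v u (sg L C (l₀ * z.1, l₀ * z.2) ω)) (wz θ z) :=
            ht₀.trans hzev.1
          rw [h2] at h3
          exact NT_of_inc ha hab v u _ _ h3
        have hcardz : ∀ z'' : Fin w × Fin w, (((S.image (innV L C (zz z''))).card : ℕ) : ℝ) ≤ d := by
          intro z''
          exact_mod_cast (Finset.card_image_le.trans hSd)
        have hpos : (0 : ℝ) ≤ b * (2 * l + 2) := by positivity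
        have h2 : NT a b v u l₀ (0 + 3 * (S.image (innV L C (zz z))).card * b * (2 * l + 2))
            (fstc (mix (tileE L C) θ ω2)) (cz z) :=
          NT_change ha hab hl v u _ _ _ (hagree z) 0 _ h1
        have h3 := NT_change ha hab hl v u (S.image (innV L C (zz z')))
          (fstc (mix (tileE L C) θ ω2)) (oz z') (fun e he => (hagree z' e he).symm) _ _ h2
        refine NT_mono ?_ h3
        have h4 : 3 * ((S.image (innV L C (zz z))).card : ℝ) * b * (2 * l + 2) ≤ 3 * d * b * (2 * l + 2) := by
          have := mul_le_mul_of_nonneg_right (hcardz z) hpos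
          linarith
        have h5 : 3 * ((S.image (innV L C (zz z'))).card : ℝ) * b * (2 * l + 2) ≤ 3 * d * b * (2 * l + 2) := by
          have := mul_le_mul_of_nonneg_right (hcardz z') hpos
          linarith
        linarith
      -- coordinates of `cz z`
      have hczv : ∀ z, cz z = (C.1 + ((plo L l₀ (c₀.1.val % L) z.1 : ℕ) : ZMod N),
          C.2 + ((plo L l₀ (c₀.2.val % L) z.2 : ℕ) : ZMod N)) := by
        intro z
        change innV L C (zz z) c₀ = _
        unfold innV
        rw [if_pos hc2]
        rfl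
      have ho1 : c₀.1.val % L < L := Nat.mod_lt _ hL
      have ho2 : c₀.2.val % L < L := Nat.mod_lt _ hL
      set gr : Fin w × Fin w → Bool × Bool := fun z =>
        (decide (L ≤ c₀.1.val % L + l₀ * z.1), decide (L ≤ c₀.2.val % L + l₀ * z.2)) with hgr
      have hdiff1 : ∀ z z' : Fin w × Fin w, gr z = gr z' →
          (cz z).1 - (cz z').1 = (((l₀ : ℤ) * (z.1 : ℕ) - (l₀ : ℤ) * (z'.1 : ℕ) : ℤ) : ZMod N) := by
        intro z z' hg
        have h1 := plo_diff (i := z.1) (i' := z'.1) ho1 z.1.isLt z'.1.isLt hwL (congrArg Prod.fst hg)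
        rw [← h1, hczv, hczv]
        push_cast
        ring
      have hdiff2 : ∀ z z' : Fin w × Fin w, gr z = gr z' →
          (cz z).2 - (cz z').2 = (((l₀ : ℤ) * (z.2 : ℕ) - (l₀ : ℤ) * (z'.2 : ℕ) : ℤ) : ZMod N) := by
        intro z z' hg
        have h1 := plo_diff (i := z.2) (i' := z'.2) ho2 z.2.isLt z'.2.isLt hwL (congrArg Prod.snd hg)
        rw [← h1, hczv, hczv]
        push_cast
        ring
      have hgroup : ∀ g : Bool × Bool, ((Zs.filter (fun z => gr z = g)).card : ℝ) ≤ p * w ^ 2 := by
        intro g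
        rcases Finset.eq_empty_or_nonempty (Zs.filter (fun z => gr z = g)) with he | ⟨z₀, hz₀⟩
        · rw [he]
          simp only [Finset.card_empty, Nat.cast_zero]
          positivity
        · obtain ⟨hz₀1, hz₀2⟩ := Finset.mem_filter.mp hz₀
          have hz₀ev : ev z₀ (wz θ z₀) := (Finset.mem_filter.mp hz₀1).2
          refine le_trans ?_ hz₀ev.2
          norm_cast
          unfold cntNT
          refine Finset.card_le_card_of_injOn cz ?_ ?_
          · intro z hz
            obtain ⟨hz1, hz2⟩ := Finset.mem_filter.mp (Finset.mem_coe.mp hz)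
            rw [Finset.mem_coe, Finset.mem_filter]
            refine ⟨Finset.mem_univ _, hNT z hz1 z₀, ?_⟩
            have hgz : gr z = gr z₀ := hz2.trans hz₀2.symm
            unfold window
            have e1 : (cz z).1 - (innV L C (l₀ * (z₀.1 : ℕ), l₀ * (z₀.2 : ℕ)) c₀).1 = _ := hdiff1 z z₀ hgz
            have e2 : (cz z).2 - (innV L C (l₀ * (z₀.1 : ℕ), l₀ * (z₀.2 : ℕ)) c₀).2 = _ := hdiff2 z z₀ hgz
            rw [e1, e2]
            exact ⟨(plt_min _).trans_lt (plo_abs h0 z.1.isLt z₀.1.isLt),
              (plt_min _).trans_lt (plo_abs h0 z.2.isLt z₀.2.isLt)⟩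
          · intro z hz z' hz' hzz'
            obtain ⟨_, hz2⟩ := Finset.mem_filter.mp (Finset.mem_coe.mp hz)
            obtain ⟨_, hz2'⟩ := Finset.mem_filter.mp (Finset.mem_coe.mp hz')
            have hgz : gr z = gr z' := hz2.trans hz2'.symm
            have hLN' : L ≤ N := Nat.le_of_dvd (Nat.pos_of_ne_zero (NeZero.ne N)) hLN
            have hplt : ∀ o i : ℕ, plo L l₀ o i < N := fun o i => (Nat.mod_lt _ hL).trans_le hLN'
            rw [hczv, hczv] at hzz'
            have f1 := congrArg Prod.fst hzz'
            have f2 := congrArg Prod.snd hzz'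
            simp only [add_right_inj] at f1 f2
            have g1 : plo L l₀ (c₀.1.val % L) z.1 = plo L l₀ (c₀.1.val % L) z'.1 := by
              rw [ZMod.natCast_eq_natCast_iff'] at f1
              rwa [Nat.mod_eq_of_lt (hplt _ _), Nat.mod_eq_of_lt (hplt _ _)] at f1
            have g2 : plo L l₀ (c₀.2.val % L) z.2 = plo L l₀ (c₀.2.val % L) z'.2 := by
              rw [ZMod.natCast_eq_natCast_iff'] at f2
              rwa [Nat.mod_eq_of_lt (hplt _ _), Nat.mod_eq_of_lt (hplt _ _)] at f2
            have k1 := plo_diff (i := z.1) (i' := z'.1) ho1 z.1.isLt z'.1.isLt hwL (congrArg Prod.fst hgz)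
            have k2 := plo_diff (i := z.2) (i' := z'.2) ho2 z.2.isLt z'.2.isLt hwL (congrArg Prod.snd hgz)
            rw [g1, sub_self] at k1
            rw [g2, sub_self] at k2
            have hl0' : (l₀ : ℤ) ≠ 0 := by exact_mod_cast h0.ne'
            have m1 : ((z.1 : ℕ) : ℤ) = ((z'.1 : ℕ) : ℤ) := mul_left_cancel₀ hl0' (by linarith)
            have m2 : ((z.2 : ℕ) : ℤ) = ((z'.2 : ℕ) : ℤ) := mul_left_cancel₀ hl0' (by linarith)
            exact Prod.ext (Fin.ext (by exact_mod_cast m1)) (Fin.ext (by exact_mod_cast m2))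
      have hsum : Zs.card = ∑ g : Bool × Bool, (Zs.filter (fun z => gr z = g)).card :=
        Finset.card_eq_sum_card_fiberwise (f := gr) (t := univ) (fun z _ => Finset.mem_univ _)
      rw [hsum]
      push_cast
      calc ∑ g : Bool × Bool, ((Zs.filter (fun z => gr z = g)).card : ℝ)
          ≤ ∑ g : Bool × Bool, p * w ^ 2 := Finset.sum_le_sum fun g _ => hgroup g
        _ = 4 * (p * w ^ 2) := by
          rw [Finset.sum_const, Finset.card_univ, nsmul_eq_mul]
          simp
    unfold Ex
    rw [← Finset.sum_filter, Finset.sum_const, nsmul_eq_mul, mul_one, Fintype.card_prod,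
      Fintype.card_fin]
    have hwr : (0 : ℝ) < w := by exact_mod_cast hw
    rw [div_le_iff₀ (by push_cast; positivity)]
    refine hcard.trans (le_of_eq ?_)
    push_cast
    ring
  calc Ex (fun θ : Edge N → Bool × Bool => Ex (fun z : Fin w × Fin w =>
        if ev z (wz θ z) then (1 : ℝ) else 0))
      ≤ Ex (fun _ : Edge N → Bool × Bool => 4 * p) := Ex_mono key
    _ = 4 * p := Ex_const _

end

end Pool.FPP
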