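import Pool.Agent.FPP.SMP
import Pool.Agent.FPP.PAR
import Pool.Agent.FPP.PLT
import Pool.Agent.FPP.ERR

/-!
Module HIG: the main inequality for a fixed starting point.
For each C ∈ tiles N L put K = subTiles l L C; for c0 ∈ subTiles l0 L C put K0 = subTiles l l0 c0
(U_subTiles). parts_ineq with Z = Fin w × Fin w, F_z = FF ∘ sg_z, p replaced by 4p, Low z ω = (count at
innV z c0 in sg_z ω is ≤ p w^2), hplant = planting. Sum over c0 and C; for fixed z the map innV z is a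
bijection of subTiles l0 L C and (sg_z, sg_z) preserves the measure on pairs, so by inc_sg the sums over c0
of the four parts are the sums for F itself (sum_tiles_nest). Lower bound for the left side:
sum_{c0} Ex (Pd(g - E_{c0} g))^2 ≥ Ex (Pd g - E_C g)^2 (efron_stein for Pd g, Pd_av_comm)
≥ (1/2) Ex (Pd F - E_C F)^2 - Ex (F - g)^2 (contraction) and Ex (Pd F - E_C F)^2 ≥ Var_C - (1/(d+1)) sum_j
(Pd_pyth, Pd_tail). g = gav.
-/

set_option autoImplicit false

noncomputable section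

namespace Pool.FPP

open Finset

section

variable {N : ℕ} [NeZero N] {a b : ℝ}

namespace HIG

/-- the bijection of the edges given by the inverse inner shift -/
def piE {L : ℕ} (hL : 0 < L) (hLN : L ∣ N) (C : Vtx N) (hC : corner L C = C) (z : ℕ × ℕ) :
    Edge N ≃ Edge N where
  toFun e := (innV L C (L - z.1 % L, L - z.2 % L) e.1, e.2)
  invFun e := (innV L C z e.1, e.2)
  left_inv e := by
    obtain ⟨e1, e2⟩ := e
    simp only [(innV_innV hL hLN C hC z e1).2]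
  right_inv e := by
    obtain ⟨e1, e2⟩ := e
    simp only [(innV_innV hL hLN C hC z e1).1]

/-- the simultaneous inner shift of both configurations preserves the measure -/
theorem Ex_sgP {L : ℕ} (hL : 0 < L) (hLN : L ∣ N) (C : Vtx N) (hC : corner L C = C) (z : ℕ × ℕ)
    (f : (Edge N → Bool × Bool) → ℝ) :
    Ex (fun w : Edge N → Bool × Bool =>
      f (fun e => (sg L C z (fstc w) e, sg L C z (sndc w) e))) = Ex f :=
  Ex_equiv (Equiv.arrowCongr (piE hL hLN C hC z).symm (Equiv.refl (Bool × Bool))) f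

theorem innV_mem {l₀ L : ℕ} (hl₀ : 0 < l₀) (h : l₀ ∣ L) (hL : 0 < L) (hLN : L ∣ N) (C : Vtx N)
    (hC : corner L C = C) (i j : ℕ) (c : Vtx N) (hc : c ∈ subTiles l₀ L C) :
    innV L C (l₀ * i, l₀ * j) c ∈ subTiles l₀ L C := by
  rw [mem_subTiles] at hc ⊢
  refine ⟨?_, ?_⟩
  · rw [corner_innV_sub hl₀ h hL hLN C hC, hc.1]
  · rw [corner_innV hL hLN C hC, hc.2]

theorem sum_innV {l₀ L : ℕ} (hl₀ : 0 < l₀) (h : l₀ ∣ L) (hL : 0 < L) (hLN : L ∣ N) (C : Vtx N)
    (hC : corner L C = C) (i j : ℕ) (f : Vtx N → ℝ) :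
    ∑ c ∈ subTiles l₀ L C, f (innV L C (l₀ * i, l₀ * j) c) = ∑ c ∈ subTiles l₀ L C, f c := by
  classical
  have hinj : Function.Injective (innV L C (l₀ * i, l₀ * j)) := by
    intro x y hxy
    have h1 := (innV_innV hL hLN C hC (l₀ * i, l₀ * j) x).1
    have h2 := (innV_innV hL hLN C hC (l₀ * i, l₀ * j) y).1
    rw [← h1, ← h2, hxy]
  have himg : (subTiles l₀ L C).image (innV L C (l₀ * i, l₀ * j)) = subTiles l₀ L C := by
    apply Finset.eq_of_subset_of_card_le
    · intro c hc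
      obtain ⟨c', hc', rfl⟩ := Finset.mem_image.1 hc
      exact innV_mem hl₀ h hL hLN C hC i j c' hc'
    · rw [Finset.card_image_of_injective _ hinj]
  conv_rhs => rw [← himg]
  rw [Finset.sum_image (fun x _ y _ hxy => hinj hxy)]

/-- transport of a sum over the small tiles -/
theorem transport {l₀ L w : ℕ} (hl₀ : 0 < l₀) (h : l₀ ∣ L) (hL : 0 < L) (hLN : L ∣ N) (hw : 0 < w)
    (C : Vtx N) (hC : corner L C = C) (Φ : Vtx N → (Edge N → Bool × Bool) → ℝ) :
    ∑ c ∈ subTiles l₀ L C, Ex (fun z : Fin w × Fin w => Ex (fun w2 : Edge N → Bool × Bool =>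
      Φ (innV L C (l₀ * z.1, l₀ * z.2) c)
        (fun e => (sg L C (l₀ * z.1, l₀ * z.2) (fstc w2) e,
          sg L C (l₀ * z.1, l₀ * z.2) (sndc w2) e)))) =
      ∑ c ∈ subTiles l₀ L C, Ex (Φ c) := by
  haveI : Nonempty (Fin w × Fin w) := ⟨(⟨0, hw⟩, ⟨0, hw⟩)⟩
  rw [← Ex_sum]
  have h1 : ∀ z : Fin w × Fin w, (∑ c ∈ subTiles l₀ L C, Ex (fun w2 : Edge N → Bool × Bool =>
      Φ (innV L C (l₀ * z.1, l₀ * z.2) c)
        (fun e => (sg L C (l₀ * z.1, l₀ * z.2) (fstc w2) e,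
          sg L C (l₀ * z.1, l₀ * z.2) (sndc w2) e)))) = ∑ c ∈ subTiles l₀ L C, Ex (Φ c) := by
    intro z
    have h2 : ∀ c ∈ subTiles l₀ L C, Ex (fun w2 : Edge N → Bool × Bool =>
      Φ (innV L C (l₀ * z.1, l₀ * z.2) c)
        (fun e => (sg L C (l₀ * z.1, l₀ * z.2) (fstc w2) e,
          sg L C (l₀ * z.1, l₀ * z.2) (sndc w2) e))) =
        Ex (Φ (innV L C (l₀ * z.1, l₀ * z.2) c)) := fun c _ =>
      Ex_sgP hL hLN C hC (l₀ * z.1, l₀ * z.2) (Φ (innV L C (l₀ * z.1, l₀ * z.2) c))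
    rw [Finset.sum_congr rfl h2]
    exact sum_innV hl₀ h hL hLN C hC z.1 z.2 (fun c => Ex (Φ c))
  have h3 : (fun z : Fin w × Fin w => ∑ c ∈ subTiles l₀ L C,
      Ex (fun w2 : Edge N → Bool × Bool =>
      Φ (innV L C (l₀ * z.1, l₀ * z.2) c)
        (fun e => (sg L C (l₀ * z.1, l₀ * z.2) (fstc w2) e,
          sg L C (l₀ * z.1, l₀ * z.2) (sndc w2) e)))) =
      fun _ => ∑ c ∈ subTiles l₀ L C, Ex (Φ c) := funext h1
  rw [h3, Ex_const]

/-- contraction: low part of the fluctuation -/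
theorem low_le {l L d : ℕ} (hl : 0 < l) (h : l ∣ L) (hL : 0 < L) (C : Vtx N)
    (f : (Edge N → Bool) → ℝ) :
    Ex (fun ω => (Pd (tileE l) (subTiles l L C) d f ω - av (tileE L C) f ω) ^ 2) ≤
      Ex (fun ω => f ω ^ 2) := by
  have hU := U_subTiles hl h hL C
  have h1 : ∀ ω : Edge N → Bool,
      av (tileE L C) (fun ω => (Pd (tileE l) (subTiles l L C) d f ω - av (tileE L C) f ω) ^ 2) ω ≤
        av (tileE L C) (fun ω => f ω ^ 2) ω := by
    intro ω
    have h2 := Pd_pyth (tileE l) (tileE_disjoint l) (subTiles l L C) d f ω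
    rw [hU] at h2
    have h3 := av_var (tileE L C) f ω
    have h4 : 0 ≤ av (tileE L C) (fun ω => (f ω - Pd (tileE l) (subTiles l L C) d f ω) ^ 2) ω :=
      av_nonneg _ (fun _ => sq_nonneg _) ω
    nlinarith [sq_nonneg (av (tileE L C) f ω)]
  have h5 := Ex_mono h1
  have e1 := Ex_av (tileE L C)
    (fun ω => (Pd (tileE l) (subTiles l L C) d f ω - av (tileE L C) f ω) ^ 2)
  have e2 := Ex_av (tileE L C) (fun ω => f ω ^ 2)
  calc _ = _ := e1.symm
    _ ≤ _ := h5
    _ = _ := e2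

/-- lower bound of the low energy of `F` -/
theorem low_ge {l L d : ℕ} (hl : 0 < l) (h : l ∣ L) (hL : 0 < L) (C : Vtx N)
    (F : (Edge N → Bool) → ℝ) :
    Ex (fun ω => (F ω - av (tileE L C) F ω) ^ 2) -
        (∑ c ∈ subTiles l L C, Ex (fun ω => (F ω - av (tileE l c) F ω) ^ 2)) / ((d : ℝ) + 1) ≤
      Ex (fun ω => (Pd (tileE l) (subTiles l L C) d F ω - av (tileE L C) F ω) ^ 2) := by
  have hU := U_subTiles hl h hL C
  have hd : (0 : ℝ) < (d : ℝ) + 1 := by positivity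
  -- Pythagoras, averaged
  have h1 : Ex (fun ω => (F ω - av (tileE L C) F ω) ^ 2) =
      Ex (fun ω => (Pd (tileE l) (subTiles l L C) d F ω - av (tileE L C) F ω) ^ 2) +
        Ex (fun ω => (F ω - Pd (tileE l) (subTiles l L C) d F ω) ^ 2) := by
    have h2 : ∀ ω : Edge N → Bool, av (tileE L C) (fun ω => (F ω - av (tileE L C) F ω) ^ 2) ω =
      av (tileE L C)
          (fun ω => (Pd (tileE l) (subTiles l L C) d F ω - av (tileE L C) F ω) ^ 2) ω +
        av (tileE L C) (fun ω => (F ω - Pd (tileE l) (subTiles l L C) d F ω) ^ 2) ω := by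
      intro ω
      have h3 := Pd_pyth (tileE l) (tileE_disjoint l) (subTiles l L C) d F ω
      rw [hU] at h3
      exact h3
    rw [← Ex_av (tileE L C) (fun ω => (F ω - av (tileE L C) F ω) ^ 2),
      ← Ex_av (tileE L C)
        (fun ω => (Pd (tileE l) (subTiles l L C) d F ω - av (tileE L C) F ω) ^ 2),
      ← Ex_av (tileE L C) (fun ω => (F ω - Pd (tileE l) (subTiles l L C) d F ω) ^ 2),
      ← Ex_add, funext h2]
  -- tail
  have h4 : ((d : ℝ) + 1) * Ex (fun ω => (F ω - Pd (tileE l) (subTiles l L C) d F ω) ^ 2) ≤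
      ∑ c ∈ subTiles l L C, Ex (fun ω => (F ω - av (tileE l c) F ω) ^ 2) := by
    have h5 : ∀ ω : Edge N → Bool, ((d : ℝ) + 1) *
        av (tileE L C) (fun ω => (F ω - Pd (tileE l) (subTiles l L C) d F ω) ^ 2) ω ≤
        ∑ j ∈ subTiles l L C, av (tileE L C) (fun ω => (F ω - av (tileE l j) F ω) ^ 2) ω := by
      intro ω
      have h6 := Pd_tail (tileE l) (tileE_disjoint l) (subTiles l L C) d F ω
      rw [hU] at h6
      exact h6
    have h7 := Ex_mono h5
    rw [Ex_mul_left, Ex_av, Ex_sum] at h7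
    calc _ ≤ _ := h7
      _ = _ := Finset.sum_congr rfl (fun c _ => Ex_av (tileE L C) _)
  have h8 : Ex (fun ω => (F ω - Pd (tileE l) (subTiles l L C) d F ω) ^ 2) ≤
      (∑ c ∈ subTiles l L C, Ex (fun ω => (F ω - av (tileE l c) F ω) ^ 2)) / ((d : ℝ) + 1) := by
    rw [le_div_iff₀ hd]; linarith
  linarith

/-- lower bound of the left side for one big tile -/
theorem lower {l l₀ L d : ℕ} (hl : 0 < l) (hl₀ : l ∣ l₀) (h0 : 0 < l₀) (h : l₀ ∣ L) (hL : 0 < L)
    (C : Vtx N) (F g : (Edge N → Bool) → ℝ) :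
    (Ex (fun ω => (F ω - av (tileE L C) F ω) ^ 2) -
        (∑ c ∈ subTiles l L C, Ex (fun ω => (F ω - av (tileE l c) F ω) ^ 2)) / ((d : ℝ) + 1)) / 2 -
        Ex (fun ω => (F ω - g ω) ^ 2) ≤
      ∑ c₀ ∈ subTiles l₀ L C, Ex (fun ω => Pd (tileE l) (subTiles l L C) d
        (fun ω' => g ω' - av (tileE l₀ c₀) g ω') ω ^ 2) := by
  have hlL : l ∣ L := hl₀.trans h
  have hU := U_subTiles hl hlL hL C
  have hU0 := U_subTiles h0 h hL C
  set P := Pd (α := Bool) (tileE l) (subTiles l L C) d with hP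
  -- Efron-Stein for `P g`
  have h1 : Ex (fun ω => (P g ω - av (tileE L C) g ω) ^ 2) ≤
      ∑ c₀ ∈ subTiles l₀ L C, Ex (fun ω => P (fun ω' => g ω' - av (tileE l₀ c₀) g ω') ω ^ 2) := by
    have h2 : ∀ ω : Edge N → Bool, av (tileE L C) (fun ω => (P g ω - av (tileE L C) g ω) ^ 2) ω ≤
        ∑ c₀ ∈ subTiles l₀ L C,
          av (tileE L C) (fun ω => (P g ω - av (tileE l₀ c₀) (P g) ω) ^ 2) ω := by
      intro ω
      have h3 := efron_stein (tileE l₀) (tileE_disjoint l₀) (subTiles l₀ L C) (P g) ω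
      rw [hU0] at h3
      have h4 : av (tileE L C) (P g) = av (tileE L C) g := by
        have := av_Pd (tileE l) (tileE_disjoint l) (subTiles l L C) d g
        rw [hU] at this
        exact this
      rw [h4] at h3
      exact h3
    have h5 := Ex_mono h2
    rw [Ex_av, Ex_sum] at h5
    refine h5.trans (le_of_eq (Finset.sum_congr rfl ?_))
    intro c₀ hc₀
    rw [Ex_av]
    have hsub := subTiles_subset hl hl₀ h0 h hL C c₀ hc₀
    have hU1 := U_subTiles hl hl₀ h0 c₀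
    have h6 : P (fun ω' => g ω' - av (tileE l₀ c₀) g ω') =
        fun ω => P g ω - av (tileE l₀ c₀) (P g) ω := by
      have h7 := Pd_sub (tileE l) (subTiles l L C) d g (av (tileE l₀ c₀) g)
      have h8 := Pd_av_comm (tileE l) (tileE_disjoint l) (subTiles l L C) (subTiles l l₀ c₀) hsub d g
      rw [hU1] at h8
      rw [hP, h7, h8]
    rw [h6]
  -- comparison of `P F` and `P g`
  have h9 : Ex (fun ω => (P F ω - av (tileE L C) F ω) ^ 2) ≤
      2 * Ex (fun ω => (P g ω - av (tileE L C) g ω) ^ 2) + 2 * Ex (fun ω => (F ω - g ω) ^ 2) := by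
    have h10 := low_le (d := d) hl hlL hL C (fun ω => F ω - g ω)
    have h11 : ∀ ω, (P F ω - av (tileE L C) F ω) ^ 2 ≤
        2 * (P g ω - av (tileE L C) g ω) ^ 2 +
          2 * (P (fun ω => F ω - g ω) ω - av (tileE L C) (fun ω => F ω - g ω) ω) ^ 2 := by
      intro ω
      have h12 : P (fun ω => F ω - g ω) ω = P F ω - P g ω := by
        rw [hP, Pd_sub]
      rw [h12, av_sub]
      nlinarith [sq_nonneg ((P g ω - av (tileE L C) g ω) -
        (P F ω - P g ω - (av (tileE L C) F ω - av (tileE L C) g ω)))]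
    have h13 := Ex_mono h11
    rw [Ex_add, Ex_mul_left, Ex_mul_left] at h13
    linarith
  have h14 := low_ge (d := d) hl hlL hL C F
  linarith

end HIG

open HIG in
/-- THE MAIN INEQUALITY for a fixed starting point `u` -/
theorem high_ineq (ha : 0 < a) (hab : a < b) {l l₀ L w d : ℕ} (hl : 0 < l) (hl₀ : l ∣ l₀)
    (h0 : 0 < l₀) (h : l₀ ∣ L) (hL : 0 < L) (hLN : L ∣ N) (hw : 0 < w) (hwL : 2 * (l₀ * w) ≤ L)
    (v u : Vtx N) (q : ℕ) (t : ℕ → ℝ) (x r p lam : ℝ) (hx : 12 * b * d * (l + 1) ≤ x)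
    (ht0 : 0 < t 0) (htmono : ∀ i < q, t i ≤ t (i + 1)) (htr : ∀ i < q, t (i + 1) ≤ r * t i)
    (hp : 0 < p) (hlam : 0 ≤ lam) (hlam3 : 32 ^ d * r ^ 2 * (4 * p) ≤ lam ^ 3) :
    (EE (FF a b v u) L - EE (FF a b v u) l / (d + 1)) / 2 - Err a b v u l₀ w L ≤
      2 * ((q : ℝ) + 3) * (
        (t 0) ^ 2 * (9 * (b / a * rho 0 v / l₀ + 1)) +
        608 * (b - a) ^ 4 * (b / a) ^ 2 * l₀ * rho 0 v / (t q) ^ 2 +
        lam * EE (FF a b v u) l₀ +
        High a b v u l₀ w x p (t 0) (t q)) := by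
  classical
  haveI : Nonempty (Fin w × Fin w) := ⟨(⟨0, hw⟩, ⟨0, hw⟩)⟩
  have hlL : l ∣ L := hl₀.trans h
  have htq : 0 < t q := by
    have : ∀ i, i ≤ q → 0 < t i := by
      intro i
      induction i with
      | zero => intro _; exact ht0
      | succ i ih => intro hi; exact lt_of_lt_of_le (ih (by omega)) (htmono i (by omega))
    exact this q le_rfl
  -- the four parts as functions of a tile and a pair configuration
  set Φ1 : Vtx N → (Edge N → Bool × Bool) → ℝ := fun c w2 =>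
    if inc (tileE l₀ c) (FF a b v u) w2 ≤ t 0 then inc (tileE l₀ c) (FF a b v u) w2 ^ 2 else 0
    with hΦ1
  set Φ2 : Vtx N → (Edge N → Bool × Bool) → ℝ := fun c w2 =>
    if t q < inc (tileE l₀ c) (FF a b v u) w2 then inc (tileE l₀ c) (FF a b v u) w2 ^ 2 else 0
    with hΦ2
  set Φ3 : Vtx N → (Edge N → Bool × Bool) → ℝ := fun c w2 =>
    inc (tileE l₀ c) (FF a b v u) w2 ^ 2 with hΦ3
  set Φ4 : Vtx N → (Edge N → Bool × Bool) → ℝ := fun c w2 =>
    if t 0 < inc (tileE l₀ c) (FF a b v u) w2 ∧ inc (tileE l₀ c) (FF a b v u) w2 ≤ t q ∧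
      p * w ^ 2 < (cntNT a b v u l₀ x (l₀ * w) (fstc w2) c : ℝ)
    then inc (tileE l₀ c) (FF a b v u) w2 ^ 2 else 0 with hΦ4
  -- the inequality for one pair of tiles
  have key : ∀ C ∈ tiles N L, ∀ c₀ ∈ subTiles l₀ L C,
      Ex (fun ω => Pd (tileE l) (subTiles l L C) d
        (fun ω' => gav a b v u l₀ w L C ω' - av (tileE l₀ c₀) (gav a b v u l₀ w L C) ω') ω ^ 2) ≤
      2 * ((q : ℝ) + 3) * (
        Ex (fun z : Fin w × Fin w => Ex (fun w2 : Edge N → Bool × Bool =>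
          Φ1 (innV L C (l₀ * z.1, l₀ * z.2) c₀) (fun e => (sg L C (l₀ * z.1, l₀ * z.2) (fstc w2) e,
            sg L C (l₀ * z.1, l₀ * z.2) (sndc w2) e))))
        + Ex (fun z : Fin w × Fin w => Ex (fun w2 : Edge N → Bool × Bool =>
          Φ2 (innV L C (l₀ * z.1, l₀ * z.2) c₀) (fun e => (sg L C (l₀ * z.1, l₀ * z.2) (fstc w2) e,
            sg L C (l₀ * z.1, l₀ * z.2) (sndc w2) e))))
        + lam * Ex (fun z : Fin w × Fin w => Ex (fun w2 : Edge N → Bool × Bool =>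
          Φ3 (innV L C (l₀ * z.1, l₀ * z.2) c₀) (fun e => (sg L C (l₀ * z.1, l₀ * z.2) (fstc w2) e,
            sg L C (l₀ * z.1, l₀ * z.2) (sndc w2) e))))
        + Ex (fun z : Fin w × Fin w => Ex (fun w2 : Edge N → Bool × Bool =>
          Φ4 (innV L C (l₀ * z.1, l₀ * z.2) c₀) (fun e => (sg L C (l₀ * z.1, l₀ * z.2) (fstc w2) e,
            sg L C (l₀ * z.1, l₀ * z.2) (sndc w2) e))))) := by
    intro C hCt c₀ hc₀
    have hC : corner L C = C := by simpa [tiles] using hCt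
    have hsub := subTiles_subset hl hl₀ h0 h hL C c₀ hc₀
    have hU1 := U_subTiles hl hl₀ h0 c₀
    have hpl := planting ha hab hl hl₀ h0 h hL hLN hw hwL v u C hC c₀ hc₀ x (t 0) p hx ht0 hp
    have hpar := parts_ineq (ι := Edge N) (α := Bool) (tileE l) (tileE_disjoint l)
      (subTiles l L C) (subTiles l l₀ c₀) hsub d
      (Z := Fin w × Fin w) (fun z ω => FF a b v u (sg L C (l₀ * z.1, l₀ * z.2) ω))
      (fun z ω => (cntNT a b v u l₀ x (l₀ * w) (sg L C (l₀ * z.1, l₀ * z.2) ω)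
            (innV L C (l₀ * z.1, l₀ * z.2) c₀) : ℝ) ≤ p * w ^ 2)
      q t r (4 * p) lam ht0 htmono htr (by positivity) hlam hlam3
      (by
        intro S hS hSd w2
        rw [hU1]
        convert hpl S hS hSd w2)
    rw [hU1] at hpar
    have hinc : ∀ (z : Fin w × Fin w) (w2 : Edge N → Bool × Bool),
        inc (tileE l₀ c₀) (fun ω => FF a b v u (sg L C (l₀ * z.1, l₀ * z.2) ω)) w2 =
        inc (tileE l₀ (innV L C (l₀ * z.1, l₀ * z.2) c₀)) (FF a b v u)
        (fun e => (sg L C (l₀ * z.1, l₀ * z.2) (fstc w2) e,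
          sg L C (l₀ * z.1, l₀ * z.2) (sndc w2) e)) := fun z w2 =>
      inc_sg h0 h hL hLN C hC z.1 z.2 (FF a b v u) c₀ hc₀ w2
    simp only [hinc, not_le] at hpar
    exact hpar
  -- sum over the small tiles and the big tiles
  have hsum : ∀ Φ : Vtx N → (Edge N → Bool × Bool) → ℝ,
      ∑ C ∈ tiles N L, ∑ c₀ ∈ subTiles l₀ L C,
        Ex (fun z : Fin w × Fin w => Ex (fun w2 : Edge N → Bool × Bool =>
          Φ (innV L C (l₀ * z.1, l₀ * z.2) c₀) (fun e => (sg L C (l₀ * z.1, l₀ * z.2) (fstc w2) e,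
            sg L C (l₀ * z.1, l₀ * z.2) (sndc w2) e)))) = ∑ c ∈ tiles N l₀, Ex (Φ c) := by
    intro Φ
    rw [← sum_tiles_nest h0 h hL]
    refine Finset.sum_congr rfl ?_
    intro C hCt
    have hC : corner L C = C := by simpa [tiles] using hCt
    exact transport h0 h hL hLN hw C hC Φ
  have hlow : (EE (FF a b v u) L - EE (FF a b v u) l / (d + 1)) / 2 - Err a b v u l₀ w L ≤
      ∑ C ∈ tiles N L, ∑ c₀ ∈ subTiles l₀ L C, Ex (fun ω => Pd (tileE l) (subTiles l L C) d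
        (fun ω' => gav a b v u l₀ w L C ω' - av (tileE l₀ c₀) (gav a b v u l₀ w L C) ω') ω ^ 2) := by
    have h1 := Finset.sum_le_sum (s := tiles N L) (fun C _ =>
      lower (d := d) hl hl₀ h0 h hL C (FF a b v u) (gav a b v u l₀ w L C))
    refine le_trans (le_of_eq ?_) h1
    rw [Finset.sum_sub_distrib, ← Finset.sum_div, Finset.sum_sub_distrib, ← Finset.sum_div,
      sum_tiles_nest hl hlL hL (fun c => Ex (fun ω => (FF a b v u ω - av (tileE l c) (FF a b v u) ω) ^ 2))]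
    rfl
  refine hlow.trans ?_
  refine (Finset.sum_le_sum (fun C hC => Finset.sum_le_sum (fun c₀ hc₀ => key C hC c₀ hc₀))).trans ?_
  simp only [← Finset.mul_sum, Finset.sum_add_distrib]
  rw [hsum Φ1, hsum Φ2, hsum Φ3, hsum Φ4]
  have e1 : ∑ c ∈ tiles N l₀, Ex (Φ1 c) ≤ (t 0) ^ 2 * (9 * (b / a * rho 0 v / l₀ + 1)) := by
    have := small_part ha hab h0 (h.trans hLN) v u (t 0) ht0
    convert this
  have e2 : ∑ c ∈ tiles N l₀, Ex (Φ2 c) ≤
      608 * (b - a) ^ 4 * (b / a) ^ 2 * l₀ * rho 0 v / (t q) ^ 2 := by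
    have := large_part ha hab h0 v u (t q) htq
    convert this
  have e3 : ∑ c ∈ tiles N l₀, Ex (Φ3 c) = EE (FF a b v u) l₀ := sum_inc_sq v u l₀
  have e4 : ∑ c ∈ tiles N l₀, Ex (Φ4 c) = High a b v u l₀ w x p (t 0) (t q) := by
    unfold High
    refine Finset.sum_congr rfl (fun c _ => ?_)
    simp only [hΦ4]
  have hq : (0 : ℝ) ≤ 2 * ((q : ℝ) + 3) := by positivity
  rw [e3, e4]
  exact mul_le_mul_of_nonneg_left (by linarith) hq

end

end Pool.FPP
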