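import Pool.Agent.FPP.COR
import Pool.Agent.FPP.GEO
import Pool.Agent.FPP.AV

/-!
Module INN: translations and inner shifts.
-/

set_option autoImplicit false

noncomputable section

namespace Pool.FPP

open Finset

section

variable {N : ℕ} [NeZero N] {a b : ℝ}

/-! ### translations -/

private theorem tau_tau (z w : Vtx N) (ω : Edge N → Bool) : tau z (tau w ω) = tau (z + w) ω := by
  funext e
  simp only [tau]
  rw [add_assoc]

private theorem inn_tau_zero (ω : Edge N → Bool) : tau 0 ω = ω := by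
  funext e
  simp [tau]

/-- translations as an equivalence -/
private def tauE (z : Vtx N) : (Edge N → Bool) ≃ (Edge N → Bool) where
  toFun := tau z
  invFun := tau (-z)
  left_inv ω := by rw [tau_tau, neg_add_cancel, inn_tau_zero]
  right_inv ω := by rw [tau_tau, add_neg_cancel, inn_tau_zero]

/-- `tau` is a bijection of configurations -/
theorem Ex_tau (z : Vtx N) (f : (Edge N → Bool) → ℝ) : Ex (fun ω => f (tau z ω)) = Ex f :=
  Ex_equiv (tauE z) f

theorem FF_tau (v u z : Vtx N) (ω : Edge N → Bool) :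
    FF a b v u (tau z ω) = FF a b v (u + z) ω := by
  rw [FF, FF, dst_tau]
  congr 1
  abel

/-- the variance of `FF` does not depend on the starting point -/
theorem FF_var_eq (v u : Vtx N) :
    Ex (fun ω => (FF a b v u ω - Ex (FF a b v u)) ^ 2) =
      Ex (fun ω => (FF a b v 0 ω - Ex (FF a b v 0)) ^ 2) := by
  have h1 : ∀ ω : Edge N → Bool, FF a b v u ω = FF a b v 0 (tau u ω) := by
    intro ω
    rw [FF_tau, zero_add]
  have h2 : Ex (FF a b v u) = Ex (FF a b v 0) := by
    rw [← Ex_tau u (FF a b v 0)]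
    congr 1
    funext ω
    exact h1 ω
  rw [h2, ← Ex_tau u (fun ω => (FF a b v 0 ω - Ex (FF a b v 0)) ^ 2)]
  congr 1
  funext ω
  rw [h1]

/-! ### inner shifts -/

theorem innV_of_ne {L : ℕ} {C x : Vtx N} (h : corner L x ≠ C) (z : ℕ × ℕ) :
    innV L C z x = x := if_neg h

private theorem innV_of_eq {L : ℕ} {C x : Vtx N} (h : corner L x = C) (z : ℕ × ℕ) :
    innV L C z x = C + ((((x.1.val % L + z.1) % L : ℕ) : ZMod N),
      (((x.2.val % L + z.2) % L : ℕ) : ZMod N)) := if_pos h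

theorem corner_innV {L : ℕ} (hL : 0 < L) (hLN : L ∣ N) (C : Vtx N) (hC : corner L C = C)
    (z : ℕ × ℕ) (x : Vtx N) : corner L (innV L C z x) = corner L x := by
  by_cases h : corner L x = C
  · rw [innV_of_eq h, h]
    exact (corner_of_add hL hLN C hC _ _ (Nat.mod_lt _ hL) (Nat.mod_lt _ hL)).1
  · rw [innV_of_ne h]

private theorem innV_add {L : ℕ} (hL : 0 < L) (hLN : L ∣ N) (C : Vtx N) (hC : corner L C = C)
    (z w : ℕ × ℕ) (x : Vtx N) :
    innV L C w (innV L C z x) = innV L C (z.1 + w.1, z.2 + w.2) x := by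
  by_cases h : corner L x = C
  · have h2 := corner_of_add hL hLN C hC ((x.1.val % L + z.1) % L) ((x.2.val % L + z.2) % L)
      (Nat.mod_lt _ hL) (Nat.mod_lt _ hL)
    rw [innV_of_eq h z, innV_of_eq h2.1, innV_of_eq h, h2.2.1, h2.2.2]
    simp only [Nat.mod_add_mod, add_assoc]
  · rw [innV_of_ne h, innV_of_ne h, innV_of_ne h]

private theorem innV_zero {L : ℕ} (hL : 0 < L) (C : Vtx N) (z : ℕ × ℕ) (h1 : L ∣ z.1) (h2 : L ∣ z.2)
    (x : Vtx N) : innV L C z x = x := by
  by_cases h : corner L x = C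
  · obtain ⟨i, hi⟩ := h1
    obtain ⟨j, hj⟩ := h2
    rw [innV_of_eq h, hi, hj, Nat.add_mul_mod_self_left, Nat.add_mul_mod_self_left, Nat.mod_mod,
      Nat.mod_mod, ← h]
    exact (corner_add_off hL x).symm
  · exact innV_of_ne h z

private theorem dvd_aux {L : ℕ} (hL : 0 < L) (k : ℕ) : L ∣ k + (L - k % L) := by
  have h1 : k % L < L := Nat.mod_lt _ hL
  have h2 := Nat.div_add_mod k L
  refine ⟨k / L + 1, ?_⟩
  rw [mul_add, mul_one]
  omega

/-- inner shift and inverse inner shift -/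
theorem innV_innV {L : ℕ} (hL : 0 < L) (hLN : L ∣ N) (C : Vtx N) (hC : corner L C = C)
    (z : ℕ × ℕ) (x : Vtx N) :
    innV L C (L - z.1 % L, L - z.2 % L) (innV L C z x) = x ∧
      innV L C z (innV L C (L - z.1 % L, L - z.2 % L) x) = x := by
  rw [innV_add hL hLN C hC, innV_add hL hLN C hC]
  refine ⟨innV_zero hL C _ (dvd_aux hL _) (dvd_aux hL _) x, innV_zero hL C _ ?_ ?_ x⟩
  · show L ∣ (L - z.1 % L) + z.1
    rw [add_comm]; exact dvd_aux hL _
  · show L ∣ (L - z.2 % L) + z.2
    rw [add_comm]; exact dvd_aux hL _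

theorem sg_apply {L : ℕ} (hL : 0 < L) (hLN : L ∣ N) (C : Vtx N) (hC : corner L C = C)
    (z : ℕ × ℕ) (ω : Edge N → Bool) (e : Edge N) :
    sg L C z ω (innV L C z e.1, e.2) = ω e := by
  show ω (innV L C (L - z.1 % L, L - z.2 % L) (innV L C z e.1), e.2) = ω e
  rw [(innV_innV hL hLN C hC z e.1).1]

theorem sg_off {L : ℕ} {C : Vtx N} (z : ℕ × ℕ) (ω : Edge N → Bool) (e : Edge N)
    (h : e ∉ tileE L C) : sg L C z ω e = ω e := by
  have h' : corner L e.1 ≠ C := by
    intro h1
    exact h (by simp [tileE, h1])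
  show ω (innV L C (L - z.1 % L, L - z.2 % L) e.1, e.2) = ω e
  rw [innV_of_ne h']

/-- inner shift as a permutation of the edges -/
private def innE {L : ℕ} (hL : 0 < L) (hLN : L ∣ N) (C : Vtx N) (hC : corner L C = C) (z : ℕ × ℕ) :
    Edge N ≃ Edge N where
  toFun e := (innV L C (L - z.1 % L, L - z.2 % L) e.1, e.2)
  invFun e := (innV L C z e.1, e.2)
  left_inv e := by
    simp only [(innV_innV hL hLN C hC z e.1).2]
  right_inv e := by
    simp only [(innV_innV hL hLN C hC z e.1).1]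

/-- `sg` preserves the uniform measure -/
theorem Ex_sg {L : ℕ} (hL : 0 < L) (hLN : L ∣ N) (C : Vtx N) (hC : corner L C = C)
    (z : ℕ × ℕ) (f : (Edge N → Bool) → ℝ) : Ex (fun ω => f (sg L C z ω)) = Ex f := by
  exact Ex_equiv (Equiv.arrowCongr (innE hL hLN C hC z).symm (Equiv.refl Bool)) f


private theorem corner_val1 {L : ℕ} (C : Vtx N) (hC : corner L C = C) :
    L ∣ C.1.val ∧ L ∣ C.2.val := by
  have h1 : ((C.1.val / L * L : ℕ) : ZMod N) = C.1 := congrArg Prod.fst hC
  have h2 : ((C.2.val / L * L : ℕ) : ZMod N) = C.2 := congrArg Prod.snd hC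
  have e1 : C.1.val / L * L = C.1.val := by
    have := congrArg ZMod.val h1
    rwa [ZMod.val_natCast, Nat.mod_eq_of_lt
      (lt_of_le_of_lt (Nat.div_mul_le_self _ _) (ZMod.val_lt _))] at this
  have e2 : C.2.val / L * L = C.2.val := by
    have := congrArg ZMod.val h2
    rwa [ZMod.val_natCast, Nat.mod_eq_of_lt
      (lt_of_le_of_lt (Nat.div_mul_le_self _ _) (ZMod.val_lt _))] at this
  exact ⟨⟨_, by rw [mul_comm]; exact e1.symm⟩, ⟨_, by rw [mul_comm]; exact e2.symm⟩⟩

private theorem val_add_small {L : ℕ} (hLN : L ∣ N) (c : ZMod N) (hc : L ∣ c.val) (r : ℕ)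
    (hr : r < L) : (c + (r : ZMod N)).val = c.val + r := by
  obtain ⟨k, hk⟩ := hc
  obtain ⟨M, hM⟩ := hLN
  have h1 : c.val < N := ZMod.val_lt c
  have h2 : k < M := by
    by_contra h
    have : L * M ≤ L * k := Nat.mul_le_mul_left L (not_lt.mp h)
    omega
  have h3 : c.val + r < N := by
    have : L * (k + 1) ≤ L * M := Nat.mul_le_mul_left L h2
    rw [mul_add, mul_one] at this
    omega
  rw [ZMod.val_add, ZMod.val_natCast, Nat.mod_eq_of_lt (a := r) (by omega), Nat.mod_eq_of_lt h3]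

private theorem nat_aux {l L : ℕ} (hl : 0 < l) (h : l ∣ L) (r i : ℕ) :
    (r + l * i) % L / l * l = (r / l * l + l * i) % L := by
  obtain ⟨M, rfl⟩ := h
  rw [Nat.mod_mul_right_div_self, Nat.add_mul_div_left _ _ hl, mul_comm (r / l) l, ← mul_add,
    Nat.mul_mod_mul_left, mul_comm]

private theorem corner_sub_coord {l L : ℕ} (hl : 0 < l) (h : l ∣ L) (hL : 0 < L) (hLN : L ∣ N)
    (c : ZMod N) (hc : L ∣ c.val) (r : ℕ) (hr : r < L) :
    (((c + (r : ZMod N)).val / l * l : ℕ) : ZMod N) = c + ((r / l * l : ℕ) : ZMod N) := by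
  rw [val_add_small hLN c hc r hr]
  obtain ⟨k, hk⟩ := h.trans hc
  have : (c.val + r) / l * l = c.val + r / l * l := by
    rw [hk, Nat.mul_add_div hl, add_mul, mul_comm k l]
  rw [this, Nat.cast_add, ZMod.natCast_zmod_val]

/-- the inner shift by a multiple of `l` maps tiles of side `l` to tiles of side `l` -/
theorem corner_innV_sub {l L : ℕ} (hl : 0 < l) (h : l ∣ L) (hL : 0 < L) (hLN : L ∣ N)
    (C : Vtx N) (hC : corner L C = C) (i j : ℕ) (x : Vtx N) :
    corner l (innV L C (l * i, l * j) x) = innV L C (l * i, l * j) (corner l x) := by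
  by_cases hx : corner L x = C
  · have hx' : corner L (corner l x) = C := by rw [corner_nest hl h hL, hx]
    rw [innV_of_eq hx, innV_of_eq hx']
    obtain ⟨d1, d2⟩ := corner_val1 C hC
    have hxo := corner_add_off hL x
    rw [hx] at hxo
    have m1 : x.1.val % L < L := Nat.mod_lt _ hL
    have m2 : x.2.val % L < L := Nat.mod_lt _ hL
    have hle1 : x.1.val % L / l * l < L := lt_of_le_of_lt (Nat.div_mul_le_self _ _) m1
    have hle2 : x.2.val % L / l * l < L := lt_of_le_of_lt (Nat.div_mul_le_self _ _) m2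
    have hcx : corner l x = C + (((x.1.val % L / l * l : ℕ) : ZMod N),
        ((x.2.val % L / l * l : ℕ) : ZMod N)) := by
      conv_lhs => rw [hxo]
      exact Prod.ext (corner_sub_coord hl h hL hLN C.1 d1 _ m1)
        (corner_sub_coord hl h hL hLN C.2 d2 _ m2)
    obtain ⟨-, hv1, hv2⟩ := corner_of_add hL hLN C hC _ _ hle1 hle2
    rw [← hcx] at hv1 hv2
    rw [hv1, hv2]
    refine Prod.ext ?_ ?_
    · refine (corner_sub_coord hl h hL hLN C.1 d1 _ (Nat.mod_lt _ hL)).trans ?_
      rw [nat_aux hl h]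
      rfl
    · refine (corner_sub_coord hl h hL hLN C.2 d2 _ (Nat.mod_lt _ hL)).trans ?_
      rw [nat_aux hl h]
      rfl
  · have hx' : corner L (corner l x) ≠ C := by rw [corner_nest hl h hL]; exact hx
    rw [innV_of_ne hx, innV_of_ne hx']

end

end Pool.FPP
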