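import Pool.Agent.FPP.LOC

/-!
Module ITE: iteration over log-scales.
-/

set_option autoImplicit false

noncomputable section

namespace Pool.FPP

open Finset

theorem ite_Ex_mono {Ω : Type*} [Fintype Ω] {f g : Ω → ℝ} (h : ∀ ω, f ω ≤ g ω) :
    Ex f ≤ Ex g := by
  unfold Ex
  exact div_le_div_of_nonneg_right (Finset.sum_le_sum fun ω _ => h ω) (Nat.cast_nonneg _)

theorem ite_Ex_const {Ω : Type*} [Fintype Ω] [Nonempty Ω] (c : ℝ) :
    Ex (fun _ : Ω => c) = c := by
  unfold Ex
  rw [Finset.sum_const, Finset.card_univ, nsmul_eq_mul]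
  have : (Fintype.card Ω : ℝ) ≠ 0 := by
    have := Fintype.card_pos (α := Ω)
    positivity
  field_simp

/-- Efron-Stein: the variance is at most the block energy -/
theorem ite_var_le_EE {N : ℕ} [NeZero N] (a b : ℝ) (v u : Vtx N) (L : ℕ) :
    Ex (fun ω => (FF a b v u ω - Ex (FF a b v u)) ^ 2) ≤ EE (FF a b v u) L := by
  have h := efron_stein_Ex (α := Bool) (tileE (N := N) L)
    (fun i j hij => tileE_disjoint L i j hij) (tiles N L) (U_tiles L) (FF a b v u)
  exact h

theorem ite_var_le_EB {N : ℕ} [NeZero N] (a b : ℝ) (v : Vtx N) (L : ℕ) :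
    Ex (fun ω => (FF a b v 0 ω - Ex (FF a b v 0)) ^ 2) ≤ EB a b v L := by
  have h1 : ∀ u : Vtx N, Ex (fun ω => (FF a b v 0 ω - Ex (FF a b v 0)) ^ 2) ≤
      EE (FF a b v u) L := by
    intro u
    rw [← FF_var_eq v u]
    exact ite_var_le_EE a b v u L
  have h2 := ite_Ex_mono h1
  rw [ite_Ex_const] at h2
  exact h2

theorem ite_EB_anti {N : ℕ} [NeZero N] (a b : ℝ) (v : Vtx N) {l L : ℕ} (hl : 0 < l) (h : l ∣ L)
    (hL : 0 < L) : EB a b v L ≤ EB a b v l :=
  ite_Ex_mono fun _ => EE_anti hl h hL _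

theorem ite_EB_le {N : ℕ} [NeZero N] {a b : ℝ} (ha : 0 < a) (hab : a < b) (v : Vtx N) (L : ℕ) :
    EB a b v L ≤ (b - a) ^ 2 * (b / a) * rho 0 v := by
  have h := ite_Ex_mono (fun u : Vtx N => EE_le ha hab v u L)
  rw [ite_Ex_const] at h
  exact h

/-- trivial bound -/
theorem torus_trivial (a b : ℝ) (ha : 0 < a) (hab : a < b) (N : ℕ) [NeZero N] (v : Vtx N) :
    Ex (fun ω => (FF a b v 0 ω - Ex (FF a b v 0)) ^ 2) ≤ (b - a) ^ 2 * (b / a) * rho 0 v :=
  (ite_var_le_EE a b v 0 1).trans (EE_le ha hab v 0 1)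

/-- H2: the iteration, torus version of the main theorem -/
theorem torus_bound (a b : ℝ) (ha : 0 < a) (hab : a < b) (k : ℕ) :
    ∃ C : ℝ, 0 ≤ C ∧ ∀ (N : ℕ) [NeZero N] (v : Vtx N) (j : ℕ), 1 ≤ j → 2 ^ j ∣ N →
      2 ^ j ≤ rho 0 v →
      Ex (fun ω => (FF a b v 0 ω - Ex (FF a b v 0)) ^ 2) ≤ C * rho 0 v / (j : ℝ) ^ k := by
  have hb : 0 < b := ha.trans hab
  obtain ⟨h₀, hstep⟩ := local_step a b ha hab (1 / (4 * 200 ^ k)) (by positivity) k
  set h₁ : ℕ := h₀ + 1 with hh₁
  set B : ℝ := (b - a) ^ 2 * (b / a) with hB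
  have hB0 : 0 ≤ B := by positivity
  set C : ℝ := 2 * 400 ^ k + B * (200 * h₁ : ℝ) ^ k with hC
  have hC0 : 0 ≤ C := by positivity
  refine ⟨C, hC0, ?_⟩
  intro N _ v
  have main : ∀ j : ℕ, 1 ≤ j → 2 ^ j ∣ N → 2 ^ j ≤ rho 0 v →
      EB a b v (2 ^ j) ≤ C * rho 0 v / (j : ℝ) ^ k := by
    intro j
    induction j using Nat.strong_induction_on with
    | _ j ih =>
      intro hj1 hjN hjn
      have hj0 : (0:ℝ) < j := by exact_mod_cast hj1
      have hn0 : (0:ℝ) ≤ rho 0 v := Nat.cast_nonneg _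
      by_cases hjs : j < 200 * h₁
      · -- small scales
        have h1 := ite_EB_le ha hab v (2 ^ j)
        have hjk : (j : ℝ) ^ k ≤ (200 * h₁ : ℝ) ^ k := by
          apply pow_le_pow_left₀ hj0.le
          have : (j : ℝ) ≤ ((200 * h₁ : ℕ) : ℝ) := by exact_mod_cast hjs.le
          simpa using this
        rw [le_div_iff₀ (by positivity)]
        calc EB a b v (2 ^ j) * (j : ℝ) ^ k ≤ (B * rho 0 v) * (200 * h₁ : ℝ) ^ k :=
              mul_le_mul h1 hjk (by positivity) (by positivity)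
          _ = (B * (200 * h₁ : ℝ) ^ k) * rho 0 v := by ring
          _ ≤ C * rho 0 v := by
              apply mul_le_mul_of_nonneg_right _ hn0
              have : (0:ℝ) ≤ 2 * 400 ^ k := by positivity
              linarith
      · -- large scales
        push Not at hjs
        set h : ℕ := j / 200 with hh
        have hh1 : h₁ ≤ h := by
          rw [hh, Nat.le_div_iff_mul_le (by norm_num)]
          omega
        have hhpos : 1 ≤ h := by omega
        have hhj : 200 * h ≤ j := by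
          have := Nat.div_mul_le_self j 200
          omega
        have hjh : j ≤ 400 * h := by
          have := Nat.lt_div_mul_add (a := j) (b := 200) (by norm_num)
          omega
        have hdN : ∀ i : ℕ, i ≤ j → 2 ^ i ∣ N := fun i hi => (pow_dvd_pow 2 hi).trans hjN
        have hdn : ∀ i : ℕ, i ≤ j → 2 ^ i ≤ rho 0 v := fun i hi =>
          (Nat.pow_le_pow_right (by norm_num) hi).trans hjn
        have e1 : EB a b v (2 ^ j) ≤ EB a b v (2 ^ (200 * h)) :=
          ite_EB_anti a b v (by positivity) (pow_dvd_pow 2 hhj) (by positivity)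
        have e2 := hstep h (by omega) N (hdN _ hhj) v (hdn _ hhj)
        have e3 := ih (2 * h) (by omega) (by omega) (hdN _ (by omega)) (hdn _ (by omega))
        have e4 := ih (6 * h) (by omega) (by omega) (hdN _ (by omega)) (hdn _ (by omega))
        have hh0 : (0:ℝ) < h := by exact_mod_cast hhpos
        have hjh' : (j : ℝ) ≤ 400 * h := by exact_mod_cast hjh
        -- compare the powers
        have p2 : (j : ℝ) ^ k ≤ 200 ^ k * (((2 * h : ℕ) : ℝ)) ^ k := by
          rw [← mul_pow]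
          apply pow_le_pow_left₀ hj0.le
          push_cast
          linarith
        have p6 : (j : ℝ) ^ k ≤ 200 ^ k * (((6 * h : ℕ) : ℝ)) ^ k := by
          rw [← mul_pow]
          apply pow_le_pow_left₀ hj0.le
          push_cast
          linarith
        have ph : (j : ℝ) ^ k ≤ 400 ^ k * (h : ℝ) ^ k := by
          rw [← mul_pow]
          exact pow_le_pow_left₀ hj0.le hjh' _
        set n : ℝ := (rho 0 v : ℝ) with hn
        have hcn : 0 ≤ C * n := mul_nonneg hC0 hn0
        have q2 : C * n / (((2 * h : ℕ) : ℝ)) ^ k ≤ 200 ^ k * (C * n / (j : ℝ) ^ k) := by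
          have hx : (0:ℝ) < (((2 * h : ℕ) : ℝ)) ^ k := by positivity
          rw [div_le_iff₀ hx]
          rw [show 200 ^ k * (C * n / (j : ℝ) ^ k) * (((2 * h : ℕ) : ℝ)) ^ k =
            (C * n) * ((200 ^ k * (((2 * h : ℕ) : ℝ)) ^ k) / (j : ℝ) ^ k) by ring]
          have : 1 ≤ (200 ^ k * (((2 * h : ℕ) : ℝ)) ^ k) / (j : ℝ) ^ k := by
            rw [le_div_iff₀ (by positivity)]
            linarith
          nlinarith
        have q6 : C * n / (((6 * h : ℕ) : ℝ)) ^ k ≤ 200 ^ k * (C * n / (j : ℝ) ^ k) := by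
          have hx : (0:ℝ) < (((6 * h : ℕ) : ℝ)) ^ k := by positivity
          rw [div_le_iff₀ hx]
          rw [show 200 ^ k * (C * n / (j : ℝ) ^ k) * (((6 * h : ℕ) : ℝ)) ^ k =
            (C * n) * ((200 ^ k * (((6 * h : ℕ) : ℝ)) ^ k) / (j : ℝ) ^ k) by ring]
          have : 1 ≤ (200 ^ k * (((6 * h : ℕ) : ℝ)) ^ k) / (j : ℝ) ^ k := by
            rw [le_div_iff₀ (by positivity)]
            linarith
          nlinarith
        have qh : n / (h : ℝ) ^ k ≤ 400 ^ k * (n / (j : ℝ) ^ k) := by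
          have hx : (0:ℝ) < (h : ℝ) ^ k := by positivity
          rw [div_le_iff₀ hx]
          rw [show 400 ^ k * (n / (j : ℝ) ^ k) * (h : ℝ) ^ k =
            n * ((400 ^ k * (h : ℝ) ^ k) / (j : ℝ) ^ k) by ring]
          have : 1 ≤ (400 ^ k * (h : ℝ) ^ k) / (j : ℝ) ^ k := by
            rw [le_div_iff₀ (by positivity)]
            linarith
          nlinarith
        have hCC : 400 ^ k * (n / (j : ℝ) ^ k) ≤ (1 / 2) * (C * n / (j : ℝ) ^ k) := by
          rw [show (1 / 2) * (C * n / (j : ℝ) ^ k) = (C / 2) * (n / (j : ℝ) ^ k) by ring]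
          apply mul_le_mul_of_nonneg_right _ (by positivity)
          have : (0:ℝ) ≤ B * (200 * h₁ : ℝ) ^ k := by positivity
          linarith
        have h200 : (0:ℝ) < 200 ^ k := by positivity
        have hfin : 1 / (4 * 200 ^ k) * (EB a b v (2 ^ (2 * h)) + EB a b v (2 ^ (6 * h))) ≤
            (1 / 2) * (C * n / (j : ℝ) ^ k) := by
          have hs : EB a b v (2 ^ (2 * h)) + EB a b v (2 ^ (6 * h)) ≤
              2 * (200 ^ k * (C * n / (j : ℝ) ^ k)) := by linarith
          calc 1 / (4 * 200 ^ k) * (EB a b v (2 ^ (2 * h)) + EB a b v (2 ^ (6 * h)))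
              ≤ 1 / (4 * 200 ^ k) * (2 * (200 ^ k * (C * n / (j : ℝ) ^ k))) :=
                mul_le_mul_of_nonneg_left hs (by positivity)
            _ = (1 / 2) * (C * n / (j : ℝ) ^ k) := by
                field_simp
                ring
        linarith
  intro j hj1 hjN hjn
  exact (ite_var_le_EB a b v (2 ^ j)).trans (main j hj1 hjN hjn)

end Pool.FPP
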