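import Pool.Agent.FPP.HC

/-!
Module LEV: the level inequality.
h = Pd f, h' = sum_{|J|<=d} 2^{|J|} f^{=J} (f^{=J} = cmp blk K J f), Tn K h' = h. HC with L = ∅, J = K:
E_K h^4 ≤ sum_{|S|<=d} (3/16)^{|S|} E_K[(E_{K\S}(D_S h')^2)^2], with D_S = cmp blk S S, D_S h' = 0 for |S|>d,
E_{K\S}(D_S h')^2 ≤ 4^d E_{K\S}(D_S h)^2 (orthogonality of the f^{=J}, J ⊇ S) and
E_{K\S}(D_S h)^2 ≤ E_{K\S}(D_S f)^2 ≤ 4^{|S|} θ (D_S f = sum_T ± E_T f over T ⊆ S, Cauchy-Schwarz,
E_{K\S} E_T f^2 = E_{K\(S\T)} f^2 ≤ θ by the hypothesis since |S\T| ≤ d).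
So E_K h^4 ≤ 16^d θ sum_S (3/4)^{|S|} E_K (D_S h)^2 = 16^d θ sum_J (7/4)^{|J|} ‖f^{=J}‖^2 ≤ 32^d θ E_K h^2.
W = E_K h^2 = E_K (f h) ≤ (E|f|)^{1/2} (E|f| h^2)^{1/2} ≤ (E|f|)^{1/2} (E f^2)^{1/4} (E h^4)^{1/4},
W^4 ≤ (E|f|)^2 (E f^2) 32^d θ W.  (All E are E_K at the point ω₀.)
-/

set_option autoImplicit false

noncomputable section

namespace Pool.FPP

open Finset

section

variable {ι κ α : Type*} [Fintype ι] [DecidableEq ι] [Fintype α] [Nonempty α] [DecidableEq κ]

private theorem lev_cmp_lin {τ : Type*} (blk : κ → Finset ι) (K J : Finset κ) (s : Finset τ)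
    (c : τ → ℝ) (g : τ → (ι → α) → ℝ) (ω : ι → α) :
    cmp blk K J (fun ω => ∑ i ∈ s, c i * g i ω) ω = ∑ i ∈ s, c i * cmp blk K J (g i) ω := by
  unfold cmp
  have h1 : ∀ T ∈ J.powerset, (-1 : ℝ) ^ T.card *
      av (U blk ((K \ J) ∪ T)) (fun ω => ∑ i ∈ s, c i * g i ω) ω =
      ∑ i ∈ s, c i * ((-1 : ℝ) ^ T.card * av (U blk ((K \ J) ∪ T)) (g i) ω) := by
    intro T _
    rw [av_sum, Finset.mul_sum]
    refine Finset.sum_congr rfl (fun i _ => ?_)
    rw [av_mul_left]; ring
  rw [Finset.sum_congr rfl h1, Finset.sum_comm]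
  refine Finset.sum_congr rfl (fun i _ => ?_)
  rw [Finset.mul_sum]

/-- orthogonality of the components containing `S` -/
private theorem lev_orth (blk : κ → Finset ι) (hdisj : ∀ i j, i ≠ j → Disjoint (blk i) (blk j))
    (K S T : Finset κ) (hT : K \ S ⊆ T) (A : Finset (Finset κ)) (hA : ∀ J ∈ A, J ⊆ K)
    (hAS : ∀ J ∈ A, S ⊆ J) (c : Finset κ → ℝ) (f : (ι → α) → ℝ) (ω : ι → α) :
    av (U blk T) (fun ω => (∑ J ∈ A, c J * cmp blk K J f ω) ^ 2) ω =
      ∑ J ∈ A, c J ^ 2 * av (U blk T) (fun ω => cmp blk K J f ω ^ 2) ω := by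
  have h1 : (fun ω => (∑ J ∈ A, c J * cmp blk K J f ω) ^ 2) =
      fun ω => ∑ J ∈ A, ∑ J' ∈ A, (c J * c J') * (cmp blk K J f ω * cmp blk K J' f ω) := by
    funext ω
    rw [sq, Finset.sum_mul_sum]
    refine Finset.sum_congr rfl (fun J _ => Finset.sum_congr rfl (fun J' _ => by ring))
  rw [h1, av_sum]
  refine Finset.sum_congr rfl (fun J hJ => ?_)
  rw [av_sum, Finset.sum_eq_single_of_mem J hJ]
  · rw [av_mul_left]
    have : (fun ω => cmp blk K J f ω * cmp blk K J f ω) = fun ω => cmp blk K J f ω ^ 2 := by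
      funext ω; ring
    rw [this]; ring
  · intro J' hJ' hne
    rw [av_mul_left]
    have h0 : av (U blk T) (fun ω => cmp blk K J f ω * cmp blk K J' f ω) ω = 0 := by
      by_cases hsub : J ⊆ J'
      · have : ∃ j ∈ J', j ∉ J := by
          by_contra hcon
          push Not at hcon
          exact hne (Finset.Subset.antisymm (fun j hj => hcon j hj) hsub)
        obtain ⟨j, hj', hj⟩ := this
        have hjT : j ∈ T := hT (Finset.mem_sdiff.2 ⟨hA J' hJ' hj', fun h => hj (hAS J hJ h)⟩)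
        have h2 := cmp_orth blk hdisj K J' J T (hA J' hJ') (hA J hJ) j hj' hj hjT f f ω
        rw [← h2]
        congr 1
        funext ω; ring
      · obtain ⟨j, hj, hj'⟩ := Finset.not_subset.1 hsub
        have hjT : j ∈ T := hT (Finset.mem_sdiff.2 ⟨hA J hJ hj, fun h => hj' (hAS J' hJ' h)⟩)
        exact cmp_orth blk hdisj K J J' T (hA J hJ) (hA J' hJ') j hj hj' hjT f f ω
    rw [h0, mul_zero]

private theorem lev_DS (blk : κ → Finset ι) (hdisj : ∀ i j, i ≠ j → Disjoint (blk i) (blk j))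
    (K S : Finset κ) (hS : S ⊆ K) (A : Finset (Finset κ)) (hA : ∀ J ∈ A, J ⊆ K)
    (c : Finset κ → ℝ) (f : (ι → α) → ℝ) :
    cmp blk S S (fun ω => ∑ J ∈ A, c J * cmp blk K J f ω) =
      fun ω => ∑ J ∈ A.filter (fun J => S ⊆ J), c J * cmp blk K J f ω := by
  funext ω
  rw [lev_cmp_lin, Finset.sum_filter]
  refine Finset.sum_congr rfl (fun J hJ => ?_)
  rw [cmp_self_cmp blk hdisj K J S (hA J hJ) hS]
  split_ifs with h
  · rfl
  · simp

/-- THE LEVEL INEQUALITY. -/
theorem level_ineq (blk : κ → Finset ι) (hdisj : ∀ i j, i ≠ j → Disjoint (blk i) (blk j))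
    (K : Finset κ) (d : ℕ) (f : (ι → α) → ℝ) (θ : ℝ) (ω₀ : ι → α)
    (hθ : ∀ S ⊆ K, S.card ≤ d → ∀ η : ι → α,
      av (U blk (K \ S)) (fun ω => f ω ^ 2) (mix (U blk K) η ω₀) ≤ θ) :
    (av (U blk K) (fun ω => Pd blk K d f ω ^ 2) ω₀) ^ 3 ≤
      32 ^ d * θ * (av (U blk K) (fun ω => |f ω|) ω₀) ^ 2 *
        av (U blk K) (fun ω => f ω ^ 2) ω₀ := by
  set P : Finset (Finset κ) := K.powerset.filter (fun J => J.card ≤ d) with hP
  have hPK : ∀ J ∈ P, J ⊆ K := fun J hJ =>
    Finset.mem_powerset.1 (Finset.mem_filter.1 hJ).1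
  have hPd : ∀ J ∈ P, J.card ≤ d := fun J hJ => (Finset.mem_filter.1 hJ).2
  set h : (ι → α) → ℝ := Pd blk K d f with hh
  have hh1 : h = fun ω => ∑ J ∈ P, (1 : ℝ) * cmp blk K J f ω := by
    funext ω
    rw [hh]
    unfold Pd
    exact Finset.sum_congr rfl (fun J _ => (one_mul _).symm)
  set h' : (ι → α) → ℝ := fun ω => ∑ J ∈ P, (2 : ℝ) ^ J.card * cmp blk K J f ω with hh'
  -- the noise operator
  have hTn : Tn blk K h' = h := by
    funext ω
    unfold Tn
    rw [hh1]
    have h1 : ∀ S ∈ K.powerset, (1 / 2 : ℝ) ^ S.card * cmp blk K S h' ω =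
        ∑ J ∈ P, if S = J then cmp blk K J f ω else 0 := by
      intro S hS
      rw [hh', lev_cmp_lin, Finset.mul_sum]
      refine Finset.sum_congr rfl (fun J hJ => ?_)
      rw [cmp_cmp blk hdisj K J S (hPK J hJ) (Finset.mem_powerset.1 hS)]
      split_ifs with h
      · subst h
        rw [← mul_assoc, ← mul_pow]; norm_num
      · simp
    rw [Finset.sum_congr rfl h1, Finset.sum_comm]
    refine Finset.sum_congr rfl (fun J hJ => ?_)
    rw [Finset.sum_ite_eq' K.powerset J, if_pos (Finset.mem_powerset.2 (hPK J hJ)), one_mul]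
  -- nonnegativity of θ
  have hθ0 : 0 ≤ θ := by
    have h1 := hθ ∅ (Finset.empty_subset _) (by simp) ω₀
    exact le_trans (av_nonneg _ (fun ω => sq_nonneg _) _) h1
  -- D_S f
  have hDf : ∀ S ⊆ K, S.card ≤ d → ∀ η : ι → α,
      av (U blk (K \ S)) (fun ω => cmp blk S S f ω ^ 2) (mix (U blk K) η ω₀) ≤
        4 ^ S.card * θ := by
    intro S hS hSd η
    have h1 : ∀ ω, cmp blk S S f ω ^ 2 ≤
        2 ^ S.card * ∑ T ∈ S.powerset, (av (U blk T) f ω) ^ 2 := by
      intro ω
      unfold cmp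
      have h2 := sq_sum_le_card_mul_sum_sq (s := S.powerset)
        (f := fun T => (-1 : ℝ) ^ T.card * av (U blk ((S \ S) ∪ T)) f ω)
      rw [Finset.card_powerset] at h2
      push_cast at h2
      refine h2.trans (le_of_eq ?_)
      congr 1
      refine Finset.sum_congr rfl (fun T _ => ?_)
      rw [mul_pow, ← pow_mul, mul_comm T.card 2, pow_mul, neg_one_sq, one_pow, one_mul,
        Finset.sdiff_self, Finset.empty_union]
    refine (av_mono _ h1 _).trans ?_
    rw [av_mul_left, av_sum]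
    have h3 : ∀ T ∈ S.powerset, av (U blk (K \ S)) (fun ω => (av (U blk T) f ω) ^ 2)
        (mix (U blk K) η ω₀) ≤ θ := by
      intro T hT
      have hTS := Finset.mem_powerset.1 hT
      refine (av_mono _ (fun ω => av_sq_le (U blk T) f ω) _).trans ?_
      have h4 : av (U blk (K \ S)) (av (U blk T) (fun ω => f ω ^ 2)) =
          av (U blk (K \ (S \ T))) (fun ω => f ω ^ 2) := by
        rw [av_av]
        congr 1
        unfold U
        rw [← Finset.union_biUnion]
        congr 1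
        ext j
        simp only [Finset.mem_union, Finset.mem_sdiff]
        constructor
        · rintro (⟨h5, h6⟩ | h5)
          · exact ⟨h5, fun h7 => h6 h7.1⟩
          · exact ⟨hS (hTS h5), fun h7 => h7.2 h5⟩
        · rintro ⟨h5, h6⟩
          by_cases h7 : j ∈ T
          · exact Or.inr h7
          · exact Or.inl ⟨h5, fun h8 => h6 ⟨h8, h7⟩⟩
      have h5 := hθ (S \ T) ((Finset.sdiff_subset).trans hS)
        ((Finset.card_le_card Finset.sdiff_subset).trans hSd) η
      rw [← h4] at h5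
      exact h5
    calc (2 : ℝ) ^ S.card * ∑ T ∈ S.powerset, av (U blk (K \ S))
          (fun ω => (av (U blk T) f ω) ^ 2) (mix (U blk K) η ω₀)
        ≤ 2 ^ S.card * ∑ T ∈ S.powerset, θ := by
          gcongr with T hT
          exact h3 T hT
      _ = 4 ^ S.card * θ := by
          rw [Finset.sum_const, Finset.card_powerset, nsmul_eq_mul]
          push_cast
          rw [← mul_assoc, ← mul_pow]; norm_num
  -- D_S h and D_S h' in terms of components
  have hDh : ∀ S ⊆ K, cmp blk S S h =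
      fun ω => ∑ J ∈ P.filter (fun J => S ⊆ J), (1 : ℝ) * cmp blk K J f ω := by
    intro S hS
    rw [hh1]
    exact lev_DS blk hdisj K S hS P hPK (fun _ => 1) f
  have hDh' : ∀ S ⊆ K, cmp blk S S h' =
      fun ω => ∑ J ∈ P.filter (fun J => S ⊆ J), (2 : ℝ) ^ J.card * cmp blk K J f ω := by
    intro S hS
    exact lev_DS blk hdisj K S hS P hPK (fun J => 2 ^ J.card) f
  have hDf' : ∀ S ⊆ K, cmp blk S S f =
      fun ω => ∑ J ∈ K.powerset.filter (fun J => S ⊆ J), (1 : ℝ) * cmp blk K J f ω := by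
    intro S hS
    have h1 : f = fun ω => ∑ J ∈ K.powerset, (1 : ℝ) * cmp blk K J f ω := by
      funext ω
      rw [← cmp_sum blk K f ω]
      exact Finset.sum_congr rfl (fun J _ => (one_mul _).symm)
    have h2 := lev_DS blk hdisj K S hS K.powerset (fun J hJ => Finset.mem_powerset.1 hJ)
      (fun _ => 1) f
    rw [← h2]
    congr 1
  -- norms
  have hnn : ∀ (T J : Finset κ) (ω : ι → α),
      0 ≤ av (U blk T) (fun ω => cmp blk K J f ω ^ 2) ω :=
    fun T J ω => av_nonneg _ (fun ω => sq_nonneg _) _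
  have hA : ∀ S ⊆ K, ∀ ω, av (U blk (K \ S)) (fun ω => cmp blk S S h' ω ^ 2) ω ≤
      4 ^ d * av (U blk (K \ S)) (fun ω => cmp blk S S h ω ^ 2) ω := by
    intro S hS ω
    rw [hDh S hS, hDh' S hS]
    rw [lev_orth blk hdisj K S (K \ S) (le_refl _) _
      (fun J hJ => hPK J (Finset.mem_filter.1 hJ).1) (fun J hJ => (Finset.mem_filter.1 hJ).2),
      lev_orth blk hdisj K S (K \ S) (le_refl _) _
      (fun J hJ => hPK J (Finset.mem_filter.1 hJ).1) (fun J hJ => (Finset.mem_filter.1 hJ).2),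
      Finset.mul_sum]
    refine Finset.sum_le_sum (fun J hJ => ?_)
    have h1 : ((2 : ℝ) ^ J.card) ^ 2 ≤ 4 ^ d := by
      rw [← pow_mul, mul_comm, pow_mul]
      norm_num
      exact pow_le_pow_right₀ (by norm_num) (hPd J (Finset.mem_filter.1 hJ).1)
    rw [one_pow, one_mul]
    exact mul_le_mul_of_nonneg_right h1 (hnn _ _ _)
  have hB : ∀ S ⊆ K, ∀ ω, av (U blk (K \ S)) (fun ω => cmp blk S S h ω ^ 2) ω ≤
      av (U blk (K \ S)) (fun ω => cmp blk S S f ω ^ 2) ω := by
    intro S hS ω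
    rw [hDh S hS, hDf' S hS]
    rw [lev_orth blk hdisj K S (K \ S) (le_refl _) _
      (fun J hJ => hPK J (Finset.mem_filter.1 hJ).1) (fun J hJ => (Finset.mem_filter.1 hJ).2),
      lev_orth blk hdisj K S (K \ S) (le_refl _) _
      (fun J hJ => Finset.mem_powerset.1 (Finset.mem_filter.1 hJ).1)
      (fun J hJ => (Finset.mem_filter.1 hJ).2)]
    refine Finset.sum_le_sum_of_subset_of_nonneg ?_ (fun J _ _ => ?_)
    · exact Finset.filter_subset_filter _ (Finset.filter_subset _ _)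
    · exact mul_nonneg (sq_nonneg _) (hnn _ _ _)
  -- the fourth moment
  set W : ℝ := av (U blk K) (fun ω => h ω ^ 2) ω₀ with hW
  have hW' : W = ∑ J ∈ P, av (U blk K) (fun ω => cmp blk K J f ω ^ 2) ω₀ := by
    rw [hW, hh1]
    rw [lev_orth blk hdisj K ∅ K (by simp) P hPK (fun J _ => Finset.empty_subset J)]
    exact Finset.sum_congr rfl (fun J _ => by ring)
  have h4 : av (U blk K) (fun ω => h ω ^ 4) ω₀ ≤ 32 ^ d * θ * W := by
    have h1 := HC_ineq blk hdisj K K ∅ (le_refl _) (Finset.empty_subset _)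
      (Finset.disjoint_empty_right _) h' ω₀
    have h2 : av (U blk K) (fun ω => (av (U blk ∅) (fun ω => Tn blk K h' ω ^ 2) ω) ^ 2) ω₀ =
        av (U blk K) (fun ω => h ω ^ 4) ω₀ := by
      congr 1
      funext ω
      have : U blk (∅ : Finset κ) = ∅ := by unfold U; exact Finset.biUnion_empty
      rw [this, av_empty, hTn]
      ring
    rw [h2] at h1
    refine h1.trans ?_
    have h3 : ∀ S ∈ K.powerset, (3 / 16 : ℝ) ^ S.card *
        av (U blk K) (fun ω =>
          (av (U blk (∅ ∪ (K \ S))) (fun ω => cmp blk S S h' ω ^ 2) ω) ^ 2) ω₀ ≤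
        16 ^ d * θ * ((3 / 4 : ℝ) ^ S.card * ∑ J ∈ P.filter (fun J => S ⊆ J),
          av (U blk K) (fun ω => cmp blk K J f ω ^ 2) ω₀) := by
      intro S hS
      have hSK := Finset.mem_powerset.1 hS
      rw [Finset.empty_union]
      by_cases hSd : S.card ≤ d
      · -- the main case
        have h5 : ∀ η : ι → α,
            (av (U blk (K \ S)) (fun ω => cmp blk S S h' ω ^ 2) (mix (U blk K) η ω₀)) ^ 2 ≤
            (16 ^ d * 4 ^ S.card * θ) *
              av (U blk (K \ S)) (fun ω => cmp blk S S h ω ^ 2) (mix (U blk K) η ω₀) := by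
          intro η
          set X := av (U blk (K \ S)) (fun ω => cmp blk S S h ω ^ 2) (mix (U blk K) η ω₀)
          have hX0 : 0 ≤ X := av_nonneg _ (fun ω => sq_nonneg _) _
          have hX1 : X ≤ 4 ^ S.card * θ := (hB S hSK _).trans (hDf S hSK hSd η)
          have hX2 := hA S hSK (mix (U blk K) η ω₀)
          have hX3 : 0 ≤ av (U blk (K \ S)) (fun ω => cmp blk S S h' ω ^ 2)
              (mix (U blk K) η ω₀) := av_nonneg _ (fun ω => sq_nonneg _) _
          calc _ ≤ (4 ^ d * X) ^ 2 := by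
                exact pow_le_pow_left₀ hX3 hX2 2
            _ = 16 ^ d * X * X := by
                rw [mul_pow, ← pow_mul, mul_comm d 2, pow_mul]; norm_num; ring
            _ ≤ 16 ^ d * (4 ^ S.card * θ) * X := by gcongr
            _ = _ := by ring
        have h6 : av (U blk K) (fun ω =>
            (av (U blk (K \ S)) (fun ω => cmp blk S S h' ω ^ 2) ω) ^ 2) ω₀ ≤
            (16 ^ d * 4 ^ S.card * θ) *
              av (U blk K) (av (U blk (K \ S)) (fun ω => cmp blk S S h ω ^ 2)) ω₀ := by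
          rw [← av_mul_left]
          unfold av
          exact Ex_mono h5
        have h7 : av (U blk K) (av (U blk (K \ S)) (fun ω => cmp blk S S h ω ^ 2)) ω₀ =
            ∑ J ∈ P.filter (fun J => S ⊆ J),
              av (U blk K) (fun ω => cmp blk K J f ω ^ 2) ω₀ := by
          rw [av_av]
          have : U blk K ∪ U blk (K \ S) = U blk K := by
            apply Finset.union_eq_left.2
            unfold U
            exact Finset.biUnion_subset_biUnion_of_subset_left _ Finset.sdiff_subset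
          rw [this, hDh S hSK]
          rw [lev_orth blk hdisj K S K Finset.sdiff_subset _
            (fun J hJ => hPK J (Finset.mem_filter.1 hJ).1)
            (fun J hJ => (Finset.mem_filter.1 hJ).2)]
          exact Finset.sum_congr rfl (fun J _ => by ring)
        rw [h7] at h6
        calc _ ≤ (3 / 16 : ℝ) ^ S.card * ((16 ^ d * 4 ^ S.card * θ) *
              ∑ J ∈ P.filter (fun J => S ⊆ J),
                av (U blk K) (fun ω => cmp blk K J f ω ^ 2) ω₀) := by gcongr
          _ = 16 ^ d * θ * (((3 / 16 : ℝ) ^ S.card * 4 ^ S.card) *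
              ∑ J ∈ P.filter (fun J => S ⊆ J),
                av (U blk K) (fun ω => cmp blk K J f ω ^ 2) ω₀) := by ring
          _ = _ := by
              rw [← mul_pow]; norm_num
      · -- no component
        have h5 : P.filter (fun J => S ⊆ J) = ∅ := by
          rw [Finset.filter_eq_empty_iff]
          intro J hJ hSJ
          exact hSd ((Finset.card_le_card hSJ).trans (hPd J hJ))
        have h6 : cmp blk S S h' = fun _ => 0 := by
          rw [hDh' S hSK, h5]
          funext ω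
          exact Finset.sum_empty
        rw [h6, h5, Finset.sum_empty]
        have h7 : (fun ω : ι → α => (av (U blk (K \ S)) (fun _ => (0 : ℝ) ^ 2) ω) ^ 2) =
            fun _ => 0 := by
          funext ω
          rw [av_const]; norm_num
        rw [h7, av_const]
        simp
    refine (Finset.sum_le_sum h3).trans ?_
    rw [← Finset.mul_sum]
    have h8 : ∑ S ∈ K.powerset, ((3 / 4 : ℝ) ^ S.card * ∑ J ∈ P.filter (fun J => S ⊆ J),
        av (U blk K) (fun ω => cmp blk K J f ω ^ 2) ω₀) =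
        ∑ J ∈ P, (7 / 4 : ℝ) ^ J.card * av (U blk K) (fun ω => cmp blk K J f ω ^ 2) ω₀ := by
      have h9 : ∀ S ∈ K.powerset, ((3 / 4 : ℝ) ^ S.card * ∑ J ∈ P.filter (fun J => S ⊆ J),
          av (U blk K) (fun ω => cmp blk K J f ω ^ 2) ω₀) =
          ∑ J ∈ P, if S ⊆ J then (3 / 4 : ℝ) ^ S.card *
            av (U blk K) (fun ω => cmp blk K J f ω ^ 2) ω₀ else 0 := by
        intro S _
        rw [Finset.mul_sum, Finset.sum_filter]
      rw [Finset.sum_congr rfl h9, Finset.sum_comm]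
      refine Finset.sum_congr rfl (fun J hJ => ?_)
      rw [← Finset.sum_filter, ← Finset.sum_mul]
      congr 1
      have h10 : K.powerset.filter (fun S => S ⊆ J) = J.powerset := by
        ext S
        rw [Finset.mem_filter, Finset.mem_powerset, Finset.mem_powerset]
        exact ⟨fun h => h.2, fun h => ⟨h.trans (hPK J hJ), h⟩⟩
      rw [h10]
      have h11 := Finset.sum_pow_mul_eq_add_pow (3 / 4 : ℝ) 1 J
      simp only [one_pow, mul_one] at h11
      rw [h11]; norm_num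
    rw [h8]
    have h12 : ∑ J ∈ P, (7 / 4 : ℝ) ^ J.card *
        av (U blk K) (fun ω => cmp blk K J f ω ^ 2) ω₀ ≤ 2 ^ d * W := by
      rw [hW', Finset.mul_sum]
      refine Finset.sum_le_sum (fun J hJ => ?_)
      refine mul_le_mul_of_nonneg_right ?_ (hnn _ _ _)
      calc (7 / 4 : ℝ) ^ J.card ≤ 2 ^ J.card := pow_le_pow_left₀ (by norm_num) (by norm_num) _
        _ ≤ 2 ^ d := pow_le_pow_right₀ (by norm_num) (hPd J hJ)
    calc 16 ^ d * θ * _ ≤ 16 ^ d * θ * (2 ^ d * W) := by gcongr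
      _ = (16 ^ d * 2 ^ d) * θ * W := by ring
      _ = 32 ^ d * θ * W := by rw [← mul_pow]; norm_num
  -- conclusion
  have hW0 : 0 ≤ W := av_nonneg _ (fun ω => sq_nonneg _) _
  have hWf : W = av (U blk K) (fun ω => f ω * h ω) ω₀ := by
    have h1 := Pd_selfadj blk hdisj K d f h ω₀
    rw [hh, Pd_idem blk hdisj K d f] at h1
    rw [hW, hh, ← h1]
    congr 1
    funext ω; ring
  set A1 : ℝ := av (U blk K) (fun ω => |f ω|) ω₀ with hA1
  set A2 : ℝ := av (U blk K) (fun ω => f ω ^ 2) ω₀ with hA2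
  have hA10 : 0 ≤ A1 := av_nonneg _ (fun ω => abs_nonneg _) _
  have hA20 : 0 ≤ A2 := av_nonneg _ (fun ω => sq_nonneg _) _
  set Y : ℝ := av (U blk K) (fun ω => |f ω| * h ω ^ 2) ω₀ with hY
  have hY0 : 0 ≤ Y := av_nonneg _ (fun ω => by positivity) _
  have hc1 : W ^ 2 ≤ A1 * Y := by
    have h1 : W ≤ av (U blk K) (fun ω => Real.sqrt |f ω| * (Real.sqrt |f ω| * |h ω|)) ω₀ := by
      rw [hWf]
      refine av_mono _ (fun ω => ?_) _
      rw [← mul_assoc, Real.mul_self_sqrt (abs_nonneg _), ← abs_mul]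
      exact le_abs_self _
    have h2 := av_cauchy (U blk K) (fun ω => Real.sqrt |f ω|)
      (fun ω => Real.sqrt |f ω| * |h ω|) ω₀
    have h3 : (fun ω => Real.sqrt |f ω| ^ 2) = fun ω => |f ω| := by
      funext ω; exact Real.sq_sqrt (abs_nonneg _)
    have h5 : (fun ω => (Real.sqrt |f ω| * |h ω|) ^ 2) = fun ω => |f ω| * h ω ^ 2 := by
      funext ω; rw [mul_pow, Real.sq_sqrt (abs_nonneg _), sq_abs]
    rw [h3, h5] at h2
    exact (pow_le_pow_left₀ hW0 h1 2).trans h2
  have hc2 : Y ^ 2 ≤ A2 * av (U blk K) (fun ω => h ω ^ 4) ω₀ := by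
    have h2 := av_cauchy (U blk K) (fun ω => |f ω|) (fun ω => h ω ^ 2) ω₀
    have h3 : (fun ω => |f ω| ^ 2) = fun ω => f ω ^ 2 := by
      funext ω; exact sq_abs _
    have h5 : (fun ω => (h ω ^ 2) ^ 2) = fun ω => h ω ^ 4 := by
      funext ω; ring
    rw [h3, h5] at h2
    exact h2
  have hc3 : W ^ 4 ≤ (32 ^ d * θ * A1 ^ 2 * A2) * W := by
    calc W ^ 4 = (W ^ 2) ^ 2 := by ring
      _ ≤ (A1 * Y) ^ 2 := pow_le_pow_left₀ (sq_nonneg _) hc1 2
      _ = A1 ^ 2 * Y ^ 2 := by ring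
      _ ≤ A1 ^ 2 * (A2 * (32 ^ d * θ * W)) := by
          refine mul_le_mul_of_nonneg_left ?_ (sq_nonneg _)
          exact hc2.trans (mul_le_mul_of_nonneg_left h4 hA20)
      _ = _ := by ring
  rcases hW0.eq_or_lt with h0 | h0
  · rw [← h0]
    have : (0 : ℝ) ≤ 32 ^ d * θ * A1 ^ 2 * A2 := by positivity
    simpa using this
  · have h1 : W ^ 3 * W ≤ (32 ^ d * θ * A1 ^ 2 * A2) * W := by
      calc W ^ 3 * W = W ^ 4 := by ring
        _ ≤ _ := hc3
    exact le_of_mul_le_mul_right h1 h0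

end

end Pool.FPP
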