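import Mathlib

/-!
Module LOC4: real analysis facts for the choice of parameters in the local step.
-/

set_option autoImplicit false

noncomputable section

namespace Pool.FPP

open Filter Topology

theorem ev_pow (k : ℕ) (c : ℝ) : ∃ h₀ : ℕ, ∀ h ≥ h₀, c * (h : ℝ) ^ k ≤ 2 ^ h := by
  have h1 := tendsto_pow_const_div_const_pow_of_one_lt k (r := 2) (by norm_num)
  have h2 : ∀ᶠ n : ℕ in atTop, (n : ℝ) ^ k / 2 ^ n < 1 / (|c| + 1) :=
    (tendsto_order.1 h1).2 _ (by positivity)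
  obtain ⟨h₀, hh⟩ := eventually_atTop.1 h2
  refine ⟨h₀, fun h hle => ?_⟩
  have h3 := hh h hle
  have hc : 0 ≤ |c| := abs_nonneg c
  rw [div_lt_div_iff₀ (by positivity) (by positivity), one_mul] at h3
  have h4 : c ≤ |c| + 1 := by linarith [le_abs_self c]
  have h5 : (0:ℝ) ≤ (h : ℝ) ^ k := by positivity
  nlinarith

theorem ev_exp (A c₁ η : ℝ) (hc : 0 < c₁) (hη : 0 < η) (m : ℕ) :
    ∃ u₀ : ℝ, 0 ≤ u₀ ∧ ∀ u ≥ u₀, A * u ^ m * Real.exp (-(c₁ * u)) < η := by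
  have h1 := (Real.tendsto_pow_mul_exp_neg_atTop_nhds_zero m).comp
    (Filter.Tendsto.const_mul_atTop hc tendsto_id)
  have h2 : Tendsto (fun u : ℝ => A / c₁ ^ m * ((c₁ * u) ^ m * Real.exp (-(c₁ * u)))) atTop
      (𝓝 (A / c₁ ^ m * 0)) := h1.const_mul _
  rw [mul_zero] at h2
  have h3 : ∀ᶠ u : ℝ in atTop, A / c₁ ^ m * ((c₁ * u) ^ m * Real.exp (-(c₁ * u))) < η :=
    (tendsto_order.1 h2).2 _ hη
  obtain ⟨u₀, hu⟩ := eventually_atTop.1 h3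
  refine ⟨max u₀ 0, le_max_right _ _, fun u hle => ?_⟩
  have h4 := hu u (le_trans (le_max_left _ _) hle)
  have h5 : A / c₁ ^ m * ((c₁ * u) ^ m * Real.exp (-(c₁ * u))) =
      A * u ^ m * Real.exp (-(c₁ * u)) := by
    rw [mul_pow]
    field_simp
  rwa [h5] at h4

/-- the exponential beats the polynomial factor -/
theorem ev_E8 (δ C₁ c₀ D Q : ℝ) (hδ : 0 < δ) (hC₁ : 0 < C₁) (hc₀ : 0 < c₀) (hD : 1 ≤ D) (hQ : 0 < Q)
    (k : ℕ) :
    ∃ u₀ : ℝ, 0 ≤ u₀ ∧ ∀ (u H : ℝ) (M R : ℕ), u₀ ≤ u → 1 ≤ u → u ^ 5 = H → H < ((M : ℝ) + 1) ^ 2 →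
      0 < R → (R : ℝ) ≤ 5 * D * u →
      3 * δ * C₁ * H ^ (2 * k + 2) * Real.exp (-((⌊c₀ * M⌋₊ : ℕ) : ℝ) / (2 * R)) <
        1 / (16 * Q) := by
  obtain ⟨u₀, hu₀, hev⟩ := ev_exp (3 * δ * C₁ * Real.exp ((c₀ + 1) / (10 * D))) (c₀ / (10 * D))
    (1 / (16 * Q)) (by positivity) (by positivity) (10 * k + 10)
  refine ⟨u₀, hu₀, fun u H M R hu hu1 huH hHM hR hRle => ?_⟩
  have hu0 : 0 < u := by linarith
  have hM0 : (0:ℝ) ≤ M := Nat.cast_nonneg _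
  have hMu : u ^ 2 ≤ M + 1 := by
    by_contra hlt
    push Not at hlt
    have h1 : ((M : ℝ) + 1) ^ 2 < (u ^ 2) ^ 2 := by
      apply pow_lt_pow_left₀ hlt (by positivity) (by norm_num)
    have h2 : (u ^ 2) ^ 2 ≤ u ^ 5 := by
      rw [← pow_mul]
      exact pow_le_pow_right₀ hu1 (by norm_num)
    linarith
  have hq1 : c₀ * M - 1 ≤ ((⌊c₀ * M⌋₊ : ℕ) : ℝ) := by
    have := Nat.lt_floor_add_one (c₀ * (M : ℝ))
    linarith
  have hq2 : c₀ * u ^ 2 - (c₀ + 1) ≤ ((⌊c₀ * M⌋₊ : ℕ) : ℝ) := by nlinarith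
  have hg0 : (0:ℝ) ≤ ((⌊c₀ * M⌋₊ : ℕ) : ℝ) := Nat.cast_nonneg _
  generalize ((⌊c₀ * M⌋₊ : ℕ) : ℝ) = g at *
  have hR0 : (0:ℝ) < R := by exact_mod_cast hR
  have hkey : c₀ / (10 * D) * u - (c₀ + 1) / (10 * D) ≤ g / (2 * R) := by
    have h1 : g / (10 * D * u) ≤ g / (2 * R) := by
      apply div_le_div_of_nonneg_left hg0 (by positivity)
      linarith
    refine le_trans ?_ h1
    rw [le_div_iff₀ (by positivity)]
    have e1 : (c₀ / (10 * D) * u - (c₀ + 1) / (10 * D)) * (10 * D * u) =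
        c₀ * u ^ 2 - (c₀ + 1) * u := by
      field_simp
    rw [e1]
    nlinarith
  have hexp : Real.exp (-g / (2 * R)) ≤
      Real.exp ((c₀ + 1) / (10 * D)) * Real.exp (-(c₀ / (10 * D) * u)) := by
    rw [← Real.exp_add, Real.exp_le_exp, neg_div]
    linarith
  have hHu : H ^ (2 * k + 2) = u ^ (10 * k + 10) := by
    rw [← huH, ← pow_mul]
    congr 1
    ring
  have hfin := hev u hu
  rw [hHu]
  calc 3 * δ * C₁ * u ^ (10 * k + 10) * Real.exp (-g / (2 * R))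
      ≤ 3 * δ * C₁ * u ^ (10 * k + 10) *
        (Real.exp ((c₀ + 1) / (10 * D)) * Real.exp (-(c₀ / (10 * D) * u))) := by gcongr
    _ = 3 * δ * C₁ * Real.exp ((c₀ + 1) / (10 * D)) * u ^ (10 * k + 10) *
        Real.exp (-(c₀ / (10 * D) * u)) := by ring
    _ < _ := hfin

end Pool.FPP
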