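import Pool.Agent.FPP.LOC3
import Pool.Agent.FPP.LOC4

/-!
Module LOC: the local step.
By contradiction: V = EB(2^{200h}) > ε(...) + n/h^k, so V ≥ n/h^k, EB_l ≤ V/ε, EB_{l0} ≤ V/ε with l = 2^{2h},
l0 = 2^{6h}, L = 2^{200h}. d with d+1 ≥ 2/ε, q = 10(k+1), r = h^{1/10}, t_i = t_0 r^i, t_0^2 = δ V l0/n (δ small
constant depending on ε,k,a,b), lam = small constant, p = lam^3/(4 * 32^d r^2) ~ h^{-1/5}, R odd, C₁/p ≤ R ≤ h,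
W₀ = 2^{6h}, M = floor(sqrt h) (so l0 W₀ R^M ≤ 2^{25h}), x = 12 b d (l+1) ≤ t_0, x ≤ l0.
err_avg with lam_err = 2^{150h}: Err ≤ C n 2^{-25h}. Average high_ineq over u with w = W₀ R^i for each i < M:
avg_u High ≥ c₁ V. (small: t_0^2 * 9(..) ≤ small V; large: t_q^2 = t_0^2 h^{2(k+1)}, so 608.../t_q^2 ≤ small V.)
Sum over i < M: avg_u sum_c Ex [1{t0<inc≤T} richness * inc^2] ≥ M c₁ V; the part with richness < q' := ceil(c₁ε M/2)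
is ≤ (c₁ε M/2) EB_{l0} ≤ c₁ M V/2; so avg_u sum_c Ex[1{t0<inc≤T, richness ≥ q'} inc^2] ≥ c₁V/2; but inc > t0 gives
IsHub (η = sndc), so this is ≤ T^2 * C₁ (n/l0+1+W₀R^M) exp(-q'/(2R)) ≤ 3 C₁ δ V h^{2k+2} exp(-c h^{0.3}) < c₁V/2.
-/

set_option autoImplicit false

noncomputable section

namespace Pool.FPP

open Finset

/-- the scales are fine enough -/
theorem loc_wL (h R M i : ℕ) (hR : 0 < R) (hi : i < M) (hh : 1 ≤ h) (hRM : R ^ M ≤ 2 ^ h) :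
    2 ^ (6 * h) * R ^ i ≤ 2 ^ (7 * h) ∧
      2 * (2 ^ (6 * h) * (2 ^ (6 * h) * R ^ i)) ≤ 2 ^ (200 * h) := by
  have h1 : R ^ i ≤ 2 ^ h := (Nat.pow_le_pow_right hR hi.le).trans hRM
  have h2 : 2 ^ (6 * h) * R ^ i ≤ 2 ^ (7 * h) := by
    calc 2 ^ (6 * h) * R ^ i ≤ 2 ^ (6 * h) * 2 ^ h := Nat.mul_le_mul_left _ h1
      _ = 2 ^ (7 * h) := by rw [← pow_add]; congr 1; ring
  refine ⟨h2, ?_⟩
  calc 2 * (2 ^ (6 * h) * (2 ^ (6 * h) * R ^ i)) ≤ 2 * (2 ^ (6 * h) * 2 ^ (7 * h)) := by gcongr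
    _ = 2 ^ (13 * h + 1) := by rw [← pow_add, pow_succ]; ring_nf
    _ ≤ 2 ^ (200 * h) := Nat.pow_le_pow_right (by norm_num) (by omega)

/-- H1: THE LOCAL STEP -/
theorem local_step (a b : ℝ) (ha : 0 < a) (hab : a < b) (ε : ℝ) (hε : 0 < ε) (k : ℕ) :
    ∃ h₀ : ℕ, ∀ h ≥ h₀, ∀ (N : ℕ) [NeZero N], 2 ^ (200 * h) ∣ N → ∀ v : Vtx N,
      2 ^ (200 * h) ≤ rho 0 v →
      EB a b v (2 ^ (200 * h)) ≤
        ε * (EB a b v (2 ^ (2 * h)) + EB a b v (2 ^ (6 * h))) + (rho 0 v : ℝ) / (h : ℝ) ^ k := by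
  have hb : 0 < b := ha.trans hab
  have hba : 0 < b - a := by linarith
  obtain ⟨C₁, hC₁, hrich⟩ := rich_hubs a b ha hab
  obtain ⟨e, he⟩ : ∃ e, e = min ε 1 := ⟨_, rfl⟩
  have he0 : 0 < e := by rw [he]; exact lt_min hε one_pos
  have he1 : e ≤ 1 := by rw [he]; exact min_le_right _ _
  have heε : e ≤ ε := by rw [he]; exact min_le_left _ _
  obtain ⟨q, hq⟩ : ∃ q : ℕ, q = 10 * (k + 1) := ⟨_, rfl⟩
  obtain ⟨Q, hQ⟩ : ∃ Q : ℝ, Q = 2 * ((q : ℝ) + 3) := ⟨_, rfl⟩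
  have hq0 : (0:ℝ) ≤ q := Nat.cast_nonneg _
  have hQ6 : 6 ≤ Q := by rw [hQ]; linarith
  have hQ0 : 0 < Q := by linarith
  obtain ⟨d, hd⟩ : ∃ d : ℕ, d = ⌈2 / e⌉₊ := ⟨_, rfl⟩
  have hd' : 2 / e ≤ d := by rw [hd]; exact Nat.le_ceil _
  obtain ⟨lam, hlam⟩ : ∃ lam : ℝ, lam = e / (32 * Q) := ⟨_, rfl⟩
  have hlam0 : 0 < lam := by rw [hlam]; positivity
  have hlam1 : lam ≤ 1 := by
    rw [hlam, div_le_one (by positivity)]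
    linarith
  obtain ⟨δ, hδ⟩ : ∃ δ : ℝ, δ = 1 / (288 * Q * (b / a + 1)) := ⟨_, rfl⟩
  have hba1 : 0 < b / a + 1 := by positivity
  have hδ0 : 0 < δ := by rw [hδ]; positivity
  obtain ⟨K, hK⟩ : ∃ K : ℝ, K = 4 * 32 ^ d := ⟨_, rfl⟩
  have hK1 : 1 ≤ K := by
    rw [hK]
    have : (1:ℝ) ≤ 32 ^ d := one_le_pow₀ (by norm_num)
    linarith
  obtain ⟨D, hD⟩ : ∃ D : ℝ, D = C₁ * K / lam ^ 3 := ⟨_, rfl⟩
  have hlam3 : lam ^ 3 ≤ 1 := pow_le_one₀ hlam0.le hlam1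
  have hlam30 : 0 < lam ^ 3 := by positivity
  have hD1 : 1 ≤ D := by
    rw [hD, le_div_iff₀ hlam30]
    nlinarith
  have hD0 : 0 < D := by linarith
  obtain ⟨Ce, hCe⟩ : ∃ Ce : ℝ, Ce = 50 * (b ^ 2 / a) + 8 * b + 1300 * (b - a) ^ 4 * (b / a) ^ 2 :=
    ⟨_, rfl⟩
  have hCe0 : 0 ≤ Ce := by rw [hCe]; positivity
  obtain ⟨c₀, hc₀⟩ : ∃ c₀ : ℝ, c₀ = e / (16 * Q) := ⟨_, rfl⟩
  have hc₀0 : 0 < c₀ := by rw [hc₀]; positivity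
  obtain ⟨h₁, ev1⟩ := ev_pow k (32 * Ce)
  obtain ⟨h₂, ev2⟩ := ev_pow k ((24 * b * d) ^ 2 / δ)
  obtain ⟨h₃, ev3⟩ := ev_pow 0 (24 * b * d)
  obtain ⟨h₄, ev4⟩ := ev_pow 1 D
  obtain ⟨s₀, ev5⟩ := ev_pow 2 (20 * D)
  obtain ⟨u₀, hu₀, ev6⟩ := ev_E8 δ C₁ c₀ D Q hδ0 (by linarith) hc₀0 hD1 hQ0 k
  obtain ⟨h₇, hh₇⟩ : ∃ h₇ : ℕ, h₇ = ⌈32 * (Q * (608 * (b - a) ^ 4 * (b / a) ^ 2 / δ))⌉₊ := ⟨_, rfl⟩
  obtain ⟨h₈, hh₈⟩ : ∃ h₈ : ℕ, h₈ = ⌈u₀ ^ 5⌉₊ := ⟨_, rfl⟩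
  refine ⟨1 + h₁ + h₂ + h₃ + h₄ + s₀ ^ 2 + h₇ + h₈, fun h hh N _ hLN v hn => ?_⟩
  have s₀2 : 0 ≤ s₀ ^ 2 := Nat.zero_le _
  have hh1 : 1 ≤ h := by linarith
  have hhh₁ : h₁ ≤ h := by linarith
  have hhh₂ : h₂ ≤ h := by linarith
  have hhh₃ : h₃ ≤ h := by linarith
  have hhh₄ : h₄ ≤ h := by linarith
  have hhs₀ : s₀ ^ 2 ≤ h := by linarith
  have hhh₇ : h₇ ≤ h := by linarith
  have hhh₈ : h₈ ≤ h := by linarith
  obtain ⟨H, hH⟩ : ∃ H : ℝ, H = (h : ℝ) := ⟨_, rfl⟩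
  have hH1 : 1 ≤ H := by rw [hH]; exact_mod_cast hh1
  have hH0 : 0 < H := by linarith
  obtain ⟨r, hr⟩ : ∃ r : ℝ, r = H ^ ((1:ℝ) / 10) := ⟨_, rfl⟩
  have hr1 : 1 ≤ r := by rw [hr]; exact Real.one_le_rpow hH1 (by norm_num)
  have hr10 : r ^ 10 = H := by
    rw [hr, ← Real.rpow_natCast, ← Real.rpow_mul hH0.le]
    norm_num
  have hrq : r ^ q = H ^ (k + 1) := by rw [hq, pow_mul, hr10]
  obtain ⟨u, hu⟩ : ∃ u : ℝ, u = r ^ 2 := ⟨_, rfl⟩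
  have hu1 : 1 ≤ u := by rw [hu]; exact one_le_pow₀ hr1
  have hu0 : 0 < u := by linarith
  have hu5 : u ^ 5 = H := by rw [hu, ← pow_mul]; exact hr10
  have huH : u ≤ H := by
    rw [← hu5]
    calc u = u ^ 1 := (pow_one u).symm
      _ ≤ u ^ 5 := pow_le_pow_right₀ hu1 (by norm_num)
  have huu₀ : u₀ ≤ u := by
    have h1 : u₀ ^ 5 ≤ u ^ 5 := by
      rw [hu5, hH]
      refine le_trans (Nat.le_ceil _) ?_
      rw [← hh₈]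
      exact_mod_cast hhh₈
    exact le_of_pow_le_pow_left₀ (by norm_num) hu0.le h1
  obtain ⟨p, hp⟩ : ∃ p : ℝ, p = lam ^ 3 / (K * u) := ⟨_, rfl⟩
  have hKu : 1 ≤ K * u := by nlinarith
  have hp0 : 0 < p := by rw [hp]; positivity
  have hp1 : p ≤ 1 := by
    rw [hp, div_le_one (by linarith)]
    linarith
  have hCp : C₁ / p = D * u := by
    rw [hp, hD]
    field_simp
  obtain ⟨R, hR⟩ : ∃ R : ℕ, R = 2 * ⌈D * u⌉₊ + 1 := ⟨_, rfl⟩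
  have hDu1 : 1 ≤ D * u := by nlinarith
  have hRge : C₁ / p ≤ R := by
    rw [hCp, hR]
    push_cast
    have := Nat.le_ceil (D * u)
    linarith
  have hRle : (R : ℝ) ≤ 5 * D * u := by
    rw [hR]
    push_cast
    have := Nat.ceil_lt_add_one (a := D * u) (by linarith)
    linarith
  have hRodd : Odd R := ⟨_, hR⟩
  have hR0 : 0 < R := by rw [hR]; exact Nat.succ_pos _
  obtain ⟨M, hM⟩ : ∃ M : ℕ, M = Nat.sqrt h := ⟨_, rfl⟩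
  have hMs₀ : s₀ ≤ M := by rw [hM, Nat.le_sqrt']; exact hhs₀
  have hM1 : 1 ≤ M := by rw [hM, Nat.le_sqrt']; simpa using hh1
  have hM1' : (1:ℝ) ≤ M := by exact_mod_cast hM1
  have hMh : M ^ 2 ≤ h := by rw [hM]; exact Nat.sqrt_le' h
  have hHM : H < ((M : ℝ) + 1) ^ 2 := by
    have := Nat.lt_succ_sqrt' h
    rw [← hM] at this
    rw [hH]
    exact_mod_cast this
  have hRM : R ^ M ≤ 2 ^ h := by
    have h1 : (R : ℝ) ≤ 2 ^ M := by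
      calc (R : ℝ) ≤ 5 * D * u := hRle
        _ ≤ 5 * D * H := by gcongr
        _ ≤ 5 * D * ((M : ℝ) + 1) ^ 2 := by gcongr
        _ ≤ 5 * D * ((M : ℝ) + M) ^ 2 := by gcongr
        _ = 20 * D * (M : ℝ) ^ 2 := by ring
        _ ≤ 2 ^ M := ev5 M hMs₀
    have h2 : R ≤ 2 ^ M := by exact_mod_cast h1
    calc R ^ M ≤ (2 ^ M) ^ M := Nat.pow_le_pow_left h2 M
      _ = 2 ^ (M ^ 2) := by rw [← pow_mul, sq]
      _ ≤ 2 ^ h := Nat.pow_le_pow_right (by norm_num) hMh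
  obtain ⟨y, hy⟩ : ∃ y : ℝ, y = 2 ^ h := ⟨_, rfl⟩
  have hy1 : 1 ≤ y := by rw [hy]; exact one_le_pow₀ (by norm_num)
  have hRMy : (R : ℝ) ^ M ≤ y := by rw [hy]; exact_mod_cast hRM
  have cl : ((2 ^ (2 * h) : ℕ) : ℝ) = y ^ 2 := by
    rw [hy, ← pow_mul, mul_comm h 2]; push_cast; rfl
  have cl0 : ((2 ^ (6 * h) : ℕ) : ℝ) = y ^ 6 := by
    rw [hy, ← pow_mul, mul_comm h 6]; push_cast; rfl
  have cL : ((2 ^ (200 * h) : ℕ) : ℝ) = y ^ 200 := by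
    rw [hy, ← pow_mul, mul_comm h 200]; push_cast; rfl
  have hyn : y ^ 13 ≤ (rho 0 v : ℝ) := by
    have h1 : y ^ 200 ≤ (rho 0 v : ℝ) := by rw [← cL]; exact_mod_cast hn
    exact le_trans (pow_le_pow_right₀ hy1 (by norm_num)) h1
  have hd1 : 2 ^ (2 * h) ∣ 2 ^ (6 * h) := pow_dvd_pow 2 (Nat.mul_le_mul_right h (by norm_num))
  have hd2 : 2 ^ (6 * h) ∣ 2 ^ (200 * h) := pow_dvd_pow 2 (Nat.mul_le_mul_right h (by norm_num))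
  have hDH : D * H ≤ y := by
    have := ev4 h hhh₄
    rw [pow_one, ← hH, ← hy] at this
    exact this
  have hW₀ : C₁ / p ≤ ((2 ^ (6 * h) : ℕ) : ℝ) := by
    rw [cl0, hCp]
    calc D * u ≤ D * H := by gcongr
      _ ≤ y := hDH
      _ = y ^ 1 := (pow_one y).symm
      _ ≤ y ^ 6 := pow_le_pow_right₀ hy1 (by norm_num)
  have herr : ∀ i < M, Ex (fun u : Vtx N => Err a b v u (2 ^ (6 * h)) (2 ^ (6 * h) * R ^ i)
      (2 ^ (200 * h))) ≤ Ce * (rho 0 v : ℝ) / y := by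
    intro i hi
    have h1 := loc_err (N := N) ha hab h hLN hh1 v hn (2 ^ (6 * h) * R ^ i)
      (Nat.mul_pos (Nat.pow_pos (by norm_num)) (Nat.pow_pos hR0)) (loc_wL h R M i hR0 hi hh1 hRM).1
    rw [hy, hCe]
    exact h1
  have E2 : Q * (608 * (b - a) ^ 4 * (b / a) ^ 2 / (δ * H ^ 2)) ≤ 1 / 32 := by
    have h1 : 32 * (Q * (608 * (b - a) ^ 4 * (b / a) ^ 2 / δ)) ≤ H := by
      rw [hH]
      refine le_trans (Nat.le_ceil _) ?_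
      rw [← hh₇]
      exact_mod_cast hhh₇
    have h2 : Q * (608 * (b - a) ^ 4 * (b / a) ^ 2 / (δ * H ^ 2)) =
        (32 * (Q * (608 * (b - a) ^ 4 * (b / a) ^ 2 / δ))) / (32 * H ^ 2) := by
      field_simp
    rw [h2, div_le_div_iff₀ (by positivity) (by norm_num)]
    nlinarith
  have E3 : 32 * Ce * H ^ k ≤ y := by
    have := ev1 h hhh₁
    rw [← hH, ← hy] at this
    exact this
  have E4 : (24 * b * d) ^ 2 * H ^ k ≤ δ * y ^ 2 := by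
    have h1 := ev2 h hhh₂
    rw [← hH, ← hy] at h1
    have h2 : y ≤ y ^ 2 := by nlinarith
    calc (24 * b * d) ^ 2 * H ^ k = δ * ((24 * b * d) ^ 2 / δ * H ^ k) := by field_simp
      _ ≤ δ * y := by gcongr
      _ ≤ δ * y ^ 2 := by gcongr
  have E5 : 24 * b * d ≤ y ^ 4 := by
    have h1 := ev3 h hhh₃
    rw [pow_zero, mul_one, ← hy] at h1
    calc 24 * b * d ≤ y := h1
      _ = y ^ 1 := (pow_one y).symm
      _ ≤ y ^ 4 := pow_le_pow_right₀ hy1 (by norm_num)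
  have hq' : ((⌊c₀ * M⌋₊ : ℕ) : ℝ) ≤ e * M / (16 * Q) := by
    have h1 : ((⌊c₀ * M⌋₊ : ℕ) : ℝ) ≤ c₀ * M := Nat.floor_le (by positivity)
    have h2 : c₀ * M = e * M / (16 * Q) := by rw [hc₀]; ring
    linarith
  have E8 := ev6 u H M R huu₀ hu1 hu5 hHM hR0 hRle
  have hδQ : Q * (9 * δ * (b / a + 1)) ≤ 1 / 32 := by
    rw [hδ]
    apply le_of_eq
    field_simp
    norm_num
  have hlamQ : Q * lam ≤ e / 32 := by
    rw [hlam]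
    apply le_of_eq
    field_simp
  have hlam3' : 32 ^ d * r ^ 2 * (4 * p) ≤ lam ^ 3 := by
    rw [← hu, hp, hK]
    apply le_of_eq
    field_simp
  have key := loc_core (N := N) ha hab C₁ hC₁ (fun v u l₀ h0 h0N t₀ x p hx0 hxt hxl hp hp1 R hRodd hR
      W₀ hW₀ M q ω => hrich N v u l₀ h0 h0N t₀ x p hx0 hxt hxl hp hp1 R hRodd hR W₀ hW₀ M q ω)
    e he0 k v (2 ^ (2 * h)) (2 ^ (6 * h)) (2 ^ (200 * h)) y H hy1 hH1 cl cl0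
    (Nat.pow_pos (by norm_num)) (Nat.pow_pos (by norm_num)) (Nat.pow_pos (by norm_num)) hd1 hd2 hLN
    Ce hCe0 (rho 0 v : ℝ) rfl hyn δ p r lam Q d q R M ⌊c₀ * M⌋₊ hQ hd' hδ0 hδQ hlam0.le hlamQ hr1 hrq
    hp0 hp1 hlam3' hRodd hRge hW₀ (fun i hi => (loc_wL h R M i hR0 hi hh1 hRM).2) herr hRMy E2 E3 E4 E5
    hq' hM1 E8
  rw [← hH]
  refine key.trans ?_
  have h1 : 0 ≤ EB a b v (2 ^ (2 * h)) + EB a b v (2 ^ (6 * h)) :=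
    add_nonneg (EB_nonneg _ _) (EB_nonneg _ _)
  have h2 := mul_le_mul_of_nonneg_right heε h1
  linarith

end Pool.FPP
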