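import Pool.Agent.FPP.TREE
import Pool.Agent.FPP.GAP

/-!
Module POR: the abstract porosity count.
gap_lemma at the scales W_k = W₀ R^k. Level k cells: length L_k = L_0 R^k, L_0 = (c/2) p W₀ ≥ 1 (c of the gap
lemma): an interval (τ - c p W_k, τ + c p W_k) contains a whole cell of level k of every grid; the gap and T h0
lie in one cell of level k+1 of the grid {j L} or of the half shifted grid {(j - 1/2) L} since
L_{k+1} = R L_k ≥ 2 * (2 (2β + c) W_k). Cells: c k h = ⌊T h / L_k⌋, s = 0, or c k h = ⌊T h / L_k + 1/2⌋,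
s = (R-1)/2 (R odd: nested). Each rich hub has ≥ q/2 porous levels in one of the two grids; apply tree_count
to the two classes P (P = rich hubs of the class; emptiness with respect to all hubs implies emptiness with
respect to P), with ⌈q/2⌉. A level 0 cell contains at most C(L_0+1) hubs: hubs with times in one unit interval are at
ρ-distance ≤ (1+γ)/α, so at most (A((1+γ)/α+1))^2 of them. Number of top cells ≤ X/L_M + 2.
(The hypothesis `0 ≤ X` is needed when there is no hub.)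
-/

set_option autoImplicit false

noncomputable section

namespace Pool.FPP

open Finset

private theorem por_parent (x σ : ℝ) (R : ℕ) (hR : 1 ≤ R) (s : ℤ)
    (hs : (s : ℝ) = σ * ((R : ℝ) - 1)) : (⌊x + σ⌋ + s) / (R : ℤ) = ⌊x / R + σ⌋ := by
  have hR0 : (R : ℝ) ≠ 0 := by positivity
  rw [← Int.floor_add_intCast, ← Int.floor_div_natCast]
  congr 1
  rw [hs]
  field_simp
  ring

/-- two near numbers are in a common cell of one of the two grids -/
private theorem por_two (x y : ℝ) (h : |x - y| ≤ 1 / 2) :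
    ⌊x + 0⌋ = ⌊y + 0⌋ ∨ ⌊x + 1 / 2⌋ = ⌊y + 1 / 2⌋ := by
  by_contra hcon
  push Not at hcon
  obtain ⟨h1, h2⟩ := hcon
  rw [add_zero, add_zero] at h1
  have hab := abs_le.1 h
  have f1 := Int.floor_le x
  have f2 := Int.lt_floor_add_one x
  have f3 := Int.floor_le y
  have f4 := Int.lt_floor_add_one y
  have g1 := Int.floor_le (x + 1 / 2)
  have g2 := Int.lt_floor_add_one (x + 1 / 2)
  have g3 := Int.floor_le (y + 1 / 2)
  have g4 := Int.lt_floor_add_one (y + 1 / 2)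
  rcases lt_or_gt_of_ne h1 with a1 | a1 <;> rcases lt_or_gt_of_ne h2 with a2 | a2
  · have b1 : ((⌊x⌋ : ℤ) : ℝ) + 1 ≤ ⌊y⌋ := by exact_mod_cast a1
    have b2 : ((⌊x + 1 / 2⌋ : ℤ) : ℝ) + 1 ≤ ⌊y + 1 / 2⌋ := by exact_mod_cast a2
    -- both `⌊y⌋` and `⌊y+1/2⌋ - 1/2` are in `(x, y]`
    have c1 : ⌊y⌋ ≤ ⌊y + 1 / 2⌋ := Int.floor_le_floor (by linarith)
    rcases lt_or_eq_of_le c1 with d | d
    · have e : ((⌊y⌋ : ℤ) : ℝ) + 1 ≤ ⌊y + 1 / 2⌋ := by exact_mod_cast d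
      linarith
    · have e : ((⌊y⌋ : ℤ) : ℝ) = ⌊y + 1 / 2⌋ := by exact_mod_cast d
      linarith
  · have b1 : ((⌊x⌋ : ℤ) : ℝ) + 1 ≤ ⌊y⌋ := by exact_mod_cast a1
    have b2 : ((⌊y + 1 / 2⌋ : ℤ) : ℝ) + 1 ≤ ⌊x + 1 / 2⌋ := by exact_mod_cast a2
    linarith
  · have b1 : ((⌊y⌋ : ℤ) : ℝ) + 1 ≤ ⌊x⌋ := by exact_mod_cast a1
    have b2 : ((⌊x + 1 / 2⌋ : ℤ) : ℝ) + 1 ≤ ⌊y + 1 / 2⌋ := by exact_mod_cast a2
    linarith
  · have b1 : ((⌊y⌋ : ℤ) : ℝ) + 1 ≤ ⌊x⌋ := by exact_mod_cast a1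
    have b2 : ((⌊y + 1 / 2⌋ : ℤ) : ℝ) + 1 ≤ ⌊x + 1 / 2⌋ := by exact_mod_cast a2
    have c1 : ⌊x⌋ ≤ ⌊x + 1 / 2⌋ := Int.floor_le_floor (by linarith)
    rcases lt_or_eq_of_le c1 with d | d
    · have e : ((⌊x⌋ : ℤ) : ℝ) + 1 ≤ ⌊x + 1 / 2⌋ := by exact_mod_cast d
      linarith
    · have e : ((⌊x⌋ : ℤ) : ℝ) = ⌊x + 1 / 2⌋ := by exact_mod_cast d
      linarith

open Classical in
/-- at most `B (L + 1)` hubs have their times in an interval of length `L` -/
private theorem por_fiber {𝕋 : Type} (F : Finset 𝕋) (T : 𝕋 → ℝ) (B L a : ℝ) (hL : 0 ≤ L)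
    (hB : ∀ G ⊆ F, (∀ x ∈ G, ∀ y ∈ G, |T x - T y| ≤ 1) → (G.card : ℝ) ≤ B)
    (hF : ∀ h ∈ F, a ≤ T h ∧ T h < a + L) : (F.card : ℝ) ≤ B * (L + 1) := by
  have hB0 : 0 ≤ B := by
    have := hB ∅ (Finset.empty_subset _) (by simp)
    simpa using this
  have h1 : F.card = ∑ u ∈ range ⌈L⌉₊, (F.filter (fun h => ⌊T h - a⌋₊ = u)).card := by
    refine Finset.card_eq_sum_card_fiberwise fun h hh => ?_
    have h2 := hF h hh
    have h3 : 0 ≤ T h - a := by linarith [h2.1]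
    rw [Finset.coe_range, Set.mem_Iio, Nat.floor_lt h3]
    exact lt_of_lt_of_le (by linarith [h2.2]) (Nat.le_ceil L)
  rw [h1]
  push_cast
  have h2 : ∀ u ∈ range ⌈L⌉₊, ((F.filter (fun h => ⌊T h - a⌋₊ = u)).card : ℝ) ≤ B := by
    intro u _
    refine hB _ (Finset.filter_subset _ _) fun x hx y hy => ?_
    rw [Finset.mem_filter] at hx hy
    have x0 : 0 ≤ T x - a := by linarith [(hF x hx.1).1]
    have y0 : 0 ≤ T y - a := by linarith [(hF y hy.1).1]
    have x1 := Nat.floor_le x0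
    have x2 := Nat.lt_floor_add_one (T x - a)
    have y1 := Nat.floor_le y0
    have y2 := Nat.lt_floor_add_one (T y - a)
    rw [hx.2] at x1 x2
    rw [hy.2] at y1 y2
    rw [abs_le]
    constructor <;> linarith
  refine (Finset.sum_le_sum h2).trans ?_
  rw [Finset.sum_const, Finset.card_range, nsmul_eq_mul, mul_comm]
  refine mul_le_mul_of_nonneg_left ?_ hB0
  exact (Nat.ceil_lt_add_one hL).le

open Classical in
/-- the count for one class -/
private theorem por_class {𝕋 : Type} (P : Finset 𝕋) (T : 𝕋 → ℝ) (B L X σ : ℝ) (R M q : ℕ) (s : ℤ)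
    (hR : 2 ≤ R) (hL : 1 ≤ L) (hX : 0 ≤ X) (hσ : 0 ≤ σ) (hσ1 : σ ≤ 1 / 2)
    (hs : (s : ℝ) = σ * ((R : ℝ) - 1))
    (hB : ∀ G ⊆ P, (∀ x ∈ G, ∀ y ∈ G, |T x - T y| ≤ 1) → (G.card : ℝ) ≤ B)
    (hP : ∀ h ∈ P, 0 ≤ T h ∧ T h ≤ X)
    (hq : ∀ x ∈ P, q ≤ ((range M).filter (fun k =>
      ∃ e : ℤ, (e + s) / (R : ℤ) = ⌊T x / (L * R ^ (k + 1)) + σ⌋ ∧
        ∀ y ∈ P, ⌊T y / (L * R ^ k) + σ⌋ ≠ e)).card) :
    (P.card : ℝ) ≤ 2 * B * (X + 2 * (L * R ^ M)) * Real.exp (-(q : ℝ) / R) := by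
  have hB0 : 0 ≤ B := by
    have := hB ∅ (Finset.empty_subset _) (by simp)
    simpa using this
  have hL0 : 0 < L := by linarith
  have hRr : (0 : ℝ) < R := by positivity
  have hLM : 0 < L * (R : ℝ) ^ M := by positivity
  have htree := tree_count P R M hR s (fun k x => ⌊T x / (L * R ^ k) + σ⌋) ?_ q
    (Finset.Icc 0 ⌊X / (L * R ^ M) + 1⌋) ?_ hq
  · -- fibers
    have h1 : P.card = ∑ e ∈ P.image (fun x => ⌊T x / (L * (R : ℝ) ^ 0) + σ⌋),
        (P.filter (fun x => ⌊T x / (L * (R : ℝ) ^ 0) + σ⌋ = e)).card :=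
      Finset.card_eq_sum_card_image _ _
    have h2 : ∀ e ∈ P.image (fun x => ⌊T x / (L * (R : ℝ) ^ 0) + σ⌋),
        ((P.filter (fun x => ⌊T x / (L * (R : ℝ) ^ 0) + σ⌋ = e)).card : ℝ) ≤ B * (L + 1) := by
      intro e _
      refine por_fiber _ T B L (((e : ℝ) - σ) * L) hL0.le
        (fun G hG => hB G (hG.trans (Finset.filter_subset _ _))) fun h hh => ?_
      rw [Finset.mem_filter, pow_zero, mul_one] at hh
      have h3 := Int.floor_le (T h / L + σ)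
      have h4 := Int.lt_floor_add_one (T h / L + σ)
      rw [hh.2] at h3 h4
      constructor
      · have : ((e : ℝ) - σ) ≤ T h / L := by linarith
        rwa [le_div_iff₀ hL0] at this
      · have : T h / L < (e : ℝ) - σ + 1 := by linarith
        rw [div_lt_iff₀ hL0] at this
        linarith
    have h3 : (P.card : ℝ) ≤
        ((P.image (fun x => ⌊T x / (L * (R : ℝ) ^ 0) + σ⌋)).card : ℝ) * (B * (L + 1)) := by
      rw [h1]
      push_cast
      refine (Finset.sum_le_sum h2).trans ?_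
      rw [Finset.sum_const, nsmul_eq_mul]
    have h4 : (((Finset.Icc 0 ⌊X / (L * (R : ℝ) ^ M) + 1⌋).card : ℕ) : ℝ) ≤
        X / (L * R ^ M) + 2 := by
      have h5 : 0 ≤ X / (L * (R : ℝ) ^ M) := by positivity
      have h6 : 0 ≤ ⌊X / (L * (R : ℝ) ^ M) + 1⌋ := Int.floor_nonneg.2 (by linarith)
      rw [Int.card_Icc, sub_zero]
      have h7 : (((⌊X / (L * (R : ℝ) ^ M) + 1⌋ + 1).toNat : ℕ) : ℤ) =
          ⌊X / (L * (R : ℝ) ^ M) + 1⌋ + 1 := Int.toNat_of_nonneg (by omega)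
      have h8 : (((⌊X / (L * (R : ℝ) ^ M) + 1⌋ + 1).toNat : ℕ) : ℝ) =
          (⌊X / (L * (R : ℝ) ^ M) + 1⌋ : ℝ) + 1 := by exact_mod_cast h7
      rw [h8]
      have h9 := Int.floor_le (X / (L * (R : ℝ) ^ M) + 1)
      linarith
    have hexp : 0 < Real.exp (-(q : ℝ) / R) := Real.exp_pos _
    calc (P.card : ℝ) ≤ _ := h3
      _ ≤ ((X / (L * R ^ M) + 2) * (R : ℝ) ^ M * Real.exp (-(q : ℝ) / R)) * (B * (L + L)) := by
          refine mul_le_mul ?_ ?_ (by positivity) (by positivity)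
          · refine htree.trans ?_
            gcongr
          · gcongr
      _ = 2 * B * (X + 2 * (L * R ^ M)) * Real.exp (-(q : ℝ) / R) := by
          field_simp
          ring
  · intro k _ x _
    have h5 := por_parent (T x / (L * R ^ k)) σ R (by omega) s hs
    rw [h5]
    congr 2
    rw [pow_succ]
    field_simp
  · intro x hx
    obtain ⟨h1, h2⟩ := hP x hx
    rw [Finset.mem_Icc]
    constructor
    · exact Int.floor_nonneg.2 (by positivity)
    · refine Int.floor_le_floor ?_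
      have : T x / (L * (R : ℝ) ^ M) ≤ X / (L * (R : ℝ) ^ M) := by gcongr
      linarith

open Classical in
/-- THE ABSTRACT POROSITY COUNT -/
theorem porosity (α β γ A : ℝ) (hα : 0 < α) (hαβ : α ≤ β) (hγ : 0 ≤ γ) (hA : 1 ≤ A) :
    ∃ C₀ : ℝ, 1 ≤ C₀ ∧
      ∀ (𝕋 : Type) (Tile NT Hub : Finset 𝕋), Hub ⊆ NT → NT ⊆ Tile →
        ∀ (T : 𝕋 → ℝ) (ρ : 𝕋 → 𝕋 → ℝ), (∀ x, ρ x x = 0) → (∀ x y, ρ x y = ρ y x) →
        (∀ x y z, ρ x z ≤ ρ x y + ρ y z) →
        (∀ h ∈ Hub, ∀ y ∈ NT, α * ρ h y - γ ≤ |T h - T y|) →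
        (∀ x ∈ Tile, ∀ y ∈ Tile, |T x - T y| ≤ β * ρ x y) →
        (∀ x ∈ Tile, ∀ r : ℝ, 0 ≤ r →
          ((Tile.filter (fun y => ρ x y ≤ r)).card : ℝ) ≤ (A * (r + 1)) ^ 2) →
        ∀ X : ℝ, 0 ≤ X → (∀ h ∈ Hub, 0 ≤ T h ∧ T h ≤ X) →
        ∀ p : ℝ, 0 < p → p ≤ 1 → ∀ R : ℕ, Odd R → C₀ / p ≤ R →
        ∀ W₀ : ℕ, C₀ / p ≤ W₀ → ∀ (M q : ℕ) (win : ℕ → 𝕋 → 𝕋 → Prop),
        (∀ W x y, win W x y → ρ x y ≤ 2 * W) →
        (((Hub.filter (fun h => q ≤ ((range M).filter (fun k =>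
            p * ((W₀ * R ^ k : ℕ) : ℝ) ^ 2 <
              ((NT.filter (fun y => win (W₀ * R ^ k) h y)).card : ℝ))).card)).card : ℝ) ≤
          C₀ * (X + W₀ * (R : ℝ) ^ M) * Real.exp (-(q : ℝ) / (2 * R))) := by
  obtain ⟨c, C₁, hc, hC₁, hgap⟩ := gap_lemma α β γ A hα hαβ hγ hA
  have hβ : 0 < β := by linarith
  set B : ℝ := (A * ((1 + γ) / α + 1)) ^ 2 with hBdef
  have hB0 : 0 ≤ B := by positivity
  refine ⟨2 + C₁ + 2 / c + 16 * β / c + 4 * B * (1 + c), ?_, ?_⟩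
  · have : 0 ≤ 2 / c + 16 * β / c + 4 * B * (1 + c) := by positivity
    linarith
  intro 𝕋 Tile NT Hub hHN hNT T ρ hρ0 hρs hρt hhub hlip hball X hX hTX p hp hp1 R hRodd hR W₀ hW M q
    win hwin
  set C₀ : ℝ := 2 + C₁ + 2 / c + 16 * β / c + 4 * B * (1 + c) with hC₀
  have hd1 : 0 < 2 / c := by positivity
  have hd2 : 0 < 16 * β / c := by positivity
  have hd3 : 0 ≤ 4 * B * (1 + c) := by positivity
  have hC2 : 2 ≤ C₀ := by linarith
  have hCp : C₀ ≤ C₀ / p := by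
    rw [le_div_iff₀ hp]
    nlinarith
  have hRr : C₀ ≤ (R : ℝ) := hCp.trans hR
  have hR2 : 2 ≤ R := by
    have : (2 : ℝ) ≤ R := by linarith
    exact_mod_cast this
  have hWr : C₀ ≤ (W₀ : ℝ) := hCp.trans hW
  have hpW : C₀ ≤ p * W₀ := by
    rw [div_le_iff₀ hp] at hW
    linarith
  have hpR : C₀ ≤ p * R := by
    rw [div_le_iff₀ hp] at hR
    linarith
  set L : ℝ := c / 2 * p * W₀ with hLdef
  have hL1 : 1 ≤ L := by
    have h1 : c / 2 * C₀ ≤ c / 2 * (p * W₀) := by gcongr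
    have h2 : c / 2 * (2 / c) = 1 := by field_simp
    have h3 : c / 2 * (2 / c) ≤ c / 2 * C₀ := by
      gcongr
      linarith
    rw [hLdef]
    linarith
  have hL0 : 0 < L := by linarith
  -- the rich hubs
  set P : Finset 𝕋 := Hub.filter (fun h => q ≤ ((range M).filter (fun k =>
            p * ((W₀ * R ^ k : ℕ) : ℝ) ^ 2 <
              ((NT.filter (fun y => win (W₀ * R ^ k) h y)).card : ℝ))).card) with hP
  -- porous levels
  set por : ℝ → ℤ → 𝕋 → ℕ → Prop := fun σ s x k =>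
    ∃ e : ℤ, (e + s) / (R : ℤ) = ⌊T x / (L * R ^ (k + 1)) + σ⌋ ∧
        ∀ y ∈ Hub, ⌊T y / (L * R ^ k) + σ⌋ ≠ e with hpor
  obtain ⟨r, hr⟩ := hRodd
  have hs0 : (((0 : ℤ) : ℝ)) = 0 * ((R : ℝ) - 1) := by simp
  have hs1 : (((r : ℤ) : ℝ)) = 1 / 2 * ((R : ℝ) - 1) := by
    rw [hr]
    push_cast
    ring
  -- every rich level is porous in one of the grids
  have hrich : ∀ h ∈ Hub, ∀ k, p * ((W₀ * R ^ k : ℕ) : ℝ) ^ 2 <
      ((NT.filter (fun y => win (W₀ * R ^ k) h y)).card : ℝ) →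
      por 0 0 h k ∨ por (1 / 2) r h k := by
    intro h hh k hk
    have hWk : W₀ ≤ W₀ * R ^ k := Nat.le_mul_of_pos_right _ (by positivity)
    have hWk' : (W₀ : ℝ) ≤ ((W₀ * R ^ k : ℕ) : ℝ) := by exact_mod_cast hWk
    obtain ⟨τ, hτ1, hτ2⟩ := hgap 𝕋 Tile NT Hub hHN hNT T ρ hρ0 hρs hρt hhub hlip hball p hp hp1
      (W₀ * R ^ k) (by
        refine le_trans ?_ (hW.trans hWk')
        gcongr
        linarith) h hh (by
        refine lt_of_lt_of_le hk ?_
        norm_cast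
        refine Finset.card_le_card fun y hy => ?_
        rw [Finset.mem_filter] at hy ⊢
        refine ⟨hy.1, ?_⟩
        have := hwin _ _ _ hy.2
        push_cast at this ⊢
        exact this)
    have hRk : (0 : ℝ) < (R : ℝ) ^ k := by positivity
    have hWkR : ((W₀ * R ^ k : ℕ) : ℝ) = W₀ * (R : ℝ) ^ k := by push_cast; rfl
    rw [hWkR] at hτ1 hτ2
    have hLk : 0 < L * (R : ℝ) ^ k := by positivity
    have hLk1 : 0 < L * (R : ℝ) ^ (k + 1) := by positivity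
    -- the distance in units of the cells of level `k+1`
    have hclose : |T h / (L * R ^ (k + 1)) - τ / (L * R ^ (k + 1))| ≤ 1 / 2 := by
      rw [← sub_div, abs_div, abs_of_pos hLk1, div_le_iff₀ hLk1, abs_sub_comm]
      refine hτ1.trans ?_
      rw [hLdef, pow_succ]
      have e1 : 1 / 2 * (c / 2 * p * W₀ * ((R : ℝ) ^ k * R)) = c / 4 * (p * R) * (W₀ * (R : ℝ) ^ k) := by
        ring
      rw [e1]
      have e2 : 2 * β ≤ c / 4 * (p * R) := by
        have e3 : c / 4 * (16 * β / c) = 4 * β := by field_simp; ring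
        have e4 : c / 4 * (16 * β / c) ≤ c / 4 * C₀ := by
          gcongr
          linarith
        have e5 : c / 4 * C₀ ≤ c / 4 * (p * R) := by gcongr
        linarith
      have e6 : (0 : ℝ) ≤ W₀ * (R : ℝ) ^ k := by positivity
      calc 2 * β * (W₀ * (R : ℝ) ^ k) ≤ c / 4 * (p * R) * (W₀ * (R : ℝ) ^ k) := by gcongr
        _ = _ := rfl
    -- the empty cell
    have hempty : ∀ σ : ℝ, ∀ y ∈ Hub, ⌊T y / (L * R ^ k) + σ⌋ ≠ ⌊τ / (L * R ^ k) + σ⌋ := by
      intro σ y hy heq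
      have h1 := Int.abs_sub_lt_one_of_floor_eq_floor heq
      have h2 : |T y / (L * R ^ k) - τ / (L * R ^ k)| < 1 := by
        have : T y / (L * R ^ k) + σ - (τ / (L * R ^ k) + σ) =
            T y / (L * R ^ k) - τ / (L * R ^ k) := by ring
        rwa [this] at h1
      rw [← sub_div, abs_div, abs_of_pos hLk, div_lt_one hLk] at h2
      have h3 := hτ2 y hy
      have h4 : c * p * (W₀ * (R : ℝ) ^ k) = 2 * (L * R ^ k) := by
        rw [hLdef]
        ring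
      rw [h4] at h3
      linarith
    have hpar : ∀ (σ : ℝ) (s : ℤ), (s : ℝ) = σ * ((R : ℝ) - 1) →
        (⌊τ / (L * R ^ k) + σ⌋ + s) / (R : ℤ) = ⌊τ / (L * R ^ (k + 1)) + σ⌋ := by
      intro σ s hs
      rw [por_parent _ σ R (by omega) s hs]
      congr 2
      rw [pow_succ]
      field_simp
    rcases por_two _ _ hclose with h1 | h1
    · left
      exact ⟨⌊τ / (L * R ^ k) + 0⌋, (hpar 0 0 hs0).trans h1.symm, hempty 0⟩
    · right
      exact ⟨⌊τ / (L * R ^ k) + 1 / 2⌋, (hpar (1 / 2) r hs1).trans h1.symm, hempty (1 / 2)⟩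
  -- the two classes
  set q' : ℕ := (q + 1) / 2 with hq'
  set Pi : ℝ → ℤ → Finset 𝕋 := fun σ s =>
    P.filter (fun h => q' ≤ ((range M).filter (fun k => por σ s h k)).card) with hPi
  have hcover : P ⊆ Pi 0 0 ∪ Pi (1 / 2) r := by
    intro h hh
    have hh' := hh
    rw [hP, Finset.mem_filter] at hh'
    by_contra hcon
    rw [Finset.mem_union, not_or] at hcon
    have h1 : ¬ q' ≤ ((range M).filter (fun k => por 0 0 h k)).card :=
      fun h5 => hcon.1 (Finset.mem_filter.2 ⟨hh, h5⟩)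
    have h2 : ¬ q' ≤ ((range M).filter (fun k => por (1 / 2) r h k)).card :=
      fun h5 => hcon.2 (Finset.mem_filter.2 ⟨hh, h5⟩)
    have h3 : ((range M).filter (fun k =>
            p * ((W₀ * R ^ k : ℕ) : ℝ) ^ 2 <
              ((NT.filter (fun y => win (W₀ * R ^ k) h y)).card : ℝ))).card ≤
        ((range M).filter (fun k => por 0 0 h k)).card +
        ((range M).filter (fun k => por (1 / 2) r h k)).card := by
      refine le_trans (Finset.card_le_card ?_) (Finset.card_union_le _ _)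
      intro k hk
      rw [Finset.mem_filter] at hk
      rw [Finset.mem_union, Finset.mem_filter, Finset.mem_filter]
      rcases hrich h hh'.1 k hk.2 with h4 | h4
      · exact Or.inl ⟨hk.1, h4⟩
      · exact Or.inr ⟨hk.1, h4⟩
    have h4 := hh'.2
    omega
  have hBP : ∀ G ⊆ P, (∀ x ∈ G, ∀ y ∈ G, |T x - T y| ≤ 1) → (G.card : ℝ) ≤ B := by
    intro G hG hG1
    rcases G.eq_empty_or_nonempty with h0 | ⟨x, hx⟩
    · rw [h0]
      simpa using hB0
    · have hxH : x ∈ Hub := (Finset.mem_filter.1 (hG hx)).1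
      refine le_trans ?_ (hball x (hNT (hHN hxH)) ((1 + γ) / α) (by positivity))
      norm_cast
      refine Finset.card_le_card fun y hy => ?_
      have hyH : y ∈ Hub := (Finset.mem_filter.1 (hG hy)).1
      rw [Finset.mem_filter]
      refine ⟨hNT (hHN hyH), ?_⟩
      rw [le_div_iff₀ hα]
      have h1 := hhub x hxH y (hHN hyH)
      have h2 := hG1 x hx y hy
      linarith
  have hclass : ∀ (σ : ℝ) (s : ℤ), 0 ≤ σ → σ ≤ 1 / 2 → (s : ℝ) = σ * ((R : ℝ) - 1) →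
      ((Pi σ s).card : ℝ) ≤ 2 * B * (X + 2 * (L * R ^ M)) * Real.exp (-(q' : ℝ) / R) := by
    intro σ s hσ hσ1 hs
    have hsub : Pi σ s ⊆ P := Finset.filter_subset _ _
    refine por_class (Pi σ s) T B L X σ R M q' s hR2 hL1 hX hσ hσ1 hs
      (fun G hG => hBP G (hG.trans hsub))
      (fun h hh => hTX h (Finset.mem_filter.1 (hsub hh)).1) fun x hx => ?_
    have hx' := (Finset.mem_filter.1 hx).2
    refine hx'.trans (Finset.card_le_card fun k hk => ?_)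
    rw [Finset.mem_filter] at hk ⊢
    obtain ⟨hk1, e, he1, he2⟩ := hk
    exact ⟨hk1, e, he1, fun y hy => he2 y (Finset.mem_filter.1 (hsub hy)).1⟩
  have hc1 := hclass 0 0 le_rfl (by norm_num) hs0
  have hc2 := hclass (1 / 2) r (by norm_num) le_rfl hs1
  have hcard : (P.card : ℝ) ≤ ((Pi 0 0).card : ℝ) + ((Pi (1 / 2) r).card : ℝ) := by
    exact_mod_cast (Finset.card_le_card hcover).trans (Finset.card_union_le _ _)
  have hexp : Real.exp (-(q' : ℝ) / R) ≤ Real.exp (-(q : ℝ) / (2 * R)) := by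
    rw [Real.exp_le_exp, neg_div, neg_div, neg_le_neg_iff]
    have h1 : q ≤ 2 * q' := by omega
    have h2 : (q : ℝ) ≤ 2 * q' := by exact_mod_cast h1
    have hRp : (0 : ℝ) < R := by positivity
    rw [div_le_div_iff₀ (by positivity) hRp]
    nlinarith
  have hLM : 2 * (L * (R : ℝ) ^ M) ≤ c * (W₀ * (R : ℝ) ^ M) := by
    rw [hLdef]
    have h1 : (0 : ℝ) ≤ c * (W₀ * (R : ℝ) ^ M) := by positivity
    have h2 : 2 * (c / 2 * p * W₀ * (R : ℝ) ^ M) = p * (c * (W₀ * (R : ℝ) ^ M)) := by ring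
    rw [h2]
    nlinarith
  have hWM : (0 : ℝ) ≤ W₀ * (R : ℝ) ^ M := by positivity
  calc (P.card : ℝ) ≤ _ := hcard
    _ ≤ 4 * B * (X + 2 * (L * R ^ M)) * Real.exp (-(q' : ℝ) / R) := by linarith
    _ ≤ 4 * B * (X + 2 * (L * R ^ M)) * Real.exp (-(q : ℝ) / (2 * R)) := by
        gcongr
    _ ≤ 4 * B * ((1 + c) * (X + W₀ * (R : ℝ) ^ M)) * Real.exp (-(q : ℝ) / (2 * R)) := by
        gcongr
        nlinarith
    _ = 4 * B * (1 + c) * (X + W₀ * (R : ℝ) ^ M) * Real.exp (-(q : ℝ) / (2 * R)) := by ring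
    _ ≤ C₀ * (X + W₀ * (R : ℝ) ^ M) * Real.exp (-(q : ℝ) / (2 * R)) := by
        gcongr
        linarith

end Pool.FPP
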