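import Pool.Agent.FPP.BAL
import Pool.Agent.FPP.CHG
import Pool.Agent.FPP.POR

/-!
Module RIC: the number of rich hubs.
porosity with Tile = tiles N l0, ρ = rho/l0, T c = dst u c / l0, NT = near-tie tiles of level x, Hub = IsHub
tiles, α = a, β = b, γ = 4a+4b+1, A = 3, X = b rho/l0 + 2b, win W c c' = window (l0 W) c c'.
Bottleneck inequality: y' in tile y with excess ≤ x ≤ t0; hub_property gives e in tile h with either
T(y') = T(e)+d(e,y') or T(e) ≥ T(y') - x + d(y',e); so |T(e)-T(y')| ≥ a rho(e,y') - x; corners are at rho ≤ 2 l0.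
-/

set_option autoImplicit false

noncomputable section

namespace Pool.FPP

open Finset

section

variable {N : ℕ} [NeZero N]

/-- the tile of side `l₀` with corner `c` is a `t₀`-hub -/
def IsHub (a b : ℝ) (v u : Vtx N) (l₀ : ℕ) (t₀ : ℝ) (ω : Edge N → Bool) (c : Vtx N) : Prop :=
  ∃ η : Edge N → Bool, FF a b v u ω + t₀ < FF a b v u (mix (tileE l₀ c) η ω)

open Classical in
/-- number of scales `k < M` at which the tile has many near-tie tiles around it -/
def richness (a b : ℝ) (v u : Vtx N) (l₀ W₀ R M : ℕ) (x p : ℝ) (ω : Edge N → Bool)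
    (c : Vtx N) : ℕ :=
  ((range M).filter (fun k =>
    p * ((W₀ * R ^ k : ℕ) : ℝ) ^ 2 < (cntNT a b v u l₀ x (l₀ * (W₀ * R ^ k)) ω c : ℝ))).card

variable {a b : ℝ}

omit [NeZero N] in
private theorem mix_off (A : Finset (Edge N)) (η ω : Edge N → Bool) :
    ∀ e ∉ A, ω e = mix A η ω e := by
  intro e he
  simp [mix, he]

private theorem abs_dst_sub (ha : 0 < a) (hab : a < b) (ω : Edge N → Bool) (u x y : Vtx N) :
    |dst a b ω u x - dst a b ω u y| ≤ dst a b ω x y := by
  rw [abs_le]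
  constructor
  · have h1 := dst_triangle ha hab ω u x y
    linarith
  · have h1 := dst_triangle ha hab ω u y x
    rw [dst_comm ha hab ω x y]
    linarith

private theorem abs_dst_corner (ha : 0 < a) (hab : a < b) (ω : Edge N → Bool) (u : Vtx N)
    {l₀ : ℕ} (h0 : 0 < l₀) {x c : Vtx N} (hx : corner l₀ x = c) :
    |dst a b ω u x - dst a b ω u c| ≤ 2 * b * l₀ := by
  have h1 := abs_dst_sub ha hab ω u x c
  have h2 := dst_le_rho ha hab ω x c
  have h3 := rho_corner_le h0 x
  rw [hx] at h3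
  have h4 : (rho x c : ℝ) ≤ 2 * l₀ := by exact_mod_cast h3
  have hb : 0 < b := ha.trans hab
  nlinarith

/-- a hub contains a vertex of the chosen geodesic -/
private theorem hub_geod (ha : 0 < a) (hab : a < b) (v u : Vtx N) {l₀ : ℕ} {t₀ : ℝ}
    (ht₀ : 0 ≤ t₀) {ω : Edge N → Bool} {c : Vtx N} (h : IsHub a b v u l₀ t₀ ω c) :
    ∃ e : Edge N, corner l₀ e.1 = c ∧ exc a b v u ω e.1 = 0 ∧
      dst a b ω u e.1 ≤ b * rho 0 v := by
  obtain ⟨η, hη⟩ := h
  obtain ⟨e, he⟩ := gam_meets ha hab v u ω (mix (tileE l₀ c) η ω) (tileE l₀ c)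
    (mix_off _ _ _) (by linarith)
  rw [Finset.mem_inter] at he
  have hg : e ∈ geo a b v u ω := by
    have := he.1
    unfold gam at this
    rwa [List.mem_toFinset] at this
  have h1 := geod_mem ha hab (geo_walk ha hab v u ω) (geo_cost ha hab v u ω) hg
  have h2 : corner l₀ e.1 = c := by
    have := he.2
    unfold tileE at this
    exact (Finset.mem_filter.mp this).2
  refine ⟨e, h2, ?_, ?_⟩
  · unfold exc
    linarith
  · have h3 := dst_nonneg ha hab ω e.1 (u + v)
    have h4 := dst_le_rho ha hab ω u (u + v)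
    have h5 : rho u (u + v) = rho 0 v := by
      have := rho_add_right 0 v u
      rw [zero_add, add_comm v u] at this
      exact this
    rw [h5] at h4
    linarith

/-- the bottleneck inequality -/
private theorem bottleneck (ha : 0 < a) (hab : a < b) (v u : Vtx N) {l₀ : ℕ} (h0 : 0 < l₀)
    {t₀ x : ℝ} (hxt : x ≤ t₀) (hxl : x ≤ l₀) {ω : Edge N → Bool} {h y : Vtx N}
    (hh : IsHub a b v u l₀ t₀ ω h) (hy : NT a b v u l₀ x ω y) :
    a * rho h y - (4 * a + 4 * b + 1) * l₀ ≤ |dst a b ω u h - dst a b ω u y| := by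
  obtain ⟨η, hη⟩ := hh
  obtain ⟨y', hy', hexc⟩ := hy
  obtain ⟨e, he, hcase⟩ := hub_property ha hab v u ω (mix (tileE l₀ h) η ω) (tileE l₀ h)
    (mix_off _ _ _) x (by linarith) y' hexc
  have h2 : corner l₀ e.1 = h := by
    unfold tileE at he
    exact (Finset.mem_filter.mp he).2
  have hkey : a * rho e.1 y' - x ≤ |dst a b ω u e.1 - dst a b ω u y'| := by
    have h3 := rho_le_dst ha hab ω e.1 y'
    rcases hcase with hc | hc
    · have h4 : dst a b ω u y' - dst a b ω u e.1 ≤ |dst a b ω u e.1 - dst a b ω u y'| := by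
        rw [abs_sub_comm]
        exact le_abs_self _
      have h5 := dst_nonneg ha hab ω e.1 y'
      by_cases hx : 0 ≤ x
      · linarith
      · exfalso
        have h6 := dst_triangle ha hab ω u y' (u + v)
        unfold exc at hexc
        linarith
    · have h4 : dst a b ω u e.1 - dst a b ω u y' ≤ |dst a b ω u e.1 - dst a b ω u y'| :=
        le_abs_self _
      have h5 := dst_triangle ha hab ω u e.1 (u + v)
      rw [dst_comm ha hab ω y' e.1] at hc
      unfold exc at hexc
      linarith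
  have h6 := abs_dst_corner ha hab ω u h0 h2
  have h7 := abs_dst_corner ha hab ω u h0 hy'
  have h8 : (rho h y : ℝ) ≤ rho e.1 y' + 4 * l₀ := by
    have e1 := rho_triangle h e.1 y
    have e2 := rho_triangle e.1 y' y
    have e3 := rho_corner_le h0 e.1
    have e4 := rho_corner_le h0 y'
    rw [h2, rho_comm] at e3
    rw [hy'] at e4
    have : rho h y ≤ rho e.1 y' + 4 * l₀ := by omega
    exact_mod_cast this
  have h9 : a * (rho h y : ℝ) ≤ a * rho e.1 y' + 4 * a * l₀ := by nlinarith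
  have h10 : |dst a b ω u e.1 - dst a b ω u y'| ≤
      |dst a b ω u h - dst a b ω u y| + 4 * b * l₀ := by
    have e1 : dst a b ω u e.1 - dst a b ω u y' = (dst a b ω u e.1 - dst a b ω u h) +
        (dst a b ω u h - dst a b ω u y) + (dst a b ω u y - dst a b ω u y') := by ring
    rw [e1]
    have e2 := abs_add_le ((dst a b ω u e.1 - dst a b ω u h) +
        (dst a b ω u h - dst a b ω u y)) (dst a b ω u y - dst a b ω u y')
    have e3 := abs_add_le (dst a b ω u e.1 - dst a b ω u h)
        (dst a b ω u h - dst a b ω u y)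
    rw [abs_sub_comm (dst a b ω u y) (dst a b ω u y')] at e2
    linarith
  linarith

end

open Classical in
/-- THE NUMBER OF RICH HUBS -/
theorem rich_hubs (a b : ℝ) (ha : 0 < a) (hab : a < b) :
    ∃ C₁ : ℝ, 1 ≤ C₁ ∧ ∀ (N : ℕ) [NeZero N] (v u : Vtx N) (l₀ : ℕ) (h0 : 0 < l₀) (h0N : l₀ ∣ N)
      (t₀ x p : ℝ) (hx0 : 0 ≤ x) (hxt : x ≤ t₀) (hxl : x ≤ l₀) (hp : 0 < p) (hp1 : p ≤ 1)
      (R : ℕ) (hRodd : Odd R) (hR : C₁ / p ≤ R) (W₀ : ℕ) (hW₀ : C₁ / p ≤ W₀) (M q : ℕ)
      (ω : Edge N → Bool),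
      (((tiles N l₀).filter (fun c => IsHub a b v u l₀ t₀ ω c ∧
          q ≤ richness a b v u l₀ W₀ R M x p ω c)).card : ℝ) ≤
        C₁ * ((rho 0 v : ℝ) / l₀ + 1 + W₀ * (R : ℝ) ^ M) * Real.exp (-(q : ℝ) / (2 * R)) := by
  have hb : 0 < b := ha.trans hab
  obtain ⟨C₀, hC₀, hpor⟩ := porosity a b (4 * a + 4 * b + 1) 3 ha hab.le (by positivity)
    (by norm_num)
  refine ⟨C₀ * (2 * b + 1), by nlinarith, ?_⟩
  intro N _ v u l₀ h0 h0N t₀ x p hx0 hxt hxl hp hp1 R hRodd hR W₀ hW₀ M q ω
  have hl₀ : (0 : ℝ) < l₀ := by exact_mod_cast h0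
  have hC₁ : C₀ ≤ C₀ * (2 * b + 1) := by nlinarith
  have hdiv : C₀ / p ≤ C₀ * (2 * b + 1) / p := by gcongr
  have key := hpor (Vtx N) (tiles N l₀) ((tiles N l₀).filter (fun c => NT a b v u l₀ x ω c))
    ((tiles N l₀).filter (fun c => IsHub a b v u l₀ t₀ ω c)) (by
      intro c hc
      rw [Finset.mem_filter] at hc ⊢
      obtain ⟨e, he1, he2, _⟩ := hub_geod ha hab v u (hx0.trans hxt) hc.2
      exact ⟨hc.1, e.1, he1, by rw [he2]; exact hx0⟩) (Finset.filter_subset _ _)
    (fun c => dst a b ω u c / l₀) (fun c c' => (rho c c' : ℝ) / l₀)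
    (by intro c; simp [rho_self]) (by intro c c'; simp only [rho_comm c c'])
    (by
      intro c c' c''
      have := rho_triangle c c' c''
      have h1 : (rho c c'' : ℝ) ≤ rho c c' + rho c' c'' := by exact_mod_cast this
      rw [← add_div]
      gcongr)
    (by
      intro h hh y hy
      rw [Finset.mem_filter] at hh hy
      have h1 := bottleneck ha hab v u h0 hxt hxl hh.2 hy.2
      rw [← sub_div, abs_div, abs_of_pos hl₀, le_div_iff₀ hl₀]
      calc (a * ((rho h y : ℝ) / l₀) - (4 * a + 4 * b + 1)) * l₀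
          = a * rho h y - (4 * a + 4 * b + 1) * l₀ := by field_simp
        _ ≤ _ := h1)
    (by
      intro c _ c' _
      rw [← sub_div, abs_div, abs_of_pos hl₀, div_le_iff₀ hl₀]
      have h1 := abs_dst_sub ha hab ω u c c'
      have h2 := dst_le_rho ha hab ω c c'
      calc _ ≤ b * rho c c' := h1.trans h2
        _ = _ := by field_simp)
    (by
      intro c hc r hr
      have h1 : (tiles N l₀).filter (fun y => (rho c y : ℝ) / l₀ ≤ r) ⊆
          (tiles N l₀).filter (fun y => rho c y ≤ ⌈r⌉₊ * l₀) := by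
        intro y hy
        rw [Finset.mem_filter] at hy ⊢
        refine ⟨hy.1, ?_⟩
        have h2 := hy.2
        rw [div_le_iff₀ hl₀] at h2
        have h3 : (rho c y : ℝ) ≤ ((⌈r⌉₊ * l₀ : ℕ) : ℝ) := by
          push_cast
          refine h2.trans ?_
          have := Nat.le_ceil r
          gcongr
        exact_mod_cast h3
      have hcc : corner l₀ c = c := by
        unfold tiles at hc
        exact (Finset.mem_filter.mp hc).2
      have h2 := (Finset.card_le_card h1).trans (card_ball h0 h0N c hcc ⌈r⌉₊)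
      have h3 : (((tiles N l₀).filter (fun y => (rho c y : ℝ) / l₀ ≤ r)).card : ℝ) ≤
          (2 * (⌈r⌉₊ : ℝ) + 1) ^ 2 := by exact_mod_cast h2
      refine h3.trans ?_
      have h4 : (⌈r⌉₊ : ℝ) < r + 1 := Nat.ceil_lt_add_one hr
      have h5 : (0 : ℝ) ≤ ⌈r⌉₊ := Nat.cast_nonneg _
      nlinarith)
    (b * rho 0 v / l₀ + 2 * b) (by positivity)
    (by
      intro h hh
      rw [Finset.mem_filter] at hh
      obtain ⟨e, he1, _, he3⟩ := hub_geod ha hab v u (hx0.trans hxt) hh.2
      have h1 := abs_dst_corner ha hab ω u h0 he1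
      have h2 := dst_nonneg ha hab ω u h
      refine ⟨by positivity, ?_⟩
      rw [div_le_iff₀ hl₀]
      have h3 : dst a b ω u h ≤ b * rho 0 v + 2 * b * l₀ := by
        have := (abs_le.mp h1).1
        linarith
      calc _ ≤ _ := h3
        _ = _ := by field_simp)
    p hp hp1 R hRodd (hdiv.trans hR) W₀ (hdiv.trans hW₀) M q
    (fun W c c' => window (l₀ * W) c c')
    (by
      intro W c c' hw
      rw [div_le_iff₀ hl₀]
      have h1 : rho c' c ≤ 2 * (l₀ * W) := by
        unfold window at hw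
        unfold rho
        omega
      rw [rho_comm] at h1
      have h2 : (rho c c' : ℝ) ≤ 2 * (l₀ * W) := by exact_mod_cast h1
      linarith)
  have hcnt : ∀ (k : ℕ) (c : Vtx N),
      (((tiles N l₀).filter (fun c => NT a b v u l₀ x ω c)).filter
        (fun y => window (l₀ * (W₀ * R ^ k)) c y)).card =
      cntNT a b v u l₀ x (l₀ * (W₀ * R ^ k)) ω c := by
    intro k c
    unfold cntNT
    congr 1
    ext y
    simp only [Finset.mem_filter, Finset.mem_univ, true_and]
    constructor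
    · rintro ⟨⟨_, h1⟩, h2⟩
      exact ⟨h1, h2⟩
    · rintro ⟨h1, h2⟩
      refine ⟨⟨?_, h1⟩, h2⟩
      obtain ⟨y', hy', _⟩ := h1
      rw [← hy']
      exact corner_mem_tiles l₀ y'
  have hset : (tiles N l₀).filter (fun c => IsHub a b v u l₀ t₀ ω c ∧
          q ≤ richness a b v u l₀ W₀ R M x p ω c) =
      ((tiles N l₀).filter (fun c => IsHub a b v u l₀ t₀ ω c)).filter (fun h =>
        q ≤ ((range M).filter (fun k =>
            p * ((W₀ * R ^ k : ℕ) : ℝ) ^ 2 <
              ((((tiles N l₀).filter (fun c => NT a b v u l₀ x ω c)).filter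
                (fun y => window (l₀ * (W₀ * R ^ k)) h y)).card : ℝ))).card) := by
    rw [Finset.filter_filter]
    refine Finset.filter_congr ?_
    intro c _
    unfold richness
    simp only [hcnt]
  rw [hset]
  refine key.trans ?_
  gcongr ?_ * _
  have hW : (0 : ℝ) ≤ W₀ * (R : ℝ) ^ M := by positivity
  have hr : (0 : ℝ) ≤ (rho 0 v : ℝ) / l₀ := by positivity
  have e1 : b * (rho 0 v : ℝ) / l₀ = b * ((rho 0 v : ℝ) / l₀) := by ring
  rw [e1, mul_assoc]
  gcongr C₀ * ?_
  nlinarith [mul_nonneg hb.le hr, mul_nonneg hb.le hW]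

end Pool.FPP
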