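import Pool.Agent.FPP.HIG
import Pool.Agent.FPP.RIC

set_option autoImplicit false

noncomputable section

namespace Pool.FPP

open Finset

/-- block energy averaged over the starting point -/
def EB {N : ℕ} [NeZero N] (a b : ℝ) (v : Vtx N) (L : ℕ) : ℝ :=
  Ex (fun u : Vtx N => EE (FF a b v u) L)

section

variable {N : ℕ} [NeZero N] {a b : ℝ}

/-- average of the main inequality over the starting point -/
theorem loc_avg (ha : 0 < a) (hab : a < b) {l l₀ L w d : ℕ} (hl : 0 < l) (hl₀ : l ∣ l₀)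
    (h0 : 0 < l₀) (h : l₀ ∣ L) (hL : 0 < L) (hLN : L ∣ N) (hw : 0 < w) (hwL : 2 * (l₀ * w) ≤ L)
    (v : Vtx N) (q : ℕ) (t : ℕ → ℝ) (x r p lam : ℝ) (hx : 12 * b * d * (l + 1) ≤ x)
    (ht0 : 0 < t 0) (htmono : ∀ i < q, t i ≤ t (i + 1)) (htr : ∀ i < q, t (i + 1) ≤ r * t i)
    (hp : 0 < p) (hlam : 0 ≤ lam) (hlam3 : 32 ^ d * r ^ 2 * (4 * p) ≤ lam ^ 3) :
    (EB a b v L - EB a b v l / (d + 1)) / 2 - Ex (fun u => Err a b v u l₀ w L) ≤
      2 * ((q : ℝ) + 3) * (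
        (t 0) ^ 2 * (9 * (b / a * rho 0 v / l₀ + 1)) +
        608 * (b - a) ^ 4 * (b / a) ^ 2 * l₀ * rho 0 v / (t q) ^ 2 +
        lam * EB a b v l₀ +
        Ex (fun u => High a b v u l₀ w x p (t 0) (t q))) := by
  have key := Ex_mono (Ω := Vtx N) (fun u => high_ineq ha hab hl hl₀ h0 h hL hLN hw hwL v u q t x r p
    lam hx ht0 htmono htr hp hlam hlam3)
  have hne : Nonempty (Vtx N) := ⟨0⟩
  have e1 : Ex (fun u : Vtx N => (EE (FF a b v u) L - EE (FF a b v u) l / (d + 1)) / 2 -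
      Err a b v u l₀ w L) =
      (EB a b v L - EB a b v l / (d + 1)) / 2 - Ex (fun u => Err a b v u l₀ w L) := by
    rw [Ex_sub]
    congr 1
    have : (fun u : Vtx N => (EE (FF a b v u) L - EE (FF a b v u) l / (d + 1)) / 2) =
        fun u : Vtx N => (1/2) * EE (FF a b v u) L - (1 / (2 * (d + 1))) * EE (FF a b v u) l := by
      funext u
      field_simp
    rw [this, Ex_sub, Ex_mul_left, Ex_mul_left]
    simp only [EB]
    field_simp
  have e2 : Ex (fun u : Vtx N => 2 * ((q : ℝ) + 3) * (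
        (t 0) ^ 2 * (9 * (b / a * rho 0 v / l₀ + 1)) +
        608 * (b - a) ^ 4 * (b / a) ^ 2 * l₀ * rho 0 v / (t q) ^ 2 +
        lam * EE (FF a b v u) l₀ +
        High a b v u l₀ w x p (t 0) (t q))) = 2 * ((q : ℝ) + 3) * (
        (t 0) ^ 2 * (9 * (b / a * rho 0 v / l₀ + 1)) +
        608 * (b - a) ^ 4 * (b / a) ^ 2 * l₀ * rho 0 v / (t q) ^ 2 +
        lam * EB a b v l₀ +
        Ex (fun u => High a b v u l₀ w x p (t 0) (t q))) := by
    rw [Ex_mul_left]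
    congr 1
    rw [Ex_add, Ex_add, Ex_const, Ex_mul_left]
    rfl
  rw [e1, e2] at key
  exact key

open Classical in
/-- pigeonhole over the scales -/
theorem loc_pigeon (ha : 0 < a) (hab : a < b) (C₁ : ℝ)
    (hrich : ∀ (v u : Vtx N) (l₀ : ℕ) (_ : 0 < l₀) (_ : l₀ ∣ N)
      (t₀ x p : ℝ) (_ : 0 ≤ x) (_ : x ≤ t₀) (_ : x ≤ l₀) (_ : 0 < p) (_ : p ≤ 1)
      (R : ℕ) (_ : Odd R) (_ : C₁ / p ≤ R) (W₀ : ℕ) (_ : C₁ / p ≤ W₀) (M q : ℕ)
      (ω : Edge N → Bool),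
      (((tiles N l₀).filter (fun c => IsHub a b v u l₀ t₀ ω c ∧
          q ≤ richness a b v u l₀ W₀ R M x p ω c)).card : ℝ) ≤
        C₁ * ((rho 0 v : ℝ) / l₀ + 1 + W₀ * (R : ℝ) ^ M) * Real.exp (-(q : ℝ) / (2 * R)))
    (v u : Vtx N) {l₀ : ℕ} (h0 : 0 < l₀) (h0N : l₀ ∣ N)
    (t₀ T x p : ℝ) (ht₀ : 0 < t₀) (hx0 : 0 ≤ x) (hxt : x ≤ t₀) (hxl : x ≤ l₀) (hp : 0 < p)
    (hp1 : p ≤ 1) (R : ℕ) (hRodd : Odd R) (hR : C₁ / p ≤ R) (W₀ : ℕ) (hW₀ : C₁ / p ≤ W₀)
    (M q : ℕ) :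
    ∑ i ∈ range M, High a b v u l₀ (W₀ * R ^ i) x p t₀ T ≤
      q * EE (FF a b v u) l₀ + M * (T ^ 2 * (C₁ * ((rho 0 v : ℝ) / l₀ + 1 + W₀ * (R : ℝ) ^ M) *
        Real.exp (-(q : ℝ) / (2 * R)))) := by
  -- abbreviations
  set I : Vtx N → (Edge N → Bool × Bool) → ℝ := fun c w2 => inc (tileE l₀ c) (FF a b v u) w2 with hI
  have hsum : ∑ i ∈ range M, High a b v u l₀ (W₀ * R ^ i) x p t₀ T =
      ∑ c ∈ tiles N l₀, Ex (fun w2 : Edge N → Bool × Bool =>
        if t₀ < I c w2 ∧ I c w2 ≤ T then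
          (richness a b v u l₀ W₀ R M x p (fstc w2) c : ℝ) * I c w2 ^ 2 else 0) := by
    simp only [High]
    rw [sum_comm]
    refine sum_congr rfl fun c _ => ?_
    rw [← Ex_sum]
    congr 1
    funext w2
    by_cases hc : t₀ < I c w2 ∧ I c w2 ≤ T
    · rw [if_pos hc]
      simp only [richness]
      rw [← Finset.sum_boole, Finset.sum_mul]
      refine sum_congr rfl fun i _ => ?_
      by_cases hi : p * ((W₀ * R ^ i : ℕ) : ℝ) ^ 2 <
          (cntNT a b v u l₀ x (l₀ * (W₀ * R ^ i)) (fstc w2) c : ℝ)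
      · rw [if_pos ⟨hc.1, hc.2, hi⟩, if_pos hi, one_mul]
      · rw [if_neg (fun h => hi h.2.2), if_neg hi, zero_mul]
    · rw [if_neg hc]
      refine sum_eq_zero fun i _ => ?_
      rw [if_neg (fun h => hc ⟨h.1, h.2.1⟩)]
  rw [hsum]
  -- bound of each term
  set rich : (Edge N → Bool × Bool) → Vtx N → Prop := fun w2 c =>
    IsHub a b v u l₀ t₀ (fstc w2) c ∧ q ≤ richness a b v u l₀ W₀ R M x p (fstc w2) c with hrichdef
  have hterm : ∀ c ∈ tiles N l₀, ∀ w2 : Edge N → Bool × Bool,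
      (if t₀ < I c w2 ∧ I c w2 ≤ T then
          (richness a b v u l₀ W₀ R M x p (fstc w2) c : ℝ) * I c w2 ^ 2 else 0) ≤
        q * I c w2 ^ 2 + M * T ^ 2 * (if rich w2 c then (1 : ℝ) else 0) := by
    intro c _ w2
    have hI0 : 0 ≤ I c w2 := le_max_left _ _
    split_ifs with h1 h2 h2
    · have hr : (richness a b v u l₀ W₀ R M x p (fstc w2) c : ℝ) ≤ M := by
        simp only [richness]
        have := Finset.card_filter_le (range M) (fun k =>
          p * ((W₀ * R ^ k : ℕ) : ℝ) ^ 2 <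
            (cntNT a b v u l₀ x (l₀ * (W₀ * R ^ k)) (fstc w2) c : ℝ))
        rw [card_range] at this
        exact_mod_cast this
      have hT : I c w2 ^ 2 ≤ T ^ 2 := pow_le_pow_left₀ hI0 h1.2 2
      have hq0 : (0:ℝ) ≤ q * I c w2 ^ 2 := by positivity
      have hM0 : (0 : ℝ) ≤ M := Nat.cast_nonneg _
      nlinarith [mul_le_mul hr hT (by positivity) hM0]
    · have hq : (richness a b v u l₀ W₀ R M x p (fstc w2) c : ℝ) ≤ q := by
        by_contra hcon
        apply h2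
        refine ⟨⟨sndc w2, ?_⟩, ?_⟩
        · have h3 : t₀ < FF a b v u (res (tileE l₀ c) w2) - FF a b v u (fstc w2) := by
            have h4 := h1.1
            simp only [hI, inc] at h4
            rcases lt_max_iff.1 h4 with h5 | h5
            · linarith
            · exact h5
          simp only [res] at h3
          linarith
        · push_neg at hcon
          have : (q : ℝ) < (richness a b v u l₀ W₀ R M x p (fstc w2) c : ℝ) := hcon
          exact_mod_cast this.le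
      have : (0:ℝ) ≤ I c w2 ^ 2 := by positivity
      nlinarith
    · positivity
    · positivity
  have h1 : ∑ c ∈ tiles N l₀, Ex (fun w2 : Edge N → Bool × Bool =>
        if t₀ < I c w2 ∧ I c w2 ≤ T then
          (richness a b v u l₀ W₀ R M x p (fstc w2) c : ℝ) * I c w2 ^ 2 else 0) ≤
      ∑ c ∈ tiles N l₀, Ex (fun w2 : Edge N → Bool × Bool =>
        q * I c w2 ^ 2 + M * T ^ 2 * (if rich w2 c then (1 : ℝ) else 0)) :=
    sum_le_sum fun c hc => Ex_mono (hterm c hc)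
  refine h1.trans ?_
  have h2 : ∑ c ∈ tiles N l₀, Ex (fun w2 : Edge N → Bool × Bool =>
        q * I c w2 ^ 2 + M * T ^ 2 * (if rich w2 c then (1 : ℝ) else 0)) =
      q * EE (FF a b v u) l₀ + M * T ^ 2 *
        Ex (fun w2 : Edge N → Bool × Bool => ((tiles N l₀).filter (rich w2)).card) := by
    have : ∀ c ∈ tiles N l₀, Ex (fun w2 : Edge N → Bool × Bool =>
        q * I c w2 ^ 2 + M * T ^ 2 * (if rich w2 c then (1 : ℝ) else 0)) =
        q * Ex (fun w2 : Edge N → Bool × Bool => I c w2 ^ 2) +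
        M * T ^ 2 * Ex (fun w2 : Edge N → Bool × Bool => (if rich w2 c then (1 : ℝ) else 0)) := by
      intro c _
      rw [Ex_add, Ex_mul_left, Ex_mul_left]
    rw [sum_congr rfl this, sum_add_distrib, ← mul_sum, ← mul_sum, sum_inc_sq, ← Ex_sum]
    congr 3
    funext w2
    rw [Finset.sum_boole]
  rw [h2]
  have h3 : Ex (fun w2 : Edge N → Bool × Bool => (((tiles N l₀).filter (rich w2)).card : ℝ)) ≤
      C₁ * ((rho 0 v : ℝ) / l₀ + 1 + W₀ * (R : ℝ) ^ M) * Real.exp (-(q : ℝ) / (2 * R)) := by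
    have hne : Nonempty (Edge N → Bool × Bool) := ⟨fun _ => (true, true)⟩
    rw [← Ex_const (Ω := Edge N → Bool × Bool)
      (C₁ * ((rho 0 v : ℝ) / l₀ + 1 + W₀ * (R : ℝ) ^ M) * Real.exp (-(q : ℝ) / (2 * R)))]
    refine Ex_mono fun w2 => ?_
    exact hrich v u l₀ h0 h0N t₀ x p hx0 hxt hxl hp hp1 R hRodd hR W₀ hW₀ M q (fstc w2)
  have hMT : (0:ℝ) ≤ M * T ^ 2 := by positivity
  nlinarith [mul_le_mul_of_nonneg_left h3 hMT]

end

end Pool.FPP
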