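import Pool.Agent.FPP.LOC1

/-!
Module LOC2: the error term and the contradiction, for fixed parameters.
-/

set_option autoImplicit false

noncomputable section

namespace Pool.FPP

open Finset

section

variable {N : ℕ} [NeZero N] {a b : ℝ}

/-- the error term at the scales used in the local step -/
theorem loc_err (ha : 0 < a) (hab : a < b) (h : ℕ) (hLN : 2 ^ (200 * h) ∣ N) (hh : 1 ≤ h)
    (v : Vtx N) (hn : 2 ^ (200 * h) ≤ rho 0 v) (w : ℕ) (hw : 0 < w)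
    (hw2 : w ≤ 2 ^ (7 * h)) :
    Ex (fun u : Vtx N => Err a b v u (2 ^ (6 * h)) w (2 ^ (200 * h))) ≤
      (50 * (b ^ 2 / a) + 8 * b + 1300 * (b - a) ^ 4 * (b / a) ^ 2) * (rho 0 v : ℝ) / 2 ^ h := by
  have hb : 0 < b := ha.trans hab
  set y : ℝ := (2 : ℝ) ^ h with hy
  have hy1 : 1 ≤ y := one_le_pow₀ (by norm_num)
  have hy0 : 0 < y := by linarith
  have hL : (2 : ℕ) ^ (200 * h) > 0 := by positivity
  have hlw : 2 ^ (6 * h) * w ≤ 2 ^ (13 * h) := by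
    calc 2 ^ (6 * h) * w ≤ 2 ^ (6 * h) * 2 ^ (7 * h) := Nat.mul_le_mul_left _ hw2
      _ = 2 ^ (13 * h) := by rw [← pow_add]; congr 1; ring
  have hm : 2 * (2 ^ (6 * h) * w) ≤ 2 ^ (200 * h) := by
    calc 2 * (2 ^ (6 * h) * w) ≤ 2 * 2 ^ (13 * h) := Nat.mul_le_mul_left _ hlw
      _ = 2 ^ (13 * h + 1) := by rw [pow_succ]; ring
      _ ≤ 2 ^ (200 * h) := Nat.pow_le_pow_right (by norm_num) (by omega)
  have key := err_avg (N := N) ha hab (l := 2 ^ (6 * h)) (w := w) (L := 2 ^ (200 * h))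
    (by positivity) hw hL hLN hm v (y ^ 150) (by positivity)
  refine key.trans ?_
  set n : ℝ := (rho 0 v : ℝ) with hnn
  have hyn : y ^ 200 ≤ n := by
    have : ((2 ^ (200 * h) : ℕ) : ℝ) ≤ n := by rw [hnn]; exact_mod_cast hn
    rw [hy, ← pow_mul, mul_comm h 200]
    push_cast at this
    exact this
  have hLc : ((2 ^ (200 * h) : ℕ) : ℝ) = y ^ 200 := by
    rw [hy, ← pow_mul, mul_comm h 200]; push_cast; rfl
  have hmc : ((2 ^ (6 * h) * w : ℕ) : ℝ) ≤ y ^ 13 := by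
    have : ((2 ^ (6 * h) * w : ℕ) : ℝ) ≤ ((2 ^ (13 * h) : ℕ) : ℝ) := by exact_mod_cast hlw
    refine this.trans (le_of_eq ?_)
    rw [hy, ← pow_mul, mul_comm h 13]; push_cast; rfl
  have hmc0 : (0:ℝ) ≤ ((2 ^ (6 * h) * w : ℕ) : ℝ) := Nat.cast_nonneg _
  rw [hLc]
  have hn0 : 0 ≤ n := le_trans (by positivity) hyn
  have t1 : y ^ 150 * (50 * (b ^ 2 / a) * (((2 ^ (6 * h) * w : ℕ) : ℝ) / y ^ 200) * n) ≤
      50 * (b ^ 2 / a) * n / y := by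
    have h1 : ((2 ^ (6 * h) * w : ℕ) : ℝ) / y ^ 200 ≤ y ^ 13 / y ^ 200 := by gcongr
    have h2 : y ^ 150 * (y ^ 13 / y ^ 200) ≤ 1 / y := by
      rw [mul_div_assoc', div_le_div_iff₀ (by positivity) hy0]
      rw [one_mul, ← pow_add, ← pow_succ]
      exact pow_le_pow_right₀ hy1 (by norm_num)
    have hc : 0 ≤ 50 * (b ^ 2 / a) * n := by positivity
    calc y ^ 150 * (50 * (b ^ 2 / a) * (((2 ^ (6 * h) * w : ℕ) : ℝ) / y ^ 200) * n)
        = (50 * (b ^ 2 / a) * n) * (y ^ 150 * (((2 ^ (6 * h) * w : ℕ) : ℝ) / y ^ 200)) := by ring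
      _ ≤ (50 * (b ^ 2 / a) * n) * (y ^ 150 * (y ^ 13 / y ^ 200)) := by gcongr
      _ ≤ (50 * (b ^ 2 / a) * n) * (1 / y) := by gcongr
      _ = 50 * (b ^ 2 / a) * n / y := by ring
  have t2 : y ^ 150 * (8 * b * ((2 ^ (6 * h) * w : ℕ) : ℝ)) ≤ 8 * b * n / y := by
    rw [le_div_iff₀ hy0]
    calc y ^ 150 * (8 * b * ((2 ^ (6 * h) * w : ℕ) : ℝ)) * y
        ≤ y ^ 150 * (8 * b * y ^ 13) * y := by gcongr
      _ = 8 * b * y ^ 164 := by ring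
      _ ≤ 8 * b * y ^ 200 := by
          have : y ^ 164 ≤ y ^ 200 := pow_le_pow_right₀ hy1 (by norm_num)
          gcongr
      _ ≤ 8 * b * n := by gcongr
  have t3 : 1300 * (b - a) ^ 4 * (b / a) ^ 2 * y ^ 200 * n / (y ^ 150) ^ 2 ≤
      1300 * (b - a) ^ 4 * (b / a) ^ 2 * n / y := by
    have hba : 0 < b - a := by linarith
    rw [div_le_div_iff₀ (by positivity) hy0]
    have : y ^ 200 * y ≤ (y ^ 150) ^ 2 := by
      have h1 : y ^ 201 ≤ y ^ 300 := pow_le_pow_right₀ hy1 (by norm_num)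
      calc y ^ 200 * y = y ^ 201 := by ring
        _ ≤ y ^ 300 := h1
        _ = (y ^ 150) ^ 2 := by ring
    calc 1300 * (b - a) ^ 4 * (b / a) ^ 2 * y ^ 200 * n * y
        = (1300 * (b - a) ^ 4 * (b / a) ^ 2 * n) * (y ^ 200 * y) := by ring
      _ ≤ (1300 * (b - a) ^ 4 * (b / a) ^ 2 * n) * (y ^ 150) ^ 2 := by gcongr
  calc y ^ 150 * (50 * (b ^ 2 / a) * (((2 ^ (6 * h) * w : ℕ) : ℝ) / y ^ 200) * n +
          8 * b * ((2 ^ (6 * h) * w : ℕ) : ℝ)) +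
        1300 * (b - a) ^ 4 * (b / a) ^ 2 * y ^ 200 * n / (y ^ 150) ^ 2
      = y ^ 150 * (50 * (b ^ 2 / a) * (((2 ^ (6 * h) * w : ℕ) : ℝ) / y ^ 200) * n) +
        y ^ 150 * (8 * b * ((2 ^ (6 * h) * w : ℕ) : ℝ)) +
        1300 * (b - a) ^ 4 * (b / a) ^ 2 * y ^ 200 * n / (y ^ 150) ^ 2 := by ring
    _ ≤ 50 * (b ^ 2 / a) * n / y + 8 * b * n / y +
        1300 * (b - a) ^ 4 * (b / a) ^ 2 * n / y := by linarith
    _ = (50 * (b ^ 2 / a) + 8 * b + 1300 * (b - a) ^ 4 * (b / a) ^ 2) * n / y := by ring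

end

end Pool.FPP
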