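import Pool.Agent.FPP.LOC2

/-!
Module LOC3: the contradiction, for fixed parameters. The scales l, l₀, L, w₇ are variables here (they are
2^{2h}, 2^{6h}, 2^{200h}, 2^{7h} in the application).
-/

set_option autoImplicit false

noncomputable section

namespace Pool.FPP

open Finset

section

variable {N : ℕ} [NeZero N] {a b : ℝ}

theorem EE_nonneg (F : (Edge N → Bool) → ℝ) (L : ℕ) : 0 ≤ EE F L :=
  sum_nonneg fun _ _ => Ex_nonneg fun _ => sq_nonneg _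

theorem EB_nonneg (v : Vtx N) (L : ℕ) : 0 ≤ EB a b v L := Ex_nonneg fun _ => EE_nonneg _ _

/-- lower bound for the high part at one scale -/
theorem loc_scale (ha : 0 < a) (hab : a < b)
    (ε : ℝ) (hε : 0 < ε) (k : ℕ) (v : Vtx N) (l l₀ L w : ℕ) (y H : ℝ) (hy1 : 1 ≤ y) (hH : 1 ≤ H)
    (cl0 : (l₀ : ℝ) = y ^ 6) (hl0pos : 0 < l) (h00 : 0 < l₀)
    (hL0 : 0 < L) (hd1 : l ∣ l₀) (hd2 : l₀ ∣ L) (hLN : L ∣ N)
    (hw0 : 0 < w) (hwL : 2 * (l₀ * w) ≤ L)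
    (Ce : ℝ) (hCe0 : 0 ≤ Ce)
    (n : ℝ) (hnn : n = (rho 0 v : ℝ)) (hyn : y ^ 13 ≤ n)
    (herr : Ex (fun u : Vtx N => Err a b v u l₀ w L) ≤ Ce * n / y)
    (δ p r lam Q : ℝ) (d q : ℕ) (hQ : Q = 2 * ((q : ℝ) + 3)) (hd : 2 / ε ≤ d)
    (hδ : 0 < δ) (hδQ : Q * (9 * δ * (b / a + 1)) ≤ 1 / 32) (hlam : 0 ≤ lam)
    (hlamQ : Q * lam ≤ ε / 32) (hr1 : 1 ≤ r)
    (hp : 0 < p) (hlam3 : 32 ^ d * r ^ 2 * (4 * p) ≤ lam ^ 3)
    (E2 : Q * (608 * (b - a) ^ 4 * (b / a) ^ 2 / (δ * H ^ 2)) ≤ 1 / 32)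
    (E3 : 32 * Ce * H ^ k ≤ y)
    (V : ℝ) (hV : V = EB a b v L) (hV0 : 0 < V) (hnVk : n ≤ V * H ^ k)
    (hAV : ε * EB a b v l ≤ V) (hBV : ε * EB a b v l₀ ≤ V)
    (t₀ : ℝ) (ht₀pos : 0 < t₀) (ht₀sq : t₀ ^ 2 = δ * V * y ^ 6 / n)
    (T : ℝ) (hT : T = t₀ * r ^ q) (hTsq : T ^ 2 = δ * V * y ^ 6 / n * H ^ (2 * k + 2))
    (x : ℝ) (hx : 12 * b * d * (l + 1) ≤ x) :
    V / (8 * Q) ≤ Ex (fun u => High a b v u l₀ w x p t₀ T) := by
  have hb : 0 < b := ha.trans hab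
  have hba : 0 < b - a := by linarith
  have hy0 : 0 < y := by linarith
  have hH0 : 0 < H := by linarith
  have hn1 : 1 ≤ n := le_trans (one_le_pow₀ hy1) hyn
  have hn0 : 0 < n := by linarith
  have hA0 : 0 ≤ EB a b v l := EB_nonneg _ _
  have hB0 : 0 ≤ EB a b v l₀ := EB_nonneg _ _
  have hQ6 : 6 ≤ Q := by
    rw [hQ]
    have : (0:ℝ) ≤ q := Nat.cast_nonneg _
    linarith
  have hQ0 : 0 < Q := by linarith
  have key := loc_avg (N := N) ha hab (l := l) (l₀ := l₀)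
      (L := L) (w := w) (d := d) hl0pos hd1 h00
      hd2 hL0 hLN hw0 hwL v q (fun i => t₀ * r ^ i) x r p lam hx (by simpa using ht₀pos)
      (fun j _ => by
        have : r ^ j ≤ r ^ (j + 1) := pow_le_pow_right₀ hr1 (Nat.le_succ j)
        exact mul_le_mul_of_nonneg_left this ht₀pos.le)
      (fun j _ => by
        show t₀ * r ^ (j + 1) ≤ r * (t₀ * r ^ j)
        rw [pow_succ]; apply le_of_eq; ring)
      hp hlam hlam3
  simp only [pow_zero, mul_one] at key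
  rw [← hV, ← hnn, ← hT, ← hQ, cl0] at key
  generalize EB a b v l = A at *
  generalize EB a b v l₀ = B at *
  generalize Ex (fun u => High a b v u l₀ w x p t₀ T) = Hi at *
  generalize Ex (fun u : Vtx N => Err a b v u l₀ w L) = er at *
  have herr2 : er ≤ V / 32 := by
    refine herr.trans ?_
    rw [div_le_iff₀ hy0]
    calc Ce * n ≤ Ce * (V * H ^ k) := by gcongr
      _ = (32 * Ce * H ^ k) * (V / 32) := by ring
      _ ≤ y * (V / 32) := by gcongr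
      _ = V / 32 * y := by ring
  have hAd : A / (d + 1) ≤ V / 2 := by
    rw [div_le_iff₀ (by positivity)]
    have h1 : 2 ≤ ε * (d + 1) := by
      rw [div_le_iff₀ hε] at hd
      nlinarith
    nlinarith
  have hsm : Q * (t₀ ^ 2 * (9 * (b / a * n / y ^ 6 + 1))) ≤ V / 32 := by
    rw [ht₀sq]
    have h1 : δ * V * y ^ 6 / n * (9 * (b / a * n / y ^ 6 + 1)) =
        9 * δ * V * (b / a + y ^ 6 / n) := by
      field_simp
    have h2 : y ^ 6 / n ≤ 1 := by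
      rw [div_le_one hn0]
      exact le_trans (pow_le_pow_right₀ hy1 (by norm_num)) hyn
    rw [h1]
    calc Q * (9 * δ * V * (b / a + y ^ 6 / n)) ≤ Q * (9 * δ * V * (b / a + 1)) := by gcongr
      _ = (Q * (9 * δ * (b / a + 1))) * V := by ring
      _ ≤ (1 / 32) * V := by gcongr
      _ = V / 32 := by ring
  have hlg : Q * (608 * (b - a) ^ 4 * (b / a) ^ 2 * y ^ 6 * n / T ^ 2) ≤ V / 32 := by
    rw [hTsq]
    have h1 : 608 * (b - a) ^ 4 * (b / a) ^ 2 * y ^ 6 * n /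
        (δ * V * y ^ 6 / n * H ^ (2 * k + 2)) =
        608 * (b - a) ^ 4 * (b / a) ^ 2 / (δ * H ^ 2) * (n ^ 2 / (V * H ^ (2 * k))) := by
      rw [pow_add]
      field_simp
    have h2 : n ^ 2 / (V * H ^ (2 * k)) ≤ V := by
      rw [div_le_iff₀ (by positivity)]
      calc n ^ 2 ≤ (V * H ^ k) ^ 2 := by gcongr
        _ = V * (V * H ^ (2 * k)) := by rw [mul_pow, ← pow_mul, mul_comm k 2]; ring
    rw [h1]
    have h3 : 0 ≤ 608 * (b - a) ^ 4 * (b / a) ^ 2 / (δ * H ^ 2) := by positivity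
    calc Q * (608 * (b - a) ^ 4 * (b / a) ^ 2 / (δ * H ^ 2) * (n ^ 2 / (V * H ^ (2 * k))))
        ≤ Q * (608 * (b - a) ^ 4 * (b / a) ^ 2 / (δ * H ^ 2) * V) :=
          mul_le_mul_of_nonneg_left (mul_le_mul_of_nonneg_left h2 h3) hQ0.le
      _ = (Q * (608 * (b - a) ^ 4 * (b / a) ^ 2 / (δ * H ^ 2))) * V := by ring
      _ ≤ (1 / 32) * V := mul_le_mul_of_nonneg_right E2 hV0.le
      _ = V / 32 := by ring
  have hlm : Q * (lam * B) ≤ V / 32 := by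
    calc Q * (lam * B) = (Q * lam) * B := by ring
      _ ≤ (ε / 32) * B := mul_le_mul_of_nonneg_right hlamQ hB0
      _ = (ε * B) / 32 := by ring
      _ ≤ V / 32 := by gcongr
  have hexp : Q * (t₀ ^ 2 * (9 * (b / a * n / y ^ 6 + 1)) +
      608 * (b - a) ^ 4 * (b / a) ^ 2 * y ^ 6 * n / T ^ 2 + lam * B + Hi) =
      Q * (t₀ ^ 2 * (9 * (b / a * n / y ^ 6 + 1))) +
      Q * (608 * (b - a) ^ 4 * (b / a) ^ 2 * y ^ 6 * n / T ^ 2) + Q * (lam * B) + Q * Hi := by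
    ring
  rw [hexp] at key
  have hfin : V / 8 ≤ Q * Hi := by linarith
  rw [div_le_iff₀ (by positivity)]
  linarith

open Classical in
theorem loc_core (ha : 0 < a) (hab : a < b) (C₁ : ℝ) (hC₁ : 1 ≤ C₁)
    (hrich : ∀ (v u : Vtx N) (l₀ : ℕ) (_ : 0 < l₀) (_ : l₀ ∣ N)
      (t₀ x p : ℝ) (_ : 0 ≤ x) (_ : x ≤ t₀) (_ : x ≤ l₀) (_ : 0 < p) (_ : p ≤ 1)
      (R : ℕ) (_ : Odd R) (_ : C₁ / p ≤ R) (W₀ : ℕ) (_ : C₁ / p ≤ W₀) (M q : ℕ)
      (ω : Edge N → Bool),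
      (((tiles N l₀).filter (fun c => IsHub a b v u l₀ t₀ ω c ∧
          q ≤ richness a b v u l₀ W₀ R M x p ω c)).card : ℝ) ≤
        C₁ * ((rho 0 v : ℝ) / l₀ + 1 + W₀ * (R : ℝ) ^ M) * Real.exp (-(q : ℝ) / (2 * R)))
    (ε : ℝ) (hε : 0 < ε) (k : ℕ) (v : Vtx N) (l l₀ L : ℕ) (y H : ℝ) (hy1 : 1 ≤ y) (hH : 1 ≤ H)
    (cl : (l : ℝ) = y ^ 2) (cl0 : (l₀ : ℝ) = y ^ 6) (hl0pos : 0 < l) (h00 : 0 < l₀)
    (hL0 : 0 < L) (hd1 : l ∣ l₀) (hd2 : l₀ ∣ L) (hLN : L ∣ N)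
    (Ce : ℝ) (hCe0 : 0 ≤ Ce)
    (n : ℝ) (hnn : n = (rho 0 v : ℝ)) (hyn : y ^ 13 ≤ n)
    (δ p r lam Q : ℝ) (d q R M q' : ℕ) (hQ : Q = 2 * ((q : ℝ) + 3)) (hd : 2 / ε ≤ d)
    (hδ : 0 < δ) (hδQ : Q * (9 * δ * (b / a + 1)) ≤ 1 / 32) (hlam : 0 ≤ lam)
    (hlamQ : Q * lam ≤ ε / 32) (hr1 : 1 ≤ r) (hrq : r ^ q = H ^ (k + 1))
    (hp : 0 < p) (hp1 : p ≤ 1) (hlam3 : 32 ^ d * r ^ 2 * (4 * p) ≤ lam ^ 3)
    (hRodd : Odd R) (hR : C₁ / p ≤ R) (hW₀ : C₁ / p ≤ (l₀ : ℝ))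
    (hwL : ∀ i < M, 2 * (l₀ * (l₀ * R ^ i)) ≤ L)
    (herr : ∀ i < M, Ex (fun u : Vtx N => Err a b v u l₀ (l₀ * R ^ i) L) ≤ Ce * n / y)
    (hRM : (R : ℝ) ^ M ≤ y)
    (E2 : Q * (608 * (b - a) ^ 4 * (b / a) ^ 2 / (δ * H ^ 2)) ≤ 1 / 32)
    (E3 : 32 * Ce * H ^ k ≤ y)
    (E4 : (24 * b * d) ^ 2 * H ^ k ≤ δ * y ^ 2)
    (E5 : 24 * b * d ≤ y ^ 4)
    (hq' : (q' : ℝ) ≤ ε * M / (16 * Q)) (hM : 1 ≤ M)
    (E8 : 3 * δ * C₁ * H ^ (2 * k + 2) * Real.exp (-(q' : ℝ) / (2 * R)) < 1 / (16 * Q)) :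
    EB a b v L ≤ ε * (EB a b v l + EB a b v l₀) + n / H ^ k := by
  by_contra hcon
  push Not at hcon
  have hb : 0 < b := ha.trans hab
  have hba : 0 < b - a := by linarith
  have hy0 : 0 < y := by linarith
  have hH0 : 0 < H := by linarith
  have hA0 : 0 ≤ EB a b v l := EB_nonneg _ _
  have hB0 : 0 ≤ EB a b v l₀ := EB_nonneg _ _
  obtain ⟨V, hV⟩ : ∃ V, V = EB a b v L := ⟨_, rfl⟩
  rw [← hV] at hcon
  have hn1 : 1 ≤ n := le_trans (one_le_pow₀ hy1) hyn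
  have hn0 : 0 < n := by linarith
  have hhk : (0:ℝ) < H ^ k := by positivity
  have hnk0 : 0 < n / H ^ k := by positivity
  have hAB : 0 ≤ ε * (EB a b v l + EB a b v l₀) := mul_nonneg hε.le (add_nonneg hA0 hB0)
  have hnV : n / H ^ k < V := by linarith
  have hV0 : 0 < V := lt_trans hnk0 hnV
  have hnVk : n ≤ V * H ^ k := by
    rw [div_lt_iff₀ hhk] at hnV; exact hnV.le
  have hAV : ε * EB a b v l ≤ V := by nlinarith [mul_nonneg hε.le hB0]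
  have hBV : ε * EB a b v l₀ ≤ V := by nlinarith [mul_nonneg hε.le hA0]
  have hQ6 : 6 ≤ Q := by
    rw [hQ]
    have : (0:ℝ) ≤ q := Nat.cast_nonneg _
    linarith
  have hQ0 : 0 < Q := by linarith
  -- the levels
  obtain ⟨t₀, ht₀⟩ : ∃ t₀, t₀ = Real.sqrt (δ * V * y ^ 6 / n) := ⟨_, rfl⟩
  have ht₀sq : t₀ ^ 2 = δ * V * y ^ 6 / n := by rw [ht₀]; exact Real.sq_sqrt (by positivity)
  have ht₀pos : 0 < t₀ := by rw [ht₀]; exact Real.sqrt_pos.2 (by positivity)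
  obtain ⟨T, hT⟩ : ∃ T, T = t₀ * r ^ q := ⟨_, rfl⟩
  have hTsq : T ^ 2 = δ * V * y ^ 6 / n * H ^ (2 * k + 2) := by
    rw [hT, mul_pow, ht₀sq, hrq, ← pow_mul]
    congr 2
    ring
  obtain ⟨x, hx⟩ : ∃ x, x = 12 * b * d * ((l : ℝ) + 1) := ⟨_, rfl⟩
  have hxle : x ≤ 24 * b * d * y ^ 2 := by
    rw [hx, cl]
    have : (1:ℝ) ≤ y ^ 2 := one_le_pow₀ hy1
    have h3 : (0:ℝ) ≤ 12 * b * d := by positivity
    nlinarith
  have hx0 : 0 ≤ x := by rw [hx]; positivity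
  have hxt : x ≤ t₀ := by
    rw [ht₀]
    refine Real.le_sqrt_of_sq_le ?_
    have h1 : x ^ 2 ≤ (24 * b * d * y ^ 2) ^ 2 := pow_le_pow_left₀ hx0 hxle 2
    refine h1.trans ?_
    rw [le_div_iff₀ hn0]
    have h2 : (24 * b * d) ^ 2 * n ≤ (δ * y ^ 2) * V := by
      calc (24 * b * d) ^ 2 * n ≤ (24 * b * d) ^ 2 * (V * H ^ k) := by gcongr
        _ = ((24 * b * d) ^ 2 * H ^ k) * V := by ring
        _ ≤ (δ * y ^ 2) * V := by gcongr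
    calc (24 * b * d * y ^ 2) ^ 2 * n = ((24 * b * d) ^ 2 * n) * y ^ 4 := by ring
      _ ≤ ((δ * y ^ 2) * V) * y ^ 4 := by gcongr
      _ = δ * V * y ^ 6 := by ring
  have hxl : x ≤ (l₀ : ℝ) := by
    rw [cl0]
    calc x ≤ 24 * b * d * y ^ 2 := hxle
      _ ≤ y ^ 4 * y ^ 2 := by gcongr
      _ = y ^ 6 := by ring
  have hR0 : 0 < R := by
    have h1 : 0 < C₁ / p := by positivity
    exact_mod_cast lt_of_lt_of_le h1 hR
  have hhigh : ∀ i ∈ range M, V / (8 * Q) ≤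
      Ex (fun u => High a b v u l₀ (l₀ * R ^ i) x p t₀ T) := by
    intro i hi
    have hi' := mem_range.1 hi
    exact loc_scale ha hab ε hε k v l l₀ L (l₀ * R ^ i) y H hy1 hH cl0 hl0pos h00 hL0 hd1 hd2 hLN
      (Nat.mul_pos h00 (Nat.pow_pos hR0)) (hwL i hi') Ce hCe0 n hnn hyn (herr i hi') δ p r lam Q d q
      hQ hd hδ hδQ hlam hlamQ hr1 hp hlam3 E2 E3 V hV hV0 hnVk hAV hBV t₀ ht₀pos ht₀sq T hT hTsq
      x hx.ge
  -- sum over the scales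
  have hsum1 : (M : ℝ) * (V / (8 * Q)) ≤
      Ex (fun u : Vtx N => ∑ i ∈ range M,
        High a b v u l₀ (l₀ * R ^ i) x p t₀ T) := by
    rw [Ex_sum]
    calc (M : ℝ) * (V / (8 * Q)) = ∑ _i ∈ range M, V / (8 * Q) := by
          rw [sum_const, card_range, nsmul_eq_mul]
      _ ≤ _ := sum_le_sum hhigh
  have hl0N : l₀ ∣ N := dvd_trans hd2 hLN
  have hne : Nonempty (Vtx N) := ⟨0⟩
  have hsum2 : Ex (fun u : Vtx N => ∑ i ∈ range M,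
        High a b v u l₀ (l₀ * R ^ i) x p t₀ T) ≤
      q' * EB a b v l₀ + M * (T ^ 2 * (C₁ * (n / l₀ + 1 + l₀ * (R : ℝ) ^ M) *
        Real.exp (-(q' : ℝ) / (2 * R)))) := by
    have h1 := Ex_mono (Ω := Vtx N) (fun u => loc_pigeon (N := N) (a := a) (b := b) ha hab C₁ hrich
      v u (l₀ := l₀) h00 hl0N t₀ T x p ht₀pos hx0 hxt hxl hp hp1 R hRodd hR
      l₀ hW₀ M q')
    refine h1.trans (le_of_eq ?_)
    rw [Ex_add, Ex_mul_left, Ex_const, ← hnn]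
    rfl
  have hfin := hsum1.trans hsum2
  rw [cl0] at hfin
  generalize EB a b v l = A at *
  generalize EB a b v l₀ = B at *
  have h3 : T ^ 2 * (C₁ * (n / y ^ 6 + 1 + y ^ 6 * (R : ℝ) ^ M) *
        Real.exp (-(q' : ℝ) / (2 * R))) ≤
      (3 * δ * C₁ * H ^ (2 * k + 2) * Real.exp (-(q' : ℝ) / (2 * R))) * V := by
    rw [hTsq]
    have h4 : y ^ 6 / n * (n / y ^ 6 + 1 + y ^ 6 * (R : ℝ) ^ M) ≤ 3 := by
      have h6 : y ^ 6 / n * (n / y ^ 6 + 1 + y ^ 6 * (R : ℝ) ^ M) =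
          1 + y ^ 6 / n + y ^ 12 * (R : ℝ) ^ M / n := by
        field_simp
      rw [h6]
      have h7 : y ^ 6 / n ≤ 1 := by
        rw [div_le_one hn0]
        exact le_trans (pow_le_pow_right₀ hy1 (by norm_num)) hyn
      have h8 : y ^ 12 * (R : ℝ) ^ M / n ≤ 1 := by
        rw [div_le_one hn0]
        calc y ^ 12 * (R : ℝ) ^ M ≤ y ^ 12 * y := by gcongr
          _ = y ^ 13 := by ring
          _ ≤ n := hyn
      linarith
    have h9 : 0 ≤ δ * V * H ^ (2 * k + 2) * C₁ * Real.exp (-(q' : ℝ) / (2 * R)) := by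
      positivity
    calc δ * V * y ^ 6 / n * H ^ (2 * k + 2) *
          (C₁ * (n / y ^ 6 + 1 + y ^ 6 * (R : ℝ) ^ M) * Real.exp (-(q' : ℝ) / (2 * R)))
        = (δ * V * H ^ (2 * k + 2) * C₁ * Real.exp (-(q' : ℝ) / (2 * R))) *
          (y ^ 6 / n * (n / y ^ 6 + 1 + y ^ 6 * (R : ℝ) ^ M)) := by ring
      _ ≤ (δ * V * H ^ (2 * k + 2) * C₁ * Real.exp (-(q' : ℝ) / (2 * R))) * 3 :=
          mul_le_mul_of_nonneg_left h4 h9
      _ = _ := by ring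
  have hM0 : (0:ℝ) < M := by exact_mod_cast hM
  have h4 : (q' : ℝ) * B ≤ M * V / (16 * Q) := by
    calc (q' : ℝ) * B ≤ (ε * M / (16 * Q)) * B := mul_le_mul_of_nonneg_right hq' hB0
      _ = (M / (16 * Q)) * (ε * B) := by ring
      _ ≤ (M / (16 * Q)) * V := mul_le_mul_of_nonneg_left hBV (by positivity)
      _ = M * V / (16 * Q) := by ring
  have h5 : (M : ℝ) * (T ^ 2 * (C₁ * (n / y ^ 6 + 1 + y ^ 6 * (R : ℝ) ^ M) *
        Real.exp (-(q' : ℝ) / (2 * R)))) < M * (1 / (16 * Q) * V) := by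
    refine mul_lt_mul_of_pos_left (lt_of_le_of_lt h3 ?_) hM0
    exact mul_lt_mul_of_pos_right E8 hV0
  have h6 : (M : ℝ) * (V / (8 * Q)) = M * V / (16 * Q) + M * (1 / (16 * Q) * V) := by
    field_simp
    ring
  linarith

end

end Pool.FPP
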