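import Pool.Agent.FPP.INN
import Pool.Agent.FPP.CHG
import Pool.Agent.FPP.BAL
import Pool.Agent.FPP.AV

/-!
Module NTC: equivariance of increments, stability of near-tie tiles.
inc_sg: (res A w) under sg is the res of the shifted pair for the shifted tile (corner_innV_sub).
NT_of_inc: gam_meets gives an edge of the tile on the geodesic, geod_mem.
NT_change: change the tiles of S one at a time (dst_change with D = 2l), three distances in exc.
-/

set_option autoImplicit false

noncomputable section

namespace Pool.FPP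

open Finset

section

variable {N : ℕ} [NeZero N] {a b : ℝ}

/-- equivariance of the increments under inner shifts by multiples of `l₀` -/
theorem inc_sg {l₀ L : ℕ} (hl₀ : 0 < l₀) (h : l₀ ∣ L) (hL : 0 < L) (hLN : L ∣ N)
    (C : Vtx N) (hC : corner L C = C) (i j : ℕ) (F : (Edge N → Bool) → ℝ) (c₀ : Vtx N)
    (hc₀ : c₀ ∈ subTiles l₀ L C) (w : Edge N → Bool × Bool) :
    inc (tileE l₀ c₀) (fun ω => F (sg L C (l₀ * i, l₀ * j) ω)) w =
      inc (tileE l₀ (innV L C (l₀ * i, l₀ * j) c₀)) F
        (fun e => (sg L C (l₀ * i, l₀ * j) (fstc w) e, sg L C (l₀ * i, l₀ * j) (sndc w) e)) := by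
  have _ := hc₀
  have key : sg L C (l₀ * i, l₀ * j) (res (tileE l₀ c₀) w) =
      res (tileE l₀ (innV L C (l₀ * i, l₀ * j) c₀))
        (fun e => (sg L C (l₀ * i, l₀ * j) (fstc w) e, sg L C (l₀ * i, l₀ * j) (sndc w) e)) := by
    funext e
    set y : Vtx N := innV L C (L - (l₀ * i) % L, L - (l₀ * j) % L) e.1 with hy
    have hye : innV L C (l₀ * i, l₀ * j) y = e.1 :=
      (innV_innV hL hLN C hC (l₀ * i, l₀ * j) e.1).2
    have hmem : (y, e.2) ∈ tileE l₀ c₀ ↔
        e ∈ tileE l₀ (innV L C (l₀ * i, l₀ * j) c₀) := by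
      unfold tileE
      rw [Finset.mem_filter, Finset.mem_filter]
      simp only [Finset.mem_univ, true_and]
      have h1 := corner_innV_sub hl₀ h hL hLN C hC i j y
      rw [hye] at h1
      rw [h1]
      constructor
      · intro h2; rw [h2]
      · intro h2
        have h3 := (innV_innV hL hLN C hC (l₀ * i, l₀ * j) (corner l₀ y)).1
        have h4 := (innV_innV hL hLN C hC (l₀ * i, l₀ * j) c₀).1
        rw [h2] at h3
        rw [← h3, h4]
    show res (tileE l₀ c₀) w (y, e.2) = _
    unfold res mix
    by_cases hm : (y, e.2) ∈ tileE l₀ c₀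
    · rw [if_pos hm, if_pos (hmem.1 hm)]
      rfl
    · rw [if_neg hm, if_neg (fun h => hm (hmem.2 h))]
      rfl
  unfold inc
  simp only
  rw [key]
  rfl

/-- an increment makes the tile a near-tie tile of level 0 -/
theorem NT_of_inc (ha : 0 < a) (hab : a < b) {l₀ : ℕ} (v u c₀ : Vtx N) (w : Edge N → Bool × Bool)
    (h : 0 < inc (tileE l₀ c₀) (FF a b v u) w) : NT a b v u l₀ 0 (fstc w) c₀ := by
  have h1 : FF a b v u (fstc w) < FF a b v u (res (tileE l₀ c₀) w) := by
    unfold inc at h
    by_contra hcon
    push Not at hcon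
    rw [max_eq_left (by linarith)] at h
    exact lt_irrefl _ h
  obtain ⟨e, he⟩ := gam_meets ha hab v u (fstc w) (res (tileE l₀ c₀) w) (tileE l₀ c₀)
    (by
      intro e he
      unfold res mix
      rw [if_neg he]) h1
  rw [Finset.mem_inter] at he
  have he1 : e ∈ geo a b v u (fstc w) := by
    have := he.1
    unfold gam at this
    exact List.mem_toFinset.1 this
  have he2 : corner l₀ e.1 = c₀ := by
    have := he.2
    unfold tileE at this
    exact (Finset.mem_filter.1 this).2
  refine ⟨e.1, he2, ?_⟩
  have h2 := geod_mem ha hab (geo_walk ha hab v u (fstc w))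
    (by rw [geo_cost ha hab]; rfl) he1
  unfold exc
  rw [h2, sub_self]

/-- changing several tiles -/
private theorem ntc_dst (ha : 0 < a) (hab : a < b) {l : ℕ} (hl : 0 < l) (x y : Vtx N)
    (S : Finset (Vtx N)) : ∀ (ω ω' : Edge N → Bool), (∀ e ∉ U (tileE l) S, ω e = ω' e) →
      dst a b ω' x y ≤ dst a b ω x y + S.card * (b * (2 * l + 2)) := by
  induction S using Finset.induction_on with
  | empty =>
    intro ω ω' h
    have : ω = ω' := by
      funext e
      refine h e ?_
      unfold U
      rw [Finset.biUnion_empty]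
      exact Finset.notMem_empty e
    rw [this]
    simp
  | insert s S hs ih =>
    intro ω ω' h
    set ω'' : Edge N → Bool := fun e => if e ∈ tileE l s then ω' e else ω e with hω''
    have h1 : dst a b ω'' x y ≤ dst a b ω x y + b * (((2 * l : ℕ) : ℝ) + 2) := by
      refine dst_change ha hab ω ω'' (tileE l s) (2 * l) (tileE_diam hl s) (fun e he => ?_) x y
      simp only [hω'']
      rw [if_neg he]
    have h2 : dst a b ω' x y ≤ dst a b ω'' x y + S.card * (b * (2 * l + 2)) := by
      refine ih ω'' ω' (fun e he => ?_)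
      simp only [hω'']
      by_cases hm : e ∈ tileE l s
      · rw [if_pos hm]
      · rw [if_neg hm]
        refine h e ?_
        unfold U at he ⊢
        rw [Finset.biUnion_insert, Finset.mem_union]
        rintro (h3 | h3)
        · exact hm h3
        · exact he h3
    rw [Finset.card_insert_of_notMem hs]
    push_cast at h1 ⊢
    linarith

/-- changing at most `d` tiles of side `l` changes the near-tie level by at most
`3 * d * b * (2 * l + 2)` -/
theorem NT_change (ha : 0 < a) (hab : a < b) {l l₀ : ℕ} (hl : 0 < l) (v u : Vtx N)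
    (S : Finset (Vtx N)) (ω ω' : Edge N → Bool) (h : ∀ e ∉ U (tileE l) S, ω e = ω' e)
    (x : ℝ) (c : Vtx N) (hc : NT a b v u l₀ x ω c) :
    NT a b v u l₀ (x + 3 * S.card * b * (2 * l + 2)) ω' c := by
  obtain ⟨y, hy, hx⟩ := hc
  refine ⟨y, hy, ?_⟩
  have h' : ∀ e ∉ U (tileE l) S, ω' e = ω e := fun e he => (h e he).symm
  have h1 := ntc_dst ha hab hl u y S ω ω' h
  have h2 := ntc_dst ha hab hl y (u + v) S ω ω' h
  have h3 := ntc_dst ha hab hl u (u + v) S ω' ω h'
  unfold exc at hx ⊢
  linarith

end

end Pool.FPP
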