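import Pool.Agent.FPP.ES

/-!
Module PRJ: the block projections.
`cmp blk K J f = prod_{j in J} (1 - E_j) E_{K \ J} f` with `E_j = av (blk j)`; all `E_j` commute
(`av_av`).  Orthogonality: if `j ∈ J \ J'` then `E_j (cmp_J f) = 0` and `cmp_{J'} g` does not depend on
the coordinates of block `j` (j in K \ J'), so `E_j (product) = 0`; then use `av_av`.
Pd_tail: both sides in terms of components: `f - E_j f = sum of cmp_J with j ∈ J`.
-/

set_option autoImplicit false

noncomputable section

namespace Pool.FPP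

open Finset

section

variable {ι κ α : Type*} [Fintype ι] [DecidableEq ι] [Fintype α] [Nonempty α] [DecidableEq κ]

/-! ### auxiliary facts -/

omit [Fintype ι] in
theorem prj_U_union (blk : κ → Finset ι) (S T : Finset κ) :
    U blk (S ∪ T) = U blk S ∪ U blk T := by
  unfold U
  exact Finset.union_biUnion

omit [Fintype ι] [DecidableEq κ] in
theorem prj_U_singleton (blk : κ → Finset ι) (j : κ) : U blk {j} = blk j := by
  unfold U
  exact Finset.singleton_biUnion

theorem prj_avU (blk : κ → Finset ι) (S T : Finset κ) (f : (ι → α) → ℝ) :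
    av (U blk S) (av (U blk T) f) = av (U blk (S ∪ T)) f := by
  rw [av_av, prj_U_union]

theorem prj_av_sum {τ : Type*} (A : Finset ι) (s : Finset τ) (f : τ → (ι → α) → ℝ) :
    av A (fun ω => ∑ i ∈ s, f i ω) = fun ω => ∑ i ∈ s, av A (f i) ω := by
  funext ω
  exact av_sum A s f ω

theorem prj_av_mul (A : Finset ι) (c : ℝ) (f : (ι → α) → ℝ) :
    av A (fun ω => c * f ω) = fun ω => c * av A f ω := by
  funext ω
  exact av_mul_left A c f ω

omit [Nonempty α] in
theorem prj_cmp_def (blk : κ → Finset ι) (K J : Finset κ) (f : (ι → α) → ℝ) :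
    cmp blk K J f = fun ω =>
      ∑ T ∈ J.powerset, (-1 : ℝ) ^ T.card * av (U blk ((K \ J) ∪ T)) f ω := rfl

omit [Nonempty α] in
theorem prj_Pd_def (blk : κ → Finset ι) (K : Finset κ) (d : ℕ) (f : (ι → α) → ℝ) :
    Pd blk K d f = fun ω =>
      ∑ J ∈ K.powerset.filter (fun J => J.card ≤ d), cmp blk K J f ω := rfl

/-- averages commute with components -/
theorem prj_cmp_av (blk : κ → Finset ι) (K J T : Finset κ) (f : (ι → α) → ℝ) :
    cmp blk K J (av (U blk T) f) = av (U blk T) (cmp blk K J f) := by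
  rw [prj_cmp_def, prj_cmp_def, prj_av_sum]
  funext ω
  refine Finset.sum_congr rfl fun S _ => ?_
  rw [prj_av_mul, prj_avU, prj_avU, Finset.union_comm T]

theorem prj_cmp_add (blk : κ → Finset ι) (K J : Finset κ) (f g : (ι → α) → ℝ) (ω : ι → α) :
    cmp blk K J (fun ω => f ω + g ω) ω = cmp blk K J f ω + cmp blk K J g ω := by
  unfold cmp
  rw [← Finset.sum_add_distrib]
  refine Finset.sum_congr rfl fun S _ => ?_
  rw [av_add]
  ring

theorem prj_cmp_sub (blk : κ → Finset ι) (K J : Finset κ) (f g : (ι → α) → ℝ) (ω : ι → α) :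
    cmp blk K J (fun ω => f ω - g ω) ω = cmp blk K J f ω - cmp blk K J g ω := by
  unfold cmp
  rw [← Finset.sum_sub_distrib]
  refine Finset.sum_congr rfl fun S _ => ?_
  rw [av_sub]
  ring

theorem prj_cmp_sum' {τ : Type*} (blk : κ → Finset ι) (K J : Finset κ) (s : Finset τ)
    (f : τ → (ι → α) → ℝ) (ω : ι → α) :
    cmp blk K J (fun ω => ∑ i ∈ s, f i ω) ω = ∑ i ∈ s, cmp blk K J (f i) ω := by
  unfold cmp
  rw [Finset.sum_comm]
  refine Finset.sum_congr rfl fun S _ => ?_
  rw [av_sum, Finset.mul_sum]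

theorem prj_cmp_insert_left (blk : κ → Finset ι) {k : κ} {K J : Finset κ} (hk : k ∉ K)
    (hJ : J ⊆ K) (f : (ι → α) → ℝ) :
    cmp blk (insert k K) J f = cmp blk K J (av (U blk {k}) f) := by
  have hkJ : k ∉ J := fun h => hk (hJ h)
  rw [prj_cmp_def, prj_cmp_def]
  funext ω
  refine Finset.sum_congr rfl fun S _ => ?_
  rw [prj_avU]
  congr 3
  rw [Finset.insert_sdiff_of_notMem _ hkJ, Finset.insert_union, Finset.union_comm _ {k},
    ← Finset.insert_eq]

theorem prj_cmp_insert_both (blk : κ → Finset ι) {k : κ} {K J : Finset κ} (hk : k ∉ K)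
    (hJ : J ⊆ K) (f : (ι → α) → ℝ) (ω : ι → α) :
    cmp blk (insert k K) (insert k J) f ω =
      cmp blk K J f ω - cmp blk K J (av (U blk {k}) f) ω := by
  have hkJ : k ∉ J := fun h => hk (hJ h)
  have hs : insert k K \ insert k J = K \ J := by
    ext x
    simp only [Finset.mem_sdiff, Finset.mem_insert, not_or]
    constructor
    · rintro ⟨h1 | h1, h2, h3⟩
      · exact absurd h1 h2
      · exact ⟨h1, h3⟩
    · rintro ⟨h1, h2⟩
      exact ⟨Or.inr h1, fun h => hk (h ▸ h1), h2⟩
  unfold cmp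
  rw [hs, Finset.sum_powerset_insert hkJ, sub_eq_add_neg, ← Finset.sum_neg_distrib]
  congr 1
  refine Finset.sum_congr rfl fun S hS => ?_
  have hkS : k ∉ S := fun h => hkJ (Finset.mem_powerset.1 hS h)
  rw [Finset.card_insert_of_notMem hkS, prj_avU, pow_succ]
  have he : K \ J ∪ insert k S = K \ J ∪ S ∪ {k} := by
    ext x
    simp only [Finset.mem_union, Finset.mem_insert, Finset.mem_singleton]
    tauto
  rw [he]
  ring

/-- average of a component -/
theorem prj_av_cmp (blk : κ → Finset ι) (K J T : Finset κ) (hT : T ⊆ K) (hJ : J ⊆ K)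
    (f : (ι → α) → ℝ) :
    av (U blk T) (cmp blk K J f) = if Disjoint T J then cmp blk K J f else fun _ => 0 := by
  classical
  rw [prj_cmp_def, prj_av_sum]
  split_ifs with h
  · funext ω
    refine Finset.sum_congr rfl fun S _ => ?_
    have he : T ∪ (K \ J ∪ S) = K \ J ∪ S := by
      ext x
      simp only [Finset.mem_union, Finset.mem_sdiff]
      constructor
      · rintro (h1 | h1)
        · exact Or.inl ⟨hT h1, fun h2 => Finset.disjoint_left.1 h h1 h2⟩
        · exact h1
      · intro h1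
        exact Or.inr h1
    rw [prj_av_mul, prj_avU, he]
  · obtain ⟨j, hjT, hjJ⟩ := Finset.not_disjoint_iff.1 h
    funext ω
    rw [← Finset.insert_erase hjJ, Finset.sum_powerset_insert (Finset.notMem_erase j J),
      ← Finset.sum_add_distrib]
    refine Finset.sum_eq_zero fun S hS => ?_
    have hjS : j ∉ S := fun h => Finset.notMem_erase j J (Finset.mem_powerset.1 hS h)
    rw [prj_av_mul, prj_av_mul, prj_avU, prj_avU, Finset.card_insert_of_notMem hjS, pow_succ]
    have he : T ∪ (K \ insert j (J.erase j) ∪ insert j S) =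
        T ∪ (K \ insert j (J.erase j) ∪ S) := by
      ext x
      simp only [Finset.mem_union, Finset.mem_insert]
      constructor
      · rintro (h1 | h1 | h1 | h1)
        · exact Or.inl h1
        · exact Or.inr (Or.inl h1)
        · exact Or.inl (h1 ▸ hjT)
        · exact Or.inr (Or.inr h1)
      · rintro (h1 | h1 | h1)
        · exact Or.inl h1
        · exact Or.inr (Or.inl h1)
        · exact Or.inr (Or.inr (Or.inr h1))
    rw [he]
    ring

/-- sum of all components -/
theorem cmp_sum (blk : κ → Finset ι) (K : Finset κ) (f : (ι → α) → ℝ) (ω : ι → α) :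
    ∑ J ∈ K.powerset, cmp blk K J f ω = f ω := by
  classical
  induction K using Finset.induction_on generalizing f ω with
  | empty =>
    simp only [Finset.powerset_empty, Finset.sum_singleton]
    unfold cmp
    simp only [Finset.powerset_empty, Finset.sum_singleton, Finset.card_empty, pow_zero, one_mul,
      Finset.sdiff_empty, Finset.union_empty]
    have : U blk (∅ : Finset κ) = ∅ := by unfold U; exact Finset.biUnion_empty
    rw [this, av_empty]
  | insert k K hk ih =>
    rw [Finset.sum_powerset_insert hk, ← Finset.sum_add_distrib]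
    calc ∑ J ∈ K.powerset, (cmp blk (insert k K) J f ω + cmp blk (insert k K) (insert k J) f ω)
        = ∑ J ∈ K.powerset, cmp blk K J f ω := by
          refine Finset.sum_congr rfl fun J hJ => ?_
          rw [prj_cmp_insert_left blk hk (Finset.mem_powerset.1 hJ),
            prj_cmp_insert_both blk hk (Finset.mem_powerset.1 hJ)]
          ring
      _ = f ω := ih f ω

theorem prj_cmp_empty (blk : κ → Finset ι) (K : Finset κ) (f : (ι → α) → ℝ) :
    cmp blk K ∅ f = av (U blk K) f := by
  rw [prj_cmp_def]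
  funext ω
  simp only [Finset.powerset_empty, Finset.sum_singleton, Finset.card_empty, pow_zero, one_mul,
    Finset.sdiff_empty, Finset.union_empty]

/-- pure components: orthogonality -/
theorem cmp_orth (blk : κ → Finset ι) (hdisj : ∀ i j, i ≠ j → Disjoint (blk i) (blk j))
    (K J J' T : Finset κ) (hJ : J ⊆ K) (hJ' : J' ⊆ K) (j : κ) (hj : j ∈ J) (hj' : j ∉ J')
    (hjT : j ∈ T) (f g : (ι → α) → ℝ) (ω : ι → α) :
    av (U blk T) (fun ω => cmp blk K J f ω * cmp blk K J' g ω) ω = 0 := by
  classical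
  have hjK : ({j} : Finset κ) ⊆ K := Finset.singleton_subset_iff.2 (hJ hj)
  have h1 : av (U blk {j}) (cmp blk K J f) = fun _ => 0 := by
    rw [prj_av_cmp blk K J {j} hjK hJ, if_neg]
    rw [Finset.disjoint_singleton_left]
    exact fun h => h hj
  have h2 : av (U blk {j}) (cmp blk K J' g) = cmp blk K J' g := by
    rw [prj_av_cmp blk K J' {j} hjK hJ', if_pos]
    rw [Finset.disjoint_singleton_left]
    exact hj'
  have h3 : ∀ η ω, cmp blk K J' g (mix (U blk {j}) η ω) = cmp blk K J' g ω := by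
    intro η ω
    rw [← h2]
    exact av_mix _ _ η ω
  have h4 : av (U blk {j}) (fun ω => cmp blk K J f ω * cmp blk K J' g ω) = fun _ => 0 := by
    funext ω
    have := av_mul_of_indep (U blk {j}) (cmp blk K J f) (cmp blk K J' g) h3 ω
    rw [h1] at this
    simp only [mul_zero] at this
    rw [← this]
    congr 1
    funext ω
    ring
  have h5 : T = T ∪ {j} := by
    rw [Finset.union_comm, ← Finset.insert_eq, Finset.insert_eq_of_mem hjT]
  rw [h5, ← prj_avU, h4]
  exact av_const _ _ _

theorem prj_alt_sum (A B : Finset κ) :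
    ∑ T ∈ A.powerset, (-1 : ℝ) ^ T.card * (if Disjoint T B then (1 : ℝ) else 0) =
      if A ⊆ B then 1 else 0 := by
  classical
  have h1 : ∑ T ∈ A.powerset, (-1 : ℝ) ^ T.card * (if Disjoint T B then (1 : ℝ) else 0) =
      ∑ T ∈ (A \ B).powerset, (-1 : ℝ) ^ T.card := by
    simp only [mul_ite, mul_one, mul_zero]
    rw [← Finset.sum_filter]
    refine Finset.sum_congr ?_ fun _ _ => rfl
    ext T
    simp only [Finset.mem_filter, Finset.mem_powerset, Finset.subset_sdiff]
  rw [h1]
  have h2 := Finset.sum_powerset_neg_one_pow_card (x := A \ B)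
  have h3 : (∑ T ∈ (A \ B).powerset, (-1 : ℝ) ^ T.card) = if A \ B = ∅ then 1 else 0 := by
    have := congrArg (fun z : ℤ => (z : ℝ)) h2
    push_cast at this
    exact this
  rw [h3]
  simp only [Finset.sdiff_eq_empty_iff_subset]

/-- components of components -/
theorem cmp_cmp (blk : κ → Finset ι) (hdisj : ∀ i j, i ≠ j → Disjoint (blk i) (blk j))
    (K J S : Finset κ) (hJ : J ⊆ K) (hS : S ⊆ K) (f : (ι → α) → ℝ) :
    cmp blk K S (cmp blk K J f) = if S = J then cmp blk K J f else fun _ => 0 := by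
  classical
  have key : cmp blk K S (cmp blk K J f) = fun ω =>
      (∑ T ∈ S.powerset, (-1 : ℝ) ^ T.card *
        (if Disjoint ((K \ S) ∪ T) J then (1 : ℝ) else 0)) * cmp blk K J f ω := by
    rw [prj_cmp_def blk K S]
    funext ω
    rw [Finset.sum_mul]
    refine Finset.sum_congr rfl fun T hT => ?_
    have hT' : (K \ S) ∪ T ⊆ K :=
      Finset.union_subset Finset.sdiff_subset ((Finset.mem_powerset.1 hT).trans hS)
    rw [prj_av_cmp blk K J _ hT' hJ]
    split_ifs <;> ring
  rw [key]
  by_cases hJS : J ⊆ S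
  · have h1 : ∀ T ∈ S.powerset, (-1 : ℝ) ^ T.card *
        (if Disjoint ((K \ S) ∪ T) J then (1 : ℝ) else 0) =
        (-1 : ℝ) ^ T.card * (if Disjoint T J then (1 : ℝ) else 0) := by
      intro T _
      have : Disjoint ((K \ S) ∪ T) J ↔ Disjoint T J := by
        rw [Finset.disjoint_union_left]
        constructor
        · exact fun h => h.2
        · refine fun h => ⟨?_, h⟩
          rw [Finset.disjoint_left]
          intro x hx hxJ
          exact (Finset.mem_sdiff.1 hx).2 (hJS hxJ)
      simp only [this]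
    rw [Finset.sum_congr rfl h1, prj_alt_sum]
    by_cases h : S = J
    · subst h
      simp
    · have h2 : ¬ S ⊆ J := fun h3 => h (Finset.Subset.antisymm h3 hJS)
      rw [if_neg h2, if_neg h]
      funext ω
      ring
  · have h : S ≠ J := fun h => hJS (h ▸ Finset.Subset.refl _)
    rw [if_neg h]
    obtain ⟨x, hxJ, hxS⟩ := Finset.not_subset.1 hJS
    have h1 : ∀ T ∈ S.powerset, (-1 : ℝ) ^ T.card *
        (if Disjoint ((K \ S) ∪ T) J then (1 : ℝ) else 0) = 0 := by
      intro T _
      rw [if_neg, mul_zero]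
      intro h2
      exact Finset.disjoint_left.1 h2
        (Finset.mem_union_left _ (Finset.mem_sdiff.2 ⟨hJ hxJ, hxS⟩)) hxJ
    rw [Finset.sum_eq_zero h1]
    funext ω
    ring

/-- `D_S` of a component -/
theorem cmp_self_cmp (blk : κ → Finset ι) (hdisj : ∀ i j, i ≠ j → Disjoint (blk i) (blk j))
    (K J S : Finset κ) (hJ : J ⊆ K) (hS : S ⊆ K) (f : (ι → α) → ℝ) :
    cmp blk S S (cmp blk K J f) = if S ⊆ J then cmp blk K J f else fun _ => 0 := by
  classical
  have key : cmp blk S S (cmp blk K J f) = fun ω =>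
      (∑ T ∈ S.powerset, (-1 : ℝ) ^ T.card *
        (if Disjoint T J then (1 : ℝ) else 0)) * cmp blk K J f ω := by
    rw [prj_cmp_def blk S S]
    funext ω
    rw [Finset.sum_mul]
    refine Finset.sum_congr rfl fun T hT => ?_
    rw [Finset.sdiff_self, Finset.empty_union,
      prj_av_cmp blk K J _ ((Finset.mem_powerset.1 hT).trans hS) hJ]
    split_ifs <;> ring
  rw [key, prj_alt_sum]
  split_ifs
  · funext ω
    ring
  · funext ω
    ring

theorem Pd_add (blk : κ → Finset ι) (K : Finset κ) (d : ℕ) (f g : (ι → α) → ℝ) :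
    Pd blk K d (fun ω => f ω + g ω) = fun ω => Pd blk K d f ω + Pd blk K d g ω := by
  rw [prj_Pd_def, prj_Pd_def, prj_Pd_def]
  funext ω
  rw [← Finset.sum_add_distrib]
  exact Finset.sum_congr rfl fun J _ => prj_cmp_add blk K J f g ω

theorem Pd_sub (blk : κ → Finset ι) (K : Finset κ) (d : ℕ) (f g : (ι → α) → ℝ) :
    Pd blk K d (fun ω => f ω - g ω) = fun ω => Pd blk K d f ω - Pd blk K d g ω := by
  rw [prj_Pd_def, prj_Pd_def, prj_Pd_def]
  funext ω
  rw [← Finset.sum_sub_distrib]
  exact Finset.sum_congr rfl fun J _ => prj_cmp_sub blk K J f g ω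

theorem Pd_av_comm (blk : κ → Finset ι) (hdisj : ∀ i j, i ≠ j → Disjoint (blk i) (blk j))
    (K T : Finset κ) (hT : T ⊆ K) (d : ℕ) (f : (ι → α) → ℝ) :
    Pd blk K d (av (U blk T) f) = av (U blk T) (Pd blk K d f) := by
  rw [prj_Pd_def, prj_Pd_def, prj_av_sum]
  funext ω
  refine Finset.sum_congr rfl fun J _ => ?_
  rw [prj_cmp_av]

theorem av_Pd (blk : κ → Finset ι) (hdisj : ∀ i j, i ≠ j → Disjoint (blk i) (blk j))
    (K : Finset κ) (d : ℕ) (f : (ι → α) → ℝ) :
    av (U blk K) (Pd blk K d f) = av (U blk K) f := by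
  classical
  rw [prj_Pd_def, prj_av_sum]
  funext ω
  rw [Finset.sum_eq_single (∅ : Finset κ)]
  · rw [prj_av_cmp blk K ∅ K (Finset.Subset.refl _) (Finset.empty_subset _),
      if_pos (Finset.disjoint_empty_right _), prj_cmp_empty]
  · intro J hJ hJ0
    have hJK : J ⊆ K := Finset.mem_powerset.1 (Finset.mem_filter.1 hJ).1
    rw [prj_av_cmp blk K J K (Finset.Subset.refl _) hJK, if_neg]
    intro h
    apply hJ0
    rw [← Finset.disjoint_self_iff_empty]
    exact Finset.disjoint_of_subset_left hJK h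
  · intro h
    exfalso
    apply h
    simp

theorem Pd_idem (blk : κ → Finset ι) (hdisj : ∀ i j, i ≠ j → Disjoint (blk i) (blk j))
    (K : Finset κ) (d : ℕ) (f : (ι → α) → ℝ) :
    Pd blk K d (Pd blk K d f) = Pd blk K d f := by
  classical
  rw [prj_Pd_def blk K d (Pd blk K d f)]
  funext ω
  have h1 : ∀ S ∈ K.powerset.filter (fun J => J.card ≤ d),
      cmp blk K S (Pd blk K d f) ω = cmp blk K S f ω := by
    intro S hS
    have hSK : S ⊆ K := Finset.mem_powerset.1 (Finset.mem_filter.1 hS).1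
    rw [prj_Pd_def, prj_cmp_sum']
    rw [Finset.sum_eq_single S]
    · rw [cmp_cmp blk hdisj K S S hSK hSK, if_pos rfl]
    · intro J hJ hJS
      have hJK : J ⊆ K := Finset.mem_powerset.1 (Finset.mem_filter.1 hJ).1
      rw [cmp_cmp blk hdisj K J S hJK hSK, if_neg (fun h => hJS h.symm)]
    · intro h
      exact absurd hS h
  rw [Finset.sum_congr rfl h1]
  rfl

/-- Parseval for families of components -/
theorem prj_parseval (blk : κ → Finset ι) (hdisj : ∀ i j, i ≠ j → Disjoint (blk i) (blk j))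
    (K : Finset κ) (A B : Finset (Finset κ)) (hA : A ⊆ K.powerset) (hB : B ⊆ K.powerset)
    (f g : (ι → α) → ℝ) (ω : ι → α) :
    av (U blk K) (fun ω => (∑ J ∈ A, cmp blk K J f ω) * (∑ J ∈ B, cmp blk K J g ω)) ω =
      ∑ J ∈ A ∩ B, av (U blk K) (fun ω => cmp blk K J f ω * cmp blk K J g ω) ω := by
  classical
  have h1 : (fun ω => (∑ J ∈ A, cmp blk K J f ω) * (∑ J ∈ B, cmp blk K J g ω)) =
      fun ω => ∑ J ∈ A, ∑ J' ∈ B, cmp blk K J f ω * cmp blk K J' g ω := by
    funext ω
    rw [Finset.sum_mul_sum]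
  rw [h1, av_sum]
  have h2 : ∀ J ∈ A, av (U blk K) (fun ω => ∑ J' ∈ B, cmp blk K J f ω * cmp blk K J' g ω) ω =
      if J ∈ B then av (U blk K) (fun ω => cmp blk K J f ω * cmp blk K J g ω) ω else 0 := by
    intro J hJ
    have hJK : J ⊆ K := Finset.mem_powerset.1 (hA hJ)
    rw [av_sum]
    have h3 : ∀ J' ∈ B, J' ≠ J →
        av (U blk K) (fun ω => cmp blk K J f ω * cmp blk K J' g ω) ω = 0 := by
      intro J' hJ' hne
      have hJ'K : J' ⊆ K := Finset.mem_powerset.1 (hB hJ')
      by_cases hsub : J ⊆ J'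
      · have : ¬ J' ⊆ J := fun h => hne (Finset.Subset.antisymm h hsub)
        obtain ⟨j, hj', hj⟩ := Finset.not_subset.1 this
        have h4 := cmp_orth blk hdisj K J' J K hJ'K hJK j hj' hj (hJ'K hj') g f ω
        rw [← h4]
        congr 1
        funext ω
        ring
      · obtain ⟨j, hj, hj'⟩ := Finset.not_subset.1 hsub
        exact cmp_orth blk hdisj K J J' K hJK hJ'K j hj hj' (hJK hj) f g ω
    split_ifs with hJB
    · rw [Finset.sum_eq_single J]
      · intro J' hJ' hne
        exact h3 J' hJ' hne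
      · intro h
        exact absurd hJB h
    · refine Finset.sum_eq_zero fun J' hJ' => h3 J' hJ' ?_
      rintro rfl
      exact hJB hJ'
  rw [Finset.sum_congr rfl h2, ← Finset.sum_filter, Finset.filter_mem_eq_inter]

theorem Pd_selfadj (blk : κ → Finset ι) (hdisj : ∀ i j, i ≠ j → Disjoint (blk i) (blk j))
    (K : Finset κ) (d : ℕ) (f g : (ι → α) → ℝ) (ω : ι → α) :
    av (U blk K) (fun ω => Pd blk K d f ω * g ω) ω =
      av (U blk K) (fun ω => f ω * Pd blk K d g ω) ω := by
  classical
  have h1 : (fun ω => Pd blk K d f ω * g ω) = fun ω =>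
      (∑ J ∈ K.powerset.filter (fun J => J.card ≤ d), cmp blk K J f ω) *
        (∑ J ∈ K.powerset, cmp blk K J g ω) := by
    funext ω
    rw [cmp_sum]
    rfl
  have h2 : (fun ω => f ω * Pd blk K d g ω) = fun ω =>
      (∑ J ∈ K.powerset, cmp blk K J f ω) *
      (∑ J ∈ K.powerset.filter (fun J => J.card ≤ d), cmp blk K J g ω) := by
    funext ω
    rw [cmp_sum]
    rfl
  rw [h1, h2, prj_parseval blk hdisj K _ _ (Finset.filter_subset _ _) (Finset.Subset.refl _),
    prj_parseval blk hdisj K _ _ (Finset.Subset.refl _) (Finset.filter_subset _ _),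
    Finset.inter_comm]

/-- energy of a component -/
theorem prj_sq (blk : κ → Finset ι) (hdisj : ∀ i j, i ≠ j → Disjoint (blk i) (blk j))
    (K : Finset κ) (A : Finset (Finset κ)) (hA : A ⊆ K.powerset)
    (f : (ι → α) → ℝ) (ω : ι → α) :
    av (U blk K) (fun ω => (∑ J ∈ A, cmp blk K J f ω) ^ 2) ω =
      ∑ J ∈ A, av (U blk K) (fun ω => cmp blk K J f ω ^ 2) ω := by
  classical
  have h := prj_parseval blk hdisj K A A hA hA f f ω
  rw [Finset.inter_self] at h
  simp only [pow_two]
  exact h

/-- `Pd` is a contraction -/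
theorem Pd_sq_le (blk : κ → Finset ι) (hdisj : ∀ i j, i ≠ j → Disjoint (blk i) (blk j))
    (K : Finset κ) (d : ℕ) (f : (ι → α) → ℝ) (ω : ι → α) :
    av (U blk K) (fun ω => Pd blk K d f ω ^ 2) ω ≤ av (U blk K) (fun ω => f ω ^ 2) ω := by
  classical
  have h1 := prj_sq blk hdisj K (K.powerset.filter (fun J => J.card ≤ d))
    (Finset.filter_subset _ _) f ω
  have h2 := prj_sq blk hdisj K K.powerset (Finset.Subset.refl _) f ω
  have h3 : (fun ω => (∑ J ∈ K.powerset, cmp blk K J f ω) ^ 2) = fun ω => f ω ^ 2 := by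
    funext ω
    rw [cmp_sum]
  rw [h3] at h2
  have h4 : av (U blk K) (fun ω => Pd blk K d f ω ^ 2) ω =
      ∑ J ∈ K.powerset.filter (fun J => J.card ≤ d),
        av (U blk K) (fun ω => cmp blk K J f ω ^ 2) ω := h1
  rw [h4, h2]
  refine Finset.sum_le_sum_of_subset_of_nonneg (Finset.filter_subset _ _) fun J _ _ => ?_
  exact av_nonneg _ (fun ω => sq_nonneg _) ω

theorem prj_sub_Pd (blk : κ → Finset ι) (K : Finset κ) (d : ℕ) (f : (ι → α) → ℝ)
    (ω : ι → α) :
    f ω - Pd blk K d f ω =
      ∑ J ∈ K.powerset.filter (fun J => ¬ J.card ≤ d), cmp blk K J f ω := by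
  classical
  have h1 := cmp_sum blk K f ω
  rw [← Finset.sum_filter_add_sum_filter_not K.powerset (fun J => J.card ≤ d)] at h1
  have h2 : Pd blk K d f ω = ∑ J ∈ K.powerset.filter (fun J => J.card ≤ d), cmp blk K J f ω := rfl
  rw [h2]
  linarith

theorem prj_sub_av (blk : κ → Finset ι) (K : Finset κ) (j : κ) (hj : j ∈ K)
    (f : (ι → α) → ℝ) (ω : ι → α) :
    f ω - av (blk j) f ω =
      ∑ J ∈ K.powerset.filter (fun J => j ∈ J), cmp blk K J f ω := by
  classical
  have h1 := cmp_sum blk K f ω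
  have h2 : av (blk j) f = av (U blk {j}) f := by rw [prj_U_singleton]
  have h3 := cmp_sum blk K (av (U blk {j}) f) ω
  rw [h2, ← h3]
  nth_rewrite 1 [← h1]
  rw [← Finset.sum_sub_distrib, Finset.sum_filter]
  refine Finset.sum_congr rfl fun J hJ => ?_
  have hJK : J ⊆ K := Finset.mem_powerset.1 hJ
  rw [prj_cmp_av, prj_av_cmp blk K J {j} (Finset.singleton_subset_iff.2 hj) hJK]
  by_cases h : j ∈ J
  · rw [if_neg (by rw [Finset.disjoint_singleton_left]; exact fun h' => h' h), if_pos h, sub_zero]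
  · rw [if_pos (by rw [Finset.disjoint_singleton_left]; exact h), if_neg h, sub_self]

/-- the part of degree more than `d` is controlled by the sum of the block variances -/
theorem Pd_tail (blk : κ → Finset ι) (hdisj : ∀ i j, i ≠ j → Disjoint (blk i) (blk j))
    (K : Finset κ) (d : ℕ) (f : (ι → α) → ℝ) (ω : ι → α) :
    ((d : ℝ) + 1) * av (U blk K) (fun ω => (f ω - Pd blk K d f ω) ^ 2) ω ≤
      ∑ j ∈ K, av (U blk K) (fun ω => (f ω - av (blk j) f ω) ^ 2) ω := by
  classical
  set e : Finset κ → ℝ := fun J => av (U blk K) (fun ω => cmp blk K J f ω ^ 2) ω with he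
  have he0 : ∀ J, 0 ≤ e J := fun J => av_nonneg _ (fun ω => sq_nonneg _) ω
  have h1 : av (U blk K) (fun ω => (f ω - Pd blk K d f ω) ^ 2) ω =
      ∑ J ∈ K.powerset.filter (fun J => ¬ J.card ≤ d), e J := by
    have := prj_sq blk hdisj K (K.powerset.filter (fun J => ¬ J.card ≤ d))
      (Finset.filter_subset _ _) f ω
    rw [he, ← this]
    congr 1
    funext ω
    rw [prj_sub_Pd]
  have h2 : ∀ j ∈ K, av (U blk K) (fun ω => (f ω - av (blk j) f ω) ^ 2) ω =
      ∑ J ∈ K.powerset.filter (fun J => j ∈ J), e J := by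
    intro j hj
    have := prj_sq blk hdisj K (K.powerset.filter (fun J => j ∈ J))
      (Finset.filter_subset _ _) f ω
    rw [he, ← this]
    congr 1
    funext ω
    rw [prj_sub_av blk K j hj]
  rw [h1, Finset.sum_congr rfl h2]
  have h3 : ∑ j ∈ K, ∑ J ∈ K.powerset.filter (fun J => j ∈ J), e J =
      ∑ J ∈ K.powerset, (J.card : ℝ) * e J := by
    simp only [Finset.sum_filter]
    rw [Finset.sum_comm]
    refine Finset.sum_congr rfl fun J hJ => ?_
    rw [← Finset.sum_filter, Finset.filter_mem_eq_inter,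
      Finset.inter_eq_right.2 (Finset.mem_powerset.1 hJ), Finset.sum_const, nsmul_eq_mul]
  rw [h3, Finset.mul_sum]
  calc ∑ J ∈ K.powerset.filter (fun J => ¬ J.card ≤ d), ((d : ℝ) + 1) * e J
      ≤ ∑ J ∈ K.powerset.filter (fun J => ¬ J.card ≤ d), (J.card : ℝ) * e J := by
        refine Finset.sum_le_sum fun J hJ => ?_
        have h4 : d + 1 ≤ J.card := by
          have := (Finset.mem_filter.1 hJ).2
          omega
        have h5 : (d : ℝ) + 1 ≤ J.card := by exact_mod_cast h4
        exact mul_le_mul_of_nonneg_right h5 (he0 J)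
    _ ≤ ∑ J ∈ K.powerset, (J.card : ℝ) * e J := by
        refine Finset.sum_le_sum_of_subset_of_nonneg (Finset.filter_subset _ _) fun J _ _ => ?_
        exact mul_nonneg (Nat.cast_nonneg _) (he0 J)

/-- Pythagoras: variance = variance of the low part + norm of the high part -/
theorem Pd_pyth (blk : κ → Finset ι) (hdisj : ∀ i j, i ≠ j → Disjoint (blk i) (blk j))
    (K : Finset κ) (d : ℕ) (f : (ι → α) → ℝ) (ω : ι → α) :
    av (U blk K) (fun ω => (f ω - av (U blk K) f ω) ^ 2) ω =
      av (U blk K) (fun ω => (Pd blk K d f ω - av (U blk K) f ω) ^ 2) ω +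
        av (U blk K) (fun ω => (f ω - Pd blk K d f ω) ^ 2) ω := by
  classical
  set e : Finset κ → ℝ := fun J => av (U blk K) (fun ω => cmp blk K J f ω ^ 2) ω with he
  have h0 : ∀ ω, av (U blk K) f ω = cmp blk K ∅ f ω := by
    intro ω
    rw [prj_cmp_empty]
  have hlow : ∀ ω, Pd blk K d f ω - av (U blk K) f ω =
      ∑ J ∈ (K.powerset.filter (fun J => J.card ≤ d)).erase ∅, cmp blk K J f ω := by
    intro ω
    have hmem : (∅ : Finset κ) ∈ K.powerset.filter (fun J => J.card ≤ d) := by simp
    have h2 : Pd blk K d f ω =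
      ∑ J ∈ K.powerset.filter (fun J => J.card ≤ d), cmp blk K J f ω := rfl
    rw [h2, h0, ← Finset.add_sum_erase _ _ hmem]
    ring
  have hall : ∀ ω, f ω - av (U blk K) f ω =
      ∑ J ∈ K.powerset.erase ∅, cmp blk K J f ω := by
    intro ω
    have hmem : (∅ : Finset κ) ∈ K.powerset := by simp
    have h2 := cmp_sum blk K f ω
    rw [← Finset.add_sum_erase _ _ hmem] at h2
    rw [h0]
    linarith
  have h1 : av (U blk K) (fun ω => (f ω - Pd blk K d f ω) ^ 2) ω =
      ∑ J ∈ K.powerset.filter (fun J => ¬ J.card ≤ d), e J := by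
    have := prj_sq blk hdisj K (K.powerset.filter (fun J => ¬ J.card ≤ d))
      (Finset.filter_subset _ _) f ω
    rw [he, ← this]
    congr 1
    funext ω
    rw [prj_sub_Pd]
  have h2 : av (U blk K) (fun ω => (Pd blk K d f ω - av (U blk K) f ω) ^ 2) ω =
      ∑ J ∈ (K.powerset.filter (fun J => J.card ≤ d)).erase ∅, e J := by
    have := prj_sq blk hdisj K ((K.powerset.filter (fun J => J.card ≤ d)).erase ∅)
      ((Finset.erase_subset _ _).trans (Finset.filter_subset _ _)) f ω
    rw [he, ← this]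
    congr 1
    funext ω
    rw [hlow]
  have h3 : av (U blk K) (fun ω => (f ω - av (U blk K) f ω) ^ 2) ω =
      ∑ J ∈ K.powerset.erase ∅, e J := by
    have := prj_sq blk hdisj K (K.powerset.erase ∅) (Finset.erase_subset _ _) f ω
    rw [he, ← this]
    congr 1
    funext ω
    rw [hall]
  rw [h1, h2, h3]
  have h4 : K.powerset.erase ∅ = (K.powerset.filter (fun J => J.card ≤ d)).erase ∅ ∪
      K.powerset.filter (fun J => ¬ J.card ≤ d) := by
    ext J
    simp only [Finset.mem_erase, Finset.mem_union, Finset.mem_filter]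
    constructor
    · rintro ⟨h, h'⟩
      by_cases hd : J.card ≤ d
      · exact Or.inl ⟨h, h', hd⟩
      · exact Or.inr ⟨h', hd⟩
    · rintro (⟨h, h', _⟩ | ⟨h', hd⟩)
      · exact ⟨h, h'⟩
      · refine ⟨?_, h'⟩
        rintro rfl
        simp at hd
  rw [h4, Finset.sum_union]
  rw [Finset.disjoint_left]
  intro J hJ hJ'
  exact (Finset.mem_filter.1 hJ').2 (Finset.mem_filter.1 (Finset.mem_erase.1 hJ).2).2

end

end Pool.FPP
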