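import Pool.Agent.FPP.SHL

/-!
Module SHA: the averaged L1 bound.
card_layer_shift: the translate e + u is in the layer of its tile only if one of its two offsets is in
{0..m-1} or {L-m..L-1}: at most 4 m L of the L^2 offsets.
shift_avg: Ex|F - F∘sg| = 2 Ex (F∘sg - F)_+ (measure preserving); sum FF_sg_le over the tiles; the
geodesic edge sets are equivariant (gam_shift), so averaging over u gives E|gam 0| * 8m/L.
-/

set_option autoImplicit false

noncomputable section

namespace Pool.FPP

open Finset

section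

variable {N : ℕ} [NeZero N] {a b : ℝ}

private theorem card_range_mod (L M : ℕ) (p : ℕ → Prop) [DecidablePred p] :
    ((range (L * M)).filter (fun k => p (k % L))).card =
      M * ((range L).filter (fun k => p k)).card := by
  induction M with
  | zero => simp
  | succ M ih =>
    rw [mul_add, mul_one, card_filter, sum_range_add, ← card_filter, ih, add_mul, one_mul]
    congr 1
    rw [card_filter]
    apply sum_congr rfl
    intro x hx
    rw [Nat.mul_add_mod, Nat.mod_eq_of_lt (mem_range.mp hx)]

private theorem card_zmod_mod {L : ℕ} (hLN : L ∣ N) (p : ℕ → Prop) [DecidablePred p] :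
    ((univ : Finset (ZMod N)).filter (fun x => p (x.val % L))).card =
      N / L * ((range L).filter (fun k => p k)).card := by
  obtain ⟨M, hM⟩ := hLN
  have hN : 0 < N := Nat.pos_of_ne_zero (NeZero.ne N)
  have hL : 0 < L := by
    rcases Nat.eq_zero_or_pos L with h | h
    · rw [h, zero_mul] at hM; omega
    · exact h
  have h1 : N / L = M := by rw [hM, Nat.mul_div_cancel_left _ hL]
  rw [h1, ← card_range_mod]
  refine card_nbij' (fun x => x.val) (fun k => (k : ZMod N)) ?_ ?_ ?_ ?_
  · intro x hx
    simp only [coe_filter, mem_univ, true_and, Set.mem_ofPred_eq, mem_range] at hx ⊢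
    exact ⟨hM ▸ ZMod.val_lt x, hx⟩
  · intro k hk
    simp only [coe_filter, mem_univ, true_and, Set.mem_ofPred_eq, mem_range] at hk ⊢
    have hkN : k < N := by rw [hM]; exact hk.1
    rw [ZMod.val_natCast, Nat.mod_eq_of_lt hkN]
    exact hk.2
  · intro x _
    exact ZMod.natCast_zmod_val x
  · intro k hk
    simp only [coe_filter, Set.mem_ofPred_eq, mem_range] at hk
    show (k : ZMod N).val = k
    have hkN : k < N := by rw [hM]; exact hk.1
    rw [ZMod.val_natCast, Nat.mod_eq_of_lt hkN]

private theorem card_bad (L m : ℕ) :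
    ((range L).filter (fun k => k < m ∨ L ≤ k + m)).card ≤ 2 * m := by
  have h1 : (range L).filter (fun k => k < m ∨ L ≤ k + m) ⊆ range m ∪ Ico (L - m) L := by
    intro k hk
    simp only [mem_filter, mem_range, mem_union, mem_Ico] at hk ⊢
    rcases hk with ⟨h, h' | h'⟩
    · exact Or.inl h'
    · exact Or.inr ⟨by omega, h⟩
  refine (card_le_card h1).trans ((card_union_le _ _).trans ?_)
  rw [card_range, Nat.card_Ico]
  omega

private theorem val_succ {L : ℕ} (hL : 0 < L) (hLN : L ∣ N) (x : ZMod N)
    (h : x.val % L + 1 < L) : (x + 1).val = x.val + 1 := by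
  obtain ⟨M, hM⟩ := hLN
  have hx : x.val < N := ZMod.val_lt x
  have h1 := Nat.div_add_mod x.val L
  have h2 : x.val / L < M := by
    by_contra h'
    have : L * M ≤ L * (x.val / L) := Nat.mul_le_mul_left L (not_lt.mp h')
    omega
  have h3 : L * (x.val / L) + L ≤ N := by
    have : L * (x.val / L + 1) ≤ L * M := Nat.mul_le_mul_left L h2
    rw [mul_add, mul_one] at this
    omega
  have h4 : x.val + 1 < N := by omega
  have h5 : (1 : ZMod N).val = 1 := by
    have : ((1 : ℕ) : ZMod N).val = 1 := by
      rw [ZMod.val_natCast, Nat.mod_eq_of_lt (by omega)]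
    simpa using this
  rw [ZMod.val_add, h5, Nat.mod_eq_of_lt h4]

private theorem mod_succ {L k : ℕ} (h : k % L + 1 < L) : (k + 1) % L = k % L + 1 := by
  rw [Nat.add_mod, Nat.mod_eq_of_lt (a := 1) (by omega), Nat.mod_eq_of_lt h]

private theorem div_succ {L k : ℕ} (h : k % L + 1 < L) : (k + 1) / L = k / L := by
  have h1 := Nat.div_add_mod k L
  have h2 := Nat.div_add_mod (k + 1) L
  rw [mod_succ h] at h2
  have h3 : L * ((k + 1) / L) = L * (k / L) := by omega
  exact Nat.eq_of_mul_eq_mul_left (by omega) h3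

private theorem bad_of_layer {L m : ℕ} (hL : 0 < L) (hLN : L ∣ N) (hm0 : 0 < m) (e : Edge N)
    (h : e ∈ layer L m (corner L e.1)) :
    (e.1.1.val % L < m ∨ L ≤ e.1.1.val % L + m) ∨ (e.1.2.val % L < m ∨ L ≤ e.1.2.val % L + m) := by
  by_contra hcon
  push Not at hcon
  obtain ⟨⟨i1, i2⟩, ⟨j1, j2⟩⟩ := hcon
  have hi : e.1.1.val % L + 1 < L := by omega
  have hj : e.1.2.val % L + 1 < L := by omega
  rw [layer, mem_filter] at h
  obtain ⟨-, h⟩ := h
  obtain ⟨⟨x, y⟩, d⟩ := e
  simp only at i1 i2 j1 j2 hi hj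
  cases d with
  | false =>
    have hh : hd (((x, y), false) : Edge N) = (x + 1, y) := rfl
    rw [hh] at h
    have hv := val_succ hL hLN x hi
    rcases h with h | h | h
    · simp only [dep] at h
      omega
    · apply h
      simp only [corner]
      rw [hv, div_succ hi]
    · simp only [dep] at h
      rw [hv, mod_succ hi] at h
      omega
  | true =>
    have hh : hd (((x, y), true) : Edge N) = (x, y + 1) := rfl
    rw [hh] at h
    have hv := val_succ hL hLN y hj
    rcases h with h | h | h
    · simp only [dep] at h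
      omega
    · apply h
      simp only [corner]
      rw [hv, div_succ hj]
    · simp only [dep] at h
      rw [hv, mod_succ hj] at h
      omega

/-- number of translates that put a given edge in a layer -/
theorem card_layer_shift {L m : ℕ} (hL : 0 < L) (hLN : L ∣ N) (hm0 : 0 < m) (hm : 2 * m ≤ L)
    (e : Edge N) :
    (((univ : Finset (Vtx N)).filter (fun u => (e.1 + u, e.2) ∈ layer L m (corner L (e.1 + u)))).card
      : ℝ) ≤ 8 * m / L * (Fintype.card (Vtx N)) := by
  have hN : 0 < N := Nat.pos_of_ne_zero (NeZero.ne N)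
  obtain ⟨B, hB⟩ : ∃ B : Finset (ZMod N), B = (univ : Finset (ZMod N)).filter
      (fun x => x.val % L < m ∨ L ≤ x.val % L + m) := ⟨_, rfl⟩
  have hBc : B.card ≤ N / L * (2 * m) := by
    rw [hB, card_zmod_mod hLN (fun k => k < m ∨ L ≤ k + m)]
    exact Nat.mul_le_mul_left _ (card_bad L m)
  have h1 : ((univ : Finset (Vtx N)).filter
      (fun u => (e.1 + u, e.2) ∈ layer L m (corner L (e.1 + u)))).card ≤
      ((B ×ˢ (univ : Finset (ZMod N))) ∪ ((univ : Finset (ZMod N)) ×ˢ B)).card := by
    refine card_le_card_of_injOn (fun u => e.1 + u) ?_ ?_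
    · intro u hu
      have hu' := (mem_filter.mp (mem_coe.mp hu)).2
      have h2 := bad_of_layer hL hLN hm0 (e.1 + u, e.2) hu'
      rw [mem_coe, mem_union, mem_product, mem_product, hB]
      simp only [mem_filter, mem_univ, true_and, and_true]
      exact h2
    · intro u _ w _ h
      exact add_left_cancel h
  have h3 : ((B ×ˢ (univ : Finset (ZMod N))) ∪ ((univ : Finset (ZMod N)) ×ˢ B)).card ≤
      2 * (N / L * (2 * m) * N) := by
    refine (card_union_le _ _).trans ?_
    rw [card_product, card_product, card_univ, ZMod.card]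
    have := Nat.mul_le_mul_right N hBc
    rw [mul_comm N B.card]
    omega
  have h4 := h1.trans h3
  have h5 : (((univ : Finset (Vtx N)).filter
      (fun u => (e.1 + u, e.2) ∈ layer L m (corner L (e.1 + u)))).card : ℝ) ≤
      2 * ((N / L : ℕ) * (2 * m) * N) := by exact_mod_cast h4
  refine h5.trans ?_
  rw [Nat.cast_div hLN (by positivity)]
  have h6 : (Fintype.card (Vtx N) : ℝ) = N * N := by
    rw [Fintype.card_prod, ZMod.card]; push_cast; ring
  rw [h6]
  have hL' : (0 : ℝ) < L := by exact_mod_cast hL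
  rw [show (8 : ℝ) * m / L * (N * N) = 8 * m * N * N / L by ring,
    show 2 * ((N : ℝ) / L * (2 * m) * N) = 4 * m * N * N / L by ring]
  apply div_le_div_of_nonneg_right _ hL'.le
  have : (0 : ℝ) ≤ m * N * N := by positivity
  nlinarith

private theorem sum_layer (L m : ℕ) (G : Finset (Edge N)) :
    ∑ C ∈ tiles N L, ((G ∩ layer L m C).card : ℝ) =
      ∑ e ∈ G, if e ∈ layer L m (corner L e.1) then (1 : ℝ) else 0 := by
  have h1 : ∀ C ∈ tiles N L, ((G ∩ layer L m C).card : ℝ) =
      ∑ e ∈ G, if e ∈ layer L m C then (1 : ℝ) else 0 := by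
    intro C _
    rw [← filter_mem_eq_inter, card_filter]
    push_cast
    rfl
  rw [sum_congr rfl h1, sum_comm]
  apply sum_congr rfl
  intro e _
  rw [sum_eq_single (corner L e.1)]
  · intro C _ hC
    rw [if_neg]
    intro h
    have := (mem_filter.mp (mem_filter.mp h).1).2
    exact hC this.symm
  · intro h
    exact absurd (corner_mem_tiles L e.1) h

private theorem sum_tile_ind (L : ℕ) (x : Vtx N) :
    ∑ C ∈ tiles N L, (if corner L x = C then (1 : ℝ) else 0) = 1 := by
  rw [sum_ite_eq, if_pos (corner_mem_tiles L x)]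

/-- the averaged `L¹` bound -/
theorem shift_avg (ha : 0 < a) (hab : a < b) {L m : ℕ} (hL : 0 < L) (hLN : L ∣ N)
    (hm : 2 * m ≤ L) (v : Vtx N) (z : ℕ × ℕ) (hz1 : z.1 < m) (hz2 : z.2 < m) :
    Ex (fun u : Vtx N => ∑ C ∈ tiles N L,
      Ex (fun ω : Edge N → Bool => |FF a b v u ω - FF a b v u (sg L C z ω)|)) ≤
      50 * (b ^ 2 / a) * ((m : ℝ) / L) * rho 0 v + 8 * b * m := by
  have hb : 0 < b := ha.trans hab
  have hm0 : 0 < m := by omega
  have hL' : (0 : ℝ) < L := by exact_mod_cast hL
  -- one tile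
  have h1 : ∀ (u : Vtx N), ∀ C ∈ tiles N L,
      Ex (fun ω : Edge N → Bool => |FF a b v u ω - FF a b v u (sg L C z ω)|) ≤
      6 * b * Ex (fun ω : Edge N → Bool => ((gam a b v u ω ∩ layer L m C).card : ℝ)) +
      4 * b * m * ((if corner L u = C then 1 else 0) +
        (if corner L (u + v) = C then 1 else 0)) := by
    intro u C hCt
    have hC : corner L C = C := (mem_filter.mp hCt).2
    have h2 : ∀ ω : Edge N → Bool, |FF a b v u ω - FF a b v u (sg L C z ω)| ≤
        (6 * b * ((gam a b v u ω ∩ layer L m C).card : ℝ) +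
        4 * b * m * ((if corner L u = C then 1 else 0) +
          (if corner L (u + v) = C then 1 else 0))) +
          (FF a b v u ω - FF a b v u (sg L C z ω)) := by
      intro ω
      have h3 := FF_sg_le ha hab hL hLN hm v u C hC z hz1 hz2 ω
      have h4 : (0 : ℝ) ≤ 3 * b * (gam a b v u ω ∩ layer L m C).card +
        2 * b * m * ((if corner L u = C then 1 else 0) +
          (if corner L (u + v) = C then 1 else 0)) := by
        have : (0 : ℝ) ≤ (if corner L u = C then 1 else 0) +
          (if corner L (u + v) = C then 1 else 0) := by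
          split_ifs <;> norm_num
        positivity
      rcases abs_cases (FF a b v u ω - FF a b v u (sg L C z ω)) with ⟨h5, -⟩ | ⟨h5, -⟩
      · rw [h5]; linarith
      · rw [h5]; linarith
    refine (Ex_mono h2).trans ?_
    rw [Ex_add, Ex_add, Ex_mul_left, Ex_const, Ex_sub,
      Ex_sg hL hLN C hC z (fun ω => FF a b v u ω), sub_self, add_zero]
  -- sum over the tiles
  have h2 : ∀ u : Vtx N, ∑ C ∈ tiles N L,
      Ex (fun ω : Edge N → Bool => |FF a b v u ω - FF a b v u (sg L C z ω)|) ≤
      6 * b * Ex (fun ω : Edge N → Bool => ∑ e ∈ gam a b v 0 ω,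
        if (e.1 + u, e.2) ∈ layer L m (corner L (e.1 + u)) then (1 : ℝ) else 0) + 8 * b * m := by
    intro u
    refine (sum_le_sum (h1 u)).trans ?_
    rw [sum_add_distrib, ← mul_sum, ← mul_sum, sum_add_distrib, sum_tile_ind, sum_tile_ind,
      ← Ex_sum (tiles N L) (fun C ω => ((gam a b v u ω ∩ layer L m C).card : ℝ))]
    have h3 : Ex (fun ω : Edge N → Bool => ∑ C ∈ tiles N L,
        ((gam a b v u ω ∩ layer L m C).card : ℝ)) =
        Ex (fun ω : Edge N → Bool => ∑ e ∈ gam a b v 0 ω,
        if (e.1 + u, e.2) ∈ layer L m (corner L (e.1 + u)) then (1 : ℝ) else 0) := by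
      rw [← Ex_tau u (fun ω : Edge N → Bool => ∑ e ∈ gam a b v 0 ω,
        if (e.1 + u, e.2) ∈ layer L m (corner L (e.1 + u)) then (1 : ℝ) else 0)]
      congr 1
      funext ω
      rw [sum_layer, gam_shift, sum_image]
      intro e _ e' _ h
      have h4 := congrArg Prod.fst h
      have h5 := congrArg Prod.snd h
      exact Prod.ext (add_right_cancel h4) h5
    rw [h3]
    linarith
  refine (Ex_mono h2).trans ?_
  rw [Ex_add, Ex_mul_left, Ex_const, Ex_comm]
  have h3 : ∀ ω : Edge N → Bool, Ex (fun u : Vtx N => ∑ e ∈ gam a b v 0 ω,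
      if (e.1 + u, e.2) ∈ layer L m (corner L (e.1 + u)) then (1 : ℝ) else 0) ≤
      8 * m / L * (b / a * rho 0 v) := by
    intro ω
    rw [Ex_sum (gam a b v 0 ω) (fun (e : Edge N) (u : Vtx N) =>
      if (e.1 + u, e.2) ∈ layer L m (corner L (e.1 + u)) then (1 : ℝ) else 0)]
    have h4 : ∀ e ∈ gam a b v 0 ω, Ex (fun u : Vtx N =>
        if (e.1 + u, e.2) ∈ layer L m (corner L (e.1 + u)) then (1 : ℝ) else 0) ≤ 8 * m / L := by
      intro e _
      have h5 := card_layer_shift hL hLN hm0 hm e
      have h6 : (0 : ℝ) < (Fintype.card (Vtx N) : ℝ) := by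
        exact_mod_cast Fintype.card_pos
      rw [Ex, div_le_iff₀ h6]
      refine le_trans (le_of_eq ?_) h5
      rw [card_filter]
      push_cast
      rfl
    refine (sum_le_sum h4).trans ?_
    rw [sum_const, nsmul_eq_mul, mul_comm]
    apply mul_le_mul_of_nonneg_left _ (by positivity)
    have h7 := gam_card ha hab v 0 ω
    rw [div_mul_eq_mul_div, le_div_iff₀ ha]
    linarith
  have h4 := Ex_mono h3
  rw [Ex_const] at h4
  have h5 := mul_le_mul_of_nonneg_left h4 (by positivity : (0 : ℝ) ≤ 6 * b)
  refine (add_le_add_left h5 (8 * b * m)).trans ?_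
  have h6 : (0 : ℝ) ≤ b ^ 2 / a * (m / L) * rho 0 v := by positivity
  have h7 : 6 * b * (8 * m / L * (b / a * rho 0 v)) = 48 * (b ^ 2 / a * (m / L) * rho 0 v) := by
    ring
  linarith

end

end Pool.FPP
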