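import Pool.Agent.FPP.INN
import Pool.Agent.FPP.CHG

/-!
Module SHL: one sided comparison for the inner shift (proof in the docstring of FF_sg_le).
Image path: for adjacent x, y: rho (f x) (f y) ≤ 3; deep edges (both ends of depth ≥ m in the tile):
f x = x + z and no wrap-around, sg L C z ω (x+z, dir) = ω (x, dir); edges not in tileE L C: both ends are
fixed by f (an end in the tile has depth 0).
-/

set_option autoImplicit false

noncomputable section

namespace Pool.FPP

open Finset

section

variable {N : ℕ} [NeZero N] {a b : ℝ}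

/-- depth of a vertex in its tile of side `L` -/
def dep (L : ℕ) (x : Vtx N) : ℕ :=
  min (min (x.1.val % L) (L - x.1.val % L)) (min (x.2.val % L) (L - x.2.val % L))

/-- edges of the tile with corner `C` that are not deep -/
def layer (L m : ℕ) (C : Vtx N) : Finset (Edge N) :=
  (tileE L C).filter (fun e => dep L e.1 < m ∨ corner L (hd e) ≠ C ∨ dep L (hd e) < m)

/-! ### auxiliary lemmas -/

private theorem shl_val_succ (p : ZMod N) : (p + 1).val = (p.val + 1) % N := by
  rw [ZMod.val_add, ZMod.val_one_eq_one_mod, Nat.add_mod_mod]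

private theorem shl_mod_succ {L : ℕ} (hLN : L ∣ N) (p : ZMod N) :
    (p + 1).val % L = (p.val + 1) % L := by
  rw [shl_val_succ, Nat.mod_mod_of_dvd _ hLN]

private theorem shl_div_succ {L : ℕ} (hL : 0 < L) (hLN : L ∣ N) (p : ZMod N)
    (h : (p.val + 1) % L ≠ 0) : (p + 1).val / L = p.val / L := by
  have h1 : p.val + 1 ≠ N := by
    intro h2
    rw [h2] at h
    exact h (Nat.mod_eq_zero_of_dvd hLN)
  have h3 : p.val < N := ZMod.val_lt p
  rw [shl_val_succ, Nat.mod_eq_of_lt (by omega)]
  rw [Nat.succ_div_of_not_dvd]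
  intro h4
  exact h (Nat.mod_eq_zero_of_dvd h4)

/-- one coordinate: the depth changes by at most one -/
private theorem shl_dep1 {L : ℕ} (hL : 0 < L) (r : ℕ) :
    min (r % L) (L - r % L) ≤ min ((r + 1) % L) (L - (r + 1) % L) + 1 ∧
      min ((r + 1) % L) (L - (r + 1) % L) ≤ min (r % L) (L - r % L) + 1 := by
  have h0 : r % L < L := Nat.mod_lt _ hL
  rcases Nat.lt_or_ge (r % L + 1) L with h | h
  · have h1 : (r + 1) % L = r % L + 1 := by
      rw [Nat.add_mod, Nat.mod_eq_of_lt (a := r % L + 1 % L)]
      · rw [Nat.mod_eq_of_lt (a := 1) (by omega)]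
      · rw [Nat.mod_eq_of_lt (a := 1) (by omega)]
        exact h
    rw [h1]
    omega
  · have h1 : (r + 1) % L = 0 := by
      have h2 : r % L + 1 = L := by omega
      rw [← Nat.mod_add_mod, h2, Nat.mod_self]
    rw [h1]
    omega

private theorem shl_dep_hd {L : ℕ} (hL : 0 < L) (hLN : L ∣ N) (e : Edge N) :
    dep L e.1 ≤ dep L (hd e) + 1 ∧ dep L (hd e) ≤ dep L e.1 + 1 := by
  unfold dep hd
  split_ifs with h
  · have h1 := shl_dep1 hL e.1.2.val
    have h2 := shl_mod_succ hLN e.1.2
    simp only [h2]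
    omega
  · have h1 := shl_dep1 hL e.1.1.val
    have h2 := shl_mod_succ hLN e.1.1
    simp only [h2]
    omega

private theorem shl_dep_zero {L : ℕ} (hL : 0 < L) (hLN : L ∣ N) (e : Edge N)
    (h : corner L (hd e) ≠ corner L e.1) : dep L (hd e) = 0 := by
  unfold hd at h ⊢
  split_ifs at h ⊢ with h0
  · have h2 : (e.1.2.val + 1) % L = 0 := by
      by_contra h3
      apply h
      unfold corner
      simp only [shl_div_succ hL hLN e.1.2 h3]
    unfold dep
    simp only [shl_mod_succ hLN, h2]
    simp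
  · have h2 : (e.1.1.val + 1) % L = 0 := by
      by_contra h3
      apply h
      unfold corner
      simp only [shl_div_succ hL hLN e.1.1 h3]
    unfold dep
    simp only [shl_mod_succ hLN, h2]
    simp

/-- size of the shift of a vertex, one coordinate -/
private def shl_s (L : ℕ) (C : Vtx N) (k : ℕ) (x : Vtx N) : ℕ :=
  if corner L x = C then min k (dep L x) else 0

/-- the map of the vertices -/
private def shl_f (L : ℕ) (C : Vtx N) (z : ℕ × ℕ) (x : Vtx N) : Vtx N :=
  x + (((shl_s L C z.1 x : ℕ) : ZMod N), ((shl_s L C z.2 x : ℕ) : ZMod N))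

private theorem shl_s_hd {L : ℕ} (hL : 0 < L) (hLN : L ∣ N) (C : Vtx N) (k : ℕ) (e : Edge N)
    (he : corner L e.1 = C) :
    shl_s L C k e.1 ≤ shl_s L C k (hd e) + 1 ∧ shl_s L C k (hd e) ≤ shl_s L C k e.1 + 1 := by
  have h1 := shl_dep_hd hL hLN e
  unfold shl_s
  rw [if_pos he]
  split_ifs with h2
  · omega
  · have h3 := shl_dep_zero hL hLN e (by rw [he]; exact h2)
    omega

private theorem shl_s_off {L : ℕ} (hL : 0 < L) (hLN : L ∣ N) (C : Vtx N) (k : ℕ) (e : Edge N)
    (he : corner L e.1 ≠ C) : shl_s L C k e.1 = 0 ∧ shl_s L C k (hd e) = 0 := by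
  unfold shl_s
  rw [if_neg he]
  refine ⟨rfl, ?_⟩
  split_ifs with h2
  · rw [shl_dep_zero hL hLN e (by rw [h2]; exact fun h => he h.symm)]
    simp
  · rfl

private theorem shl_rho_nat (x : Vtx N) (i j : ℕ) :
    rho x (x + (((i : ℕ) : ZMod N), ((j : ℕ) : ZMod N))) ≤ i + j := by
  obtain ⟨l, hl, hlen⟩ := walk_hor i x
  obtain ⟨l', hl', hlen'⟩ := walk_ver j (x.1 + (i : ZMod N), x.2)
  have h := (hl.append hl').rho_le
  rw [List.length_append, hlen, hlen'] at h
  exact h

private theorem shl_coord {i j : ℕ} (h1 : i ≤ j + 1) (h2 : j ≤ i + 1) :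
    (ZMod.valMinAbs ((i : ZMod N) - (j : ZMod N))).natAbs ≤ 1 := by
  have h3 : i = j ∨ i = j + 1 ∨ j = i + 1 := by omega
  rcases h3 with rfl | rfl | rfl
  · simp
  · have : ((j + 1 : ℕ) : ZMod N) - (j : ZMod N) = -(-1) := by push_cast; ring
    rw [this, ZMod.natAbs_valMinAbs_neg]
    exact natAbs_valMinAbs_neg_one
  · have : (i : ZMod N) - ((i + 1 : ℕ) : ZMod N) = -1 := by push_cast; ring
    rw [this]
    exact natAbs_valMinAbs_neg_one

private theorem shl_rho_f {L : ℕ} (hL : 0 < L) (hLN : L ∣ N) (C : Vtx N) (z : ℕ × ℕ) (e : Edge N)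
    (he : corner L e.1 = C) : rho (shl_f L C z e.1) (shl_f L C z (hd e)) ≤ 3 := by
  have h1 := shl_s_hd hL hLN C z.1 e he
  have h2 := shl_s_hd hL hLN C z.2 e he
  unfold shl_f
  set s : Vtx N := (((shl_s L C z.1 e.1 : ℕ) : ZMod N), ((shl_s L C z.2 e.1 : ℕ) : ZMod N)) with hs
  set t : Vtx N := (((shl_s L C z.1 (hd e) : ℕ) : ZMod N), ((shl_s L C z.2 (hd e) : ℕ) : ZMod N))
    with ht
  have h3 : rho (e.1 + s) (hd e + s) ≤ 1 := by
    rw [rho_add_right]
    exact rho_hd e
  have h4 : rho (hd e + s) (hd e + t) ≤ 2 := by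
    rw [add_comm (hd e) s, add_comm (hd e) t, rho_add_right]
    unfold rho
    have h5 := shl_coord (N := N) h1.1 h1.2
    have h6 := shl_coord (N := N) h2.1 h2.2
    rw [hs, ht]
    simp only
    omega
  have := rho_triangle (e.1 + s) (hd e + s) (hd e + t)
  omega

/-- one edge -/
private theorem shl_edge (ha : 0 < a) (hab : a < b) {L m : ℕ} (hL : 0 < L) (hLN : L ∣ N)
    (C : Vtx N) (hC : corner L C = C) (z : ℕ × ℕ) (hz1 : z.1 < m)
    (hz2 : z.2 < m) (ω : Edge N → Bool) (e : Edge N) :
    dst a b (sg L C z ω) (shl_f L C z e.1) (shl_f L C z (hd e)) ≤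
      wt a b ω e + if e ∈ layer L m C then 3 * b else 0 := by
  have hb : 0 < b := ha.trans hab
  by_cases he : corner L e.1 = C
  · by_cases hl : e ∈ layer L m C
    · rw [if_pos hl]
      have h1 := dst_le_rho ha hab (sg L C z ω) (shl_f L C z e.1) (shl_f L C z (hd e))
      have h2 := shl_rho_f hL hLN C z e he
      have h3 : (rho (shl_f L C z e.1) (shl_f L C z (hd e)) : ℝ) ≤ 3 := by exact_mod_cast h2
      have h4 := (wt_bounds ha hab ω e).1
      nlinarith
    · rw [if_neg hl, add_zero]
      have het : e ∈ tileE L C := by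
        unfold tileE
        rw [Finset.mem_filter]
        exact ⟨Finset.mem_univ _, he⟩
      unfold layer at hl
      rw [Finset.mem_filter] at hl
      push Not at hl
      obtain ⟨hd1, hd2, hd3⟩ := hl het
      have hf1 : shl_f L C z e.1 = e.1 + (((z.1 : ℕ) : ZMod N), ((z.2 : ℕ) : ZMod N)) := by
        unfold shl_f shl_s
        rw [if_pos he, if_pos he, min_eq_left (by omega), min_eq_left (by omega)]
      have hf2 : shl_f L C z (hd e) = hd e + (((z.1 : ℕ) : ZMod N), ((z.2 : ℕ) : ZMod N)) := by
        unfold shl_f shl_s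
        rw [if_pos hd2, if_pos hd2, min_eq_left (by omega), min_eq_left (by omega)]
      have hinn : innV L C z e.1 = e.1 + (((z.1 : ℕ) : ZMod N), ((z.2 : ℕ) : ZMod N)) := by
        unfold innV
        rw [if_pos he]
        unfold dep at hd1
        have hx := corner_add_off hL e.1
        rw [Nat.mod_eq_of_lt (a := e.1.1.val % L + z.1) (by omega),
          Nat.mod_eq_of_lt (a := e.1.2.val % L + z.2) (by omega)]
        conv_rhs => rw [hx, he]
        ext
        · simp only [Prod.fst_add]
          push_cast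
          ring
        · simp only [Prod.snd_add]
          push_cast
          ring
      have hw := Walk.fwd ((e.1 + (((z.1 : ℕ) : ZMod N), ((z.2 : ℕ) : ZMod N)), e.2) : Edge N) _ _
        (Walk.nil _)
      have h1 := dst_le_cost ha hab (ω := sg L C z ω) hw
      rw [hd_shift] at h1
      rw [hf1, hf2]
      refine h1.trans ?_
      rw [cost_cons, cost_nil, add_zero]
      have h2 := sg_apply hL hLN C hC z ω e
      rw [hinn] at h2
      unfold wt
      rw [h2]
  · have hl : e ∉ layer L m C := by
      unfold layer tileE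
      simp [he]
    rw [if_neg hl, add_zero]
    have h1 := shl_s_off hL hLN C z.1 e he
    have h2 := shl_s_off hL hLN C z.2 e he
    have hf1 : shl_f L C z e.1 = e.1 := by
      unfold shl_f
      rw [h1.1, h2.1]
      ext <;> simp
    have hf2 : shl_f L C z (hd e) = hd e := by
      unfold shl_f
      rw [h1.2, h2.2]
      ext <;> simp
    rw [hf1, hf2]
    have hw := Walk.fwd e _ _ (Walk.nil _)
    have h3 := dst_le_cost ha hab (ω := sg L C z ω) hw
    refine h3.trans ?_
    rw [cost_cons, cost_nil, add_zero]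
    have h4 := sg_off (L := L) (C := C) z ω e (by unfold tileE; simp [he])
    unfold wt
    rw [h4]

open Classical in
private theorem shl_push (ha : 0 < a) (hab : a < b) {L m : ℕ} (hL : 0 < L) (hLN : L ∣ N)
    (C : Vtx N) (hC : corner L C = C) (z : ℕ × ℕ) (hz1 : z.1 < m)
    (hz2 : z.2 < m) (ω : Edge N → Bool) {x y : Vtx N} {l : List (Edge N)} (h : Walk x y l) :
    dst a b (sg L C z ω) (shl_f L C z x) (shl_f L C z y) ≤
      cost a b ω l + 3 * b * (l.countP (fun e => decide (e ∈ layer L m C)) : ℝ) := by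
  induction h with
  | nil x =>
    rw [dst_self ha hab, cost_nil]
    simp
  | fwd e y l _ ih =>
    have h1 := dst_triangle ha hab (sg L C z ω) (shl_f L C z e.1) (shl_f L C z (hd e))
      (shl_f L C z y)
    have h2 := shl_edge ha hab hL hLN C hC z hz1 hz2 ω e
    rw [cost_cons, List.countP_cons]
    push_cast
    split_ifs at h2 ⊢ with h3 h4
    · linarith
    · exact absurd h3 (by simpa using h4)
    · rename_i h5
      exact absurd (by simpa using h5) h3
    · linarith
  | bwd e y l _ ih =>
    have h1 := dst_triangle ha hab (sg L C z ω) (shl_f L C z (hd e)) (shl_f L C z e.1)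
      (shl_f L C z y)
    have h2 := shl_edge ha hab hL hLN C hC z hz1 hz2 ω e
    rw [dst_comm ha hab (sg L C z ω) (shl_f L C z e.1) (shl_f L C z (hd e))] at h2
    rw [cost_cons, List.countP_cons]
    push_cast
    split_ifs at h2 ⊢ with h3 h4
    · linarith
    · exact absurd h3 (by simpa using h4)
    · rename_i h5
      exact absurd (by simpa using h5) h3
    · linarith

private theorem shl_end (ha : 0 < a) (hab : a < b) {L m : ℕ}
    (C : Vtx N) (z : ℕ × ℕ) (hz1 : z.1 < m)
    (hz2 : z.2 < m) (ω : Edge N → Bool) (x : Vtx N) :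
    dst a b (sg L C z ω) x (shl_f L C z x) ≤ 2 * b * m * (if corner L x = C then 1 else 0) := by
  have hb : 0 < b := ha.trans hab
  have h1 := dst_le_rho ha hab (sg L C z ω) x (shl_f L C z x)
  have h2 : rho x (shl_f L C z x) ≤ shl_s L C z.1 x + shl_s L C z.2 x := shl_rho_nat x _ _
  split_ifs with h3
  · have h4 : shl_s L C z.1 x + shl_s L C z.2 x ≤ 2 * m := by
      unfold shl_s
      rw [if_pos h3, if_pos h3]
      omega
    have h5 : (rho x (shl_f L C z x) : ℝ) ≤ 2 * m := by exact_mod_cast h2.trans h4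
    nlinarith
  · have h4 : shl_s L C z.1 x + shl_s L C z.2 x = 0 := by
      unfold shl_s
      rw [if_neg h3, if_neg h3]
    have h5 : rho x (shl_f L C z x) = 0 := by omega
    rw [h5] at h1
    simpa using h1

/-- one sided comparison.  Proof: push a geodesic forward by the map
`x ↦ x + (min z.1 (dep x), min z.2 (dep x))` on the tile (identity outside). Deep edges keep their
weight, the other edges of the tile are replaced by paths of length at most 3. -/
theorem FF_sg_le (ha : 0 < a) (hab : a < b) {L m : ℕ} (hL : 0 < L) (hLN : L ∣ N)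
    (hm : 2 * m ≤ L) (v u C : Vtx N) (hC : corner L C = C) (z : ℕ × ℕ) (hz1 : z.1 < m)
    (hz2 : z.2 < m) (ω : Edge N → Bool) :
    FF a b v u (sg L C z ω) ≤ FF a b v u ω + 3 * b * (gam a b v u ω ∩ layer L m C).card +
      2 * b * m * ((if corner L u = C then 1 else 0) + (if corner L (u + v) = C then 1 else 0)) := by
  classical
  have hw := geo_walk ha hab v u ω
  have hcost := geo_cost ha hab v u ω
  have hnd := geod_nodup ha hab hw (by rw [hcost]; rfl)
  have h1 := shl_push ha hab hL hLN C hC z hz1 hz2 ω (m := m) hw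
  have h2 := shl_end ha hab (L := L) C z hz1 hz2 ω u
  have h3 := shl_end ha hab (L := L) C z hz1 hz2 ω (u + v)
  rw [dst_comm ha hab] at h3
  have h4 := dst_triangle ha hab (sg L C z ω) u (shl_f L C z u) (u + v)
  have h5 := dst_triangle ha hab (sg L C z ω) (shl_f L C z u) (shl_f L C z (u + v)) (u + v)
  have h6 : (geo a b v u ω).countP (fun e => decide (e ∈ layer L m C)) =
      (gam a b v u ω ∩ layer L m C).card := by
    rw [List.countP_eq_length_filter, ← List.toFinset_card_of_nodup (hnd.filter _),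
      List.toFinset_filter]
    unfold gam
    congr 1
    ext e
    simp
  rw [hcost, h6] at h1
  unfold FF at h1 ⊢
  rw [mul_add]
  linarith

end

end Pool.FPP
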