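import Pool.Agent.FPP.ENG
import Pool.Agent.FPP.NTC
import Pool.Agent.FPP.ES

/-!
Module SMP: energy bookkeeping.
sum_inc_sq: Ex_inc_sq. small_part: inc > 0 implies that the geodesic of fstc w meets the tile (gam_meets),
card_touched. large_part: inc^2 1{inc > T} ≤ inc^4/T^2, Ex_inc_pow_four, fourth_sum (8*76 = 608).
-/

set_option autoImplicit false

noncomputable section

namespace Pool.FPP

open Finset

section

variable {N : ℕ} [NeZero N] {a b : ℝ}

open Classical in
/-- energy carried by the tiles of side `l₀` with an increment in `(t₀, T]` and many near-tie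
tiles around them -/
def High (a b : ℝ) (v u : Vtx N) (l₀ w : ℕ) (x p t₀ T : ℝ) : ℝ :=
  ∑ c ∈ tiles N l₀, Ex (fun w2 : Edge N → Bool × Bool =>
    if t₀ < inc (tileE l₀ c) (FF a b v u) w2 ∧ inc (tileE l₀ c) (FF a b v u) w2 ≤ T ∧
      p * w ^ 2 < (cntNT a b v u l₀ x (l₀ * w) (fstc w2) c : ℝ)
    then inc (tileE l₀ c) (FF a b v u) w2 ^ 2 else 0)

/-- sum over the tiles of the second moments of the increments -/
theorem sum_inc_sq (v u : Vtx N) (l₀ : ℕ) :
    ∑ c ∈ tiles N l₀, Ex (fun w2 : Edge N → Bool × Bool => inc (tileE l₀ c) (FF a b v u) w2 ^ 2) =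
      EE (FF a b v u) l₀ := by
  unfold EE
  exact Finset.sum_congr rfl fun c _ => Ex_inc_sq (tileE l₀ c) (FF a b v u)

omit [NeZero N] in
private theorem smp_agree (A : Finset (Edge N)) (w : Edge N → Bool × Bool) :
    ∀ e ∉ A, fstc w e = res A w e := by
  intro e he
  unfold res mix
  rw [if_neg he]

/-- small increments -/
theorem small_part (ha : 0 < a) (hab : a < b) {l₀ : ℕ} (h0 : 0 < l₀) (h0N : l₀ ∣ N)
    (v u : Vtx N) (t₀ : ℝ) (ht₀ : 0 < t₀) :
    ∑ c ∈ tiles N l₀, Ex (fun w2 : Edge N → Bool × Bool =>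
      if inc (tileE l₀ c) (FF a b v u) w2 ≤ t₀ then inc (tileE l₀ c) (FF a b v u) w2 ^ 2 else 0) ≤
      t₀ ^ 2 * (9 * (b / a * rho 0 v / l₀ + 1)) := by
  rw [← Ex_sum]
  have hpt : ∀ w2 : Edge N → Bool × Bool, ∑ c ∈ tiles N l₀,
      (if inc (tileE l₀ c) (FF a b v u) w2 ≤ t₀ then inc (tileE l₀ c) (FF a b v u) w2 ^ 2 else 0) ≤
      t₀ ^ 2 * (9 * (b / a * rho 0 v / l₀ + 1)) := by
    intro w2
    set I : Finset (Vtx N) := (gam a b v u (fstc w2)).image (fun e => corner l₀ e.1) with hI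
    have hterm : ∀ c ∈ tiles N l₀,
        (if inc (tileE l₀ c) (FF a b v u) w2 ≤ t₀ then inc (tileE l₀ c) (FF a b v u) w2 ^ 2
          else 0) ≤ if c ∈ I then t₀ ^ 2 else 0 := by
      intro c _
      have hinc0 : 0 ≤ inc (tileE l₀ c) (FF a b v u) w2 := le_max_left _ _
      by_cases hc : c ∈ I
      · rw [if_pos hc]
        split_ifs with h
        · exact pow_le_pow_left₀ hinc0 h 2
        · positivity
      · rw [if_neg hc]
        have hz : inc (tileE l₀ c) (FF a b v u) w2 = 0 := by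
          by_contra hne
          have hpos : 0 < inc (tileE l₀ c) (FF a b v u) w2 := lt_of_le_of_ne hinc0 (Ne.symm hne)
          unfold inc at hpos
          rw [lt_max_iff] at hpos
          have hlt : FF a b v u (fstc w2) < FF a b v u (res (tileE l₀ c) w2) := by
            rcases hpos with h | h
            · exact absurd h (lt_irrefl 0)
            · linarith
          obtain ⟨e, he⟩ := gam_meets ha hab v u _ _ (tileE l₀ c)
            (smp_agree (tileE l₀ c) w2) hlt
          rw [Finset.mem_inter] at he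
          apply hc
          rw [hI, Finset.mem_image]
          refine ⟨e, he.1, ?_⟩
          have := he.2
          unfold tileE at this
          exact (Finset.mem_filter.mp this).2
        rw [hz]
        simp
    calc ∑ c ∈ tiles N l₀,
        (if inc (tileE l₀ c) (FF a b v u) w2 ≤ t₀ then inc (tileE l₀ c) (FF a b v u) w2 ^ 2 else 0)
        ≤ ∑ c ∈ tiles N l₀, (if c ∈ I then t₀ ^ 2 else 0) := Finset.sum_le_sum hterm
      _ = ∑ c ∈ (tiles N l₀).filter (fun c => c ∈ I), t₀ ^ 2 := (Finset.sum_filter _ _).symm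
      _ = (((tiles N l₀).filter (fun c => c ∈ I)).card : ℝ) * t₀ ^ 2 := by
          rw [Finset.sum_const, nsmul_eq_mul]
      _ ≤ (I.card : ℝ) * t₀ ^ 2 := by
          refine mul_le_mul_of_nonneg_right ?_ (by positivity)
          have : ((tiles N l₀).filter (fun c => c ∈ I)).card ≤ I.card :=
            Finset.card_le_card fun c hc => (Finset.mem_filter.mp hc).2
          exact_mod_cast this
      _ ≤ (9 * (b / a * rho 0 v / l₀ + 1)) * t₀ ^ 2 :=
          mul_le_mul_of_nonneg_right (card_touched ha hab h0 h0N v u (fstc w2)) (by positivity)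
      _ = t₀ ^ 2 * (9 * (b / a * rho 0 v / l₀ + 1)) := by ring
  exact (Ex_mono hpt).trans (le_of_eq (Ex_const _))

/-- large increments -/
theorem large_part (ha : 0 < a) (hab : a < b) {l₀ : ℕ} (h0 : 0 < l₀)
    (v u : Vtx N) (T : ℝ) (hT : 0 < T) :
    ∑ c ∈ tiles N l₀, Ex (fun w2 : Edge N → Bool × Bool =>
      if T < inc (tileE l₀ c) (FF a b v u) w2 then inc (tileE l₀ c) (FF a b v u) w2 ^ 2 else 0) ≤
      608 * (b - a) ^ 4 * (b / a) ^ 2 * l₀ * rho 0 v / T ^ 2 := by
  have hT2 : 0 < T ^ 2 := by positivity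
  have hterm : ∀ c ∈ tiles N l₀, Ex (fun w2 : Edge N → Bool × Bool =>
      if T < inc (tileE l₀ c) (FF a b v u) w2 then inc (tileE l₀ c) (FF a b v u) w2 ^ 2 else 0) ≤
      1 / T ^ 2 * (8 * Ex (fun ω => (FF a b v u ω - av (tileE l₀ c) (FF a b v u) ω) ^ 4)) := by
    intro c _
    have h1 : Ex (fun w2 : Edge N → Bool × Bool =>
        if T < inc (tileE l₀ c) (FF a b v u) w2 then inc (tileE l₀ c) (FF a b v u) w2 ^ 2 else 0) ≤
        Ex (fun w2 : Edge N → Bool × Bool => 1 / T ^ 2 * inc (tileE l₀ c) (FF a b v u) w2 ^ 4) := by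
      refine Ex_mono fun w2 => ?_
      set y := inc (tileE l₀ c) (FF a b v u) w2 with hy
      split_ifs with h
      · have h2 : T ^ 2 ≤ y ^ 2 := pow_le_pow_left₀ hT.le h.le 2
        rw [one_div, inv_mul_eq_div, le_div_iff₀ hT2]
        calc y ^ 2 * T ^ 2 ≤ y ^ 2 * y ^ 2 := mul_le_mul_of_nonneg_left h2 (by positivity)
          _ = y ^ 4 := by ring
      · positivity
    rw [Ex_mul_left] at h1
    exact h1.trans (mul_le_mul_of_nonneg_left (Ex_inc_pow_four _ _) (by positivity))
  refine (Finset.sum_le_sum hterm).trans ?_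
  rw [← Finset.mul_sum, ← Finset.mul_sum]
  have h3 := fourth_sum ha hab h0 v u
  rw [one_div, inv_mul_eq_div]
  refine div_le_div_of_nonneg_right ?_ hT2.le
  calc 8 * ∑ c ∈ tiles N l₀, Ex (fun ω => (FF a b v u ω - av (tileE l₀ c) (FF a b v u) ω) ^ 4)
      ≤ 8 * (76 * (b - a) ^ 4 * (b / a) ^ 2 * l₀ * rho 0 v) :=
        mul_le_mul_of_nonneg_left h3 (by norm_num)
    _ = 608 * (b - a) ^ 4 * (b / a) ^ 2 * l₀ * rho 0 v := by ring

end

end Pool.FPP
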