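import Mathlib

/-!
Module TREE: the tree count (pure combinatorics).
Induction on M (generalizing P, c shifted by one level, or weights): give a level 0 cell the weight
(R/(R-1))^{number of porous levels}; the total weight of the occupied level 0 cells in one cell of level M
is at most R^M, because a porous cell has at most R-1 occupied children. Then
number * (R/(R-1))^q ≤ |Top| R^M and (1 - 1/R)^q ≤ exp(-q/R).
-/

set_option autoImplicit false

noncomputable section

namespace Pool.FPP

open Finset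

private def tcAnc (R : ℕ) (s : ℤ) : ℕ → ℤ → ℤ
  | 0, e => e
  | k + 1, e => (tcAnc R s k e + s) / (R : ℤ)

private def tcKids (R : ℕ) (s f : ℤ) : Finset ℤ :=
  (Finset.range R).image (fun t : ℕ => (R : ℤ) * f - s + t)

private theorem tc_mem_kids {R : ℕ} (hR : 0 < R) {s f g : ℤ} (h : (g + s) / (R : ℤ) = f) :
    g ∈ tcKids R s f := by
  have hR' : (0 : ℤ) < (R : ℤ) := by exact_mod_cast hR
  refine Finset.mem_image.mpr ⟨((g + s) % (R : ℤ)).toNat, ?_, ?_⟩
  · rw [Finset.mem_range]
    have h1 := Int.emod_lt_of_pos (g + s) hR'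
    have h2 := Int.emod_nonneg (g + s) hR'.ne'
    omega
  · have h2 := Int.emod_nonneg (g + s) hR'.ne'
    have h3 := Int.mul_ediv_add_emod (g + s) (R : ℤ)
    rw [Int.toNat_of_nonneg h2, ← h]
    linarith

private def tcPor (Q : Finset ℤ) (R : ℕ) (s : ℤ) (k : ℕ) (f : ℤ) : Prop :=
  ∃ e : ℤ, (e + s) / (R : ℤ) = f ∧ ∀ y ∈ Q, tcAnc R s k y ≠ e

open Classical in
private theorem tc_aux (Q : Finset ℤ) (R : ℕ) (hR : 2 ≤ R) (s : ℤ) (m : ℕ) : ∀ f : ℤ,
    ∑ e ∈ Q.filter (fun e => tcAnc R s m e = f),
      ((R : ℝ) / ((R : ℝ) - 1)) ^ ((range m).filter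
        (fun k => tcPor Q R s k (tcAnc R s (k + 1) e))).card ≤ (R : ℝ) ^ m := by
  have hR1 : (0 : ℝ) < (R : ℝ) - 1 := by
    have : (2 : ℝ) ≤ (R : ℝ) := by exact_mod_cast hR
    linarith
  have hR0 : (0 : ℝ) < (R : ℝ) := by linarith
  set w : ℝ := (R : ℝ) / ((R : ℝ) - 1) with hw
  have hw0 : 0 < w := div_pos hR0 hR1
  induction m with
  | zero =>
    intro f
    have h1 : (Q.filter (fun e => tcAnc R s 0 e = f)) ⊆ {f} := by
      intro e he
      rw [Finset.mem_filter] at he
      exact Finset.mem_singleton.mpr he.2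
    have h2 := Finset.card_le_card h1
    rw [Finset.card_singleton] at h2
    simp only [Finset.range_zero, Finset.filter_empty, Finset.card_empty, pow_zero,
      Finset.sum_const, nsmul_eq_mul, mul_one]
    exact_mod_cast h2
  | succ m ih =>
    intro f
    set A : Finset ℤ := Q.filter (fun e => tcAnc R s (m + 1) e = f) with hA
    set K : Finset ℤ := (tcKids R s f).filter (fun g => ∃ y ∈ Q, tcAnc R s m y = g) with hK
    set z : ℝ := if tcPor Q R s m f then w else 1 with hz
    have hz0 : 0 ≤ z := by rw [hz]; split_ifs <;> [exact hw0.le; exact zero_le_one]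
    have hterm : ∀ e ∈ A, w ^ ((range (m + 1)).filter
        (fun k => tcPor Q R s k (tcAnc R s (k + 1) e))).card =
        w ^ ((range m).filter (fun k => tcPor Q R s k (tcAnc R s (k + 1) e))).card * z := by
      intro e he
      have he2 : tcAnc R s (m + 1) e = f := (Finset.mem_filter.mp he).2
      rw [Finset.range_add_one, Finset.filter_insert, he2]
      by_cases hp : tcPor Q R s m f
      · rw [if_pos hp, Finset.card_insert_of_notMem, pow_succ, hz, if_pos hp]
        simp
      · rw [if_neg hp, hz, if_neg hp, mul_one]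
    rw [Finset.sum_congr rfl hterm, ← Finset.sum_mul]
    have hmap : ∀ e ∈ A, tcAnc R s m e ∈ K := by
      intro e he
      obtain ⟨he1, he2⟩ := Finset.mem_filter.mp he
      exact Finset.mem_filter.mpr ⟨tc_mem_kids (by omega) he2, e, he1, rfl⟩
    rw [← Finset.sum_fiberwise_of_maps_to hmap]
    have hsum : ∑ g ∈ K, ∑ e ∈ A.filter (fun e => tcAnc R s m e = g),
        w ^ ((range m).filter (fun k => tcPor Q R s k (tcAnc R s (k + 1) e))).card ≤
        K.card * (R : ℝ) ^ m := by
      rw [← nsmul_eq_mul, ← Finset.sum_const]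
      refine Finset.sum_le_sum fun g _ => ?_
      refine le_trans ?_ (ih g)
      refine Finset.sum_le_sum_of_subset_of_nonneg ?_ fun e _ _ => by positivity
      intro e he
      obtain ⟨he1, he2⟩ := Finset.mem_filter.mp he
      exact Finset.mem_filter.mpr ⟨(Finset.mem_filter.mp he1).1, he2⟩
    have hkids : (tcKids R s f).card ≤ R := by
      unfold tcKids
      exact Finset.card_image_le.trans (by simp)
    have hKz : (K.card : ℝ) * z ≤ R := by
      by_cases hp : tcPor Q R s m f
      · rw [hz, if_pos hp]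
        obtain ⟨e, he1, he2⟩ := hp
        have h3 : K ⊂ tcKids R s f := by
          refine Finset.ssubset_iff_of_subset (Finset.filter_subset _ _) |>.mpr
            ⟨e, tc_mem_kids (by omega) he1, ?_⟩
          intro he
          obtain ⟨y, hy1, hy2⟩ := (Finset.mem_filter.mp he).2
          exact he2 y hy1 hy2
        have h4 := Finset.card_lt_card h3
        have h5 : (K.card : ℝ) ≤ (R : ℝ) - 1 := by
          have : K.card + 1 ≤ R := by omega
          have h6 : (K.card : ℝ) + 1 ≤ (R : ℝ) := by exact_mod_cast this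
          linarith
        calc (K.card : ℝ) * w ≤ ((R : ℝ) - 1) * w := mul_le_mul_of_nonneg_right h5 hw0.le
          _ = R := by rw [hw]; field_simp
      · rw [hz, if_neg hp, mul_one]
        exact_mod_cast (Finset.card_le_card (Finset.filter_subset _ _)).trans hkids
    calc (∑ g ∈ K, ∑ e ∈ A.filter (fun e => tcAnc R s m e = g),
        w ^ ((range m).filter (fun k => tcPor Q R s k (tcAnc R s (k + 1) e))).card) * z
        ≤ (K.card * (R : ℝ) ^ m) * z := mul_le_mul_of_nonneg_right hsum hz0
      _ = (K.card * z) * (R : ℝ) ^ m := by ring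
      _ ≤ R * (R : ℝ) ^ m := mul_le_mul_of_nonneg_right hKz (by positivity)
      _ = (R : ℝ) ^ (m + 1) := by ring

open Classical in
/-- one dimensional tree count.  `P` is a finite set, `c k x` is the cell of `x` at level `k`
(`k = 0` finest), the cell at level `k+1` is `(c k x + s) / R` (integer division). A point is
`k`-porous if its cell at level `k+1` has a child that contains no point of `P`.
The number of level 0 cells of points with at least `q` porous levels is small. -/
theorem tree_count {X : Type*} (P : Finset X) (R M : ℕ) (hR : 2 ≤ R) (s : ℤ)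
    (c : ℕ → X → ℤ) (hc : ∀ k < M, ∀ x ∈ P, c (k + 1) x = (c k x + s) / (R : ℤ))
    (q : ℕ) (Top : Finset ℤ) (hTop : ∀ x ∈ P, c M x ∈ Top)
    (hq : ∀ x ∈ P, q ≤ ((range M).filter (fun k =>
      ∃ e : ℤ, (e + s) / (R : ℤ) = c (k + 1) x ∧ ∀ y ∈ P, c k y ≠ e)).card) :
    ((P.image (c 0)).card : ℝ) ≤ Top.card * (R : ℝ) ^ M * Real.exp (-(q : ℝ) / R) := by
  have hR1 : (0 : ℝ) < (R : ℝ) - 1 := by
    have : (2 : ℝ) ≤ (R : ℝ) := by exact_mod_cast hR
    linarith
  have hR0 : (0 : ℝ) < (R : ℝ) := by linarith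
  set w : ℝ := (R : ℝ) / ((R : ℝ) - 1) with hw
  have hw0 : 0 < w := div_pos hR0 hR1
  have hw1 : 1 ≤ w := by rw [hw, one_le_div hR1]; linarith
  set Q : Finset ℤ := P.image (c 0) with hQ
  have hanc : ∀ k ≤ M, ∀ x ∈ P, tcAnc R s k (c 0 x) = c k x := by
    intro k
    induction k with
    | zero => intro _ x _; rfl
    | succ k ih =>
      intro hk x hx
      rw [tcAnc, ih (by omega) x hx, hc k (by omega) x hx]
  -- each occupied cell has at least `q` porous levels
  have hcard : ∀ e ∈ Q, q ≤ ((range M).filter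
      (fun k => tcPor Q R s k (tcAnc R s (k + 1) e))).card := by
    intro e he
    obtain ⟨x, hx, rfl⟩ := Finset.mem_image.mp he
    refine (hq x hx).trans (Finset.card_le_card ?_)
    intro k hk
    obtain ⟨hk1, e', he1, he2⟩ := Finset.mem_filter.mp hk
    have hkM : k < M := Finset.mem_range.mp hk1
    refine Finset.mem_filter.mpr ⟨hk1, e', ?_, ?_⟩
    · rw [hanc (k + 1) (by omega) x hx]; exact he1
    · intro y hy
      obtain ⟨x', hx', rfl⟩ := Finset.mem_image.mp hy
      rw [hanc k hkM.le x' hx']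
      exact he2 x' hx'
  have hmap : ∀ e ∈ Q, tcAnc R s M e ∈ Top := by
    intro e he
    obtain ⟨x, hx, rfl⟩ := Finset.mem_image.mp he
    rw [hanc M le_rfl x hx]
    exact hTop x hx
  have htot : ∑ e ∈ Q, w ^ ((range M).filter
      (fun k => tcPor Q R s k (tcAnc R s (k + 1) e))).card ≤ Top.card * (R : ℝ) ^ M := by
    rw [← Finset.sum_fiberwise_of_maps_to hmap, ← nsmul_eq_mul, ← Finset.sum_const]
    exact Finset.sum_le_sum fun f _ => tc_aux Q R hR s M f
  have hlow : (Q.card : ℝ) * w ^ q ≤ ∑ e ∈ Q, w ^ ((range M).filter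
      (fun k => tcPor Q R s k (tcAnc R s (k + 1) e))).card := by
    rw [← nsmul_eq_mul, ← Finset.sum_const]
    exact Finset.sum_le_sum fun e he => pow_le_pow_right₀ hw1 (hcard e he)
  have hexp : w⁻¹ ^ q ≤ Real.exp (-(q : ℝ) / R) := by
    have h1 : w⁻¹ ≤ Real.exp (-1 / (R : ℝ)) := by
      have h2 := Real.add_one_le_exp (-1 / (R : ℝ))
      have h3 : w⁻¹ = -1 / (R : ℝ) + 1 := by rw [hw]; field_simp; ring
      rw [h3]; exact h2
    calc w⁻¹ ^ q ≤ Real.exp (-1 / (R : ℝ)) ^ q := pow_le_pow_left₀ (by positivity) h1 q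
      _ = Real.exp (-(q : ℝ) / R) := by
        rw [← Real.exp_nat_mul]; congr 1; ring
  have h7 : (Q.card : ℝ) * w ^ q ≤ Top.card * (R : ℝ) ^ M := hlow.trans htot
  calc (Q.card : ℝ) = (Q.card : ℝ) * w ^ q * w⁻¹ ^ q := by
        rw [mul_assoc, ← mul_pow, mul_inv_cancel₀ hw0.ne', one_pow, mul_one]
    _ ≤ Top.card * (R : ℝ) ^ M * w⁻¹ ^ q := mul_le_mul_of_nonneg_right h7 (by positivity)
    _ ≤ Top.card * (R : ℝ) ^ M * Real.exp (-(q : ℝ) / R) :=
        mul_le_mul_of_nonneg_left hexp (by positivity)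

end Pool.FPP
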