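import Pool.Agent.FPP.Defs

/-!
Module WLK: graph distance, walks, passage times.
rho is the l1 distance with ZMod.valMinAbs (ZMod.natAbs_valMinAbs_add_le is the triangle inequality).
Infimum attained: costs are a*i + b*j (i + j = length), only finitely many values below a bound.
-/

set_option autoImplicit false

noncomputable section

namespace Pool.FPP

open Finset

section

variable {N : ℕ} [NeZero N] {a b : ℝ}

/-! ### the graph distance -/

theorem rho_self (x : Vtx N) : rho x x = 0 := by
  simp [rho]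

theorem rho_comm (x y : Vtx N) : rho x y = rho y x := by
  unfold rho
  rw [← neg_sub y.1 x.1, ← neg_sub y.2 x.2, ZMod.natAbs_valMinAbs_neg, ZMod.natAbs_valMinAbs_neg]

theorem rho_triangle (x y z : Vtx N) : rho x z ≤ rho x y + rho y z := by
  have key : ∀ p q r : ZMod N, (ZMod.valMinAbs (p - r)).natAbs ≤
      (ZMod.valMinAbs (p - q)).natAbs + (ZMod.valMinAbs (q - r)).natAbs := by
    intro p q r
    have h1 : p - r = (p - q) + (q - r) := by ring
    rw [h1]
    exact (ZMod.natAbs_valMinAbs_add_le _ _).trans (Int.natAbs_add_le _ _)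
  have h1 := key x.1 y.1 z.1
  have h2 := key x.2 y.2 z.2
  unfold rho
  omega

theorem rho_add_right (x y z : Vtx N) : rho (x + z) (y + z) = rho x y := by
  unfold rho
  rw [Prod.fst_add, Prod.fst_add, Prod.snd_add, Prod.snd_add, add_sub_add_right_eq_sub,
    add_sub_add_right_eq_sub]

theorem natAbs_valMinAbs_neg_one : (ZMod.valMinAbs (-1 : ZMod N)).natAbs ≤ 1 := by
  have h := ZMod.natAbs_min_of_le_div_two N (ZMod.valMinAbs (-1 : ZMod N)) (-1)
    (by rw [ZMod.coe_valMinAbs]; simp) (ZMod.natAbs_valMinAbs_le _)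
  simpa using h

theorem rho_hd (e : Edge N) : rho e.1 (hd e) ≤ 1 := by
  have h := natAbs_valMinAbs_neg_one (N := N)
  unfold rho hd
  split_ifs
  · simpa using h
  · simpa using h

/-! ### walks -/

theorem Walk.cons_inv {x y : Vtx N} {e : Edge N} {l : List (Edge N)} (h : Walk x y (e :: l)) :
    (x = e.1 ∧ Walk (hd e) y l) ∨ (x = hd e ∧ Walk e.1 y l) := by
  cases h with
  | fwd _ _ _ h => exact Or.inl ⟨rfl, h⟩
  | bwd _ _ _ h => exact Or.inr ⟨rfl, h⟩

theorem Walk.nil_inv {x y : Vtx N} (h : Walk x y []) : x = y := by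
  cases h
  rfl

theorem Walk.append {x y z : Vtx N} {l l' : List (Edge N)} (h : Walk x y l) (h' : Walk y z l') :
    Walk x z (l ++ l') := by
  induction h with
  | nil x => exact h'
  | fwd e y l _ ih => exact Walk.fwd e _ _ (ih h')
  | bwd e y l _ ih => exact Walk.bwd e _ _ (ih h')

theorem Walk.reverse {x y : Vtx N} {l : List (Edge N)} (h : Walk x y l) :
    Walk y x l.reverse := by
  induction h with
  | nil x => exact Walk.nil x
  | fwd e y l _ ih =>
    rw [List.reverse_cons]
    exact ih.append (Walk.bwd e _ _ (Walk.nil _))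
  | bwd e y l _ ih =>
    rw [List.reverse_cons]
    exact ih.append (Walk.fwd e _ _ (Walk.nil _))

theorem Walk.split {x y : Vtx N} {l l' : List (Edge N)} (h : Walk x y (l ++ l')) :
    ∃ z, Walk x z l ∧ Walk z y l' := by
  induction l generalizing x with
  | nil => exact ⟨x, Walk.nil x, h⟩
  | cons e l ih =>
    rw [List.cons_append] at h
    rcases h.cons_inv with ⟨rfl, h1⟩ | ⟨rfl, h1⟩
    · obtain ⟨z, hz1, hz2⟩ := ih h1
      exact ⟨z, Walk.fwd e _ _ hz1, hz2⟩
    · obtain ⟨z, hz1, hz2⟩ := ih h1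
      exact ⟨z, Walk.bwd e _ _ hz1, hz2⟩

theorem hd_shift (e : Edge N) (z : Vtx N) : hd ((e.1 + z, e.2) : Edge N) = hd e + z := by
  unfold hd
  split_ifs with h
  · ext
    · simp
    · simp only [Prod.snd_add]
      ring
  · ext
    · simp only [Prod.fst_add]
      ring
    · simp

theorem Walk.shift {x y : Vtx N} {l : List (Edge N)} (h : Walk x y l) (z : Vtx N) :
    Walk (x + z) (y + z) (l.map (fun e => (e.1 + z, e.2))) := by
  induction h with
  | nil x => exact Walk.nil _
  | fwd e y l _ ih =>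
    rw [List.map_cons]
    rw [← hd_shift] at ih
    exact Walk.fwd (e.1 + z, e.2) _ _ ih
  | bwd e y l _ ih =>
    rw [List.map_cons, ← hd_shift]
    exact Walk.bwd (e.1 + z, e.2) _ _ ih

theorem walk_hor (k : ℕ) (x : Vtx N) : ∃ l : List (Edge N),
    Walk x (x.1 + (k : ZMod N), x.2) l ∧ l.length = k := by
  induction k generalizing x with
  | zero =>
    refine ⟨[], ?_, rfl⟩
    have : ((x.1 + ((0 : ℕ) : ZMod N), x.2) : Vtx N) = x := by
      ext <;> simp
    rw [this]
    exact Walk.nil x
  | succ k ih =>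
    obtain ⟨l, hl, hlen⟩ := ih (x.1 + 1, x.2)
    refine ⟨(x, false) :: l, ?_, by simp [hlen]⟩
    have h1 : hd ((x, false) : Edge N) = (x.1 + 1, x.2) := by simp [hd]
    have h2 : ((x.1 + ((k + 1 : ℕ) : ZMod N), x.2) : Vtx N) = (x.1 + 1 + (k : ZMod N), x.2) := by
      ext
      · push_cast
        ring
      · rfl
    rw [h2]
    apply Walk.fwd (x, false)
    rw [h1]
    exact hl

theorem walk_ver (k : ℕ) (x : Vtx N) : ∃ l : List (Edge N),
    Walk x (x.1, x.2 + (k : ZMod N)) l ∧ l.length = k := by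
  induction k generalizing x with
  | zero =>
    refine ⟨[], ?_, rfl⟩
    have : ((x.1, x.2 + ((0 : ℕ) : ZMod N)) : Vtx N) = x := by
      ext <;> simp
    rw [this]
    exact Walk.nil x
  | succ k ih =>
    obtain ⟨l, hl, hlen⟩ := ih (x.1, x.2 + 1)
    refine ⟨(x, true) :: l, ?_, by simp [hlen]⟩
    have h1 : hd ((x, true) : Edge N) = (x.1, x.2 + 1) := by simp [hd]
    have h2 : ((x.1, x.2 + ((k + 1 : ℕ) : ZMod N)) : Vtx N) = (x.1, x.2 + 1 + (k : ZMod N)) := by
      ext
      · rfl
      · push_cast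
        ring
    rw [h2]
    apply Walk.fwd (x, true)
    rw [h1]
    exact hl

theorem valMinAbs_cases (p q : ZMod N) :
    q = p + ((ZMod.valMinAbs (p - q)).natAbs : ZMod N) ∨
      p = q + ((ZMod.valMinAbs (p - q)).natAbs : ZMod N) := by
  have h0 : ((ZMod.valMinAbs (p - q) : ℤ) : ZMod N) = p - q := ZMod.coe_valMinAbs _
  rcases Int.natAbs_eq (ZMod.valMinAbs (p - q)) with h | h
  · right
    have : ((ZMod.valMinAbs (p - q)).natAbs : ZMod N) = p - q := by
      rw [← h0]
      conv_rhs => rw [h]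
      simp
    rw [this]
    ring
  · left
    have : ((ZMod.valMinAbs (p - q)).natAbs : ZMod N) = -(p - q) := by
      rw [← h0]
      conv_rhs => rw [h]
      simp
    rw [this]
    ring

/-- there is a walk of length `rho x y` -/
theorem exists_walk_rho (x y : Vtx N) : ∃ l : List (Edge N), Walk x y l ∧ l.length = rho x y := by
  have h1 : ∃ l : List (Edge N), Walk x (y.1, x.2) l ∧
      l.length = (ZMod.valMinAbs (x.1 - y.1)).natAbs := by
    rcases valMinAbs_cases x.1 y.1 with h | h
    · obtain ⟨l, hl, hlen⟩ := walk_hor (ZMod.valMinAbs (x.1 - y.1)).natAbs x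
      rw [← h] at hl
      exact ⟨l, hl, hlen⟩
    · obtain ⟨l, hl, hlen⟩ := walk_hor (ZMod.valMinAbs (x.1 - y.1)).natAbs (y.1, x.2)
      simp only at hl
      rw [← h] at hl
      exact ⟨l.reverse, hl.reverse, by rw [List.length_reverse, hlen]⟩
  have h2 : ∃ l : List (Edge N), Walk (y.1, x.2) y l ∧
      l.length = (ZMod.valMinAbs (x.2 - y.2)).natAbs := by
    rcases valMinAbs_cases x.2 y.2 with h | h
    · obtain ⟨l, hl, hlen⟩ := walk_ver (ZMod.valMinAbs (x.2 - y.2)).natAbs (y.1, x.2)
      simp only at hl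
      rw [← h] at hl
      exact ⟨l, hl, hlen⟩
    · obtain ⟨l, hl, hlen⟩ := walk_ver (ZMod.valMinAbs (x.2 - y.2)).natAbs y
      rw [← h] at hl
      exact ⟨l.reverse, hl.reverse, by rw [List.length_reverse, hlen]⟩
  obtain ⟨l, hl, hlen⟩ := h1
  obtain ⟨l', hl', hlen'⟩ := h2
  exact ⟨l ++ l', hl.append hl', by rw [List.length_append, hlen, hlen']; rfl⟩

theorem Walk.rho_le {x y : Vtx N} {l : List (Edge N)} (h : Walk x y l) : rho x y ≤ l.length := by
  induction h with
  | nil x => rw [rho_self]; exact Nat.zero_le _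
  | fwd e y l _ ih =>
    rw [List.length_cons]
    have := rho_triangle e.1 (hd e) y
    have := rho_hd e
    omega
  | bwd e y l _ ih =>
    rw [List.length_cons]
    have := rho_triangle (hd e) e.1 y
    have := rho_hd e
    rw [rho_comm (hd e) e.1] at *
    omega

/-! ### passage times -/

omit [NeZero N] in
theorem wt_bounds (ha : 0 < a) (hab : a < b) (ω : Edge N → Bool) (e : Edge N) :
    a ≤ wt a b ω e ∧ wt a b ω e ≤ b := by
  unfold wt
  split_ifs
  · exact ⟨le_refl _, hab.le⟩
  · exact ⟨hab.le, le_refl _⟩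

omit [NeZero N] in
theorem cost_nil (ω : Edge N → Bool) : cost a b ω [] = 0 := by simp [cost]

omit [NeZero N] in
theorem cost_cons (ω : Edge N → Bool) (e : Edge N) (l : List (Edge N)) :
    cost a b ω (e :: l) = wt a b ω e + cost a b ω l := by simp [cost]

omit [NeZero N] in
theorem cost_append (ω : Edge N → Bool) (l l' : List (Edge N)) :
    cost a b ω (l ++ l') = cost a b ω l + cost a b ω l' := by simp [cost]

omit [NeZero N] in
theorem cost_reverse (ω : Edge N → Bool) (l : List (Edge N)) :
    cost a b ω l.reverse = cost a b ω l := by simp [cost, List.map_reverse, List.sum_reverse]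

omit [NeZero N] in
theorem cost_ge (ha : 0 < a) (hab : a < b) (ω : Edge N → Bool) (l : List (Edge N)) :
    a * l.length ≤ cost a b ω l := by
  induction l with
  | nil => simp [cost_nil]
  | cons e l ih =>
    rw [cost_cons, List.length_cons]
    have := (wt_bounds ha hab ω e).1
    push_cast
    linarith

omit [NeZero N] in
theorem cost_le (ha : 0 < a) (hab : a < b) (ω : Edge N → Bool) (l : List (Edge N)) :
    cost a b ω l ≤ b * l.length := by
  induction l with
  | nil => simp [cost_nil]
  | cons e l ih =>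
    rw [cost_cons, List.length_cons]
    have := (wt_bounds ha hab ω e).2
    push_cast
    linarith

omit [NeZero N] in
theorem cost_nonneg (ha : 0 < a) (hab : a < b) (ω : Edge N → Bool) (l : List (Edge N)) :
    0 ≤ cost a b ω l :=
  le_trans (by positivity) (cost_ge ha hab ω l)

omit [NeZero N] in
theorem cost_shift (ω : Edge N → Bool) (l : List (Edge N)) (z : Vtx N) :
    cost a b ω (l.map (fun e => (e.1 + z, e.2))) = cost a b (tau z ω) l := by
  unfold cost
  rw [List.map_map]
  rfl

theorem dst_le_cost (ha : 0 < a) (hab : a < b) {ω : Edge N → Bool} {x y : Vtx N}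
    {l : List (Edge N)} (h : Walk x y l) : dst a b ω x y ≤ cost a b ω l := by
  apply csInf_le
  · refine ⟨0, ?_⟩
    rintro t ⟨l', _, rfl⟩
    exact cost_nonneg ha hab ω l'
  · exact ⟨l, h, rfl⟩

theorem exists_geod (ha : 0 < a) (hab : a < b) (ω : Edge N → Bool) (x y : Vtx N) :
    ∃ l : List (Edge N), Walk x y l ∧ cost a b ω l = dst a b ω x y := by
  obtain ⟨l0, hl0, hlen0⟩ := exists_walk_rho x y
  obtain ⟨m, hm⟩ := exists_nat_ge (cost a b ω l0 / a)
  have hm' : cost a b ω l0 ≤ a * m := by
    rw [div_le_iff₀ ha] at hm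
    linarith
  let S : Set (List (Edge N)) := {l | Walk x y l ∧ l.length ≤ m + l0.length}
  have hfin : S.Finite := (List.finite_length_le (Edge N) (m + l0.length)).subset fun l hl => hl.2
  have hne : S.Nonempty := ⟨l0, hl0, by omega⟩
  obtain ⟨l, hl, hmin⟩ := Set.exists_min_image S (cost a b ω) hfin hne
  refine ⟨l, hl.1, le_antisymm ?_ (dst_le_cost ha hab hl.1)⟩
  apply le_csInf
  · exact ⟨cost a b ω l, l, hl.1, rfl⟩
  · rintro t ⟨l', hl', rfl⟩
    by_cases hlen : l'.length ≤ m + l0.length
    · exact hmin l' ⟨hl', hlen⟩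
    · push Not at hlen
      have h1 : cost a b ω l ≤ cost a b ω l0 := hmin l0 ⟨hl0, by omega⟩
      have h2 : a * (m : ℝ) ≤ a * l'.length := by
        have : (m : ℝ) ≤ l'.length := by
          have : m ≤ l'.length := by omega
          exact_mod_cast this
        gcongr
      exact (h1.trans hm').trans (h2.trans (cost_ge ha hab ω l'))

theorem dst_nonneg (ha : 0 < a) (hab : a < b) (ω : Edge N → Bool) (x y : Vtx N) :
    0 ≤ dst a b ω x y := by
  obtain ⟨l, _, hl⟩ := exists_geod ha hab ω x y
  rw [← hl]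
  exact cost_nonneg ha hab ω l

theorem dst_self (ha : 0 < a) (hab : a < b) (ω : Edge N → Bool) (x : Vtx N) :
    dst a b ω x x = 0 := by
  apply le_antisymm _ (dst_nonneg ha hab ω x x)
  have := dst_le_cost ha hab (ω := ω) (Walk.nil x)
  rwa [cost_nil] at this

theorem dst_comm_le (ha : 0 < a) (hab : a < b) (ω : Edge N → Bool) (x y : Vtx N) :
    dst a b ω x y ≤ dst a b ω y x := by
  obtain ⟨l, hw, hl⟩ := exists_geod ha hab ω y x
  rw [← hl, ← cost_reverse]
  exact dst_le_cost ha hab hw.reverse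

theorem dst_comm (ha : 0 < a) (hab : a < b) (ω : Edge N → Bool) (x y : Vtx N) :
    dst a b ω x y = dst a b ω y x :=
  le_antisymm (dst_comm_le ha hab ω x y) (dst_comm_le ha hab ω y x)

theorem dst_triangle (ha : 0 < a) (hab : a < b) (ω : Edge N → Bool) (x y z : Vtx N) :
    dst a b ω x z ≤ dst a b ω x y + dst a b ω y z := by
  obtain ⟨l, hw, hl⟩ := exists_geod ha hab ω x y
  obtain ⟨l', hw', hl'⟩ := exists_geod ha hab ω y z
  rw [← hl, ← hl', ← cost_append]
  exact dst_le_cost ha hab (hw.append hw')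

theorem dst_le_rho (ha : 0 < a) (hab : a < b) (ω : Edge N → Bool) (x y : Vtx N) :
    dst a b ω x y ≤ b * rho x y := by
  obtain ⟨l, hw, hl⟩ := exists_walk_rho x y
  rw [← hl]
  exact (dst_le_cost ha hab hw).trans (cost_le ha hab ω l)

theorem rho_le_dst (ha : 0 < a) (hab : a < b) (ω : Edge N → Bool) (x y : Vtx N) :
    a * rho x y ≤ dst a b ω x y := by
  obtain ⟨l, hw, hl⟩ := exists_geod ha hab ω x y
  rw [← hl]
  refine le_trans ?_ (cost_ge ha hab ω l)
  have : (rho x y : ℝ) ≤ l.length := by exact_mod_cast hw.rho_le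
  gcongr

theorem dst_tau (ω : Edge N → Bool) (x y z : Vtx N) :
    dst a b (tau z ω) x y = dst a b ω (x + z) (y + z) := by
  unfold dst
  congr 1
  ext t
  constructor
  · rintro ⟨l, hl, rfl⟩
    exact ⟨_, hl.shift z, (cost_shift ω l z).symm⟩
  · rintro ⟨l, hl, rfl⟩
    have h1 := hl.shift (-z)
    rw [add_neg_cancel_right, add_neg_cancel_right] at h1
    refine ⟨_, h1, ?_⟩
    rw [cost_shift]
    congr 1
    funext e
    simp [tau]

end

end Pool.FPP
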